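import Pool.Agent.Lib.QG753.ConvSys

/-!
# MP_753acd_an: exponentials of generators are admissible

PROOF. (1) `Adm` is closed: if `X n → X` in norm, then `‖X‖ ≤ 1`, commutation passes to the limit,
and `f ∘ X n → f ∘ X` in norm for a state `f`, so `‖f ∘ X‖ = 1` and `limit_St` applies.
(2) `Adm` is convex (real convex combinations; `convex_St`).
(3) For `P` admissible and `q ≥ 0`, `exp (q (P - 1)) = e^{-q} Σ q^k P^k / k!`; the partial sums
divided by `Σ_{k<N} q^k/k!` are convex combinations of powers of `P` (admissible by `mul_mem_Adm`),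
and converge in norm to the exponential; use (1), (2).
(4) `ev`: write `t • gen α ν k n = q • (P - 1)` with `q = t (n + Σ_{i<k} 2^{-(i+1)})` and `P` the
convex combination of the `T (ν m)`, `T (α i)` with these weights (`q = 0` is trivial), or
alternatively: the elements `X` of the form `q • (P - 1)`, `q ≥ 0`, `P ∈ Adm`, are closed under
addition.
-/

open Filter Topology

noncomputable section

namespace QG753

namespace ConvSys

variable {A : Type} [NormedAddCommGroup A] [NormedSpace ℂ A] [CompleteSpace A] (Q : ConvSys A)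

omit [CompleteSpace A] in
theorem isClosed_Adm : IsClosed Q.Adm := by
  apply IsSeqClosed.isClosed
  intro X Y hX hXY
  refine ⟨?_, ?_, ?_⟩
  · exact le_of_tendsto' hXY.norm fun n => (hX n).1
  · intro f hf
    have h1 : Tendsto (fun n => (X n).comp (Q.S f)) atTop (𝓝 (Y.comp (Q.S f))) :=
      ((continuous_id.clm_comp continuous_const).tendsto Y).comp hXY
    have h2 : Tendsto (fun n => (Q.S f).comp (X n)) atTop (𝓝 ((Q.S f).comp Y)) :=
      ((continuous_const.clm_comp continuous_id).tendsto Y).comp hXY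
    exact tendsto_nhds_unique h1 (h2.congr fun n => ((hX n).2.1 f hf).symm)
  · intro f hf
    have h2 : Tendsto (fun n => f.comp (X n)) atTop (𝓝 (f.comp Y)) :=
      ((continuous_const.clm_comp continuous_id).tendsto Y).comp hXY
    refine Q.limit_St (fun n => f.comp (X n)) _ (fun n => (hX n).2.2 f hf) (fun a => ?_) ?_
    · exact ((ContinuousLinearMap.apply ℂ ℂ a).continuous.tendsto (f.comp Y)).comp h2
    · refine tendsto_nhds_unique h2.norm ?_
      exact tendsto_const_nhds.congr fun n => (Q.norm_eq _ ((hX n).2.2 f hf)).symm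

omit [CompleteSpace A] in
theorem convex_Adm : Convex ℝ Q.Adm := by
  intro X hX Y hY a b ha hb hab
  refine ⟨?_, ?_, ?_⟩
  · refine (norm_add_le _ _).trans ?_
    rw [norm_smul, norm_smul, Real.norm_of_nonneg ha, Real.norm_of_nonneg hb]
    have h1 := mul_le_mul_of_nonneg_left hX.1 ha
    have h2 := mul_le_mul_of_nonneg_left hY.1 hb
    linarith
  · intro f hf
    have h1 := hX.2.1 f hf
    have h2 := hY.2.1 f hf
    ext v
    have h3 : X (Q.S f v) = Q.S f (X v) := DFunLike.congr_fun h1 v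
    have h4 : Y (Q.S f v) = Q.S f (Y v) := DFunLike.congr_fun h2 v
    change a • X (Q.S f v) + b • Y (Q.S f v) = Q.S f (a • X v + b • Y v)
    rw [map_add, ContinuousLinearMap.map_smul_of_tower, ContinuousLinearMap.map_smul_of_tower,
      h3, h4]
  · intro f hf
    have h := Q.convex_St (hX.2.2 f hf) (hY.2.2 f hf) ha hb hab
    have e : f.comp (a • X + b • Y) = a • f.comp X + b • f.comp Y := by
      ext v
      change f (a • X v + b • Y v) = a • f (X v) + b • f (Y v)
      rw [map_add, ContinuousLinearMap.map_smul_of_tower, ContinuousLinearMap.map_smul_of_tower]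
    rw [e]
    exact h

omit [CompleteSpace A] in
private theorem pow_mem_Adm {P : A →L[ℂ] A} (hP : P ∈ Q.Adm) (k : ℕ) : P ^ k ∈ Q.Adm := by
  induction k with
  | zero => rw [pow_zero]; exact Q.one_mem_Adm
  | succ k ih => rw [pow_succ]; exact Q.mul_mem_Adm ih hP

theorem exp_mem_Adm {P : A →L[ℂ] A} (hP : P ∈ Q.Adm) {q : ℝ} (hq : 0 ≤ q) :
    NormedSpace.exp (q • (P - 1)) ∈ Q.Adm := by
  -- the weights
  have hw0 : ∀ k : ℕ, 0 ≤ ((k.factorial : ℝ))⁻¹ * q ^ k := fun k => by positivity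
  have hsumR : HasSum (fun k : ℕ => ((k.factorial : ℝ))⁻¹ * q ^ k) (Real.exp q) := by
    have h := NormedSpace.exp_series_hasSum_exp' (𝕂 := ℝ) q
    rw [← Real.exp_eq_exp_ℝ] at h
    exact h
  have hsumP : HasSum (fun k : ℕ => (((k.factorial : ℝ))⁻¹ * q ^ k) • P ^ k)
      (NormedSpace.exp (q • P)) := by
    have h := NormedSpace.exp_series_hasSum_exp' (𝕂 := ℝ) (q • P)
    have e : (fun k : ℕ => ((k.factorial : ℝ))⁻¹ • (q • P) ^ k) =
        fun k : ℕ => (((k.factorial : ℝ))⁻¹ * q ^ k) • P ^ k := by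
      funext k
      rw [smul_pow, smul_smul]
    rw [e] at h
    exact h
  have hc : Tendsto (fun N => ∑ k ∈ Finset.range N, ((k.factorial : ℝ))⁻¹ * q ^ k) atTop
      (𝓝 (Real.exp q)) := hsumR.tendsto_sum_nat
  have hS : Tendsto (fun N => ∑ k ∈ Finset.range N, (((k.factorial : ℝ))⁻¹ * q ^ k) • P ^ k) atTop
      (𝓝 (NormedSpace.exp (q • P))) := hsumP.tendsto_sum_nat
  have hmem : Real.exp (-q) • NormedSpace.exp (q • P) ∈ Q.Adm := by
    rw [Real.exp_neg]
    refine Q.isClosed_Adm.mem_of_tendsto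
      ((hc.inv₀ (Real.exp_pos q).ne').smul hS) ?_
    filter_upwards [eventually_ge_atTop 1] with N hN
    have hpos : 0 < ∑ k ∈ Finset.range N, ((k.factorial : ℝ))⁻¹ * q ^ k := by
      refine Finset.sum_pos' (fun k _ => hw0 k) ⟨0, Finset.mem_range.2 hN, ?_⟩
      simp
    rw [Finset.smul_sum]
    simp only [smul_smul]
    refine Q.convex_Adm.sum_mem (fun k _ => mul_nonneg (inv_nonneg.2 hpos.le) (hw0 k)) ?_
      fun k _ => Q.pow_mem_Adm hP k
    rw [← Finset.mul_sum]
    exact inv_mul_cancel₀ hpos.ne'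
  have e1 : q • (P - 1) = q • P + algebraMap ℝ (A →L[ℂ] A) (-q) := by
    rw [smul_sub, Algebra.algebraMap_eq_smul_one, neg_smul, sub_eq_add_neg]
  have e2 : NormedSpace.exp (algebraMap ℝ (A →L[ℂ] A) (-q)) =
      algebraMap ℝ (A →L[ℂ] A) (Real.exp (-q)) := by
    rw [Real.exp_eq_exp_ℝ]
    exact (NormedSpace.algebraMap_exp_comm (𝔸 := A →L[ℂ] A) (-q)).symm
  let _ : NormedAlgebra ℚ (A →L[ℂ] A) := NormedAlgebra.restrictScalars ℚ ℝ (A →L[ℂ] A)
  rw [e1, NormedSpace.exp_add_of_commute (Algebra.commutes' (-q) (q • P)).symm, e2,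
    ← Algebra.commutes, ← Algebra.smul_def]
  exact hmem

/-- elements `q (P - 1)` -/
private def Gn (X : A →L[ℂ] A) : Prop := ∃ q : ℝ, 0 ≤ q ∧ ∃ P ∈ Q.Adm, X = q • (P - 1)

omit [CompleteSpace A] in
private theorem Gn_zero : Q.Gn 0 := ⟨0, le_rfl, 1, Q.one_mem_Adm, by rw [zero_smul]⟩

omit [CompleteSpace A] in
private theorem Gn_smul {X : A →L[ℂ] A} (hX : Q.Gn X) {t : ℝ} (ht : 0 ≤ t) : Q.Gn (t • X) := by
  obtain ⟨q, hq, P, hP, rfl⟩ := hX
  exact ⟨t * q, mul_nonneg ht hq, P, hP, by rw [smul_smul]⟩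

omit [CompleteSpace A] in
private theorem Gn_add {X Y : A →L[ℂ] A} (hX : Q.Gn X) (hY : Q.Gn Y) : Q.Gn (X + Y) := by
  obtain ⟨q, hq, P, hP, rfl⟩ := hX
  obtain ⟨r, hr, R, hR, rfl⟩ := hY
  rcases (add_nonneg hq hr).eq_or_lt with h | h
  · have hq0 : q = 0 := by linarith
    have hr0 : r = 0 := by linarith
    rw [hq0, hr0, zero_smul, zero_smul, add_zero]
    exact Q.Gn_zero
  · refine ⟨q + r, h.le, (q / (q + r)) • P + (r / (q + r)) • R,
      Q.convex_Adm hP hR (div_nonneg hq h.le) (div_nonneg hr h.le) ?_, ?_⟩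
    · rw [← add_div, div_self h.ne']
    · have e : (q + r) • ((q / (q + r)) • P + (r / (q + r)) • R - 1) =
          q • P + r • R - (q + r) • (1 : A →L[ℂ] A) := by
        rw [smul_sub, smul_add, smul_smul, smul_smul, mul_div_cancel₀ _ h.ne',
          mul_div_cancel₀ _ h.ne']
      rw [e, add_smul, smul_sub, smul_sub]
      abel

omit [CompleteSpace A] in
private theorem Gn_sum (s : Finset ℕ) (f : ℕ → (A →L[ℂ] A)) (h : ∀ i ∈ s, Q.Gn (f i)) :
    Q.Gn (∑ i ∈ s, f i) := by
  classical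
  induction s using Finset.induction_on with
  | empty => rw [Finset.sum_empty]; exact Q.Gn_zero
  | insert a s ha ih =>
    rw [Finset.sum_insert ha]
    exact Q.Gn_add (h a (Finset.mem_insert_self _ _))
      (ih fun i hi => h i (Finset.mem_insert_of_mem hi))

omit [CompleteSpace A] in
private theorem Gn_T {f : A →L[ℂ] ℂ} (hf : f ∈ Q.St) : Q.Gn (Q.T f - 1) :=
  ⟨1, zero_le_one, Q.T f, Q.T_mem_Adm hf, by rw [one_smul]⟩

theorem ev_mem_Adm {α ν : ℕ → (A →L[ℂ] ℂ)} {k n : ℕ} (hα : ∀ i < k, α i ∈ Q.St)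
    (hν : ∀ m < n, ν m ∈ Q.St) {t : ℝ} (ht : 0 ≤ t) : Q.ev α ν k n t ∈ Q.Adm := by
  have h : Q.Gn (t • Q.gen α ν k n) := by
    refine Q.Gn_smul (Q.Gn_add ?_ ?_) ht
    · exact Q.Gn_sum _ _ fun m hm => Q.Gn_T (hν m (Finset.mem_range.1 hm))
    · exact Q.Gn_sum _ _ fun i hi => Q.Gn_smul (Q.Gn_T (hα i (Finset.mem_range.1 hi)))
        (by positivity)
  obtain ⟨q, hq, P, hP, e⟩ := h
  unfold ev
  rw [e]
  exact Q.exp_mem_Adm hP hq

end ConvSys

end QG753
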