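import Pool.Agent.Lib.QG753.Fell

/-!
# MP_753acd_an: the space `L¹(G)` inside the dual of `A`

PROOFS. `amplF_mem_L1`: the map `(z, w) ↦ amplF C z w` is sesquilinear with
`‖amplF C z w‖ ≤ ‖z‖ ‖w‖`, and `amplF C (tp ξ k) (tp η l) = ⟪l, k⟫ • vecF (reduce C) ξ η`; elementary
tensors span a dense subspace and `L1 C` is a closed subspace.

`L1_comp`: `{f | f.comp S ∈ L1 C}` is a closed subspace, so (`L1_eq`) it is enough to take
`f = vecF (reduce C) ξ η`; by `fell` (after `inner_slice`, `inner_coefOp`)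
`f.comp S = amplF C (U* (ξ ⊗ k)) (U* (η ⊗ k'))`.

`norm_vec_comp_sub`: `f.comp S = amplF C z z` with `z = U* (ξ ⊗ k)`, `f = amplF C w w` with
`w = ξ ⊗ k`, `‖z‖ = ‖w‖ = ‖ξ‖`, and `‖z - w‖ = ‖w - U w‖`.
-/

open scoped TensorProduct ComplexOrder InnerProductSpace
open ContinuousLinearMap Filter Topology

noncomputable section

namespace QG753

variable {H : Type} [NormedAddCommGroup H] [InnerProductSpace ℂ H] [CompleteSpace H]
  {W : MultUnitary H} {A : Type} [NonUnitalCStarAlgebra A]
  {K : Type} [NormedAddCommGroup K] [InnerProductSpace ℂ K] [CompleteSpace K]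

/-- The functional `a ↦ ⟪w, (Λ(a) ⊗ 1) z⟫`. -/
def amplF (C : UniversalAlgebra W A) (z w : HT H K) : A →L[ℂ] ℂ :=
  LinearMap.mkContinuous
    { toFun := fun a => ⟪w, opT (reduce C a) 1 z⟫_ℂ
      map_add' := fun a b => by
        rw [map_add, opT_add_left, ContinuousLinearMap.add_apply, inner_add_right]
      map_smul' := fun c a => by
        rw [map_smul, opT_smul_left, ContinuousLinearMap.smul_apply, inner_smul_right]
        rfl } (‖z‖ * ‖w‖) (by
      intro a
      simp only [LinearMap.coe_mk, AddHom.coe_mk]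
      calc ‖⟪w, opT (reduce C a) (1 : K →L[ℂ] K) z⟫_ℂ‖
          ≤ ‖w‖ * ‖opT (reduce C a) (1 : K →L[ℂ] K) z‖ := norm_inner_le_norm _ _
        _ ≤ ‖w‖ * (‖a‖ * ‖z‖) := by
          gcongr
          refine ((opT (reduce C a) (1 : K →L[ℂ] K)).le_opNorm z).trans
            (mul_le_mul_of_nonneg_right ?_ (norm_nonneg _))
          refine (norm_opT_le _ _).trans ?_
          calc ‖reduce C a‖ * ‖(1 : K →L[ℂ] K)‖ ≤ ‖a‖ * 1 :=
                mul_le_mul (NonUnitalStarAlgHom.norm_apply_le _ a)
                  ContinuousLinearMap.norm_id_le (norm_nonneg _) (norm_nonneg _)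
            _ = ‖a‖ := mul_one _
        _ = ‖z‖ * ‖w‖ * ‖a‖ := by ring)

@[simp] theorem amplF_apply (C : UniversalAlgebra W A) (z w : HT H K) (a : A) :
    amplF C z w a = ⟪w, opT (reduce C a) 1 z⟫_ℂ := rfl

theorem norm_amplF_le (C : UniversalAlgebra W A) (z w : HT H K) :
    ‖amplF C z w‖ ≤ ‖z‖ * ‖w‖ := LinearMap.mkContinuous_norm_le _ (by positivity) _

theorem amplF_tp (C : UniversalAlgebra W A) (ξ η : H) (k l : K) :
    amplF C (tp ξ k) (tp η l) = ⟪l, k⟫_ℂ • vecF (reduce C) ξ η := by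
  ext a
  rw [amplF_apply, opT_tp, inner_tp, ContinuousLinearMap.smul_apply, vecF_apply, smul_eq_mul,
    mul_comm]
  rfl

theorem vecF_mem_L1 (C : UniversalAlgebra W A) (ξ η : H) : vecF (reduce C) ξ η ∈ L1 C := by
  rw [L1_eq]
  exact Submodule.le_topologicalClosure _ (Submodule.subset_span ⟨(ξ, η), rfl⟩)

private theorem l1f_add_left (C : UniversalAlgebra W A) (z z' w : HT H K) :
    amplF C (z + z') w = amplF C z w + amplF C z' w := by
  ext a
  rw [amplF_apply, map_add, inner_add_right]; rfl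

private theorem l1f_smul_left (C : UniversalAlgebra W A) (c : ℂ) (z w : HT H K) :
    amplF C (c • z) w = c • amplF C z w := by
  ext a
  rw [amplF_apply, map_smul, inner_smul_right]; rfl

private theorem l1f_sub_left (C : UniversalAlgebra W A) (z z' w : HT H K) :
    amplF C (z - z') w = amplF C z w - amplF C z' w := by
  ext a
  rw [amplF_apply, map_sub, inner_sub_right]; rfl

private theorem l1f_zero_left (C : UniversalAlgebra W A) (w : HT H K) :
    amplF C 0 w = 0 := by
  ext a
  rw [amplF_apply, map_zero, inner_zero_right]; rfl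

private theorem l1f_add_right (C : UniversalAlgebra W A) (z w w' : HT H K) :
    amplF C z (w + w') = amplF C z w + amplF C z w' := by
  ext a
  rw [amplF_apply, inner_add_left]; rfl

private theorem l1f_smul_right (C : UniversalAlgebra W A) (c : ℂ) (z w : HT H K) :
    amplF C z (c • w) = (starRingEnd ℂ c) • amplF C z w := by
  ext a
  rw [amplF_apply, inner_smul_left]; rfl

private theorem l1f_sub_right (C : UniversalAlgebra W A) (z w w' : HT H K) :
    amplF C z (w - w') = amplF C z w - amplF C z w' := by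
  ext a
  rw [amplF_apply, inner_sub_left]; rfl

private theorem l1f_zero_right (C : UniversalAlgebra W A) (z : HT H K) :
    amplF C z 0 = 0 := by
  ext a
  rw [amplF_apply, inner_zero_left]; rfl

private theorem l1f_cont_left (C : UniversalAlgebra W A) (w : HT H K) :
    Continuous fun z => amplF C z w := by
  refine (LipschitzWith.of_dist_le_mul (K := ‖w‖₊) ?_).continuous
  intro z z'
  rw [dist_eq_norm, ← l1f_sub_left, dist_eq_norm, mul_comm]
  exact norm_amplF_le C _ _

private theorem l1f_cont_right (C : UniversalAlgebra W A) (z : HT H K) :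
    Continuous fun w => amplF C z w := by
  refine (LipschitzWith.of_dist_le_mul (K := ‖z‖₊) ?_).continuous
  intro w w'
  rw [dist_eq_norm, ← l1f_sub_right, dist_eq_norm]
  exact norm_amplF_le C _ _

private theorem l1f_closed (C : UniversalAlgebra W A) : IsClosed (L1 C : Set (A →L[ℂ] ℂ)) :=
  Submodule.isClosed_topologicalClosure _

theorem amplF_mem_L1 (C : UniversalAlgebra W A) (z w : HT H K) : amplF C z w ∈ L1 C := by
  have h1 : ∀ (η : H) (l : K) (z : HT H K), amplF C z (tp η l) ∈ L1 C := by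
    intro η l z
    have hz : z ∈ closure (Submodule.span ℂ (Set.range fun p : H × K => tp p.1 p.2) :
        Set (HT H K)) := by rw [span_tp_dense.closure_eq]; trivial
    have hcl : IsClosed {z : HT H K | amplF C z (tp η l) ∈ L1 C} :=
      (l1f_closed C).preimage (l1f_cont_left C (tp η l))
    refine closure_minimal ?_ hcl hz
    intro z hz
    change amplF C z (tp η l) ∈ L1 C
    induction hz using Submodule.span_induction with
    | mem x hx =>
      obtain ⟨p, rfl⟩ := hx
      simp only [amplF_tp]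
      exact Submodule.smul_mem _ _ (vecF_mem_L1 C _ _)
    | zero => rw [l1f_zero_left]; exact Submodule.zero_mem _
    | add x y _ _ hx hy => rw [l1f_add_left]; exact Submodule.add_mem _ hx hy
    | smul c x _ hx => rw [l1f_smul_left]; exact Submodule.smul_mem _ _ hx
  have hw : w ∈ closure (Submodule.span ℂ (Set.range fun p : H × K => tp p.1 p.2) :
      Set (HT H K)) := by rw [span_tp_dense.closure_eq]; trivial
  have hcl : IsClosed {w : HT H K | amplF C z w ∈ L1 C} :=
    (l1f_closed C).preimage (l1f_cont_right C z)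
  refine closure_minimal ?_ hcl hw
  intro w hw
  change amplF C z w ∈ L1 C
  induction hw using Submodule.span_induction with
  | mem x hx =>
    obtain ⟨p, rfl⟩ := hx
    exact h1 _ _ _
  | zero => rw [l1f_zero_right]; exact Submodule.zero_mem _
  | add x y _ _ hx hy => rw [l1f_add_right]; exact Submodule.add_mem _ hx hy
  | smul c x _ hx => rw [l1f_smul_right]; exact Submodule.smul_mem _ _ hx

private theorem l1f_vec_comp (C : UniversalAlgebra W A) (U : URep W K) (k k' : K)
    {S : A →L[ℂ] A} (hS : ∀ α β, S (C.x α β) = C.x (coefOp U.U k k' α) β) (ξ η : H) :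
    (vecF (reduce C) ξ η).comp S =
      amplF C (star U.U (tp ξ k)) (star U.U (tp η k')) := by
  apply clm_ext_x C
  intro α β
  rw [ContinuousLinearMap.comp_apply, hS, vecF_apply, reduce_x, inner_slice, ← inner_coefOp,
    amplF_apply, reduce_x, ← fell]
  rfl

theorem L1_comp (C : UniversalAlgebra W A) {f : A →L[ℂ] ℂ} (hf : f ∈ L1 C) (U : URep W K)
    (k k' : K) {S : A →L[ℂ] A} (hS : ∀ α β, S (C.x α β) = C.x (coefOp U.U k k' α) β) :
    f.comp S ∈ L1 C := by
  have hc : Continuous fun f : A →L[ℂ] ℂ => f.comp S := by fun_prop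
  have hcl : IsClosed {f : A →L[ℂ] ℂ | f.comp S ∈ L1 C} := (l1f_closed C).preimage hc
  have hf' : f ∈ closure (Submodule.span ℂ
    (Set.range fun p : H × H => vecF (reduce C) p.1 p.2) : Set (A →L[ℂ] ℂ)) := by
    rw [L1_eq] at hf
    exact hf
  refine closure_minimal ?_ hcl hf'
  intro g hg
  change g.comp S ∈ L1 C
  induction hg using Submodule.span_induction with
  | mem x hx =>
    obtain ⟨p, rfl⟩ := hx
    simp only [l1f_vec_comp C U k k' hS]
    exact amplF_mem_L1 C _ _
  | zero => rw [ContinuousLinearMap.zero_comp]; exact Submodule.zero_mem _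
  | add x y _ _ hx hy => rw [ContinuousLinearMap.add_comp]; exact Submodule.add_mem _ hx hy
  | smul c x _ hx => rw [ContinuousLinearMap.smul_comp]; exact Submodule.smul_mem _ _ hx

private theorem l1f_norm_star {E : Type} [NormedAddCommGroup E] [InnerProductSpace ℂ E]
    [CompleteSpace E] {Y : E →L[ℂ] E} (hY : Y ∈ unitary (E →L[ℂ] E)) (w : E) :
    ‖star Y w - w‖ = ‖Y w - w‖ := by
  rw [← norm_unitary_apply hY, map_sub, ← mul_apply_eq_comp Y (star Y) w,
    (Unitary.mem_iff.1 hY).2, norm_sub_rev]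
  rfl

private theorem l1f_norm (C : UniversalAlgebra W A) (U : URep W K) {k : K} (hk : ‖k‖ = 1)
    (ξ η : H) {S : A →L[ℂ] A} (hS : ∀ α β, S (C.x α β) = C.x (coefOp U.U k k α) β) :
    ‖(vecF (reduce C) ξ η).comp S - vecF (reduce C) ξ η‖ ≤
      ‖η‖ * ‖U.U (tp ξ k) - tp ξ k‖ + ‖ξ‖ * ‖U.U (tp η k) - tp η k‖ := by
  have h1 : vecF (reduce C) ξ η = amplF C (tp ξ k) (tp η k) := by
    rw [amplF_tp, inner_self_eq_norm_sq_to_K, hk]
    simp
  have hs : star U.U ∈ unitary (HT H K →L[ℂ] HT H K) := Unitary.star_mem U.unitary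
  rw [l1f_vec_comp C U k k hS, h1]
  have h2 : amplF C (star U.U (tp ξ k)) (star U.U (tp η k)) - amplF C (tp ξ k) (tp η k) =
      amplF C (star U.U (tp ξ k) - tp ξ k) (star U.U (tp η k)) +
        amplF C (tp ξ k) (star U.U (tp η k) - tp η k) := by
    rw [l1f_sub_left, l1f_sub_right]; abel
  rw [h2]
  refine (norm_add_le _ _).trans (add_le_add ?_ ?_)
  · refine (norm_amplF_le C _ _).trans ?_
    rw [l1f_norm_star U.unitary, norm_unitary_apply hs, norm_tp, hk, mul_one, mul_comm]
  · refine (norm_amplF_le C _ _).trans ?_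
    rw [l1f_norm_star U.unitary, norm_tp, hk, mul_one]

theorem norm_vec_comp_sub (C : UniversalAlgebra W A) (U : URep W K) {k : K} (hk : ‖k‖ = 1)
    (ξ : H) {S : A →L[ℂ] A} (hS : ∀ α β, S (C.x α β) = C.x (coefOp U.U k k α) β) :
    ‖(vecF (reduce C) ξ ξ).comp S - vecF (reduce C) ξ ξ‖ ≤
      2 * ‖ξ‖ * ‖U.U (tp ξ k) - tp ξ k‖ := by
  refine (l1f_norm C U hk ξ ξ hS).trans (le_of_eq ?_)
  ring

/-- If `k n` are almost invariant unit vectors, `f ∘ S n → f` in norm for `f ∈ L¹`. -/
theorem tendsto_L1_comp (C : UniversalAlgebra W A) (U : URep W K) {k : ℕ → K}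
    (hk : ∀ n, ‖k n‖ = 1)
    (hinv : ∀ α : H, Tendsto (fun n => ‖U.U (tp α (k n)) - tp α (k n)‖) atTop (𝓝 0))
    {S : ℕ → (A →L[ℂ] A)} (hSn : ∀ n, ‖S n‖ ≤ 1)
    (hS : ∀ n α β, S n (C.x α β) = C.x (coefOp U.U (k n) (k n) α) β)
    {f : A →L[ℂ] ℂ} (hf : f ∈ L1 C) : Tendsto (fun n => ‖f.comp (S n) - f‖) atTop (𝓝 0) := by
  have hspan : ∀ g ∈ Submodule.span ℂ
      (Set.range fun p : H × H => vecF (reduce C) p.1 p.2),
      Tendsto (fun n => ‖g.comp (S n) - g‖) atTop (𝓝 0) := by
    intro g hg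
    induction hg using Submodule.span_induction with
    | mem x hx =>
      obtain ⟨p, rfl⟩ := hx
      have h1 : Tendsto (fun n => ‖p.2‖ * ‖U.U (tp p.1 (k n)) - tp p.1 (k n)‖ +
          ‖p.1‖ * ‖U.U (tp p.2 (k n)) - tp p.2 (k n)‖) atTop (𝓝 0) := by
        have h2 := ((hinv p.1).const_mul ‖p.2‖).add ((hinv p.2).const_mul ‖p.1‖)
        simpa using h2
      exact squeeze_zero (fun n => norm_nonneg _)
        (fun n => l1f_norm C U (hk n) p.1 p.2 (hS n)) h1
    | zero => simp
    | add x y _ _ hx hy =>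
      refine squeeze_zero (fun n => norm_nonneg _) (fun n => ?_)
        (by simpa using hx.add hy)
      rw [ContinuousLinearMap.add_comp, add_sub_add_comm]
      exact norm_add_le _ _
    | smul c x _ hx =>
      have h2 := hx.const_mul ‖c‖
      rw [mul_zero] at h2
      refine h2.congr (fun n => ?_)
      have h3 : (c • x).comp (S n) - c • x = c • (x.comp (S n) - x) := by
        rw [ContinuousLinearMap.smul_comp, smul_sub]
      rw [h3, norm_smul]
  rw [Metric.tendsto_atTop]
  intro ε hε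
  have hf' : f ∈ closure (Submodule.span ℂ
    (Set.range fun p : H × H => vecF (reduce C) p.1 p.2) : Set (A →L[ℂ] ℂ)) := by
    rw [L1_eq] at hf
    exact hf
  obtain ⟨g, hg, hfg⟩ := Metric.mem_closure_iff.1 hf' (ε / 3) (by positivity)
  obtain ⟨N, hN⟩ := Metric.tendsto_atTop.1 (hspan g hg) (ε / 3) (by positivity)
  refine ⟨N, fun n hn => ?_⟩
  have h1 := hN n hn
  rw [Real.dist_eq, sub_zero, abs_of_nonneg (norm_nonneg _)] at h1 ⊢
  rw [dist_eq_norm] at hfg
  have h2 : f.comp (S n) - f = (f - g).comp (S n) + (g.comp (S n) - g) - (f - g) := by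
    rw [ContinuousLinearMap.sub_comp]; abel
  have h3 : ‖(f - g).comp (S n)‖ ≤ ‖f - g‖ := by
    refine (ContinuousLinearMap.opNorm_comp_le _ _).trans ?_
    exact mul_le_of_le_one_right (norm_nonneg _) (hSn n)
  calc ‖f.comp (S n) - f‖ ≤ ‖(f - g).comp (S n) + (g.comp (S n) - g)‖ + ‖f - g‖ := by
        rw [h2]; exact norm_sub_le _ _
    _ ≤ ‖(f - g).comp (S n)‖ + ‖g.comp (S n) - g‖ + ‖f - g‖ := by
        gcongr; exact norm_add_le _ _
    _ < ε := by linarith

end QG753
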