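import Pool.Agent.Lib.QG753.VN
import Pool.Agent.Lib.QG753.L1Facts

/-!
# MP_753acd_an: Kaplansky's density theorem (self-adjoint part)

PROOFS. `kapl_approx`: put `h = cfc (fun s : ℝ => s / (1 + √(1 - s²))) y ∈ L^∞` (`cfc_mem_Linf`) and
`r = cfc (fun t : ℝ => 1/(1 + t²)) h`, so `r (1 + h²) = 1 = (1 + h²) r` and `y = 2 h r` (on
`[-1, 1]` the function `t ↦ 2t/(1 + t²)` inverts `s ↦ s/(1 + √(1 - s²))`; `‖y‖ ≤ 1`). For
self-adjoint `b ∈ A` let `a = cfcₙ (fun t : ℝ => 2t/(1 + t²)) b`, `‖a‖ ≤ 1`, `B = Λ(b)`,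
`R = cfc (fun t : ℝ => 1/(1 + t²)) B`, `R (1 + B²) = 1`, `‖R‖ ≤ 1`, `‖R B‖ ≤ 1`,
`Λ(a) = 2 R B = 2 B R` (`map_cfcₙ`, `cfcₙ_eq_cfc`; or: `a + b b a = 2 b` in `A`, apply `Λ`). Then
`Λ(a) - y = 2 R (B (1 + h²) - (1 + B²) h) r = 2 R (B - h) r + 2 R B (h - B) h r`, so
`‖((Λ(a) - y) ⊗ 1) Z‖ ≤ 2 ‖((B - h) ⊗ 1) v₁‖ + 2 ‖((B - h) ⊗ 1) v₂‖` for `v₁ = (r ⊗ 1) Z`,
`v₂ = (h r ⊗ 1) Z`; join `v₁` and `v₂` (`exists_join`) and use `vn_approx_sa` for `h`.

`kapl`: join `z` and `z'`, approximate by `a` with `‖a‖ ≤ 1` from `kapl_approx`: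
`⟪z, (Λ(a) ⊗ 1) z⟫ - ⟪z', (Λ(a) ⊗ 1) z'⟫ = (amplF C z z - amplF C z' z') a`.
-/

open scoped TensorProduct ComplexOrder InnerProductSpace
open ContinuousLinearMap Filter Topology

noncomputable section

namespace QG753

variable {H : Type} [NormedAddCommGroup H] [InnerProductSpace ℂ H] [CompleteSpace H]
  {W : MultUnitary H} {A : Type} [NonUnitalCStarAlgebra A]
  {K : Type} [NormedAddCommGroup K] [InnerProductSpace ℂ K] [CompleteSpace K]
  {K' : Type} [NormedAddCommGroup K'] [InnerProductSpace ℂ K'] [CompleteSpace K']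

/-- `1 / (1 + t²)` -/
private def kr (t : ℝ) : ℝ := 1 / (1 + t ^ 2)

/-- `2t / (1 + t²)` -/
private def kp (t : ℝ) : ℝ := 2 * t / (1 + t ^ 2)

/-- `s / (1 + √(1 - s²))` -/
private def kf (s : ℝ) : ℝ := s / (1 + Real.sqrt (1 - s ^ 2))

private theorem kpos (t : ℝ) : 0 < 1 + t ^ 2 := by positivity

private theorem kr_cont : Continuous kr := by
  unfold kr
  exact continuous_const.div (by fun_prop) fun t => (kpos t).ne'

private theorem kp_cont : Continuous kp := by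
  unfold kp
  exact (by fun_prop : Continuous fun t : ℝ => 2 * t).div (by fun_prop) fun t => (kpos t).ne'

private theorem kf_cont : Continuous kf := by
  unfold kf
  refine continuous_id.div (by fun_prop) fun t => ?_
  have := Real.sqrt_nonneg (1 - t ^ 2)
  positivity

private theorem kp_kf {s : ℝ} (hs : |s| ≤ 1) : kp (kf s) = s := by
  unfold kp kf
  have h1 : 0 ≤ 1 - s ^ 2 := by
    have := abs_le.1 hs
    nlinarith
  have h2 := Real.sq_sqrt h1
  have h3 := Real.sqrt_nonneg (1 - s ^ 2)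
  set c := Real.sqrt (1 - s ^ 2) with hc
  have h4 : 1 + c ≠ 0 := by positivity
  have h5 : 1 + (s / (1 + c)) ^ 2 = 2 / (1 + c) := by
    field_simp
    nlinarith
  rw [h5]
  field_simp

private theorem kr_abs (t : ℝ) : |kr t| ≤ 1 := by
  unfold kr
  rw [abs_of_nonneg (by positivity), div_le_one (kpos t)]
  nlinarith [sq_nonneg t]

private theorem krt_abs (t : ℝ) : |kr t * t| ≤ 1 := by
  unfold kr
  rw [abs_le]
  constructor
  · rw [one_div, inv_mul_eq_div, le_div_iff₀ (kpos t)]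
    nlinarith [sq_nonneg (t + 1)]
  · rw [one_div, inv_mul_eq_div, div_le_iff₀ (kpos t)]
    nlinarith [sq_nonneg (t - 1)]

private theorem kp_abs (t : ℝ) : |kp t| ≤ 1 := by
  unfold kp
  rw [abs_le]
  constructor
  · rw [le_div_iff₀ (kpos t)]
    nlinarith [sq_nonneg (t + 1)]
  · rw [div_le_iff₀ (kpos t)]
    nlinarith [sq_nonneg (t - 1)]

private theorem kr_mul (B : H →L[ℂ] H) (hB : IsSelfAdjoint B) :
    cfc kr B * (1 + B * B) = 1 ∧ (1 + B * B) * cfc kr B = 1 := by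
  have h1 : (1 : H →L[ℂ] H) + B * B = cfc (fun t : ℝ => 1 + t * t) B := by
    rw [cfc_add (a := B) (fun _ => (1 : ℝ)) (fun t => t * t) (by fun_prop) (by fun_prop),
      cfc_mul (a := B) (fun t : ℝ => t) (fun t => t) (by fun_prop) (by fun_prop), cfc_id' ℝ B,
      cfc_const_one ℝ B]
  have h2 : cfc (fun t : ℝ => kr t * (1 + t * t)) B = 1 := by
    rw [← cfc_const_one ℝ B]
    refine cfc_congr fun t _ => ?_
    show kr t * (1 + t * t) = 1
    unfold kr
    rw [← pow_two]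
    exact one_div_mul_cancel (kpos t).ne'
  have h3 : cfc (fun t : ℝ => (1 + t * t) * kr t) B = 1 := by
    rw [← h2]
    congr 1
    funext t
    ring
  rw [h1]
  constructor
  · rw [← cfc_mul (a := B) kr (fun t : ℝ => 1 + t * t) kr_cont.continuousOn (by fun_prop)]
    exact h2
  · rw [← cfc_mul (a := B) (fun t : ℝ => 1 + t * t) kr (by fun_prop) kr_cont.continuousOn]
    exact h3

private theorem kr_norm (B : H →L[ℂ] H) (hB : IsSelfAdjoint B) :
    ‖cfc kr B‖ ≤ 1 ∧ ‖cfc kr B * B‖ ≤ 1 := by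
  constructor
  · exact norm_cfc_le zero_le_one fun t _ => kr_abs t
  · have h1 : cfc kr B * B = cfc (fun t : ℝ => kr t * t) B := by
      rw [cfc_mul (a := B) kr (fun t : ℝ => t) kr_cont.continuousOn (by fun_prop), cfc_id' ℝ B]
    rw [h1]
    exact norm_cfc_le zero_le_one fun t _ => krt_abs t

private theorem kp_eq (B : H →L[ℂ] H) (hB : IsSelfAdjoint B) :
    cfc kp B = 2 • (B * cfc kr B) := by
  have h1 : B * cfc kr B = cfc (fun t : ℝ => t * kr t) B := by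
    rw [cfc_mul (a := B) (fun t : ℝ => t) kr (by fun_prop) kr_cont.continuousOn, cfc_id' ℝ B]
  have h2 : kp = fun t : ℝ => t * kr t + t * kr t := by
    funext t
    unfold kp kr
    ring
  rw [h1, two_nsmul, h2, cfc_add (a := B) (fun t : ℝ => t * kr t) (fun t : ℝ => t * kr t)
    (continuous_id.mul kr_cont).continuousOn (continuous_id.mul kr_cont).continuousOn]

/-- the element `a` for `b` -/
private theorem kapl_elem (C : UniversalAlgebra W A) {b : A} (hb : IsSelfAdjoint b) :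
    ∃ a : A, ‖a‖ ≤ 1 ∧
      reduce C a = 2 • (cfc kr (reduce C b) * reduce C b) := by
  have hB : IsSelfAdjoint (reduce C b) := hb.map (reduce C)
  refine ⟨cfcₙ kp b, ?_, ?_⟩
  · exact norm_cfcₙ_le fun t _ => kp_abs t
  · have hk0 : kp 0 = 0 := by simp [kp]
    have h1 : cfcₙ kp b + b * b * cfcₙ kp b = 2 • b := by
      have e1 : b * b = cfcₙ (fun t : ℝ => t * t) b := by
        rw [cfcₙ_mul (a := b) (fun t : ℝ => t) (fun t : ℝ => t) (by fun_prop) rfl (by fun_prop) rfl,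
          cfcₙ_id' ℝ b]
      rw [e1, ← cfcₙ_mul (a := b) (fun t : ℝ => t * t) kp (by fun_prop) (by simp)
        kp_cont.continuousOn hk0,
        ← cfcₙ_add (a := b) kp (fun t : ℝ => t * t * kp t) kp_cont.continuousOn hk0
          (((continuous_id.mul continuous_id).mul kp_cont).continuousOn) (by simp)]
      have e2 : (fun t : ℝ => kp t + t * t * kp t) = fun t : ℝ => t + t := by
        funext t
        unfold kp
        have := (kpos t).ne'
        field_simp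
        ring
      rw [e2, cfcₙ_add (a := b) (fun t : ℝ => t) (fun t : ℝ => t) (by fun_prop) rfl (by fun_prop)
        rfl, cfcₙ_id' ℝ b, two_nsmul]
    have h2 := congrArg (reduce C) h1
    rw [map_add, map_mul, map_mul, map_nsmul] at h2
    set B := reduce C b with hBdef
    set X := reduce C (cfcₙ kp b) with hX
    have h3 : (1 + B * B) * X = 2 • B := by rw [add_mul, one_mul, h2]
    have h4 := (kr_mul B hB).1
    calc X = (cfc kr B * (1 + B * B)) * X := by rw [h4, one_mul]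
      _ = cfc kr B * (2 • B) := by rw [mul_assoc, h3]
      _ = 2 • (cfc kr B * B) := by rw [mul_smul_comm]

omit [CompleteSpace H] [CompleteSpace K] in
private theorem opT_sub_left (S S' : H →L[ℂ] H) : opT (S - S') (1 : K →L[ℂ] K) =
    opT S 1 - opT S' 1 := by
  have h := opT_add_left (S - S') S' (1 : K →L[ℂ] K)
  rw [sub_add_cancel] at h
  rw [h, add_sub_cancel_right]

omit [CompleteSpace H] [CompleteSpace K] in
private theorem opT_mul_apply (S S' : H →L[ℂ] H) (Z : HT H K) :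
    opT (S * S') (1 : K →L[ℂ] K) Z = opT S (1 : K →L[ℂ] K) (opT S' (1 : K →L[ℂ] K) Z) := by
  have h := opT_mul S S' (1 : K →L[ℂ] K) (1 : K →L[ℂ] K)
  rw [mul_one] at h
  rw [← h]
  rfl

omit [CompleteSpace H] [CompleteSpace K] in
private theorem opT_norm_one {S : H →L[ℂ] H} (hS : ‖S‖ ≤ 1) (Z : HT H K) :
    ‖opT S (1 : K →L[ℂ] K) Z‖ ≤ ‖Z‖ := by
  refine ((opT S (1 : K →L[ℂ] K)).le_opNorm Z).trans (mul_le_of_le_one_left (norm_nonneg _) ?_)
  refine (norm_opT_le _ _).trans ?_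
  exact mul_le_one₀ hS (norm_nonneg _) ContinuousLinearMap.norm_id_le

theorem kapl_approx (C : UniversalAlgebra W A) {y : H →L[ℂ] H} (hy : y ∈ Linf W)
    (hs : IsSelfAdjoint y) (h1 : ‖y‖ ≤ 1) (Z : HT H K) {ε : ℝ} (hε : 0 < ε) :
    ∃ a : A, ‖a‖ ≤ 1 ∧
      ‖opT (reduce C a) (1 : K →L[ℂ] K) Z - opT y (1 : K →L[ℂ] K) Z‖ < ε := by
  set h := cfc kf y with hh
  have hhL : h ∈ Linf W := cfc_mem_Linf hy hs kf
  have hhs : IsSelfAdjoint h := cfc_predicate kf y
  set r := cfc kr h with hr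
  obtain ⟨hr1, hr2⟩ := kr_mul h hhs
  have hyr : y = 2 • (h * r) := by
    rw [← kp_eq h hhs, hh, ← cfc_comp (a := y) kp kf hs kp_cont.continuousOn
      kf_cont.continuousOn]
    conv_lhs => rw [← cfc_id ℝ y]
    refine cfc_congr fun s hs' => ?_
    show s = kp (kf s)
    rw [kp_kf]
    have h2 := spectrum.norm_le_norm_mul_of_mem hs'
    refine h2.trans (mul_le_one₀ h1 (norm_nonneg _) ContinuousLinearMap.norm_id_le)
  set v1 := opT r (1 : K →L[ℂ] K) Z with hv1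
  set v2 := opT (h * r) (1 : K →L[ℂ] K) Z with hv2
  obtain ⟨K2, i1, i2, i3, Z2, P, P', hP, hP', hPZ, hPZ', hPT, hPT'⟩ := exists_join v1 v2
  obtain ⟨b, hb, hbε⟩ := vn_approx_sa C hhL hhs Z2 (ε := ε / 4) (by positivity)
  set B := reduce C b with hB
  have hBs : IsSelfAdjoint B := hb.map (reduce C)
  have key : ∀ (Q : HT H K2 →L[ℂ] HT H K) (v : HT H K), ‖Q‖ ≤ 1 → Q Z2 = v →
      (∀ T : H →L[ℂ] H, Q.comp (opT T 1) = (opT T 1).comp Q) →
      ‖opT (B - h) (1 : K →L[ℂ] K) v‖ < ε / 4 := by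
    intro Q v hQ hQv hQT
    have e1 : opT (B - h) (1 : K →L[ℂ] K) v = Q (opT B 1 Z2 - opT h 1 Z2) := by
      have e2 : ∀ T : H →L[ℂ] H, opT T (1 : K →L[ℂ] K) v = Q (opT T 1 Z2) := by
        intro T
        rw [← hQv]
        have := congrArg (fun f => f Z2) (hQT T)
        simp only [ContinuousLinearMap.comp_apply] at this
        exact this.symm
      rw [e2, opT_sub_left, _root_.sub_apply]
    rw [e1]
    refine lt_of_le_of_lt (Q.le_opNorm _) ?_
    exact lt_of_le_of_lt (mul_le_of_le_one_left (norm_nonneg _) hQ) hbε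
  have k1 := key P v1 hP hPZ hPT
  have k2 := key P' v2 hP' hPZ' hPT'
  obtain ⟨a, ha, haB⟩ := kapl_elem C hb
  refine ⟨a, ha, ?_⟩
  rw [← hB] at haB
  set R := cfc kr B with hR
  obtain ⟨hR1, hR2⟩ := kr_mul B hBs
  obtain ⟨hRn, hRBn⟩ := kr_norm B hBs
  rw [← hR] at hR1 hR2 hRn hRBn
  rw [← hr] at hr1 hr2
  have hdiff : reduce C a - y = 2 • (R * ((B - h) * r)) - 2 • (R * B * ((B - h) * (h * r))) := by
    rw [haB, hyr, ← smul_sub, ← smul_sub]
    congr 1
    have e1 : R * B = R * B * ((1 + h * h) * r) := by rw [hr2, mul_one]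
    have e2 : h * r = R * (1 + B * B) * (h * r) := by rw [hR1, one_mul]
    calc R * B - h * r = R * B * ((1 + h * h) * r) - R * (1 + B * B) * (h * r) := by
          rw [← e1, ← e2]
      _ = _ := by noncomm_ring
  rw [← _root_.sub_apply, ← opT_sub_left, hdiff]
  have e3 : opT (2 • (R * ((B - h) * r)) - 2 • (R * B * ((B - h) * (h * r))))
      (1 : K →L[ℂ] K) Z = (2 : ℕ) • (opT R (1 : K →L[ℂ] K) (opT (B - h) 1 v1)) -
        (2 : ℕ) • (opT (R * B) (1 : K →L[ℂ] K) (opT (B - h) 1 v2)) := by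
    rw [opT_sub_left, two_nsmul, two_nsmul, opT_add_left, opT_add_left, two_nsmul, two_nsmul,
      _root_.sub_apply, _root_.add_apply, _root_.add_apply,
      opT_mul_apply R, opT_mul_apply (B - h) r, opT_mul_apply (R * B),
      opT_mul_apply (B - h) (h * r)]
  rw [e3]
  have n1 := opT_norm_one hRn (opT (B - h) (1 : K →L[ℂ] K) v1)
  have n2 := opT_norm_one hRBn (opT (B - h) (1 : K →L[ℂ] K) v2)
  refine lt_of_le_of_lt (norm_sub_le _ _) ?_
  rw [two_nsmul, two_nsmul]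
  have m1 := norm_add_le (opT R (1 : K →L[ℂ] K) (opT (B - h) 1 v1))
    (opT R (1 : K →L[ℂ] K) (opT (B - h) 1 v1))
  have m2 := norm_add_le (opT (R * B) (1 : K →L[ℂ] K) (opT (B - h) 1 v2))
    (opT (R * B) (1 : K →L[ℂ] K) (opT (B - h) 1 v2))
  linarith

theorem kapl (C : UniversalAlgebra W A) {y : H →L[ℂ] H} (hy : y ∈ Linf W)
    (hs : IsSelfAdjoint y) (h1 : ‖y‖ ≤ 1) (z : HT H K) (z' : HT H K') :
    ‖⟪z, opT y 1 z⟫_ℂ - ⟪z', opT y 1 z'⟫_ℂ‖ ≤ ‖amplF C z z - amplF C z' z'‖ := by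
  obtain ⟨K2, i1, i2, i3, Z, P, P', hP, hP', hPZ, hPZ', hPT, hPT'⟩ := exists_join z z'
  refine le_of_forall_pos_le_add fun δ hδ => ?_
  set ε := δ / (‖z‖ + ‖z'‖ + 1) with hε
  have hN : 0 < ‖z‖ + ‖z'‖ + 1 := by positivity
  have hεp : 0 < ε := by positivity
  obtain ⟨a, ha, haε⟩ := kapl_approx C hy hs h1 Z hεp
  have e1 : ∀ T : H →L[ℂ] H, opT T (1 : K →L[ℂ] K) z = P (opT T 1 Z) := by
    intro T
    have := congrArg (fun f => f Z) (hPT T)
    simp only [ContinuousLinearMap.comp_apply] at this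
    rw [this, hPZ]
  have e2 : ∀ T : H →L[ℂ] H, opT T (1 : K' →L[ℂ] K') z' = P' (opT T 1 Z) := by
    intro T
    have := congrArg (fun f => f Z) (hPT' T)
    simp only [ContinuousLinearMap.comp_apply] at this
    rw [this, hPZ']
  have n1 : ‖opT (reduce C a) (1 : K →L[ℂ] K) z - opT y 1 z‖ ≤ ε := by
    rw [e1, e1, ← map_sub]
    exact (P.le_opNorm _).trans ((mul_le_of_le_one_left (norm_nonneg _) hP).trans haε.le)
  have n2 : ‖opT (reduce C a) (1 : K' →L[ℂ] K') z' - opT y 1 z'‖ ≤ ε := by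
    rw [e2, e2, ← map_sub]
    exact (P'.le_opNorm _).trans ((mul_le_of_le_one_left (norm_nonneg _) hP').trans haε.le)
  have hval : ⟪z, opT (reduce C a) 1 z⟫_ℂ - ⟪z', opT (reduce C a) 1 z'⟫_ℂ =
      (amplF C z z - amplF C z' z') a := by
    rw [_root_.sub_apply, amplF_apply, amplF_apply]
  have hle : ‖(amplF C z z - amplF C z' z') a‖ ≤ ‖amplF C z z - amplF C z' z'‖ :=
    ((amplF C z z - amplF C z' z').le_opNorm a).trans (mul_le_of_le_one_right (norm_nonneg _) ha)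
  have hsplit : ⟪z, opT y 1 z⟫_ℂ - ⟪z', opT y 1 z'⟫_ℂ = (amplF C z z - amplF C z' z') a -
      ⟪z, opT (reduce C a) 1 z - opT y 1 z⟫_ℂ +
      ⟪z', opT (reduce C a) 1 z' - opT y 1 z'⟫_ℂ := by
    rw [← hval, inner_sub_right, inner_sub_right]
    ring
  have t1 : ‖⟪z, opT (reduce C a) 1 z - opT y 1 z⟫_ℂ‖ ≤ ‖z‖ * ε :=
    (norm_inner_le_norm _ _).trans (mul_le_mul_of_nonneg_left n1 (norm_nonneg _))
  have t2 : ‖⟪z', opT (reduce C a) 1 z' - opT y 1 z'⟫_ℂ‖ ≤ ‖z'‖ * ε :=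
    (norm_inner_le_norm _ _).trans (mul_le_mul_of_nonneg_left n2 (norm_nonneg _))
  have hεδ : (‖z‖ + ‖z'‖ + 1) * ε = δ := by
    rw [hε]
    field_simp
  rw [hsplit]
  have t3 := norm_add_le ((amplF C z z - amplF C z' z') a -
      ⟪z, opT (reduce C a) 1 z - opT y 1 z⟫_ℂ) ⟪z', opT (reduce C a) 1 z' - opT y 1 z'⟫_ℂ
  have t4 := norm_sub_le ((amplF C z z - amplF C z' z') a)
      ⟪z, opT (reduce C a) 1 z - opT y 1 z⟫_ℂ
  nlinarith

end QG753
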