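import Pool.Agent.Lib.QG753.ConvAmpl
import Pool.Agent.Lib.QG753.Kapl

/-!
# MP_753acd_an: an invariant mean from asymptotically invariant states

PROOFS. `amenable_of_seq`: let `𝒰` be the ultrafilter `Filter.hyperfilter ℕ` (`≤ atTop`) and
`m y = lim_𝒰 ⟪z_n, (y ⊗ 1) z_n⟫` (bounded by `‖y‖`, so the limit exists: compactness of closed
balls in `ℂ`), a linear functional with `m (star y * y) ≥ 0`, `m 1 = 1`. For `y ∈ L^∞` self-adjoint
with `‖y‖ ≤ 1` and a unit vector `ξ`, by `inner_conv_amplF`, `kapl` and `conv_amplF`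
`|⟪z_n, (slice (comul y) ξ ξ ⊗ 1) z_n⟫ - ⟪z_n, (y ⊗ 1) z_n⟫| ≤
 ‖(vecF ξ ξ) ⋆ ρ_n - ρ_n‖ → 0`, `ρ_n = amplF z_n z_n`. So
`m (slice (comul y) ξ ξ) = ‖ξ‖² m y` for all `ξ` and all self-adjoint `y` (scaling), hence for all `y`
(`slice_comul_add`, `slice_comul_smul`; real and imaginary part), and polarization in `ξ` (the
map `(ξ, η) ↦ slice Y ξ η` is linear in `ξ`, conjugate linear in `η`) gives the general case.

`exists_seq`: let `ξ₀` be a unit vector of `H` (exists: otherwise `A = 0`, see `exists_L`), `n : ℕ`,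
`μ n = vecF R.π k k` (`exists_gns`), `U` from `C.ofRep`, `z n = star U (ξ₀ ⊗ k)`, a unit vector in
`H ⊗ R.K`. By `fell` `(μ n) ∘ rOp (vecF Λ ξ₀ ξ₀) = amplF C (z n) (z n)` (same coefficient
`coefOp V ξ₀ ξ₀ * coefOp U k k`, `IsCoef.inj`). For a unit vector `ξ`, `ω = vecF Λ ξ ξ`, the
functional `κ n` of `GoodSemigroup` is `ω ∘ rOp (μ n)`, and (`T_mul` of `convSys C`)
`ω ∘ rOp (μ n ∘ rOp ω₀) - μ n ∘ rOp ω₀ = (κ n - μ n) ∘ rOp ω₀`, of norm `≤ ‖κ n - μ n‖ → 0`.
-/

open scoped TensorProduct ComplexOrder InnerProductSpace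
open ContinuousLinearMap Filter Topology

noncomputable section

namespace QG753

variable {H : Type} [NormedAddCommGroup H] [InnerProductSpace ℂ H] [CompleteSpace H]
  {W : MultUnitary H} {A : Type} [NonUnitalCStarAlgebra A]

/-- A unit vector in some amplification of `H`. -/
structure AVec (H : Type) [NormedAddCommGroup H] [InnerProductSpace ℂ H] where
  /-- the space -/
  K : Type
  [nacg : NormedAddCommGroup K]
  [ips : InnerProductSpace ℂ K]
  [cs : CompleteSpace K]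
  /-- the vector -/
  z : HT H K
  norm_eq : ‖z‖ = 1

attribute [instance] AVec.nacg AVec.ips AVec.cs

/-- the values `⟪z, (y ⊗ 1) z⟫` -/
private def av (v : AVec H) (y : H →L[ℂ] H) : ℂ := ⟪v.z, opT y 1 v.z⟫_ℂ

private theorem av_norm_le (v : AVec H) (y : H →L[ℂ] H) : ‖av v y‖ ≤ ‖y‖ := by
  unfold av
  have h1 : ‖opT y (1 : v.K →L[ℂ] v.K)‖ ≤ ‖y‖ := by
    refine (norm_opT_le _ _).trans ?_
    exact mul_le_of_le_one_right (norm_nonneg _) ContinuousLinearMap.norm_id_le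
  calc ‖⟪v.z, opT y 1 v.z⟫_ℂ‖ ≤ ‖v.z‖ * ‖opT y (1 : v.K →L[ℂ] v.K) v.z‖ := norm_inner_le_norm _ _
    _ ≤ ‖v.z‖ * (‖opT y (1 : v.K →L[ℂ] v.K)‖ * ‖v.z‖) :=
        mul_le_mul_of_nonneg_left (ContinuousLinearMap.le_opNorm _ _) (norm_nonneg _)
    _ = ‖opT y (1 : v.K →L[ℂ] v.K)‖ := by rw [v.norm_eq, one_mul, mul_one]
    _ ≤ ‖y‖ := h1

private theorem av_add (v : AVec H) (y y' : H →L[ℂ] H) : av v (y + y') = av v y + av v y' := by
  unfold av
  rw [opT_add_left, _root_.add_apply, inner_add_right]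

private theorem av_smul (v : AVec H) (c : ℂ) (y : H →L[ℂ] H) : av v (c • y) = c * av v y := by
  unfold av
  rw [opT_smul_left, _root_.smul_apply, inner_smul_right]

private theorem av_one (v : AVec H) : av v 1 = 1 := by
  unfold av
  have h1 : opT (1 : H →L[ℂ] H) (1 : v.K →L[ℂ] v.K) v.z = v.z := by
    rw [opT_one]
    rfl
  rw [h1, inner_self_eq_norm_sq_to_K, v.norm_eq]
  simp

private theorem av_pos (v : AVec H) (y : H →L[ℂ] H) : 0 ≤ av v (star y * y) := by
  unfold av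
  have h1 : opT (star y * y) (1 : v.K →L[ℂ] v.K) = star (opT y 1) * opT y 1 := by
    rw [star_opT, opT_mul, star_one, one_mul]
  have h2 : (star (opT y (1 : v.K →L[ℂ] v.K)) * opT y (1 : v.K →L[ℂ] v.K) :
      HT H v.K →L[ℂ] HT H v.K) v.z =
      adjoint (opT y (1 : v.K →L[ℂ] v.K)) (opT y (1 : v.K →L[ℂ] v.K) v.z) := rfl
  rw [h1, h2, ContinuousLinearMap.adjoint_inner_right, inner_self_eq_norm_sq_to_K]
  have h3 : (0 : ℝ) ≤ ‖opT y (1 : v.K →L[ℂ] v.K) v.z‖ ^ 2 := sq_nonneg _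
  have h4 : (0 : ℂ) ≤ ((‖opT y (1 : v.K →L[ℂ] v.K) v.z‖ ^ 2 : ℝ) : ℂ) :=
    Complex.zero_le_real.2 h3
  rw [Complex.ofReal_pow] at h4
  exact h4

/-- The limit along the ultrafilter. -/
private theorem exists_lim_av (v : ℕ → AVec H) (y : H →L[ℂ] H) :
    ∃ c : ℂ, Tendsto (fun n => av (v n) y) (hyperfilter ℕ : Filter ℕ) (𝓝 c) := by
  have h1 : IsCompact (Metric.closedBall (0 : ℂ) ‖y‖) := isCompact_closedBall _ _
  have h2 : ∀ᶠ n in (hyperfilter ℕ : Filter ℕ), av (v n) y ∈ Metric.closedBall (0 : ℂ) ‖y‖ :=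
    Eventually.of_forall fun n => by
      rw [mem_closedBall_zero_iff]
      exact av_norm_le _ _
  obtain ⟨c, _, hc⟩ := h1.ultrafilter_le_nhds ((hyperfilter ℕ).map fun n => av (v n) y) (by
    rw [le_principal_iff]
    exact h2)
  exact ⟨c, hc⟩

/-- The slice `slice (comul y) ξ η` as an element of `L^∞`. -/
private def SL (y : Linf W) (ξ η : H) : Linf W :=
  ⟨slice (comul W (y : H →L[ℂ] H)) ξ η, slice_comul_mem W y.2 ξ η⟩

private theorem slice_add_left {K : Type} [NormedAddCommGroup K] [InnerProductSpace ℂ K]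
    [CompleteSpace K] (Y : HT H K →L[ℂ] HT H K) (ξ ξ' η : H) :
    slice Y (ξ + ξ') η = slice Y ξ η + slice Y ξ' η := by
  ext k
  apply ext_inner_left ℂ
  intro l
  rw [inner_slice, _root_.add_apply, inner_add_right, inner_slice, inner_slice, tp_add_left,
    map_add, inner_add_right]

private theorem slice_add_right {K : Type} [NormedAddCommGroup K] [InnerProductSpace ℂ K]
    [CompleteSpace K] (Y : HT H K →L[ℂ] HT H K) (ξ η η' : H) :
    slice Y ξ (η + η') = slice Y ξ η + slice Y ξ η' := by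
  ext k
  apply ext_inner_left ℂ
  intro l
  rw [inner_slice, _root_.add_apply, inner_add_right, inner_slice, inner_slice, tp_add_left,
    inner_add_left]

private theorem slice_smul_left {K : Type} [NormedAddCommGroup K] [InnerProductSpace ℂ K]
    [CompleteSpace K] (Y : HT H K →L[ℂ] HT H K) (c : ℂ) (ξ η : H) :
    slice Y (c • ξ) η = c • slice Y ξ η := by
  ext k
  apply ext_inner_left ℂ
  intro l
  rw [inner_slice, _root_.smul_apply, inner_smul_right, inner_slice, tp_smul_left,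
    map_smul, inner_smul_right]

private theorem slice_smul_right {K : Type} [NormedAddCommGroup K] [InnerProductSpace ℂ K]
    [CompleteSpace K] (Y : HT H K →L[ℂ] HT H K) (c : ℂ) (ξ η : H) :
    slice Y ξ (c • η) = (starRingEnd ℂ c) • slice Y ξ η := by
  ext k
  apply ext_inner_left ℂ
  intro l
  rw [inner_slice, _root_.smul_apply, inner_smul_right, inner_slice, tp_smul_left,
    inner_smul_left]

theorem amenable_of_seq (C : UniversalAlgebra W A) (v : ℕ → AVec H)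
    (h : ∀ ξ : H, ‖ξ‖ = 1 → Tendsto (fun n => ‖(vecF (reduce C) ξ ξ).comp
      (rOp C (amplF C (v n).z (v n).z)) - amplF C (v n).z (v n).z‖) atTop (𝓝 0)) :
    Amenable W := by
  choose M hM using fun y : Linf W => exists_lim_av v (y : H →L[ℂ] H)
  let m : Linf W →ₗ[ℂ] ℂ :=
    { toFun := M
      map_add' := fun y y' => by
        have h1 := hM (y + y')
        have h2 := (hM y).add (hM y')
        refine tendsto_nhds_unique h1 (h2.congr fun n => ?_)
        exact (av_add (v n) (y : H →L[ℂ] H) (y' : H →L[ℂ] H)).symm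
      map_smul' := fun c y => by
        have h1 := hM (c • y)
        have h2 := (hM y).const_mul c
        refine tendsto_nhds_unique h1 (h2.congr fun n => ?_)
        exact (av_smul (v n) c (y : H →L[ℂ] H)).symm }
  have hm : ∀ y : Linf W, Tendsto (fun n => av (v n) (y : H →L[ℂ] H)) (hyperfilter ℕ : Filter ℕ)
      (𝓝 (m y)) := hM
  -- invariance: unit vectors, self-adjoint contractions
  have hinv1 : ∀ (ξ : H), ‖ξ‖ = 1 → ∀ y : Linf W, IsSelfAdjoint (y : H →L[ℂ] H) →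
      ‖(y : H →L[ℂ] H)‖ ≤ 1 → m (SL y ξ ξ) = m y := by
    intro ξ hξ y hy hy1
    have h1 : Tendsto (fun n => av (v n) (SL y ξ ξ : H →L[ℂ] H) - av (v n) (y : H →L[ℂ] H))
        atTop (𝓝 0) := by
      rw [tendsto_zero_iff_norm_tendsto_zero]
      refine squeeze_zero (fun n => norm_nonneg _) (fun n => ?_) (h ξ hξ)
      have h2 := inner_conv_amplF W (y : H →L[ℂ] H) (v n).z (v n).z ξ ξ
      have h3 : av (v n) (SL y ξ ξ : H →L[ℂ] H) =
          ⟪star (leg12 (v n).K W.V) (midT (v n).K ξ (v n).z),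
            opT (y : H →L[ℂ] H) 1 (star (leg12 (v n).K W.V) (midT (v n).K ξ (v n).z))⟫_ℂ :=
        h2.symm
      rw [h3, conv_amplF C (v n).norm_eq ξ]
      exact kapl C y.2 hy hy1 _ _
    have h2 : Tendsto (fun n => av (v n) (SL y ξ ξ : H →L[ℂ] H) - av (v n) (y : H →L[ℂ] H))
        (hyperfilter ℕ : Filter ℕ) (𝓝 0) := by
      refine h1.mono_left ?_
      rw [← Nat.cofinite_eq_atTop]
      exact hyperfilter_le_cofinite
    have h3 := tendsto_nhds_unique ((hm (SL y ξ ξ)).sub (hm y)) h2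
    exact sub_eq_zero.1 h3
  have hSLadd : ∀ (y y' : Linf W) (ξ η : H), SL (y + y') ξ η = SL y ξ η + SL y' ξ η := by
    intro y y' ξ η
    apply Subtype.ext
    exact slice_comul_add W (y : H →L[ℂ] H) (y' : H →L[ℂ] H) ξ η
  have hSLsmul : ∀ (c : ℂ) (y : Linf W) (ξ η : H), SL (c • y) ξ η = c • SL y ξ η := by
    intro c y ξ η
    apply Subtype.ext
    exact slice_comul_smul W c (y : H →L[ℂ] H) ξ η
  have hinv2 : ∀ (ξ : H), ‖ξ‖ = 1 → ∀ y : Linf W, IsSelfAdjoint (y : H →L[ℂ] H) →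
      m (SL y ξ ξ) = m y := by
    intro ξ hξ y hy
    by_cases h0 : ‖(y : H →L[ℂ] H)‖ = 0
    · exact hinv1 ξ hξ y hy (by rw [h0]; exact zero_le_one)
    · set t : ℂ := ((‖(y : H →L[ℂ] H)‖ : ℝ) : ℂ) with ht
      have ht0 : t ≠ 0 := by
        rw [ht]
        exact_mod_cast h0
      have h1 : y = t • (t⁻¹ • y) := by
        rw [smul_smul, mul_inv_cancel₀ ht0, one_smul]
      have h2 : IsSelfAdjoint ((t⁻¹ • y : Linf W) : H →L[ℂ] H) := by
        have h3 : ((t⁻¹ • y : Linf W) : H →L[ℂ] H) = t⁻¹ • (y : H →L[ℂ] H) := rfl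
        rw [h3]
        refine IsSelfAdjoint.smul ?_ hy
        rw [ht, ← Complex.ofReal_inv]
        exact Complex.conj_ofReal _
      have h3 : ‖((t⁻¹ • y : Linf W) : H →L[ℂ] H)‖ ≤ 1 := by
        have h4 : ((t⁻¹ • y : Linf W) : H →L[ℂ] H) = t⁻¹ • (y : H →L[ℂ] H) := rfl
        rw [h4, norm_smul, norm_inv, ht, Complex.norm_real, norm_norm, inv_mul_cancel₀ h0]
      have h4 := hinv1 ξ hξ (t⁻¹ • y) h2 h3
      rw [h1, hSLsmul, map_smul, map_smul, h4]
  have hinv3 : ∀ (ξ : H), ‖ξ‖ = 1 → ∀ y : Linf W, m (SL y ξ ξ) = m y := by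
    intro ξ hξ y
    obtain ⟨a, ha⟩ : ∃ a : Linf W, a = (1 / 2 : ℂ) • (y + star y) := ⟨_, rfl⟩
    obtain ⟨b, hb⟩ : ∃ b : Linf W, b = (-(Complex.I) / 2 : ℂ) • (y - star y) := ⟨_, rfl⟩
    have hy : y = a + Complex.I • b := by
      rw [ha, hb, smul_smul]
      have h1 : Complex.I * (-Complex.I / 2) = 1 / 2 := by
        have h2 : Complex.I * Complex.I = -1 := Complex.I_mul_I
        linear_combination (-1 / 2 : ℂ) * h2
      rw [h1, ← smul_add]
      have h3 : y + star y + (y - star y) = (2 : ℂ) • y := by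
        rw [two_smul]
        abel
      rw [h3, smul_smul]
      norm_num
    have has : IsSelfAdjoint (a : H →L[ℂ] H) := by
      have h1 : IsSelfAdjoint a := by
        rw [isSelfAdjoint_iff, ha, star_smul, star_add, star_star, add_comm (star y) y]
        congr 1
        norm_num
      exact congrArg (fun x : Linf W => (x : H →L[ℂ] H)) h1
    have hbs : IsSelfAdjoint (b : H →L[ℂ] H) := by
      have h1 : IsSelfAdjoint b := by
        rw [isSelfAdjoint_iff, hb, star_smul, star_sub, star_star]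
        have h2 : star (-Complex.I / 2 : ℂ) = -(-Complex.I / 2 : ℂ) := by
          rw [← starRingEnd_apply, map_div₀, map_neg, Complex.conj_I, map_ofNat]
          ring
        rw [h2, neg_smul, ← smul_neg, neg_sub]
      exact congrArg (fun x : Linf W => (x : H →L[ℂ] H)) h1
    rw [hy, hSLadd, hSLsmul, map_add, map_add, map_smul, map_smul, hinv2 ξ hξ a has,
      hinv2 ξ hξ b hbs]
  have hSL1 : ∀ (y : Linf W) (ξ ξ' η : H), SL y (ξ + ξ') η = SL y ξ η + SL y ξ' η := by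
    intro y ξ ξ' η
    apply Subtype.ext
    exact slice_add_left _ ξ ξ' η
  have hSL2 : ∀ (y : Linf W) (ξ η η' : H), SL y ξ (η + η') = SL y ξ η + SL y ξ η' := by
    intro y ξ η η'
    apply Subtype.ext
    exact slice_add_right _ ξ η η'
  have hSL3 : ∀ (y : Linf W) (c : ℂ) (ξ η : H), SL y (c • ξ) η = c • SL y ξ η := by
    intro y c ξ η
    apply Subtype.ext
    exact slice_smul_left _ c ξ η
  have hSL4 : ∀ (y : Linf W) (c : ℂ) (ξ η : H), SL y ξ (c • η) = (starRingEnd ℂ c) • SL y ξ η := by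
    intro y c ξ η
    apply Subtype.ext
    exact slice_smul_right _ c ξ η
  have hinv4 : ∀ (ξ : H) (y : Linf W), m (SL y ξ ξ) = ⟪ξ, ξ⟫_ℂ * m y := by
    intro ξ y
    by_cases h0 : ξ = 0
    · have h1 : SL y ξ ξ = 0 := by
        have h2 := hSL3 y 0 ξ ξ
        rw [zero_smul, zero_smul] at h2
        rw [← h2, h0]
      rw [h1, h0, map_zero, inner_zero_right, zero_mul]
    · have hn : ‖ξ‖ ≠ 0 := norm_ne_zero_iff.2 h0
      set t : ℂ := ((‖ξ‖ : ℝ) : ℂ) with ht
      have ht0 : t ≠ 0 := by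
        rw [ht]
        exact_mod_cast hn
      have h1 : ξ = t • (t⁻¹ • ξ) := by
        rw [smul_smul, mul_inv_cancel₀ ht0, one_smul]
      have h2 : ‖t⁻¹ • ξ‖ = 1 := by
        rw [norm_smul, norm_inv, ht, Complex.norm_real, norm_norm, inv_mul_cancel₀ hn]
      have h3 := hinv3 _ h2 y
      have h4 : m (SL y ξ ξ) = t * ((starRingEnd ℂ t) * m y) := by
        conv_lhs => rw [h1]
        rw [hSL3, hSL4, map_smul, map_smul, h3, smul_eq_mul, smul_eq_mul]
      rw [h4, inner_self_eq_norm_sq_to_K, ht, Complex.conj_ofReal]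
      simp only [Complex.coe_algebraMap]
      ring
  have hinv5 : ∀ (y : Linf W) (ξ η : H), m (SL y ξ η) = ⟪η, ξ⟫_ℂ * m y := by
    intro y ξ η
    have h1 := hinv4 (ξ + η) y
    have h2 := hinv4 (ξ + Complex.I • η) y
    have h3 := hinv4 ξ y
    have h4 := hinv4 η y
    rw [hSL1, hSL2, hSL2, map_add, map_add, map_add, inner_add_left, inner_add_right,
      inner_add_right, h3, h4] at h1
    rw [hSL1, hSL2, hSL2, hSL3, hSL3, hSL4, hSL4, map_add, map_add, map_add, map_smul, map_smul,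
      map_smul, map_smul, inner_add_left, inner_add_right,
      inner_add_right, inner_smul_left, inner_smul_left, inner_smul_right, inner_smul_right,
      h3, h4, Complex.conj_I, smul_eq_mul, smul_eq_mul, smul_eq_mul, smul_eq_mul] at h2
    have hI : Complex.I * Complex.I = -1 := Complex.I_mul_I
    have h5 : m (SL y ξ η) + m (SL y η ξ) = ⟪ξ, η⟫_ℂ * m y + ⟪η, ξ⟫_ℂ * m y := by
      linear_combination h1
    have h6 : -Complex.I * m (SL y ξ η) + Complex.I * m (SL y η ξ) =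
        Complex.I * ⟪ξ, η⟫_ℂ * m y - Complex.I * ⟪η, ξ⟫_ℂ * m y := by
      linear_combination h2
    have h7 : m (SL y ξ η) - m (SL y η ξ) = -⟪ξ, η⟫_ℂ * m y + ⟪η, ξ⟫_ℂ * m y := by
      linear_combination Complex.I * h6 + (m (SL y ξ η) - m (SL y η ξ) + ⟪ξ, η⟫_ℂ * m y -
        ⟪η, ξ⟫_ℂ * m y) * hI
    linear_combination (1 / 2 : ℂ) * h5 + (1 / 2 : ℂ) * h7
  refine ⟨m, ?_, ?_, ?_⟩
  · intro y
    exact ge_of_tendsto' (hm (star y * y)) fun n => av_pos (v n) (y : H →L[ℂ] H)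
  · refine tendsto_nhds_unique (hm 1) ?_
    refine tendsto_const_nhds.congr fun n => ?_
    exact (av_one (v n)).symm
  · intro ξ η y z hz
    have h1 : z = SL y ξ η := Subtype.ext hz
    rw [h1]
    exact hinv5 y ξ η

private theorem exists_unit_vec (C : UniversalAlgebra W A) : ∃ ξ₀ : H, ‖ξ₀‖ = 1 := by
  obtain ⟨f, hf, hs⟩ := exists_L C
  by_contra hcon
  push Not at hcon
  have h0 : ∀ ξ : H, ξ = 0 := by
    intro ξ
    by_contra hξ
    have hn : ‖ξ‖ ≠ 0 := norm_ne_zero_iff.2 hξ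
    apply hcon ((((‖ξ‖⁻¹ : ℝ) : ℂ)) • ξ)
    rw [norm_smul, Complex.norm_real, norm_inv, norm_norm, inv_mul_cancel₀ hn]
  have h1 : ∀ ξ η : H, vecF (reduce C) ξ η = 0 := by
    intro ξ η
    ext a
    rw [vecF_apply, h0 η, inner_zero_left]
    rfl
  have h2 : (Submodule.span ℂ (Set.range fun p : H × H => vecF (reduce C) p.1 p.2)) = ⊥ := by
    rw [Submodule.span_eq_bot]
    rintro _ ⟨p, rfl⟩
    exact h1 _ _
  rw [L1_eq, h2] at hf
  have h3 : f = 0 := by
    have h4 : (f : A →L[ℂ] ℂ) ∈ closure ((⊥ : Submodule ℂ (A →L[ℂ] ℂ)) : Set (A →L[ℂ] ℂ)) := hf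
    have h5 : IsClosed ((⊥ : Submodule ℂ (A →L[ℂ] ℂ)) : Set (A →L[ℂ] ℂ)) := isClosed_singleton
    rw [h5.closure_eq] at h4
    exact h4
  have h4 := hs.2
  rw [h3, norm_zero] at h4
  exact zero_ne_one h4

theorem exists_seq (C : UniversalAlgebra W A) {μ : NNReal → (A →L[ℂ] ℂ)}
    (hμ : GoodSemigroup C μ) : ∃ v : ℕ → AVec H,
    ∀ ξ : H, ‖ξ‖ = 1 → Tendsto (fun n => ‖(vecF (reduce C) ξ ξ).comp
      (rOp C (amplF C (v n).z (v n).z)) - amplF C (v n).z (v n).z‖) atTop (𝓝 0) := by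
  obtain ⟨ξ₀, hξ₀⟩ := exists_unit_vec C
  obtain ⟨hst, _, _, _, _, hasy⟩ := hμ
  set ω₀ : A →L[ℂ] ℂ := vecF (reduce C) ξ₀ ξ₀ with hω₀
  have hω₀s : IsState ω₀ := isState_vecF (nondeg_reduce C) hξ₀
  have hcoefω₀ : coef C ω₀ = coefOp W.V ξ₀ ξ₀ :=
    (isCoef_coef C ω₀).unique (isCoef_vecF (U := regRep W) (reduce_x C) ξ₀ ξ₀)
  have hex : ∀ n : ℕ, ∃ v : AVec H, amplF C v.z v.z = (μ n).comp (rOp C ω₀) := by
    intro n
    obtain ⟨R, k, hk, hμn⟩ := exists_gns (hst n)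
    obtain ⟨U, hU⟩ := C.ofRep R.K R.π R.nd
    have hnorm : ‖star U.U (tp ξ₀ k)‖ = 1 := by
      have h1 : star U.U ∈ unitary (HT H R.K →L[ℂ] HT H R.K) := Unitary.star_mem U.unitary
      rw [norm_unitary_apply h1, norm_tp, hξ₀, hk, one_mul]
    refine ⟨⟨R.K, star U.U (tp ξ₀ k), hnorm⟩, ?_⟩
    have h1 : IsCoef C ((μ n).comp (rOp C ω₀)) (coef C ω₀ * coef C (μ n)) := conv_coef C hω₀s
    have h2 : coef C (μ n) = coefOp U.U k k := by
      refine (isCoef_coef C _).unique ?_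
      rw [hμn]
      exact isCoef_vecF hU k k
    rw [hcoefω₀, h2] at h1
    refine IsCoef.inj (C := C) (b := coefOp W.V ξ₀ ξ₀ * coefOp U.U k k) ?_ h1
    intro α β
    rw [amplF_apply, reduce_x, fell U ξ₀ ξ₀ k k α β]
  choose v hv using hex
  refine ⟨v, ?_⟩
  intro ξ hξ
  set ω : A →L[ℂ] ℂ := vecF (reduce C) ξ ξ with hω
  have hωs : IsState ω := isState_vecF (nondeg_reduce C) hξ
  obtain ⟨κ, hκ1, hκ2⟩ := hasy ω (vecF_mem_L1 C ξ ξ) hωs
  have hκ3 : ∀ t, κ t = ω.comp (rOp C (μ t)) := by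
    intro t
    obtain ⟨b, c, hb, hc, hbc⟩ := hκ1 t
    refine IsCoef.inj (C := C) hbc ?_
    have h1 := conv_coef C (f := ω) (hst t)
    rw [(isCoef_coef C ω).unique hb, (isCoef_coef C (μ t)).unique hc] at h1
    exact h1
  have hκ4 : Tendsto (fun n : ℕ => ‖κ (n : NNReal) - μ (n : NNReal)‖) atTop (𝓝 0) :=
    hκ2.comp tendsto_natCast_atTop_atTop
  refine squeeze_zero (fun n => norm_nonneg _) (fun n => ?_) hκ4
  rw [hv]
  have h1 : rOp C ((μ n).comp (rOp C ω₀)) = rOp C (μ n) * rOp C ω₀ :=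
    (convSys C).T_mul (μ n) (hst n) ω₀ hω₀s
  have h2 : ω.comp (rOp C ((μ n).comp (rOp C ω₀))) - (μ n).comp (rOp C ω₀) =
      (κ n - μ n).comp (rOp C ω₀) := by
    rw [h1, hκ3]
    ext a
    simp
  rw [h2]
  refine (ContinuousLinearMap.opNorm_comp_le _ _).trans ?_
  exact mul_le_of_le_one_right (norm_nonneg _) (norm_rOp C hω₀s)

theorem amenable_of (C : UniversalAlgebra W A) {μ : NNReal → (A →L[ℂ] ℂ)}
    (hμ : GoodSemigroup C μ) : Amenable W := by
  obtain ⟨v, hv⟩ := exists_seq C hμ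
  exact amenable_of_seq C v hv

end QG753
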