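import Mathlib

/-!
# MP_753acd_an: recursive choice
-/

namespace QG753

/-- Dependent choice for conditions that only see the terms up to `n`. -/
theorem rec_choice {X : Type} [Nonempty X] (P : (ℕ → X) → ℕ → Prop)
    (hloc : ∀ p q n, (∀ i ≤ n, p i = q i) → P p n → P q n)
    (hex : ∀ p n, (∀ i < n, P p i) → ∃ x, P (Function.update p n x) n) :
    ∃ p : ℕ → X, ∀ n, P p n := by
  classical
  let F : (n : ℕ) → {f : ℕ → X // ∀ i < n, P f i} := fun n => Nat.rec
    (motive := fun n => {f : ℕ → X // ∀ i < n, P f i})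
    ⟨fun _ => Classical.arbitrary X, fun i hi => absurd hi (Nat.not_lt_zero i)⟩
    (fun n f => ⟨Function.update f.1 n (hex f.1 n f.2).choose, fun i hi => by
      rcases Nat.lt_succ_iff_lt_or_eq.1 hi with h | h
      · refine hloc f.1 _ i (fun j hj => ?_) (f.2 i h)
        rw [Function.update_of_ne (by omega)]
      · subst h
        exact (hex f.1 i f.2).choose_spec⟩) n
  have hF : ∀ n, (F (n + 1)).1 = Function.update (F n).1 n (hex (F n).1 n (F n).2).choose :=
    fun n => rfl
  have hst : ∀ i k, (F (i + 1 + k)).1 i = (F (i + 1)).1 i := by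
    intro i k
    induction k with
    | zero => rfl
    | succ k ih =>
      rw [show i + 1 + (k + 1) = (i + 1 + k) + 1 from rfl, hF,
        Function.update_of_ne (by omega), ih]
  refine ⟨fun i => (F (i + 1)).1 i, fun n => ?_⟩
  refine hloc (F (n + 1)).1 _ n (fun i hi => ?_) ((F (n + 1)).2 n (Nat.lt_succ_self n))
  obtain ⟨k, rfl⟩ := Nat.exists_eq_add_of_le hi
  have h := hst i k
  rw [show i + 1 + k = i + k + 1 by omega] at h
  exact h

end QG753
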