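import Pool.Agent.Lib.QG753.Stage
import Pool.Agent.Lib.QG753.RecChoice

/-!
# MP_753acd_an: the whole sequence of choices

PROOF. `rec_choice` with `P = Q.Cond g a nu`. Locality: all the operators `ev k n` with `k ≤ n` only
see indices `< n` (`ev_congr`). Existence of the next term: `exists_alpha` (with `δ = (1/2)^n`)
gives `α n`; `I.wit` for the finite set of the indices of `ν 0, .., ν (n-1)` gives `w n`;
`exists_nuI` (with `δ = eta n`, after updating `α`, `w` at `n`) gives `ν n = nu r`.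
-/

open Filter Topology

noncomputable section

namespace QG753

namespace ConvSys

variable {A : Type} [NormedAddCommGroup A] [NormedSpace ℂ A] [CompleteSpace A] (Q : ConvSys A)
  {g : ℕ → (A →L[ℂ] ℂ)} {a : ℕ → A} {nu : ℕ → (A →L[ℂ] ℂ)}

/-- the conditions at stage `n` only see the terms up to `n` -/
private theorem cond_local (p q : ℕ → (A →L[ℂ] ℂ) × A × (A →L[ℂ] ℂ)) (n : ℕ)
    (hpq : ∀ i ≤ n, p i = q i) (h : Q.Cond g a nu p n) : Q.Cond g a nu q n := by
  have hn : p n = q n := hpq n le_rfl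
  have hev : ∀ k ≤ n, ∀ s, Q.ev (fun i => (q i).1) (fun i => (q i).2.2) k n s =
      Q.ev (fun i => (p i).1) (fun i => (p i).2.2) k n s := fun k hk s =>
    Q.ev_congr (fun i hi => by rw [hpq i (by omega)]) (fun m hm => by rw [hpq m (by omega)]) s
  refine ⟨?_, ?_, ?_, ?_, ?_, ?_, ?_, ?_, ?_, ?_⟩
  · rw [← hn]
    exact h.α_mem
  · rw [← hn]
    exact h.ν_mem
  · intro k hk j hj s hs
    rw [hev k hk, ← hn]
    exact h.condA k hk j hj s hs
  · rw [← hn]
    exact h.w_norm
  · rw [← hn]
    exact h.w_e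
  · rw [← hn]
    exact h.w_St
  · intro m hm
    rw [← hn, ← hpq m hm.le]
    exact h.w_ν m hm
  · intro k hk i hi s hs
    rw [hev k hk, ← hn, ← hpq i hi]
    exact h.condB k hk i hi s hs
  · intro j hj s hs
    rw [hev n le_rfl, ← hn]
    exact h.condC j hj s hs
  · intro j hj s hs
    rw [hev n le_rfl, ← hn, ← hpq j hj]
    exact h.condD j hj s hs

theorem exists_choices (I : Q.Inputs g a nu) :
    ∃ p : ℕ → (A →L[ℂ] ℂ) × A × (A →L[ℂ] ℂ), ∀ n, Q.Cond g a nu p n := by
  refine rec_choice (fun p n => Q.Cond g a nu p n) (fun p q n => Q.cond_local p q n) ?_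
  intro p n hp
  have hα : ∀ i < n, (fun i => (p i).1) i ∈ Q.L := fun i hi => (hp i hi).α_mem
  have hν : ∀ m < n, (fun i => (p i).2.2) m ∈ Q.St := fun m hm => by
    obtain ⟨r, hr⟩ := (hp m hm).ν_mem
    show (p m).2.2 ∈ Q.St
    rw [hr]
    exact I.nu_mem r
  obtain ⟨β, hβ, hA⟩ := Q.exists_alpha I (fun i => (p i).1) (fun i => (p i).2.2) n hα hν
    (show (0 : ℝ) < (1 / 2) ^ n by positivity)
  have hr : ∀ m, ∃ r : ℕ, m < n → (p m).2.2 = nu r := fun m => by
    by_cases hm : m < n
    · obtain ⟨r, hr⟩ := (hp m hm).ν_mem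
      exact ⟨r, fun _ => hr⟩
    · exact ⟨0, fun h => absurd h hm⟩
  choose r hr using hr
  obtain ⟨w, hw1, hw2, hw3, hw4⟩ := I.wit ((Finset.range n).image r)
  obtain ⟨b, hB, hC, hD⟩ := Q.exists_nuI I (Function.update (fun i => (p i).1) n β)
    (fun i => (p i).2.2) (Function.update (fun i => (p i).2.1) n w) n (by
      intro i hi
      by_cases h : i = n
      · rw [h, Function.update_self]
        exact hβ
      · rw [Function.update_of_ne h]
        exact hα i (by omega)) hν (eta_pos n)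
  refine ⟨(β, w, nu b), ?_⟩
  set q : ℕ → (A →L[ℂ] ℂ) × A × (A →L[ℂ] ℂ) := Function.update p n (β, w, nu b) with hq
  have hqn : q n = (β, w, nu b) := Function.update_self _ _ _
  have hqi : ∀ i, i ≠ n → q i = p i := fun i hi => Function.update_of_ne hi _ _
  have hq1 : ∀ i, (q i).1 = Function.update (fun i => (p i).1) n β i := fun i => by
    by_cases h : i = n
    · rw [h, hqn, Function.update_self]
    · rw [hqi i h, Function.update_of_ne h]
  have hq2 : ∀ i, (q i).2.1 = Function.update (fun i => (p i).2.1) n w i := fun i => by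
    by_cases h : i = n
    · rw [h, hqn, Function.update_self]
    · rw [hqi i h, Function.update_of_ne h]
  have hev0 : ∀ k ≤ n, ∀ s, Q.ev (fun i => (q i).1) (fun i => (q i).2.2) k n s =
      Q.ev (fun i => (p i).1) (fun i => (p i).2.2) k n s := fun k hk s =>
    Q.ev_congr (fun i hi => by rw [hqi i (by omega)]) (fun m hm => by rw [hqi m (by omega)]) s
  have hev1 : ∀ k ≤ n, ∀ s, Q.ev (fun i => (q i).1) (fun i => (q i).2.2) k n s =
      Q.ev (Function.update (fun i => (p i).1) n β) (fun i => (p i).2.2) k n s := fun k hk s =>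
    Q.ev_congr (fun i _ => hq1 i) (fun m hm => by rw [hqi m (by omega)]) s
  refine ⟨?_, ?_, ?_, ?_, ?_, ?_, ?_, ?_, ?_, ?_⟩
  · rw [hqn]
    exact hβ
  · rw [hqn]
    exact ⟨b, rfl⟩
  · intro k hk j hj s hs
    rw [hev0 k hk, hqn]
    exact hA k hk j hj s hs
  · rw [hqn]
    exact hw1
  · rw [hqn]
    exact hw2
  · rw [hqn]
    exact hw3
  · intro m hm
    rw [hqi m (by omega), hqn, hr m hm]
    exact hw4 (r m) (Finset.mem_image_of_mem _ (Finset.mem_range.2 hm))
  · intro k hk i hi s hs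
    rw [hev1 k hk, hqn, hq1 i]
    exact hB k hk i hi s hs
  · intro j hj s hs
    rw [hev1 n le_rfl, hqn]
    exact hC j hj s hs
  · intro j hj s hs
    rw [hev1 n le_rfl, hqn, hq2 j]
    exact hD j hj s hs

end ConvSys

end QG753
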