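import Mathlib

/-!
# MP_753acd_an: abstract convolution systems

`ConvSys A` collects what the semigroup construction uses of a quantum group: states and
`L¹`-states as functionals on a Banach space `A`, and the two commuting families of operators
`T f = (id ⊗ f) ∘ Δ`, `S f = (f ⊗ id) ∘ Δ`.  The convolution is `f ⋆ g = f ∘ T g = g ∘ S f`.
-/

open Filter Topology

noncomputable section

namespace QG753

/-- Abstract convolution system. -/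
structure ConvSys (A : Type) [NormedAddCommGroup A] [NormedSpace ℂ A] where
  /-- states -/
  St : Set (A →L[ℂ] ℂ)
  /-- states in `L¹` -/
  L : Set (A →L[ℂ] ℂ)
  /-- right convolution operators -/
  T : (A →L[ℂ] ℂ) → (A →L[ℂ] A)
  /-- left convolution operators -/
  S : (A →L[ℂ] ℂ) → (A →L[ℂ] A)
  /-- the counit -/
  e : A →L[ℂ] ℂ
  e_mem : e ∈ St
  norm_eq : ∀ f ∈ St, ‖f‖ = 1
  convex_St : Convex ℝ St
  limit_St : ∀ (u : ℕ → (A →L[ℂ] ℂ)) (f : A →L[ℂ] ℂ), (∀ n, u n ∈ St) →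
    (∀ a, Tendsto (fun n => u n a) atTop (𝓝 (f a))) → ‖f‖ = 1 → f ∈ St
  L_sub : L ⊆ St
  convex_L : Convex ℝ L
  closed_L : IsClosed L
  nonempty_L : L.Nonempty
  norm_T : ∀ f ∈ St, ‖T f‖ ≤ 1
  norm_S : ∀ f ∈ St, ‖S f‖ ≤ 1
  T_e : T e = 1
  T_mul : ∀ f ∈ St, ∀ g ∈ St, T (f.comp (T g)) = T f * T g
  e_T : ∀ f ∈ St, e.comp (T f) = f
  e_S : ∀ f ∈ St, e.comp (S f) = f
  comm : ∀ f ∈ St, ∀ g ∈ St, (T f).comp (S g) = (S g).comp (T f)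
  conv_St : ∀ f ∈ St, ∀ g ∈ St, f.comp (T g) ∈ St
  conv_L : ∀ f ∈ St, ∀ g ∈ L, f.comp (T g) ∈ L

namespace ConvSys

variable {A : Type} [NormedAddCommGroup A] [NormedSpace ℂ A] (Q : ConvSys A)

/-- Admissible operators: contractions commuting with all left convolutions and mapping states to
states. -/
def Adm : Set (A →L[ℂ] A) :=
  {X | ‖X‖ ≤ 1 ∧ (∀ f ∈ Q.St, X.comp (Q.S f) = (Q.S f).comp X) ∧ ∀ f ∈ Q.St, f.comp X ∈ Q.St}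

theorem T_mem_Adm {f : A →L[ℂ] ℂ} (hf : f ∈ Q.St) : Q.T f ∈ Q.Adm :=
  ⟨Q.norm_T f hf, fun g hg => Q.comm f hf g hg, fun g hg => Q.conv_St g hg f hf⟩

theorem one_mem_Adm : (1 : A →L[ℂ] A) ∈ Q.Adm := by
  rw [← Q.T_e]; exact Q.T_mem_Adm Q.e_mem

theorem mul_mem_Adm {X Y : A →L[ℂ] A} (hX : X ∈ Q.Adm) (hY : Y ∈ Q.Adm) : X * Y ∈ Q.Adm := by
  refine ⟨?_, ?_, ?_⟩
  · refine (norm_mul_le X Y).trans ?_
    nlinarith [hX.1, hY.1, norm_nonneg X, norm_nonneg Y]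
  · intro f hf
    change (X.comp Y).comp (Q.S f) = (Q.S f).comp (X.comp Y)
    rw [ContinuousLinearMap.comp_assoc, hY.2.1 f hf, ← ContinuousLinearMap.comp_assoc,
      hX.2.1 f hf, ContinuousLinearMap.comp_assoc]
  · intro f hf
    exact hY.2.2 _ (hX.2.2 f hf)

/-- For admissible `X`, `f ∘ X = (e ∘ X) ∘ S f`. -/
theorem comp_Adm {X : A →L[ℂ] A} (hX : X ∈ Q.Adm) {f : A →L[ℂ] ℂ} (hf : f ∈ Q.St) :
    f.comp X = (Q.e.comp X).comp (Q.S f) := by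
  rw [ContinuousLinearMap.comp_assoc, hX.2.1 f hf, ← ContinuousLinearMap.comp_assoc,
    Q.e_S f hf]

/-- `(σ ∘ T ν) ∘ Y - σ ∘ Y = (ν ∘ Y - e ∘ Y) ∘ S σ`. -/
theorem conv_sub {Y : A →L[ℂ] A} (hY : Y ∈ Q.Adm) {σ ν : A →L[ℂ] ℂ} (hσ : σ ∈ Q.St)
    (hν : ν ∈ Q.St) :
    σ.comp ((Q.T ν - 1) * Y) = (ν.comp Y - Q.e.comp Y).comp (Q.S σ) := by
  have h1 : σ.comp ((Q.T ν - 1) * Y) = (σ.comp (Q.T ν)).comp Y - σ.comp Y := by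
    ext a; simp
  have h2 : ν.comp (Q.S σ) = σ.comp (Q.T ν) := by
    rw [← Q.e_T ν hν, ContinuousLinearMap.comp_assoc, Q.comm ν hν σ hσ,
      ← ContinuousLinearMap.comp_assoc, Q.e_S σ hσ, Q.e_T ν hν]
  rw [h1, ← h2, Q.comp_Adm hY hσ, ContinuousLinearMap.comp_assoc ν, ← hY.2.1 σ hσ,
    ← ContinuousLinearMap.comp_assoc]
  ext a; simp

theorem norm_conv_sub_le {Y : A →L[ℂ] A} (hY : Y ∈ Q.Adm) {σ ν : A →L[ℂ] ℂ} (hσ : σ ∈ Q.St)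
    (hν : ν ∈ Q.St) : ‖σ.comp ((Q.T ν - 1) * Y)‖ ≤ ‖(ν - Q.e).comp Y‖ := by
  rw [Q.conv_sub hY hσ hν]
  have h : ν.comp Y - Q.e.comp Y = (ν - Q.e).comp Y := by ext a; simp
  rw [h]
  refine (ContinuousLinearMap.opNorm_comp_le _ _).trans ?_
  exact mul_le_of_le_one_right (norm_nonneg _) (Q.norm_S σ hσ)

/-- The bounded generator with the first `n` members of `ν` and the first `k` members of `α`. -/
def gen (α ν : ℕ → (A →L[ℂ] ℂ)) (k n : ℕ) : A →L[ℂ] A :=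
  (∑ m ∈ Finset.range n, (Q.T (ν m) - 1)) +
    ∑ i ∈ Finset.range k, ((1 / 2 : ℝ) ^ (i + 1)) • (Q.T (α i) - 1)

/-- The norm continuous semigroup generated by `gen`. -/
def ev (α ν : ℕ → (A →L[ℂ] ℂ)) (k n : ℕ) (t : ℝ) : A →L[ℂ] A :=
  NormedSpace.exp (t • Q.gen α ν k n)

/-- time horizon -/
def tau (n : ℕ) : ℝ := (n + 1) * 2 ^ (n + 2)

/-- smallness at stage `n` -/
def eta (n : ℕ) : ℝ := (1 / 2) ^ n / (4 * (tau n + 1))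

/-- The conditions on the choices `p n = (α n, w n, ν n)` made at stage `n`; `g` is a dense
sequence of `L¹`-states, `a` a dense sequence in `A`, `nu` a given sequence of states. -/
structure Cond (g : ℕ → (A →L[ℂ] ℂ)) (a : ℕ → A) (nu : ℕ → (A →L[ℂ] ℂ))
    (p : ℕ → (A →L[ℂ] ℂ) × A × (A →L[ℂ] ℂ)) (n : ℕ) : Prop where
  α_mem : (p n).1 ∈ Q.L
  ν_mem : ∃ i, (p n).2.2 = nu i
  condA : ∀ k ≤ n, ∀ j ≤ n, ∀ s ∈ Set.Icc (0 : ℝ) (tau n),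
    ‖(g j - Q.e).comp (Q.ev (fun i => (p i).1) (fun i => (p i).2.2) k n s * Q.T (p n).1)‖ ≤
      (1 / 2) ^ n
  w_norm : ‖(p n).2.1‖ ≤ 1
  w_e : Q.e (p n).2.1 = 1
  w_St : ∀ f ∈ Q.St, 0 ≤ (f (p n).2.1).re ∧ (f (p n).2.1).re ≤ 1
  w_ν : ∀ m < n, ((p m).2.2 (p n).2.1).re ≤ 1 / 10
  condB : ∀ k ≤ n, ∀ i ≤ n, ∀ s ∈ Set.Icc (0 : ℝ) (tau n),
    ‖((p n).2.2 - Q.e).comp
      (Q.ev (fun i => (p i).1) (fun i => (p i).2.2) k n s * Q.T (p i).1)‖ ≤ eta n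
  condC : ∀ j ≤ n, ∀ s ∈ Set.Icc (0 : ℝ) (tau n),
    ‖(Q.T (p n).2.2 - 1) (Q.ev (fun i => (p i).1) (fun i => (p i).2.2) n n s (a j))‖ ≤ eta n
  condD : ∀ j ≤ n, ∀ s ∈ Set.Icc (0 : ℝ) (tau n),
    ‖(Q.T (p n).2.2 - 1) (Q.ev (fun i => (p i).1) (fun i => (p i).2.2) n n s (p j).2.1)‖ ≤ eta n

/-- What the construction needs from non-(T) and amenability. -/
structure Inputs (g : ℕ → (A →L[ℂ] ℂ)) (a : ℕ → A) (nu : ℕ → (A →L[ℂ] ℂ)) : Prop where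
  g_mem : ∀ j, g j ∈ Q.L
  g_dense : Q.L ⊆ closure (Set.range g)
  a_dense : DenseRange a
  nu_mem : ∀ i, nu i ∈ Q.St
  nu_T : ∀ x, Tendsto (fun i => Q.T (nu i) x) atTop (𝓝 x)
  nu_L : ∀ f ∈ Q.L, Tendsto (fun i => ‖(nu i).comp (Q.T f) - f‖) atTop (𝓝 0)
  wit : ∀ F : Finset ℕ, ∃ w : A, ‖w‖ ≤ 1 ∧ Q.e w = 1 ∧
    (∀ f ∈ Q.St, 0 ≤ (f w).re ∧ (f w).re ≤ 1) ∧ ∀ i ∈ F, (nu i w).re ≤ 1 / 10
  reiter : ∀ F : Finset (A →L[ℂ] ℂ), (∀ f ∈ F, f ∈ Q.L) → ∀ δ : ℝ, 0 < δ →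
    ∃ α ∈ Q.L, ∀ f ∈ F, ‖f.comp (Q.T α) - α‖ ≤ δ

/-- `f ∘ T g = g ∘ S f`. -/
theorem TS {f g : A →L[ℂ] ℂ} (hf : f ∈ Q.St) (hg : g ∈ Q.St) :
    f.comp (Q.T g) = g.comp (Q.S f) := by
  rw [Q.comp_Adm (Q.T_mem_Adm hg) hf, Q.e_T g hg]

/-- For admissible `Y` with `y = e ∘ Y`: `(ν - e) ∘ Y = ν ∘ T y - y`. -/
theorem sub_comp_Adm {Y : A →L[ℂ] A} (hY : Y ∈ Q.Adm) {ν : A →L[ℂ] ℂ} (hν : ν ∈ Q.St) :
    (ν - Q.e).comp Y = ν.comp (Q.T (Q.e.comp Y)) - Q.e.comp Y := by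
  rw [Q.TS hν (hY.2.2 _ Q.e_mem), ← Q.comp_Adm hY hν]
  ext a; simp

end ConvSys

end QG753
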