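import Pool.Agent.Lib.QG753.ExtOp
import Pool.Agent.Lib.QG753.L1Facts
import Pool.Agent.Lib.QG753.ConvSys

/-!
# MP_753acd_an: the convolution system of a quantum group

PROOFS. Everything is checked on the slices `x α β` (`clm_ext_x`), where
`rOp C f (x α β) = x α (b* β)`, `lOp C f (x α β) = x (b α) β`, `b = coef C f`.
`conv_coef`: both `f ∘ rOp C g` and `g ∘ lOp C f` have coefficient `coef C g * coef C f`.
`conv_state`: `exists_conv` and `IsCoef.inj`. `L1_comp_lOp`: write `f = vecF R.π k k` (`exists_gns`),
`U` from `C.ofRep`, so `coef C f = coefOp U k k` (`isCoef_vecF`, `IsCoef.unique`), and `L1_comp`.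
`exists_L`: `vecF (reduce C) ξ ξ` for a unit vector `ξ`; if `H` had no unit vector, `A` would be `0`
(dense span of the `x α β`), but `A` has the counit, a state of norm `1`.
-/

open scoped TensorProduct ComplexOrder InnerProductSpace
open ContinuousLinearMap Filter Topology

noncomputable section

namespace QG753

variable {H : Type} [NormedAddCommGroup H] [InnerProductSpace ℂ H] [CompleteSpace H]
  {W : MultUnitary H} {A : Type} [NonUnitalCStarAlgebra A]

open scoped Classical in
/-- `T f = (id ⊗ f) ∘ Δ`. -/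
def rOp (C : UniversalAlgebra W A) (f : A →L[ℂ] ℂ) : A →L[ℂ] A :=
  if h : IsState f then (exists_rOp C h).choose else 0

open scoped Classical in
/-- `S f = (f ⊗ id) ∘ Δ`. -/
def lOp (C : UniversalAlgebra W A) (f : A →L[ℂ] ℂ) : A →L[ℂ] A :=
  if h : IsState f then (exists_lOp C h).choose else 0

theorem norm_rOp (C : UniversalAlgebra W A) {f : A →L[ℂ] ℂ} (hf : IsState f) :
    ‖rOp C f‖ ≤ 1 := by
  rw [rOp, dif_pos hf]; exact (exists_rOp C hf).choose_spec.1

theorem rOp_x (C : UniversalAlgebra W A) {f : A →L[ℂ] ℂ} (hf : IsState f) (α β : H) :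
    rOp C f (C.x α β) = C.x α (adjoint (coef C f) β) := by
  rw [rOp, dif_pos hf]; exact (exists_rOp C hf).choose_spec.2 α β

theorem norm_lOp (C : UniversalAlgebra W A) {f : A →L[ℂ] ℂ} (hf : IsState f) :
    ‖lOp C f‖ ≤ 1 := by
  rw [lOp, dif_pos hf]; exact (exists_lOp C hf).choose_spec.1

theorem lOp_x (C : UniversalAlgebra W A) {f : A →L[ℂ] ℂ} (hf : IsState f) (α β : H) :
    lOp C f (C.x α β) = C.x (coef C f α) β := by
  rw [lOp, dif_pos hf]; exact (exists_lOp C hf).choose_spec.2 α β

/-- The counit. -/
def counit (C : UniversalAlgebra W A) : A →L[ℂ] ℂ := (exists_counit C).choose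

theorem isState_counit (C : UniversalAlgebra W A) : IsState (counit C) :=
  (exists_counit C).choose_spec.1

theorem counit_x (C : UniversalAlgebra W A) (α β : H) : counit C (C.x α β) = ⟪β, α⟫_ℂ :=
  (exists_counit C).choose_spec.2.1 α β

theorem counit_mul (C : UniversalAlgebra W A) (a b : A) :
    counit C (a * b) = counit C a * counit C b := (exists_counit C).choose_spec.2.2.1 a b

theorem counit_star (C : UniversalAlgebra W A) (a : A) :
    counit C (star a) = star (counit C a) := (exists_counit C).choose_spec.2.2.2 a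

theorem coef_counit (C : UniversalAlgebra W A) : coef C (counit C) = 1 := by
  refine (isCoef_coef C _).unique ?_
  intro α β
  rw [counit_x]; rfl

theorem conv_coef (C : UniversalAlgebra W A) {f g : A →L[ℂ] ℂ} (hg : IsState g) :
    IsCoef C (f.comp (rOp C g)) (coef C g * coef C f) := by
  intro α β
  rw [ContinuousLinearMap.comp_apply, rOp_x C hg, isCoef_coef C f,
    ContinuousLinearMap.adjoint_inner_left]
  rfl

theorem conv_coef' (C : UniversalAlgebra W A) {f g : A →L[ℂ] ℂ} (hf : IsState f) :
    IsCoef C (g.comp (lOp C f)) (coef C g * coef C f) := by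
  intro α β
  rw [ContinuousLinearMap.comp_apply, lOp_x C hf, isCoef_coef C g]
  rfl

theorem conv_state (C : UniversalAlgebra W A) {f g : A →L[ℂ] ℂ} (hf : IsState f)
    (hg : IsState g) : IsState (f.comp (rOp C g)) := by
  obtain ⟨κ, h1, h2⟩ := exists_conv C hf hg
  rw [(conv_coef C (f := f) hg).inj h2]
  exact h1

theorem L1_comp_lOp (C : UniversalAlgebra W A) {f g : A →L[ℂ] ℂ} (hf : IsState f)
    (hg : g ∈ L1 C) : g.comp (lOp C f) ∈ L1 C := by
  obtain ⟨R, k, hk, hfk⟩ := exists_gns hf
  obtain ⟨U, hU⟩ := C.ofRep R.K R.π R.nd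
  have hc : coef C f = coefOp U.U k k := by
    refine (isCoef_coef C f).unique ?_
    rw [hfk]
    exact isCoef_vecF hU k k
  refine L1_comp C hg U k k fun α β => ?_
  rw [lOp_x C hf, hc]

theorem exists_L (C : UniversalAlgebra W A) : ∃ f ∈ L1 C, IsState f := by
  by_cases h : ∃ ξ : H, ξ ≠ 0
  · obtain ⟨ξ₀, hξ₀⟩ := h
    obtain ⟨ξ, hξ⟩ : ∃ ξ : H, ‖ξ‖ = 1 := by
      refine ⟨((‖ξ₀‖⁻¹ : ℝ) : ℂ) • ξ₀, ?_⟩
      rw [norm_smul, Complex.norm_real, norm_inv, norm_norm]
      exact inv_mul_cancel₀ (norm_ne_zero_iff.2 hξ₀)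
    exact ⟨vecF (reduce C) ξ ξ, vecF_mem_L1 C ξ ξ, isState_vecF (nondeg_reduce C) hξ⟩
  · exfalso
    push Not at h
    have h1 : counit C = 0 := by
      refine clm_ext_x C fun α β => ?_
      rw [counit_x, h α, inner_zero_right]
      rfl
    have h2 := (isState_counit C).2
    rw [h1, norm_zero] at h2
    exact zero_ne_one h2

theorem coef_convex (C : UniversalAlgebra W A) (f g : A →L[ℂ] ℂ) (s t : ℝ) :
    coef C (s • f + t • g) = s • coef C f + t • coef C g := by
  refine (isCoef_coef C _).unique ?_
  intro α β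
  have h1 := isCoef_coef C f α β
  have h2 := isCoef_coef C g α β
  simp only [ContinuousLinearMap.add_apply, ContinuousLinearMap.smul_apply, h1, h2,
    inner_add_right]
  congr 1
  · rw [← Complex.coe_smul, ← Complex.coe_smul, inner_smul_right]; rfl
  · rw [← Complex.coe_smul, ← Complex.coe_smul, inner_smul_right]; rfl

/-- The convolution system of `G`. -/
def convSys (C : UniversalAlgebra W A) : ConvSys A where
  St := {f | IsState f}
  L := {f | f ∈ L1 C ∧ IsState f}
  T := rOp C
  S := lOp C
  e := counit C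
  e_mem := isState_counit C
  norm_eq := fun f hf => hf.2
  convex_St := by
    intro f hf g hg s t hs ht hst
    exact convex_state hf hg hs ht hst
  limit_St := fun u f hu h hf => isState_of_tendsto hu h hf
  L_sub := fun f hf => hf.2
  convex_L := by
    intro f hf g hg s t hs ht hst
    refine ⟨?_, convex_state hf.2 hg.2 hs ht hst⟩
    have key : ∀ (r : ℝ) (h : A →L[ℂ] ℂ), h ∈ L1 C → r • h ∈ L1 C := by
      intro r h hh
      have h1 : r • h = (r : ℂ) • h := by
        ext a; simp
      rw [h1]; exact Submodule.smul_mem _ _ hh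
    exact Submodule.add_mem _ (key s f hf.1) (key t g hg.1)
  closed_L := by
    refine IsSeqClosed.isClosed ?_
    intro u f hu h
    have h1 : f ∈ L1 C :=
      (Submodule.isClosed_topologicalClosure _).mem_of_tendsto h
        (Eventually.of_forall fun n => (hu n).1)
    have h2 : ‖f‖ = 1 := by
      have h3 := h.norm
      have h4 : (fun n => ‖u n‖) = fun _ => (1 : ℝ) := funext fun n => (hu n).2.2
      rw [h4] at h3
      exact tendsto_nhds_unique h3 tendsto_const_nhds
    refine ⟨h1, isState_of_tendsto (u := u) (fun n => (hu n).2) ?_ h2⟩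
    intro a
    exact (ContinuousLinearMap.apply ℂ ℂ a).continuous.tendsto f |>.comp h
  nonempty_L := by
    obtain ⟨f, h1, h2⟩ := exists_L C
    exact ⟨f, h1, h2⟩
  norm_T := fun f hf => norm_rOp C hf
  norm_S := fun f hf => norm_lOp C hf
  T_e := by
    apply clm_ext_x C
    intro α β
    rw [rOp_x C (isState_counit C), coef_counit, ← ContinuousLinearMap.star_eq_adjoint, star_one]
    rfl
  T_mul := by
    intro f hf g hg
    apply clm_ext_x C
    intro α β
    rw [rOp_x C (conv_state C hf hg), (isCoef_coef C _).unique (conv_coef C (f := f) hg),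
      mul_apply_eq_comp, rOp_x C hg, rOp_x C hf]
    congr 1
    change adjoint ((coef C g).comp (coef C f)) β = _
    rw [ContinuousLinearMap.adjoint_comp]
    rfl
  e_T := by
    intro f hf
    refine (conv_coef C (f := counit C) hf).inj ?_
    rw [coef_counit, mul_one]
    exact isCoef_coef C f
  e_S := by
    intro f hf
    refine (conv_coef' C (g := counit C) hf).inj ?_
    rw [coef_counit, one_mul]
    exact isCoef_coef C f
  comm := by
    intro f hf g hg
    apply clm_ext_x C
    intro α β
    rw [ContinuousLinearMap.comp_apply, ContinuousLinearMap.comp_apply, lOp_x C hg, rOp_x C hf,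
      rOp_x C hf, lOp_x C hg]
  conv_St := fun f hf g hg => conv_state C hf hg
  conv_L := by
    intro f hf g hg
    refine ⟨?_, conv_state C hf hg.2⟩
    rw [(conv_coef C (f := f) hg.2).inj (conv_coef' C (g := g) hf)]
    exact L1_comp_lOp C hf hg.1

end QG753
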