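import Pool.Agent.Lib.QG753.LinfComul
import Pool.Agent.Lib.QG753.Inst

/-!
# MP_753acd_an: convolution of a vector state with `amplF z z`

PROOFS. `inner_conv_amplF`: with `Y = V (y ⊗ 1) V*` the left side is
`⟪J_ξ' w, V₁₂ (y ⊗ 1) V₁₂* J_ξ z⟫ = ⟪J_ξ' w, Y₁₂ J_ξ z⟫` (`leg12_mul`, `leg12_opT`, `opT_one`,
`star_leg12`); for elementary tensors `z = ζ ⊗ k`, `w = ζ' ⊗ k'` it is
`⟪(ζ' ⊗ ξ'), Y (ζ ⊗ ξ)⟫ ⟪k', k⟫ = ⟪ζ', coefOp Y ξ ξ' ζ⟫ ⟪k', k⟫`; both sides are continuous and
sesquilinear; `slice_comul`.

`conv_amplF`: `IsCoef.inj`: at `x α β` the left side is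
`⟪β, coef (amplF z z) (b α)⟫ = amplF z z (x (b α) β) = ⟪z, (slice V (b α) β ⊗ 1) z⟫`,
`b = coef C (vecF Λ ξ ξ) = coefOp V ξ ξ`, the right side is
`⟪z, (slice (comul (slice V α β)) ξ ξ ⊗ 1) z⟫` by `inner_conv_amplF`; `slice_comul_slice`.

`isState_amplF`: positivity is clear (`opT` is multiplicative and `*`-preserving), `‖f‖ ≤ 1`, and
`f e → 1` along the approximate unit (`opT (reduce C e) 1 z → z`: elementary tensors, density).
-/

open scoped TensorProduct ComplexOrder InnerProductSpace
open ContinuousLinearMap Filter Topology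

noncomputable section

namespace QG753

variable {H : Type} [NormedAddCommGroup H] [InnerProductSpace ℂ H] [CompleteSpace H]
  {W : MultUnitary H} {A : Type} [NonUnitalCStarAlgebra A]
  {K : Type} [NormedAddCommGroup K] [InnerProductSpace ℂ K] [CompleteSpace K]

/-- `ζ ⊗ k ↦ ζ ⊗ (ξ ⊗ k)`. -/
def midT (K : Type) [NormedAddCommGroup K] [InnerProductSpace ℂ K] (ξ : H) :
    HT H K →L[ℂ] HT H (HT H K) := opT (ContinuousLinearMap.id ℂ H) (tpR K ξ)

/-- The amplification of the reducing morphism. -/
private def amplRep (C : UniversalAlgebra W A) (K : Type) [NormedAddCommGroup K]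
    [InnerProductSpace ℂ K] [CompleteSpace K] : A →⋆ₙₐ[ℂ] (HT H K →L[ℂ] HT H K) where
  toFun a := opT (reduce C a) 1
  map_smul' c a := by
    rw [map_smul, opT_smul_left]
    rfl
  map_zero' := by
    rw [map_zero]
    have h := opT_smul_left (0 : ℂ) (0 : H →L[ℂ] H) (1 : K →L[ℂ] K)
    rwa [zero_smul, zero_smul] at h
  map_add' a b := by
    rw [map_add, opT_add_left]
  map_mul' a b := by
    rw [map_mul, opT_mul, one_mul]
  map_star' a := by
    rw [map_star, star_opT, star_one]

private theorem amplRep_apply (C : UniversalAlgebra W A) (a : A) :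
    amplRep C K a = opT (reduce C a) 1 := rfl

private theorem nondeg_amplRep (C : UniversalAlgebra W A) : Nondeg (amplRep C K) := by
  set P := (Submodule.span ℂ (Set.range fun p : A × HT H K => amplRep C K p.1 p.2)) with hP
  have h1 : ∀ (η : H) (k : K), tp η k ∈ P.topologicalClosure := by
    intro η k
    have hcl : IsClosed {η : H | tp η k ∈ P.topologicalClosure} :=
      (P.isClosed_topologicalClosure).preimage (tpL H k).continuous
    have hs : (Submodule.span ℂ (Set.range fun p : A × H => reduce C p.1 p.2) : Set H) ⊆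
        {η : H | tp η k ∈ P.topologicalClosure} := by
      intro η hη
      induction hη using Submodule.span_induction with
      | mem x hx =>
        obtain ⟨p, rfl⟩ := hx
        refine P.le_topologicalClosure (Submodule.subset_span ⟨(p.1, tp p.2 k), ?_⟩)
        simp only [amplRep_apply, opT_tp]
        rfl
      | zero =>
        have : tp (0 : H) k = 0 := by
          have := tp_smul_left (0 : ℂ) (0 : H) k
          simpa using this
        simp only [Set.mem_ofPred_eq, this]
        exact Submodule.zero_mem _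
      | add x y _ _ hx hy =>
        simp only [Set.mem_ofPred_eq, tp_add_left] at *
        exact Submodule.add_mem _ hx hy
      | smul c x _ hx =>
        simp only [Set.mem_ofPred_eq, tp_smul_left] at *
        exact Submodule.smul_mem _ c hx
    have h2 : η ∈ closure (Submodule.span ℂ (Set.range fun p : A × H => reduce C p.1 p.2) :
        Set H) := by
      rw [(nondeg_reduce C).closure_eq]; trivial
    exact closure_minimal hs hcl h2
  have h2 : (Submodule.span ℂ (Set.range fun p : H × K => tp p.1 p.2)) ≤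
      P.topologicalClosure := by
    rw [Submodule.span_le]
    rintro _ ⟨p, rfl⟩
    exact h1 p.1 p.2
  have h3 := (span_tp_dense (H := H) (K := K))
  have h4 : (Submodule.span ℂ (Set.range fun p : H × K => tp p.1 p.2)).topologicalClosure ≤
      P.topologicalClosure :=
    Submodule.topologicalClosure_minimal _ h2 P.isClosed_topologicalClosure
  unfold Nondeg
  rw [Submodule.dense_iff_topologicalClosure_eq_top] at h3 ⊢
  rw [h3] at h4
  exact top_le_iff.1 h4

theorem isState_amplF (C : UniversalAlgebra W A) {z : HT H K} (hz : ‖z‖ = 1) :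
    IsState (amplF C z z) :=
  isState_vecF (nondeg_amplRep C) hz

theorem inner_conv_amplF (W : MultUnitary H) (y : H →L[ℂ] H) (z w : HT H K) (ξ ξ' : H) :
    ⟪star (leg12 K W.V) (midT K ξ' w), opT y 1 (star (leg12 K W.V) (midT K ξ z))⟫_ℂ =
      ⟪w, opT (slice (comul W y) ξ ξ') 1 z⟫_ℂ := by
  rw [slice_comul]
  set Y : HT H H →L[ℂ] HT H H := W.V * opT y 1 * star W.V with hY
  have h1 : leg12 K Y = leg12 K W.V * opT y 1 * star (leg12 K W.V) := by
    rw [hY, leg12_mul, leg12_mul, leg12_opT, opT_one, star_leg12]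
  have h2 : ⟪star (leg12 K W.V) (midT K ξ' w), opT y 1 (star (leg12 K W.V) (midT K ξ z))⟫_ℂ =
      ⟪midT K ξ' w, leg12 K Y (midT K ξ z)⟫_ℂ := by
    rw [h1, ContinuousLinearMap.star_eq_adjoint, ContinuousLinearMap.adjoint_inner_left]
    rfl
  have h3 : (adjoint (midT K ξ')).comp ((leg12 K Y).comp (midT K ξ)) =
      opT (coefOp Y ξ ξ') (1 : K →L[ℂ] K) := by
    apply clm_ext
    intro a k
    apply vec_ext
    intro b l
    rw [ContinuousLinearMap.comp_apply, ContinuousLinearMap.comp_apply,
      ContinuousLinearMap.adjoint_inner_right, opT_tp]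
    have e1 : midT K ξ (tp a k) = tp a (tp ξ k) := by simp [midT]
    have e2 : midT K ξ' (tp b l) = assocT H H K (tp (tp b ξ') l) := by simp [midT]
    rw [e1, e2, leg12_tp, ← ContinuousLinearMap.adjoint_inner_right, adjoint_assocT,
      assocTs_assocT, inner_tp, inner_tp, inner_coefOp]
    rfl
  rw [h2, ← h3, ContinuousLinearMap.comp_apply, ContinuousLinearMap.comp_apply,
    ContinuousLinearMap.adjoint_inner_right]

theorem conv_amplF (C : UniversalAlgebra W A) {z : HT H K} (hz : ‖z‖ = 1) (ξ : H) :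
    (vecF (reduce C) ξ ξ).comp (rOp C (amplF C z z)) =
      amplF C (star (leg12 K W.V) (midT K ξ z)) (star (leg12 K W.V) (midT K ξ z)) := by
  apply clm_ext_x C
  intro α β
  have hb : coef C (vecF (reduce C) ξ ξ) = coefOp W.V ξ ξ :=
    (isCoef_coef C _).unique (isCoef_vecF (U := regRep W) (reduce_x C) ξ ξ)
  have h1 := conv_coef C (f := vecF (reduce C) ξ ξ) (isState_amplF C hz) α β
  have h2 := isCoef_coef C (amplF C z z) (coefOp W.V ξ ξ α) β
  rw [h1, hb]
  have h3 : ⟪β, (coef C (amplF C z z) * coefOp W.V ξ ξ) α⟫_ℂ =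
      ⟪β, coef C (amplF C z z) (coefOp W.V ξ ξ α)⟫_ℂ := rfl
  rw [h3, ← h2, amplF_apply, amplF_apply, reduce_x, reduce_x, inner_conv_amplF,
    slice_comul_slice]

end QG753
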