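import Mathlib

/-!
# MP_753acd_an: definitions

Everything is expressed through the multiplicative unitary of the dual quantum group.
-/

open scoped TensorProduct ComplexOrder InnerProductSpace
open ContinuousLinearMap

noncomputable section

namespace QG753

section tensor

variable {H K L M : Type}
  [NormedAddCommGroup H] [InnerProductSpace ℂ H]
  [NormedAddCommGroup K] [InnerProductSpace ℂ K]
  [NormedAddCommGroup L] [InnerProductSpace ℂ L]
  [NormedAddCommGroup M] [InnerProductSpace ℂ M]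

/-- The Hilbert space tensor product of `H` and `K`. -/
abbrev HT (H K : Type) [NormedAddCommGroup H] [InnerProductSpace ℂ H]
    [NormedAddCommGroup K] [InnerProductSpace ℂ K] : Type :=
  UniformSpace.Completion (H ⊗[ℂ] K)

/-- The elementary tensor `a ⊗ k`. -/
def tp (a : H) (k : K) : HT H K :=
  ((a ⊗ₜ[ℂ] k : H ⊗[ℂ] K) : UniformSpace.Completion (H ⊗[ℂ] K))

/-- The bounded operator `S ⊗ T`. -/
def opT (S : H →L[ℂ] L) (T : K →L[ℂ] M) : HT H K →L[ℂ] HT L M :=
  (TensorProduct.mapL S T).completion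

/-- The flip `H ⊗ K → K ⊗ H`. -/
def flipT (H K : Type) [NormedAddCommGroup H] [InnerProductSpace ℂ H]
    [NormedAddCommGroup K] [InnerProductSpace ℂ K] : HT H K →L[ℂ] HT K H :=
  ((TensorProduct.commIsometry ℂ H K).toContinuousLinearEquiv.toContinuousLinearMap).completion

/-- The embedding of the algebraic tensor product `(H ⊗ K) ⊗ L` in the Hilbert space one. -/
def embL (H K L : Type) [NormedAddCommGroup H] [InnerProductSpace ℂ H]
    [NormedAddCommGroup K] [InnerProductSpace ℂ K]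
    [NormedAddCommGroup L] [InnerProductSpace ℂ L] : (H ⊗[ℂ] K) ⊗[ℂ] L →L[ℂ] HT (HT H K) L :=
  UniformSpace.Completion.toComplL.comp
    (TensorProduct.mapL (UniformSpace.Completion.toComplL (𝕜 := ℂ) (E := H ⊗[ℂ] K))
      (ContinuousLinearMap.id ℂ L))

/-- The embedding of the algebraic tensor product `H ⊗ (K ⊗ L)` in the Hilbert space one. -/
def embR (H K L : Type) [NormedAddCommGroup H] [InnerProductSpace ℂ H]
    [NormedAddCommGroup K] [InnerProductSpace ℂ K]
    [NormedAddCommGroup L] [InnerProductSpace ℂ L] : H ⊗[ℂ] (K ⊗[ℂ] L) →L[ℂ] HT H (HT K L) :=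
  UniformSpace.Completion.toComplL.comp
    (TensorProduct.mapL (ContinuousLinearMap.id ℂ H)
      (UniformSpace.Completion.toComplL (𝕜 := ℂ) (E := K ⊗[ℂ] L)))

/-- The associativity unitary `(H ⊗ K) ⊗ L → H ⊗ (K ⊗ L)`. -/
def assocT (H K L : Type) [NormedAddCommGroup H] [InnerProductSpace ℂ H]
    [NormedAddCommGroup K] [InnerProductSpace ℂ K]
    [NormedAddCommGroup L] [InnerProductSpace ℂ L] : HT (HT H K) L →L[ℂ] HT H (HT K L) :=
  ((embR H K L).comp
    (TensorProduct.assocIsometry ℂ H K L).toContinuousLinearEquiv.toContinuousLinearMap).extend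
    (embL H K L)

/-- The associativity unitary `H ⊗ (K ⊗ L) → (H ⊗ K) ⊗ L`. -/
def assocTs (H K L : Type) [NormedAddCommGroup H] [InnerProductSpace ℂ H]
    [NormedAddCommGroup K] [InnerProductSpace ℂ K]
    [NormedAddCommGroup L] [InnerProductSpace ℂ L] : HT H (HT K L) →L[ℂ] HT (HT H K) L :=
  ((embL H K L).comp
    (TensorProduct.assocIsometry ℂ H K L).symm.toContinuousLinearEquiv.toContinuousLinearMap).extend
    (embR H K L)

/-- `U` acting on the first two legs of `H ⊗ (K ⊗ L)`. -/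
def leg12 (L : Type) [NormedAddCommGroup L] [InnerProductSpace ℂ L]
    (U : HT H K →L[ℂ] HT H K) : HT H (HT K L) →L[ℂ] HT H (HT K L) :=
  (assocT H K L).comp ((opT U (ContinuousLinearMap.id ℂ L)).comp (assocTs H K L))

/-- `U` acting on the last two legs of `H ⊗ (K ⊗ L)`. -/
def leg23 (H : Type) [NormedAddCommGroup H] [InnerProductSpace ℂ H]
    (U : HT K L →L[ℂ] HT K L) : HT H (HT K L) →L[ℂ] HT H (HT K L) :=
  opT (ContinuousLinearMap.id ℂ H) U

/-- `U` acting on the first and the last leg of `H ⊗ (K ⊗ L)`. -/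
def leg13 (K : Type) [NormedAddCommGroup K] [InnerProductSpace ℂ K]
    (U : HT H L →L[ℂ] HT H L) : HT H (HT K L) →L[ℂ] HT H (HT K L) :=
  (opT (ContinuousLinearMap.id ℂ H) (flipT L K)).comp
    ((leg12 K U).comp (opT (ContinuousLinearMap.id ℂ H) (flipT K L)))

/-- The operator `k ↦ α ⊗ k`. -/
def tpR (K : Type) [NormedAddCommGroup K] [InnerProductSpace ℂ K] (α : H) : K →L[ℂ] HT H K :=
  UniformSpace.Completion.toComplL.comp (TensorProduct.mkL ℂ H K α)

end tensor

section defs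

variable {H : Type} [NormedAddCommGroup H] [InnerProductSpace ℂ H] [CompleteSpace H]

/-- A multiplicative unitary on `H ⊗ H`. -/
structure MultUnitary (H : Type) [NormedAddCommGroup H] [InnerProductSpace ℂ H]
    [CompleteSpace H] where
  /-- the operator -/
  V : HT H H →L[ℂ] HT H H
  unitary : V ∈ unitary (HT H H →L[ℂ] HT H H)
  pentagon : leg12 H V * leg13 H V * leg23 H V = leg23 H V * leg12 H V

/-- A unitary representation of the dual quantum group on `K`. -/
structure URep (W : MultUnitary H) (K : Type) [NormedAddCommGroup K] [InnerProductSpace ℂ K]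
    [CompleteSpace K] where
  /-- the operator -/
  U : HT H K →L[ℂ] HT H K
  unitary : U ∈ unitary (HT H K →L[ℂ] HT H K)
  rep : star (leg12 K W.V) * leg23 H U * leg12 K W.V = leg13 H U * leg23 H U

/-- The slice `(ω_{α,β} ⊗ id)(Y)` of an operator `Y` on `H ⊗ K`. -/
def slice {K : Type} [NormedAddCommGroup K] [InnerProductSpace ℂ K] [CompleteSpace K]
    (Y : HT H K →L[ℂ] HT H K) (α β : H) : K →L[ℂ] K :=
  (adjoint (tpR K β)).comp (Y.comp (tpR K α))

/-- A representation of a C*-algebra on `K` is nondegenerate if the vectors `π(a) k` span a dense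
subspace. -/
def Nondeg {A : Type} [NonUnitalCStarAlgebra A] {K : Type} [NormedAddCommGroup K]
    [InnerProductSpace ℂ K] [CompleteSpace K] (π : A →⋆ₙₐ[ℂ] (K →L[ℂ] K)) : Prop :=
  Dense (Submodule.span ℂ (Set.range fun p : A × K => π p.1 p.2) : Set K)

/-- `A` is the universal C*-algebra `C₀ᵘ(G)`: it is densely spanned by elements
`x α β = (ω_{α,β} ⊗ id)(𝕍)`, and its nondegenerate representations `π` correspond to the unitary
representations `U` of the dual quantum group by `π (x α β) = (ω_{α,β} ⊗ id)(U)`. -/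
structure UniversalAlgebra (W : MultUnitary H) (A : Type) [NonUnitalCStarAlgebra A] where
  /-- the slices of the universal representation -/
  x : H →ₗ[ℂ] H →ₗ⋆[ℂ] A
  norm_x_le : ∀ α β, ‖x α β‖ ≤ ‖α‖ * ‖β‖
  dense : Dense (Submodule.span ℂ (Set.range fun p : H × H => x p.1 p.2) : Set A)
  toRep : ∀ (K : Type) [NormedAddCommGroup K] [InnerProductSpace ℂ K] [CompleteSpace K]
    (U : URep W K), ∃ π : A →⋆ₙₐ[ℂ] (K →L[ℂ] K), Nondeg π ∧ ∀ α β, π (x α β) = slice U.U α β
  ofRep : ∀ (K : Type) [NormedAddCommGroup K] [InnerProductSpace ℂ K] [CompleteSpace K]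
    (π : A →⋆ₙₐ[ℂ] (K →L[ℂ] K)), Nondeg π → ∃ U : URep W K, ∀ α β, π (x α β) = slice U.U α β

variable {W : MultUnitary H} {A : Type} [NonUnitalCStarAlgebra A]

/-- States of a C*-algebra. -/
def IsState (f : A →L[ℂ] ℂ) : Prop := (∀ a, 0 ≤ f (star a * a)) ∧ ‖f‖ = 1

/-- `b` is the coefficient operator `(id ⊗ f)(𝕍)` of the functional `f`. -/
def IsCoef (C : UniversalAlgebra W A) (f : A →L[ℂ] ℂ) (b : H →L[ℂ] H) : Prop :=
  ∀ α β, f (C.x α β) = ⟪β, b α⟫_ℂ

/-- `κ` is the convolution `μ ⋆ ν = (μ ⊗ ν) ∘ Δᵤ`; here `(id ⊗ Δᵤ)(𝕍) = 𝕍₁₃ 𝕍₁₂`. -/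
def IsConv (C : UniversalAlgebra W A) (μ ν κ : A →L[ℂ] ℂ) : Prop :=
  ∃ b c : H →L[ℂ] H, IsCoef C μ b ∧ IsCoef C ν c ∧ IsCoef C κ (c * b)

/-- `L^∞(G)`: the von Neumann algebra generated by the slices `(ω_{α,β} ⊗ id)(V)`. -/
def Linf (W : MultUnitary H) : StarSubalgebra ℂ (H →L[ℂ] H) :=
  StarSubalgebra.centralizer ℂ
    (StarSubalgebra.centralizer ℂ (Set.range fun p : H × H => slice W.V p.1 p.2) :
      Set (H →L[ℂ] H))

/-- The comultiplication `Δ(x) = Σ V (x ⊗ 1) V* Σ` (that is `W*(1 ⊗ x)W` for `W = Σ V* Σ`). -/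
def comul (W : MultUnitary H) (y : H →L[ℂ] H) : HT H H →L[ℂ] HT H H :=
  flipT H H * (W.V * opT y 1 * star W.V) * flipT H H

/-- Amenability of `G`: there is a left invariant mean on `L^∞(G)`. -/
def Amenable (W : MultUnitary H) : Prop :=
  ∃ m : Linf W →ₗ[ℂ] ℂ, (∀ y, 0 ≤ m (star y * y)) ∧ m 1 = 1 ∧
    ∀ (ξ η : H) (y z : Linf W), (z : H →L[ℂ] H) = slice (comul W (y : H →L[ℂ] H)) ξ η →
      m z = ⟪η, ξ⟫_ℂ * m y

/-- The dual quantum group has property (T). -/
def DualPropertyT (W : MultUnitary H) : Prop :=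
  ∀ (K : Type) [NormedAddCommGroup K] [InnerProductSpace ℂ K] [CompleteSpace K]
    (U : URep W K),
    (∀ (F : Finset H) (δ : ℝ), 0 < δ → ∃ k : K, ‖k‖ = 1 ∧ ∀ α ∈ F, ‖U.U (tp α k) - tp α k‖ < δ) →
    ∃ k : K, k ≠ 0 ∧ ∀ α : H, U.U (tp α k) = tp α k

/-- `L¹(G)` as a subspace of `C₀ᵘ(G)*`: the closed span of the functionals
`ω_{ξ,η} ∘ Λ`, where `Λ` is the reducing morphism `Λ (x α β) = (ω_{α,β} ⊗ id)(V)`. -/
def L1 (C : UniversalAlgebra W A) : Submodule ℂ (A →L[ℂ] ℂ) :=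
  (Submodule.span ℂ {f : A →L[ℂ] ℂ | ∃ ξ η : H,
    ∀ α β, f (C.x α β) = ⟪η, slice W.V α β ξ⟫_ℂ}).topologicalClosure

/-- A `w*`-continuous convolution semigroup of states on `G` which is not norm continuous and is
asymptotically left invariant. -/
def GoodSemigroup (C : UniversalAlgebra W A) (μ : NNReal → (A →L[ℂ] ℂ)) : Prop :=
  (∀ t, IsState (μ t)) ∧ (∀ α β, μ 0 (C.x α β) = ⟪β, α⟫_ℂ) ∧
  (∀ s t, IsConv C (μ s) (μ t) (μ (s + t))) ∧
  (∀ a, Continuous fun t => μ t a) ∧ ¬ Continuous μ ∧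
  ∀ ω ∈ L1 C, IsState ω → ∃ κ : NNReal → (A →L[ℂ] ℂ), (∀ t, IsConv C ω (μ t) (κ t)) ∧
    Filter.Tendsto (fun t => ‖κ t - μ t‖) Filter.atTop (nhds 0)

end defs

end QG753
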