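import Pool.Agent.Lib.QG753.RepBasic

/-!
# MP_753acd_an: direct sums of representations

PROOF. `S.K = lp (fun n => (R n).K) 2`, `S.π a s = (π_n a (s n))_n` (`‖π_n a‖ ≤ ‖a‖`), `ι n k =
lp.single 2 n k`, `p n s = s n`. Nondegenerate: a vector orthogonal to all `S.π a (ι n k)` has all
components orthogonal to the dense span of the `π_n a k`, so it is `0`
(`Submodule.topologicalClosure_eq_top_iff` or `Submodule.dense_iff_...`).
-/

open scoped TensorProduct ComplexOrder InnerProductSpace
open ContinuousLinearMap Filter Topology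

noncomputable section

namespace QG753

variable {A : Type} [NonUnitalCStarAlgebra A]

section diag

variable {E : ℕ → Type} [∀ n, NormedAddCommGroup (E n)] [∀ n, InnerProductSpace ℂ (E n)]
  [∀ n, CompleteSpace (E n)]

private theorem ds_two : 0 < (2 : ENNReal).toReal := by norm_num

private theorem ds_le (T : ∀ n, E n →L[ℂ] E n) {C : ℝ} (hC : ∀ n, ‖T n‖ ≤ C)
    (s : lp E 2) (F : Finset ℕ) :
    ∑ i ∈ F, ‖T i (s i)‖ ^ (2 : ENNReal).toReal ≤ (C * ‖s‖) ^ (2 : ENNReal).toReal := by
  have hC0 : 0 ≤ C := (norm_nonneg _).trans (hC 0)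
  calc ∑ i ∈ F, ‖T i (s i)‖ ^ (2 : ENNReal).toReal
      ≤ ∑ i ∈ F, C ^ (2 : ENNReal).toReal * ‖s i‖ ^ (2 : ENNReal).toReal := by
        refine Finset.sum_le_sum fun i _ => ?_
        rw [← Real.mul_rpow hC0 (norm_nonneg _)]
        exact Real.rpow_le_rpow (norm_nonneg _) (((T i).le_opNorm _).trans
          (mul_le_mul_of_nonneg_right (hC i) (norm_nonneg _))) ds_two.le
    _ = C ^ (2 : ENNReal).toReal * ∑ i ∈ F, ‖s i‖ ^ (2 : ENNReal).toReal := by
        rw [Finset.mul_sum]
    _ ≤ C ^ (2 : ENNReal).toReal * ‖s‖ ^ (2 : ENNReal).toReal := by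
        refine mul_le_mul_of_nonneg_left (lp.sum_rpow_le_norm_rpow ds_two s F) (by positivity)
    _ = (C * ‖s‖) ^ (2 : ENNReal).toReal := by
        rw [← Real.mul_rpow hC0 (norm_nonneg _)]

private theorem ds_mem (T : ∀ n, E n →L[ℂ] E n) {C : ℝ} (hC : ∀ n, ‖T n‖ ≤ C)
    (s : lp E 2) : Memℓp (fun n => T n (s n)) 2 :=
  memℓp_gen' (C := (C * ‖s‖) ^ (2 : ENNReal).toReal) (ds_le T hC s)

/-- the diagonal operator -/
private def dsD (T : ∀ n, E n →L[ℂ] E n) (C : ℝ) (hC : ∀ n, ‖T n‖ ≤ C) : lp E 2 →L[ℂ] lp E 2 :=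
  LinearMap.mkContinuous
    { toFun := fun s => ⟨fun n => T n (s n), ds_mem T hC s⟩
      map_add' := fun x y => by
        apply lp.ext
        funext n
        show T n ((x + y : lp E 2) n) = T n (x n) + T n (y n)
        rw [lp.coeFn_add, Pi.add_apply, map_add]
      map_smul' := fun c x => by
        apply lp.ext
        funext n
        show T n ((c • x : lp E 2) n) = c • T n (x n)
        rw [lp.coeFn_smul, Pi.smul_apply, map_smul] } C
    (fun s => lp.norm_le_of_forall_sum_le ds_two
      (mul_nonneg ((norm_nonneg _).trans (hC 0)) (norm_nonneg _)) (ds_le T hC s))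

private theorem dsD_apply (T : ∀ n, E n →L[ℂ] E n) (C : ℝ) (hC : ∀ n, ‖T n‖ ≤ C) (s : lp E 2)
    (n : ℕ) : dsD T C hC s n = T n (s n) := rfl

end diag

theorem exists_directSum (R : ℕ → HRep A) : ∃ (S : HRep A)
    (ι : ∀ n, (R n).K →ₗᵢ[ℂ] S.K) (p : ∀ n, S.K →L[ℂ] (R n).K),
    (∀ n a k, S.π a (ι n k) = ι n ((R n).π a k)) ∧
    (∀ n a s, p n (S.π a s) = (R n).π a (p n s)) ∧
    ∀ s, (∀ n, p n s = 0) → s = 0 := by
  classical
  have hb : ∀ (a : A) (n : ℕ), ‖(R n).π a‖ ≤ ‖a‖ := fun a n =>
    NonUnitalStarAlgHom.norm_apply_le (R n).π a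
  let P : A → (lp (fun n => (R n).K) 2 →L[ℂ] lp (fun n => (R n).K) 2) := fun a =>
    dsD (fun n => (R n).π a) ‖a‖ (hb a)
  have hP : ∀ a s n, P a s n = (R n).π a (s n) := fun a s n => rfl
  let π : A →⋆ₙₐ[ℂ] (lp (fun n => (R n).K) 2 →L[ℂ] lp (fun n => (R n).K) 2) :=
    { toFun := P
      map_smul' := fun c a => by
        ext s n
        show (R n).π (c • a) (s n) = _
        rw [map_smul]
        rfl
      map_zero' := by
        ext s n
        show (R n).π 0 (s n) = _
        rw [map_zero]
        rfl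
      map_add' := fun a b => by
        ext s n
        show (R n).π (a + b) (s n) = _
        rw [map_add]
        rfl
      map_mul' := fun a b => by
        ext s n
        show (R n).π (a * b) (s n) = _
        rw [map_mul]
        rfl
      map_star' := fun a => by
        rw [ContinuousLinearMap.star_eq_adjoint, ContinuousLinearMap.eq_adjoint_iff]
        intro x y
        rw [lp.inner_eq_tsum, lp.inner_eq_tsum]
        refine tsum_congr fun n => ?_
        rw [hP, hP, map_star, ContinuousLinearMap.star_eq_adjoint,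
          ContinuousLinearMap.adjoint_inner_left] }
  have hπ : ∀ a s n, π a s n = (R n).π a (s n) := fun a s n => rfl
  let ι : ∀ n, (R n).K →ₗᵢ[ℂ] lp (fun n => (R n).K) 2 := fun n =>
    { toLinearMap := lp.lsingle (𝕜 := ℂ) (E := fun n => (R n).K) 2 n
      norm_map' := fun k => by
        show ‖lp.single (E := fun n => (R n).K) 2 n k‖ = ‖k‖
        exact lp.norm_single (E := fun n => (R n).K) (p := 2) (by norm_num) n k }
  have hι : ∀ n k, ι n k = lp.single (E := fun n => (R n).K) 2 n k := fun n k => rfl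
  have hint : ∀ n a k, π a (ι n k) = ι n ((R n).π a k) := by
    intro n a k
    apply lp.ext
    funext j
    rw [hι, hι, hπ]
    by_cases hj : j = n
    · subst hj
      rw [lp.single_apply_self, lp.single_apply_self]
    · rw [lp.single_apply_ne _ _ _ hj, lp.single_apply_ne _ _ _ hj, map_zero]
  have hnd : Nondeg π := by
    unfold Nondeg
    rw [Submodule.dense_iff_topologicalClosure_eq_top, Submodule.topologicalClosure_eq_top_iff,
      eq_bot_iff]
    intro x hx
    rw [Submodule.mem_bot]
    apply lp.ext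
    funext n
    rw [lp.coeFn_zero, Pi.zero_apply]
    have h1 : ∀ a k, ⟪(R n).π a k, x n⟫_ℂ = 0 := by
      intro a k
      have h2 : ⟪π a (ι n k), x⟫_ℂ = 0 :=
        (Submodule.mem_orthogonal _ _).1 hx _ (Submodule.subset_span ⟨(a, ι n k), rfl⟩)
      rw [hint, hι, lp.inner_single_left] at h2
      exact h2
    have h3 := (R n).nd
    unfold Nondeg at h3
    rw [Submodule.dense_iff_topologicalClosure_eq_top, Submodule.topologicalClosure_eq_top_iff]
      at h3
    have h4 : x n ∈ (Submodule.span ℂ (Set.range fun p : A × (R n).K => (R n).π p.1 p.2))ᗮ := by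
      rw [Submodule.mem_orthogonal]
      intro u hu
      induction hu using Submodule.span_induction with
      | mem u hu =>
        obtain ⟨p, rfl⟩ := hu
        exact h1 _ _
      | zero => rw [inner_zero_left]
      | add u v _ _ hu hv => rw [inner_add_left, hu, hv, add_zero]
      | smul c u _ hu => rw [inner_smul_left, hu, mul_zero]
    rw [h3, Submodule.mem_bot] at h4
    exact h4
  let p : ∀ n, lp (fun n => (R n).K) 2 →L[ℂ] (R n).K := fun n =>
    LinearMap.mkContinuous
      { toFun := fun s => s n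
        map_add' := fun x y => by rw [lp.coeFn_add, Pi.add_apply]
        map_smul' := fun c x => by rw [lp.coeFn_smul, Pi.smul_apply]; rfl } 1
      (fun s => by
        rw [one_mul]
        exact lp.norm_apply_le_norm (by norm_num) s n)
  have hp : ∀ n s, p n s = s n := fun n s => rfl
  refine ⟨{ K := lp (fun n => (R n).K) 2, π := π, nd := hnd }, ι, p, hint, ?_, ?_⟩
  · intro n a s
    exact hπ a s n
  · intro s hs
    apply lp.ext
    funext n
    have h1 := hs n
    rw [hp] at h1
    rw [h1]
    rfl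

end QG753
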