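import Mathlib

/-!
# MP_753acd_an: Duhamel estimates in a Banach algebra
-/

open Filter Topology NormedSpace

noncomputable section

namespace QG753

variable {B : Type} [NormedRing B] [NormedAlgebra ℝ B] [CompleteSpace B]
  {F : Type} [NormedAddCommGroup F] [NormedSpace ℝ F]

theorem hasDerivAt_exp_mul_exp (G D : B) (t s : ℝ) :
    HasDerivAt (fun s : ℝ => exp ((t - s) • (G + D)) * exp (s • G))
      (-(exp ((t - s) • (G + D)) * D * exp (s • G))) s := by
  have h1 : HasDerivAt (fun s : ℝ => exp ((t - s) • (G + D)))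
      (-(exp ((t - s) • (G + D)) * (G + D))) s := by
    have h2 := (hasDerivAt_exp_smul_const (𝕂 := ℝ) (G + D) (t - s))
    have h3 : HasDerivAt (fun s : ℝ => t - s) (-1) s := by
      simpa using (hasDerivAt_id s).const_sub t
    have h4 : HasDerivAt (fun s : ℝ => exp ((t - s) • (G + D)))
      ((-1 : ℝ) • (exp ((t - s) • (G + D)) * (G + D))) s := h2.scomp s h3
    rw [neg_one_smul] at h4
    exact h4
  have h5 := (hasDerivAt_exp_smul_const' (𝕂 := ℝ) G s)
  have h6 := h1.mul h5
  refine h6.congr_deriv ?_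
  noncomm_ring

theorem hasDerivAt_exp_mul_exp' (G D : B) (t s : ℝ) :
    HasDerivAt (fun s : ℝ => exp (s • G) * exp ((t - s) • (G + D)))
      (-(exp (s • G) * D * exp ((t - s) • (G + D)))) s := by
  have h1 : HasDerivAt (fun s : ℝ => exp ((t - s) • (G + D)))
      (-((G + D) * exp ((t - s) • (G + D)))) s := by
    have h2 := (hasDerivAt_exp_smul_const' (𝕂 := ℝ) (G + D) (t - s))
    have h3 : HasDerivAt (fun s : ℝ => t - s) (-1) s := by
      simpa using (hasDerivAt_id s).const_sub t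
    have h4 : HasDerivAt (fun s : ℝ => exp ((t - s) • (G + D)))
      ((-1 : ℝ) • ((G + D) * exp ((t - s) • (G + D)))) s := h2.scomp s h3
    rw [neg_one_smul] at h4
    exact h4
  have h5 := (hasDerivAt_exp_smul_const (𝕂 := ℝ) G s)
  have h6 := h5.mul h1
  refine h6.congr_deriv ?_
  noncomm_ring

theorem duhamel_le (φ : B →L[ℝ] F) (G D : B) {t c : ℝ} (ht : 0 ≤ t)
    (h : ∀ s ∈ Set.Icc (0 : ℝ) t, ‖φ (exp ((t - s) • (G + D)) * D * exp (s • G))‖ ≤ c) :
    ‖φ (exp (t • (G + D)) - exp (t • G))‖ ≤ c * t := by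
  set f : ℝ → F := fun s => φ (exp ((t - s) • (G + D)) * exp (s • G)) with hf
  have hd : ∀ s, HasDerivAt f (φ (-(exp ((t - s) • (G + D)) * D * exp (s • G)))) s := by
    intro s
    exact φ.hasFDerivAt.comp_hasDerivAt s (hasDerivAt_exp_mul_exp G D t s)
  have h1 := norm_image_sub_le_of_norm_deriv_right_le_segment (f := f) (a := 0) (b := t) (C := c)
    (fun s _ => (hd s).continuousAt.continuousWithinAt)
    (fun s _ => (hd s).hasDerivWithinAt)
    (fun s hs => by rw [map_neg, norm_neg]; exact h s ⟨hs.1, hs.2.le⟩) t ⟨ht, le_refl t⟩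
  have h2 : f t - f 0 = -(φ (exp (t • (G + D)) - exp (t • G))) := by
    simp only [hf, sub_self, zero_smul, exp_zero, one_mul, sub_zero, mul_one, map_sub]
    abel
  rw [h2, norm_neg, sub_zero] at h1
  exact h1

/-- First entry decomposition. -/
theorem first_entry (φ : B →L[ℝ] F) (G D : B) {t c δ : ℝ} (ht : 0 ≤ t) (hδ : 0 ≤ δ)
    (h : ∀ s ∈ Set.Icc (0 : ℝ) t,
      ‖φ (exp (s • G) * D * exp ((t - s) • (G + D)))‖ ≤ c * δ * Real.exp (-(c * s))) :
    ‖φ (exp (t • (G + D)))‖ ≤ ‖φ (exp (t • G))‖ + δ := by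
  set f : ℝ → F := fun s => φ (exp (s • G) * exp ((t - s) • (G + D))) -
    φ (exp (t • (G + D))) with hf
  have hd : ∀ s, HasDerivAt f (φ (-(exp (s • G) * D * exp ((t - s) • (G + D))))) s := by
    intro s
    exact (φ.hasFDerivAt.comp_hasDerivAt s (hasDerivAt_exp_mul_exp' G D t s)).sub_const _
  have hB : ∀ s, HasDerivAt (fun s : ℝ => δ * (1 - Real.exp (-(c * s))))
      (c * δ * Real.exp (-(c * s))) s := by
    intro s
    have h1 : HasDerivAt (fun s : ℝ => -(c * s)) (-(c * 1)) s :=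
      ((hasDerivAt_id s).const_mul c).neg
    have h2 := (h1.exp.const_sub 1).const_mul δ
    refine h2.congr_deriv ?_
    ring
  have h1 := image_norm_le_of_norm_deriv_right_le_deriv_boundary (f := f) (a := 0) (b := t)
    (fun s _ => (hd s).continuousAt.continuousWithinAt)
    (fun s _ => (hd s).hasDerivWithinAt)
    (B := fun s : ℝ => δ * (1 - Real.exp (-(c * s)))) (by simp [hf]) hB
    (fun s hs => by rw [map_neg, norm_neg]; exact h s ⟨hs.1, hs.2.le⟩) (x := t) ⟨ht, le_refl t⟩
  have h2 : f t = φ (exp (t • G)) - φ (exp (t • (G + D))) := by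
    simp [hf]
  rw [h2] at h1
  have h3 : δ * (1 - Real.exp (-(c * t))) ≤ δ := by
    nlinarith [Real.exp_pos (-(c * t))]
  have h4 : ‖φ (exp (t • (G + D)))‖ ≤ ‖φ (exp (t • G))‖ +
      ‖φ (exp (t • G)) - φ (exp (t • (G + D)))‖ := by
    have := norm_sub_norm_le (φ (exp (t • (G + D)))) (φ (exp (t • G)))
    rw [norm_sub_rev] at this
    linarith
  linarith

end QG753
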