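import Pool.Agent.Lib.QG753.RepBasic

/-!
# MP_753acd_an: tensor products of unitary representations

`X = U₁₂ U'₁₃` on `H ⊗ (K ⊗ L)` (that is `leg12 L U * leg13 K U'`) is again a unitary
representation.

PROOF. Unitarity: `unitary_leg12`, `unitary_leg13`. Representation property, on
`H ⊗ (H ⊗ (K ⊗ L))`: let `R : (H ⊗ (H ⊗ K)) ⊗ L → H ⊗ (H ⊗ (K ⊗ L))` be the canonical unitary
(`assocT` followed by `opT 1 assocT`), `Φ Y = R (Y ⊗ 1) R*` (a `*`-homomorphism). On elementary
tensors one checks `Φ (leg12 K V) = leg12 (HT K L) V`, `Φ (leg23 H U) = leg23 H (leg12 L U)`,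
`Φ (leg13 H U) = leg13 H (leg12 L U)`; applying `Φ` to `U.rep` gives
`V₁₂* U₂₃ V₁₂ = U₁₃ U₂₃` with spectator `L`. In the same way, with the flip of `K` and `L`,
`V₁₂* U'₂₄ V₁₂ = U'₁₄ U'₂₄`. Multiply: `V₁₂* (U₂₃ U'₂₄) V₁₂ = U₁₃ U₂₃ U'₁₄ U'₂₄`, and `U₂₃` commutes
with `U'₁₄` (disjoint legs: conjugate by the canonical unitary
`H ⊗ (H ⊗ (K ⊗ L)) → (H ⊗ K) ⊗ (H ⊗ L)`, legs `(2,3)`, `(1,4)`, under which they become `U ⊗ 1` and
`1 ⊗ U'`). Coefficients: `inner_coefOp` on both sides; `⟪β ⊗ (k' ⊗ l'), X (α ⊗ (k ⊗ l))⟫` with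
`leg13_tp` and the adjoint of `leg12` (or: expand `U' (α ⊗ l)`, by density a limit of sums of
elementary tensors).
-/

open scoped TensorProduct ComplexOrder InnerProductSpace
open ContinuousLinearMap

set_option linter.unusedSectionVars false

noncomputable section

namespace QG753

variable {H : Type} [NormedAddCommGroup H] [InnerProductSpace ℂ H] [CompleteSpace H]
  {W : MultUnitary H}
  {K : Type} [NormedAddCommGroup K] [InnerProductSpace ℂ K] [CompleteSpace K]
  {L : Type} [NormedAddCommGroup L] [InnerProductSpace ℂ L] [CompleteSpace L]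

theorem adjoint_tpL_tp (a : H) (k l : K) :
    adjoint (tpL H l) (tp a k) = ⟪l, k⟫_ℂ • a := by
  apply ext_inner_left ℂ
  intro b
  rw [ContinuousLinearMap.adjoint_inner_right, tpL_apply, inner_tp, inner_smul_right, mul_comm]

theorem swap_aux (k : K) (l' : L) (v : HT H L) :
    adjoint (tpL (HT H K) l') (assocTs H K L
      (opT (ContinuousLinearMap.id ℂ H) (flipT L K) (assocT H L K (tp v k)))) =
      tp (adjoint (tpL H l') v) k := by
  have h : (adjoint (tpL (HT H K) l')).comp ((assocTs H K L).comp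
      ((opT (ContinuousLinearMap.id ℂ H) (flipT L K)).comp ((assocT H L K).comp
        (tpL (HT H L) k)))) = (tpL H k).comp (adjoint (tpL H l')) := by
    apply clm_ext
    intro c d
    simp [adjoint_tpL_tp, tp_smul_left]
  exact congrArg (fun T : HT H L →L[ℂ] HT H K => T v) h

/-- Coefficients of `Y₁₂ Z₁₃`. -/
theorem coefOp_leg12_mul_leg13 (Y : HT H K →L[ℂ] HT H K) (Z : HT H L →L[ℂ] HT H L)
    (k k' : K) (l l' : L) :
    coefOp (leg12 L Y * leg13 K Z) (tp k l) (tp k' l') = coefOp Y k k' * coefOp Z l l' := by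
  ext α
  apply ext_inner_left ℂ
  intro β
  rw [inner_coefOp, mul_apply_eq_comp, mul_apply_eq_comp, inner_coefOp, leg13_tp]
  have h1 : ∀ w, ⟪tp β (tp k' l'), leg12 L Y w⟫_ℂ =
      ⟪assocT H K L (tp (star Y (tp β k')) l'), w⟫_ℂ := by
    intro w
    rw [← leg12_tp, ← star_leg12, ContinuousLinearMap.star_eq_adjoint,
      ContinuousLinearMap.adjoint_inner_left]
  rw [h1, ← ContinuousLinearMap.adjoint_inner_right, adjoint_assocT]
  have h2 : ∀ (u : HT H K) (w : HT (HT H K) L), ⟪tp u l', w⟫_ℂ =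
      ⟪u, adjoint (tpL (HT H K) l') w⟫_ℂ := by
    intro u w
    rw [ContinuousLinearMap.adjoint_inner_right, tpL_apply]
  rw [h2, swap_aux, ContinuousLinearMap.star_eq_adjoint, ContinuousLinearMap.adjoint_inner_left]
  rfl

theorem clm_ext4 {E : Type} [NormedAddCommGroup E] [NormedSpace ℂ E]
    {f g : HT H (HT H (HT K L)) →L[ℂ] E}
    (h : ∀ a b k l, f (tp a (tp b (tp k l))) = g (tp a (tp b (tp k l)))) : f = g := by
  apply clm_ext
  intro a z
  have h1 : f.comp (tpR (HT H (HT K L)) a) = g.comp (tpR (HT H (HT K L)) a) := by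
    apply clm_ext3'
    intro b k l
    exact h a b k l
  exact congrArg (fun T : HT H (HT K L) →L[ℂ] E => T z) h1

section naturality

variable {M : Type} [NormedAddCommGroup M] [InnerProductSpace ℂ M] [CompleteSpace M]

theorem leg12_nat (S : K →L[ℂ] M) (Y : HT H H →L[ℂ] HT H H) (z : HT H (HT H K)) :
    leg12 M Y (opT (ContinuousLinearMap.id ℂ H) (opT (ContinuousLinearMap.id ℂ H) S) z) =
      opT (ContinuousLinearMap.id ℂ H) (opT (ContinuousLinearMap.id ℂ H) S) (leg12 K Y z) := by
  have h0 : ∀ (w : HT H H) (k : K), assocT H H M (tp w (S k)) =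
      opT (ContinuousLinearMap.id ℂ H) (opT (ContinuousLinearMap.id ℂ H) S)
        (assocT H H K (tp w k)) := by
    intro w k
    have h : (assocT H H M).comp (tpL (HT H H) (S k)) =
        (opT (ContinuousLinearMap.id ℂ H) (opT (ContinuousLinearMap.id ℂ H) S)).comp
          ((assocT H H K).comp (tpL (HT H H) k)) := by
      apply clm_ext; intro a b; simp
    exact congrArg (fun T : HT H H →L[ℂ] HT H (HT H M) => T w) h
  have h : (leg12 M Y).comp (opT (ContinuousLinearMap.id ℂ H)
      (opT (ContinuousLinearMap.id ℂ H) S)) =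
      (opT (ContinuousLinearMap.id ℂ H) (opT (ContinuousLinearMap.id ℂ H) S)).comp
        (leg12 K Y) := by
    apply clm_ext3'
    intro a b k
    simp [leg12_tp, h0]
  exact congrArg (fun T : HT H (HT H K) →L[ℂ] HT H (HT H M) => T z) h

theorem leg23_nat {S : K →L[ℂ] M} {U : HT H K →L[ℂ] HT H K} {X : HT H M →L[ℂ] HT H M}
    (hX : ∀ z, X (opT (ContinuousLinearMap.id ℂ H) S z) =
      opT (ContinuousLinearMap.id ℂ H) S (U z)) (z : HT H (HT H K)) :
    leg23 H X (opT (ContinuousLinearMap.id ℂ H) (opT (ContinuousLinearMap.id ℂ H) S) z) =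
      opT (ContinuousLinearMap.id ℂ H) (opT (ContinuousLinearMap.id ℂ H) S) (leg23 H U z) := by
  have h : (leg23 H X).comp (opT (ContinuousLinearMap.id ℂ H)
      (opT (ContinuousLinearMap.id ℂ H) S)) =
      (opT (ContinuousLinearMap.id ℂ H) (opT (ContinuousLinearMap.id ℂ H) S)).comp
        (leg23 H U) := by
    apply clm_ext
    intro a w
    simp [hX]
  exact congrArg (fun T : HT H (HT H K) →L[ℂ] HT H (HT H M) => T z) h

theorem leg13_nat {S : K →L[ℂ] M} {U : HT H K →L[ℂ] HT H K} {X : HT H M →L[ℂ] HT H M}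
    (hX : ∀ z, X (opT (ContinuousLinearMap.id ℂ H) S z) =
      opT (ContinuousLinearMap.id ℂ H) S (U z)) (z : HT H (HT H K)) :
    leg13 H X (opT (ContinuousLinearMap.id ℂ H) (opT (ContinuousLinearMap.id ℂ H) S) z) =
      opT (ContinuousLinearMap.id ℂ H) (opT (ContinuousLinearMap.id ℂ H) S) (leg13 H U z) := by
  have h0 : ∀ (w : HT H K) (b : H), opT (ContinuousLinearMap.id ℂ H) (flipT M H)
      (assocT H M H (tp (opT (ContinuousLinearMap.id ℂ H) S w) b)) =
      opT (ContinuousLinearMap.id ℂ H) (opT (ContinuousLinearMap.id ℂ H) S)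
        (opT (ContinuousLinearMap.id ℂ H) (flipT K H) (assocT H K H (tp w b))) := by
    intro w b
    have h : (opT (ContinuousLinearMap.id ℂ H) (flipT M H)).comp ((assocT H M H).comp
        ((tpL (HT H M) b).comp (opT (ContinuousLinearMap.id ℂ H) S))) =
        (opT (ContinuousLinearMap.id ℂ H) (opT (ContinuousLinearMap.id ℂ H) S)).comp
          ((opT (ContinuousLinearMap.id ℂ H) (flipT K H)).comp
            ((assocT H K H).comp (tpL (HT H K) b))) := by
      apply clm_ext; intro a k; simp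
    exact congrArg (fun T : HT H K →L[ℂ] HT H (HT H M) => T w) h
  have h : (leg13 H X).comp (opT (ContinuousLinearMap.id ℂ H)
      (opT (ContinuousLinearMap.id ℂ H) S)) =
      (opT (ContinuousLinearMap.id ℂ H) (opT (ContinuousLinearMap.id ℂ H) S)).comp
        (leg13 H U) := by
    apply clm_ext3'
    intro a b k
    have h1 : X (tp a (S k)) = opT (ContinuousLinearMap.id ℂ H) S (U (tp a k)) := by
      rw [← hX, opT_tp]; rfl
    simp only [ContinuousLinearMap.comp_apply, opT_tp, ContinuousLinearMap.coe_id', id_eq,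
      leg13_tp, h1, h0]
  exact congrArg (fun T : HT H (HT H K) →L[ℂ] HT H (HT H M) => T z) h

/-- The representation identity along an intertwiner. -/
theorem rep_nat (U : URep W K) {S : K →L[ℂ] M} {X : HT H M →L[ℂ] HT H M}
    (hX : ∀ z, X (opT (ContinuousLinearMap.id ℂ H) S z) =
      opT (ContinuousLinearMap.id ℂ H) S (U.U z)) (z : HT H (HT H K)) :
    (star (leg12 M W.V) * leg23 H X * leg12 M W.V)
      (opT (ContinuousLinearMap.id ℂ H) (opT (ContinuousLinearMap.id ℂ H) S) z) =
    (leg13 H X * leg23 H X)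
      (opT (ContinuousLinearMap.id ℂ H) (opT (ContinuousLinearMap.id ℂ H) S) z) := by
  have h := congrArg (fun T : HT H (HT H K) →L[ℂ] HT H (HT H K) =>
    opT (ContinuousLinearMap.id ℂ H) (opT (ContinuousLinearMap.id ℂ H) S) (T z)) U.rep
  simp only [mul_apply_eq_comp] at h ⊢
  rw [leg12_nat, leg23_nat hX, star_leg12, leg12_nat, leg23_nat hX, leg13_nat hX,
    ← star_leg12]
  exact h

end naturality

theorem leg12_tpL (U : HT H K →L[ℂ] HT H K) (l : L) (z : HT H K) :
    leg12 L U (opT (ContinuousLinearMap.id ℂ H) (tpL K l) z) =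
      opT (ContinuousLinearMap.id ℂ H) (tpL K l) (U z) := by
  have h0 : ∀ w : HT H K, assocT H K L (tp w l) =
      opT (ContinuousLinearMap.id ℂ H) (tpL K l) w := by
    intro w
    have h : (assocT H K L).comp (tpL (HT H K) l) =
        opT (ContinuousLinearMap.id ℂ H) (tpL K l) := by
      apply clm_ext; intro a k; simp
    exact congrArg (fun T : HT H K →L[ℂ] HT H (HT K L) => T w) h
  rw [← h0, ← h0, leg12_assocT]

theorem leg13_tpR (U : HT H L →L[ℂ] HT H L) (k : K) (z : HT H L) :
    leg13 K U (opT (ContinuousLinearMap.id ℂ H) (tpR L k) z) =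
      opT (ContinuousLinearMap.id ℂ H) (tpR L k) (U z) := by
  have h0 : ∀ w : HT H L, opT (ContinuousLinearMap.id ℂ H) (flipT L K)
      (assocT H L K (tp w k)) = opT (ContinuousLinearMap.id ℂ H) (tpR L k) w := by
    intro w
    have h : (opT (ContinuousLinearMap.id ℂ H) (flipT L K)).comp
        ((assocT H L K).comp (tpL (HT H L) k)) =
        opT (ContinuousLinearMap.id ℂ H) (tpR L k) := by
      apply clm_ext; intro a l; simp
    exact congrArg (fun T : HT H L →L[ℂ] HT H (HT K L) => T w) h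
  have h : (leg13 K U).comp (opT (ContinuousLinearMap.id ℂ H) (tpR L k)) =
      (opT (ContinuousLinearMap.id ℂ H) (tpR L k)).comp U := by
    apply clm_ext
    intro a l
    simp only [ContinuousLinearMap.comp_apply, opT_tp, ContinuousLinearMap.coe_id', id_eq,
      tpR_apply, leg13_tp, h0]
  exact congrArg (fun T : HT H L →L[ℂ] HT H (HT K L) => T z) h

theorem rep_leg12 (U : URep W K) :
    star (leg12 (HT K L) W.V) * leg23 H (leg12 L U.U) * leg12 (HT K L) W.V =
      leg13 H (leg12 L U.U) * leg23 H (leg12 L U.U) := by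
  apply clm_ext4
  intro a b k l
  have h := rep_nat U (S := tpL K l) (X := leg12 L U.U) (leg12_tpL U.U l) (tp a (tp b k))
  simp only [opT_tp, ContinuousLinearMap.coe_id', id_eq, tpL_apply] at h
  exact h

theorem rep_leg13 (U' : URep W L) :
    star (leg12 (HT K L) W.V) * leg23 H (leg13 K U'.U) * leg12 (HT K L) W.V =
      leg13 H (leg13 K U'.U) * leg23 H (leg13 K U'.U) := by
  apply clm_ext4
  intro a b k l
  have h := rep_nat U' (S := tpR L k) (X := leg13 K U'.U) (leg13_tpR U'.U k) (tp a (tp b l))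
  simp only [opT_tp, ContinuousLinearMap.coe_id', id_eq, tpR_apply] at h
  exact h

/-- `(a ⊗ l) ⊗ (b ⊗ k) ↦ a ⊗ (b ⊗ (k ⊗ l))`. -/
def thetaT (H K L : Type) [NormedAddCommGroup H] [InnerProductSpace ℂ H]
    [NormedAddCommGroup K] [InnerProductSpace ℂ K]
    [NormedAddCommGroup L] [InnerProductSpace ℂ L] :
    HT (HT H L) (HT H K) →L[ℂ] HT H (HT H (HT K L)) :=
  (opT (ContinuousLinearMap.id ℂ H) (assocT H K L)).comp
    ((opT (ContinuousLinearMap.id ℂ H) (flipT L (HT H K))).comp (assocT H L (HT H K)))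

theorem thetaT_tp (a : H) (l : L) (w : HT H K) :
    thetaT H K L (tp (tp a l) w) = tp a (assocT H K L (tp w l)) := by
  simp [thetaT]

theorem theta_left (U' : HT H L →L[ℂ] HT H L) (a b : H) (k : K) (l : L) :
    leg13 H (leg13 K U') (tp a (tp b (tp k l))) = thetaT H K L (tp (U' (tp a l)) (tp b k)) := by
  have h0 : ∀ w : HT H L, opT (ContinuousLinearMap.id ℂ H) (flipT (HT K L) H)
      (assocT H (HT K L) H (tp (opT (ContinuousLinearMap.id ℂ H) (flipT L K)
        (assocT H L K (tp w k))) b)) = thetaT H K L (tp w (tp b k)) := by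
    intro w
    have h : (opT (ContinuousLinearMap.id ℂ H) (flipT (HT K L) H)).comp
        ((assocT H (HT K L) H).comp ((tpL (HT H (HT K L)) b).comp
          ((opT (ContinuousLinearMap.id ℂ H) (flipT L K)).comp
            ((assocT H L K).comp (tpL (HT H L) k))))) =
        (thetaT H K L).comp (tpL (HT H L) (tp b k)) := by
      apply clm_ext; intro a l; simp [thetaT]
    exact congrArg (fun T : HT H L →L[ℂ] HT H (HT H (HT K L)) => T w) h
  rw [leg13_tp, leg13_tp, h0]

theorem theta_right (U : HT H K →L[ℂ] HT H K) (z : HT H L) (w : HT H K) :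
    leg23 H (leg12 L U) (thetaT H K L (tp z w)) = thetaT H K L (tp z (U w)) := by
  have h : ((leg23 H (leg12 L U)).comp (thetaT H K L)).comp (tpL (HT H L) w) =
      (thetaT H K L).comp (tpL (HT H L) (U w)) := by
    apply clm_ext
    intro a l
    simp only [ContinuousLinearMap.comp_apply, tpL_apply, thetaT_tp, leg23_tp, leg12_assocT]
  exact congrArg (fun T : HT H L →L[ℂ] HT H (HT H (HT K L)) => T z) h

theorem theta_left' (U' : HT H L →L[ℂ] HT H L) (a : H) (l : L) (w : HT H K) :
    leg13 H (leg13 K U') (thetaT H K L (tp (tp a l) w)) =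
      thetaT H K L (tp (U' (tp a l)) w) := by
  have h : ((leg13 H (leg13 K U')).comp (thetaT H K L)).comp (tpR (HT H K) (tp a l)) =
      (thetaT H K L).comp (tpR (HT H K) (U' (tp a l))) := by
    apply clm_ext
    intro b k
    simp only [ContinuousLinearMap.comp_apply, tpR_apply]
    rw [← theta_left, thetaT_tp, assocT_tp]
  exact congrArg (fun T : HT H K →L[ℂ] HT H (HT H (HT K L)) => T w) h

theorem legs_comm (U : HT H K →L[ℂ] HT H K) (U' : HT H L →L[ℂ] HT H L) :
    leg23 H (leg12 L U) * leg13 H (leg13 K U') = leg13 H (leg13 K U') * leg23 H (leg12 L U) := by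
  apply clm_ext4
  intro a b k l
  have h1 : tp a (tp b (tp k l)) = thetaT H K L (tp (tp a l) (tp b k)) := by
    rw [thetaT_tp, assocT_tp]
  rw [mul_apply_eq_comp, mul_apply_eq_comp, h1, theta_left', theta_right, theta_right,
    theta_left']

theorem rep_tensor (U : URep W K) (U' : URep W L) :
    star (leg12 (HT K L) W.V) * leg23 H (leg12 L U.U * leg13 K U'.U) * leg12 (HT K L) W.V =
      leg13 H (leg12 L U.U * leg13 K U'.U) * leg23 H (leg12 L U.U * leg13 K U'.U) := by
  have hV := (Unitary.mem_iff.1 (unitary_leg12 (L := HT K L) W.V W.unitary)).2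
  have h1 := rep_leg12 (W := W) (L := L) U
  have h2 := rep_leg13 (W := W) (K := K) U'
  have h3 := legs_comm U.U U'.U
  rw [leg23_mul, leg13_mul]
  calc star (leg12 (HT K L) W.V) * (leg23 H (leg12 L U.U) * leg23 H (leg13 K U'.U)) *
        leg12 (HT K L) W.V
      = (star (leg12 (HT K L) W.V) * leg23 H (leg12 L U.U)) *
          (leg12 (HT K L) W.V * star (leg12 (HT K L) W.V)) *
          (leg23 H (leg13 K U'.U) * leg12 (HT K L) W.V) := by
        rw [hV, mul_one]; simp only [mul_assoc]
    _ = (star (leg12 (HT K L) W.V) * leg23 H (leg12 L U.U) * leg12 (HT K L) W.V) *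
          (star (leg12 (HT K L) W.V) * leg23 H (leg13 K U'.U) * leg12 (HT K L) W.V) := by
        simp only [mul_assoc]
    _ = leg13 H (leg12 L U.U) * (leg23 H (leg12 L U.U) * leg13 H (leg13 K U'.U)) *
          leg23 H (leg13 K U'.U) := by
        rw [h1, h2]; simp only [mul_assoc]
    _ = _ := by rw [h3]; simp only [mul_assoc]

/-- The tensor product representation. -/
def tensorRep (U : URep W K) (U' : URep W L) : URep W (HT K L) where
  U := leg12 L U.U * leg13 K U'.U
  unitary := mul_mem (unitary_leg12 _ U.unitary) (unitary_leg13 U'.unitary)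
  rep := rep_tensor U U'

theorem coefOp_tensorRep (U : URep W K) (U' : URep W L) (k k' : K) (l l' : L) :
    coefOp (tensorRep U U').U (tp k l) (tp k' l') = coefOp U.U k k' * coefOp U'.U l l' :=
  coefOp_leg12_mul_leg13 _ _ _ _ _ _

end QG753
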