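import Pool.Agent.Lib.QG753.GNS
import Pool.Agent.Lib.QG753.TensorRep

/-!
# MP_753acd_an: convolution operators on `A`

PROOFS. `exists_extOp`: for a finite combination `c = Σ c_i y(α_i, β_i)`, `a = Σ c_i x(α_i, β_i)`:
by `exists_rep_norm` there are `R`, `k` with `‖k‖ = 1`, `‖π c k‖ = ‖c‖`; with `l = π c k` and the
functional `f` of the hypothesis, `‖c‖^2 = ⟪l, π c k⟫ = f a ≤ ‖k‖ ‖l‖ ‖a‖ = ‖c‖ ‖a‖`. So `‖c‖ ≤ ‖a‖`,
and `LinearMap.extendOfNorm` for the two linear maps `(H × H →₀ ℂ) → A` gives `T`.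

`exists_rOp`: `y α β = x α (b* β)`; for a representation `R`, with unitary representation `U_R`
(`C.ofRep`), `f = vecF` GNS of `f` with unitary representation `U_f`, `b = coefOp U_f v v`:
`⟪l, π (x α (b* β)) k⟫ = ⟪b* β, coefOp U_R k l α⟫ = ⟪β, (b * coefOp U_R k l) α⟫`, the coefficient of
`tensorRep U_f U_R` at `v ⊗ k`, `v ⊗ l`; the functional is `vecF` of the representation
`C.toRep` of it.

`exists_lOp`: the same with `b` on the right: `tensorRep U_R U_f`, vectors `k ⊗ v`, `l ⊗ v`.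

`exists_conv`: `vecF` of `C.toRep (tensorRep U_g U_f)` at `v_g ⊗ v_f`, where `f ⋆ g` has
coefficient `coef g * coef f`.
-/

open scoped TensorProduct ComplexOrder InnerProductSpace
open ContinuousLinearMap

noncomputable section

namespace QG753

variable {H : Type} [NormedAddCommGroup H] [InnerProductSpace ℂ H] [CompleteSpace H]
  {W : MultUnitary H} {A : Type} [NonUnitalCStarAlgebra A]

theorem exists_extOp (C : UniversalAlgebra W A) (y : H → H → A)
    (h : ∀ (R : HRep A) (k l : R.K), ∃ f : A →L[ℂ] ℂ, ‖f‖ ≤ ‖k‖ * ‖l‖ ∧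
      ∀ α β, ⟪l, R.π (y α β) k⟫_ℂ = f (C.x α β)) :
    ∃ T : A →L[ℂ] A, ‖T‖ ≤ 1 ∧ ∀ α β, T (C.x α β) = y α β := by
  let X : (H × H →₀ ℂ) →ₗ[ℂ] A := Finsupp.linearCombination ℂ fun p : H × H => C.x p.1 p.2
  let Y : (H × H →₀ ℂ) →ₗ[ℂ] A := Finsupp.linearCombination ℂ fun p : H × H => y p.1 p.2
  have hXr : DenseRange X := by
    have h1 : Set.range X = (Submodule.span ℂ (Set.range fun p : H × H => C.x p.1 p.2) : Set A) := by
      rw [← LinearMap.coe_range, Finsupp.range_linearCombination]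
    unfold DenseRange
    rw [h1]
    exact C.dense
  have hle : ∀ c, ‖Y c‖ ≤ 1 * ‖X c‖ := by
    intro c
    rw [one_mul]
    by_cases h0 : Y c = 0
    · rw [h0, norm_zero]; exact norm_nonneg _
    obtain ⟨R, k, hk, hkn⟩ := exists_rep_norm (Y c) h0
    obtain ⟨f, hf, hfx⟩ := h R k (R.π (Y c) k)
    have h1 : ∀ c', ⟪R.π (Y c) k, R.π (Y c') k⟫_ℂ = f (X c') := by
      intro c'
      have h2 : ((innerSL ℂ (R.π (Y c) k)).toLinearMap ∘ₗ
          ((ContinuousLinearMap.apply ℂ R.K k).toLinearMap ∘ₗ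
            ((R.π : A →ₗ[ℂ] (R.K →L[ℂ] R.K)) ∘ₗ Y))) = f.toLinearMap ∘ₗ X := by
        apply Finsupp.lhom_ext
        intro p z
        simp only [LinearMap.comp_apply, X, Y, Finsupp.linearCombination_single, map_smul]
        congr 1
        exact hfx p.1 p.2
      exact LinearMap.congr_fun h2 c'
    have h3 := h1 c
    have h4 : ‖R.π (Y c) k‖ ^ 2 ≤ ‖R.π (Y c) k‖ * ‖X c‖ := by
      have h5 : ‖⟪R.π (Y c) k, R.π (Y c) k⟫_ℂ‖ = ‖R.π (Y c) k‖ ^ 2 := by
        rw [inner_self_eq_norm_sq_to_K]; simp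
      rw [← h5, h3]
      refine (f.le_opNorm _).trans (mul_le_mul_of_nonneg_right ?_ (norm_nonneg _))
      rw [hk, one_mul] at hf
      exact hf
    rw [hkn] at h4
    have h6 : 0 < ‖Y c‖ := norm_pos_iff.2 h0
    nlinarith
  refine ⟨Y.extendOfNorm X, ?_, ?_⟩
  · refine ContinuousLinearMap.opNorm_le_bound _ zero_le_one fun a => ?_
    exact LinearMap.norm_extendOfNorm_apply_le hXr 1 hle a
  · intro α β
    have h1 := LinearMap.extendOfNorm_eq (f := Y) (e := X) hXr ⟨1, hle⟩ (Finsupp.single (α, β) 1)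
    have h2 : X (Finsupp.single (α, β) 1) = C.x α β := by
      simp [X, Finsupp.linearCombination_single]
    have h3 : Y (Finsupp.single (α, β) 1) = y α β := by
      simp [Y, Finsupp.linearCombination_single]
    rw [h2, h3] at h1
    exact h1

/-- GNS representation with its unitary representation -/
private theorem eo_gns (C : UniversalAlgebra W A) {f : A →L[ℂ] ℂ} (hf : IsState f) :
    ∃ (R : HRep A) (U : URep W R.K) (v : R.K), ‖v‖ = 1 ∧ coef C f = coefOp U.U v v := by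
  obtain ⟨R, v, hv, hfv⟩ := exists_gns hf
  obtain ⟨U, hU⟩ := C.ofRep R.K R.π R.nd
  refine ⟨R, U, v, hv, ?_⟩
  have h1 := isCoef_vecF hU v v
  rw [← hfv] at h1
  exact (isCoef_coef C f).unique h1

/-- a coefficient of a unitary representation as a functional -/
private theorem eo_fun (C : UniversalAlgebra W A) {K : Type} [NormedAddCommGroup K]
    [InnerProductSpace ℂ K] [CompleteSpace K] (U : URep W K) (k l : K) :
    ∃ f : A →L[ℂ] ℂ, ‖f‖ ≤ ‖k‖ * ‖l‖ ∧ IsCoef C f (coefOp U.U k l) := by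
  obtain ⟨π, -, hπ⟩ := C.toRep K U
  exact ⟨vecF π k l, norm_vecF_le π k l, isCoef_vecF hπ k l⟩

theorem exists_rOp (C : UniversalAlgebra W A) {f : A →L[ℂ] ℂ} (hf : IsState f) :
    ∃ T : A →L[ℂ] A, ‖T‖ ≤ 1 ∧ ∀ α β, T (C.x α β) = C.x α (adjoint (coef C f) β) := by
  obtain ⟨Rf, Uf, v, hv, hb⟩ := eo_gns C hf
  refine exists_extOp C (fun α β => C.x α (adjoint (coef C f) β)) fun R k l => ?_
  obtain ⟨U, hU⟩ := C.ofRep R.K R.π R.nd
  obtain ⟨g, hg, hgc⟩ := eo_fun C (tensorRep Uf U) (tp v k) (tp v l)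
  refine ⟨g, ?_, fun α β => ?_⟩
  · refine hg.trans (le_of_eq ?_)
    rw [norm_tp, norm_tp, hv, one_mul, one_mul]
  · rw [hgc α β, coefOp_tensorRep, ← hb, hU, inner_slice, ← inner_coefOp,
      ContinuousLinearMap.adjoint_inner_left]
    rfl

theorem exists_lOp (C : UniversalAlgebra W A) {f : A →L[ℂ] ℂ} (hf : IsState f) :
    ∃ T : A →L[ℂ] A, ‖T‖ ≤ 1 ∧ ∀ α β, T (C.x α β) = C.x (coef C f α) β := by
  obtain ⟨Rf, Uf, v, hv, hb⟩ := eo_gns C hf
  refine exists_extOp C (fun α β => C.x (coef C f α) β) fun R k l => ?_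
  obtain ⟨U, hU⟩ := C.ofRep R.K R.π R.nd
  obtain ⟨g, hg, hgc⟩ := eo_fun C (tensorRep U Uf) (tp k v) (tp l v)
  refine ⟨g, ?_, fun α β => ?_⟩
  · refine hg.trans (le_of_eq ?_)
    rw [norm_tp, norm_tp, hv, mul_one, mul_one]
  · rw [hgc α β, coefOp_tensorRep, ← hb, hU, inner_slice, ← inner_coefOp]
    rfl

theorem exists_conv (C : UniversalAlgebra W A) {f g : A →L[ℂ] ℂ} (hf : IsState f)
    (hg : IsState g) : ∃ κ : A →L[ℂ] ℂ, IsState κ ∧ IsCoef C κ (coef C g * coef C f) := by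
  obtain ⟨Rf, Uf, v, hv, hb⟩ := eo_gns C hf
  obtain ⟨Rg, Ug, v', hv', hb'⟩ := eo_gns C hg
  obtain ⟨π, hnd, hπ⟩ := C.toRep (HT Rg.K Rf.K) (tensorRep Ug Uf)
  refine ⟨vecF π (tp v' v) (tp v' v), isState_vecF hnd ?_, ?_⟩
  · rw [norm_tp, hv, hv', one_mul]
  · have h1 := isCoef_vecF hπ (tp v' v) (tp v' v)
    rw [coefOp_tensorRep, ← hb, ← hb'] at h1
    exact h1

/-- The counit. -/
theorem exists_counit (C : UniversalAlgebra W A) : ∃ e : A →L[ℂ] ℂ, IsState e ∧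
    (∀ α β, e (C.x α β) = ⟪β, α⟫_ℂ) ∧ (∀ a b, e (a * b) = e a * e b) ∧
    ∀ a, e (star a) = star (e a) := by
  obtain ⟨π, hnd, hπ⟩ := C.toRep ℂ (trivRep W ℂ)
  refine ⟨vecF π 1 1, isState_vecF hnd norm_one, ?_, ?_, ?_⟩
  · intro α β
    rw [vecF_apply, hπ, inner_slice]
    show ⟪tp β (1 : ℂ), tp α (1 : ℂ)⟫_ℂ = _
    rw [inner_tp]
    simp
  · intro a b
    rw [vecF_apply, vecF_apply, vecF_apply, map_mul]
    have h1 : π b 1 = (⟪(1 : ℂ), π b 1⟫_ℂ) • (1 : ℂ) := by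
      simp
    have h2 : (π a * π b) 1 = π a (π b 1) := rfl
    rw [h2]
    conv_lhs => rw [h1]
    rw [map_smul, inner_smul_right]
    ring
  · intro a
    rw [vecF_apply, vecF_apply, map_star, ContinuousLinearMap.star_eq_adjoint,
      ContinuousLinearMap.adjoint_inner_right, RCLike.star_def, inner_conj_symm]

end QG753
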