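import Pool.Agent.Lib.QG753.TensorRep

/-!
# MP_753acd_an: absorption

PROOF. From `U.rep`, `U₂₃ V₁₂ = V₁₂ U₁₃ U₂₃`, so `V₁₂ U₁₃ = U₂₃ V₁₂ U₂₃*` on `H ⊗ (H ⊗ K)`.
Take the matrix coefficient between `α ⊗ (ξ ⊗ k)` and `β ⊗ (ξ' ⊗ k')`: the left side is
`coefOp V ξ ξ' * coefOp U k k'` (`coefOp_leg12_mul_leg13`), the right side is
`⟪U* (ξ' ⊗ k'), (slice V α β ⊗ 1) U* (ξ ⊗ k)⟫`.
-/

open scoped TensorProduct ComplexOrder InnerProductSpace
open ContinuousLinearMap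

noncomputable section

namespace QG753

variable {H : Type} [NormedAddCommGroup H] [InnerProductSpace ℂ H] [CompleteSpace H]
  {W : MultUnitary H}
  {K : Type} [NormedAddCommGroup K] [InnerProductSpace ℂ K] [CompleteSpace K]

private theorem fell_op {L : Type} [NormedAddCommGroup L] [InnerProductSpace ℂ L]
    [CompleteSpace L] (Y : HT H K →L[ℂ] HT H K) (α β : H) :
    (adjoint (tpR (HT K L) β)).comp ((leg12 L Y).comp (tpR (HT K L) α)) =
      opT (slice Y α β) 1 := by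
  apply clm_ext
  intro k l
  apply vec_ext
  intro k' l'
  rw [ContinuousLinearMap.comp_apply, ContinuousLinearMap.comp_apply,
    ContinuousLinearMap.adjoint_inner_right, tpR_apply, tpR_apply, leg12_tp, opT_tp, inner_tp,
    ← adjoint_assocTs, ContinuousLinearMap.adjoint_inner_right, assocTs_tp, inner_tp, inner_slice]
  rfl

/-- `⟪β ⊗ w, Y₁₂ (α ⊗ z)⟫ = ⟪w, (slice Y α β ⊗ 1) z⟫` for `z, w ∈ K ⊗ L`. -/
theorem inner_leg12_tp {L : Type} [NormedAddCommGroup L] [InnerProductSpace ℂ L]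
    [CompleteSpace L] (Y : HT H K →L[ℂ] HT H K) (α β : H) (z w : HT K L) :
    ⟪tp β w, leg12 L Y (tp α z)⟫_ℂ = ⟪w, opT (slice Y α β) 1 z⟫_ℂ := by
  rw [← fell_op, ContinuousLinearMap.comp_apply, ContinuousLinearMap.comp_apply,
    ContinuousLinearMap.adjoint_inner_right]
  rfl

theorem fell (U : URep W K) (ξ ξ' : H) (k k' : K) (α β : H) :
    ⟪β, (coefOp W.V ξ ξ' * coefOp U.U k k') α⟫_ℂ =
      ⟪star U.U (tp ξ' k'), opT (slice W.V α β) 1 (star U.U (tp ξ k))⟫_ℂ := by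
  have hV := Unitary.mem_iff.1 (unitary_leg12 (L := K) W.V W.unitary)
  have hU := Unitary.mem_iff.1 (unitary_leg23 (H := H) U.unitary)
  have h1 : leg12 K W.V * leg13 H U.U = leg23 H U.U * (leg12 K W.V * leg23 H (star U.U)) := by
    have h2 : leg23 H U.U * leg12 K W.V = leg12 K W.V * (leg13 H U.U * leg23 H U.U) := by
      rw [← U.rep, ← mul_assoc, ← mul_assoc, hV.2, one_mul]
    rw [← star_leg23, ← mul_assoc, h2, mul_assoc, mul_assoc, hU.2, mul_one]
  rw [← coefOp_leg12_mul_leg13, inner_coefOp, h1]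
  change ⟪tp β (tp ξ' k'), leg23 H U.U (leg12 K W.V (leg23 H (star U.U) (tp α (tp ξ k))))⟫_ℂ = _
  rw [← inner_leg12_tp, leg23_tp, ← ContinuousLinearMap.adjoint_inner_left,
    ← ContinuousLinearMap.star_eq_adjoint, star_leg23, leg23_tp]

end QG753
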