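import Pool.Agent.Lib.QG753.Legs

/-!
# MP_753acd_an: coefficients, slices, functionals of representations
-/

open scoped TensorProduct ComplexOrder InnerProductSpace
open ContinuousLinearMap

noncomputable section

namespace QG753

section coefficients

variable {H K : Type}
  [NormedAddCommGroup H] [InnerProductSpace ℂ H] [CompleteSpace H]
  [NormedAddCommGroup K] [InnerProductSpace ℂ K] [CompleteSpace K]

theorem inner_slice (Y : HT H K →L[ℂ] HT H K) (α β : H) (k l : K) :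
    ⟪l, slice Y α β k⟫_ℂ = ⟪tp β l, Y (tp α k)⟫_ℂ := by
  simp [slice, ContinuousLinearMap.adjoint_inner_right]

/-- The coefficient `(id ⊗ ω_{k,l})(Y)` of an operator on `H ⊗ K`. -/
def coefOp (Y : HT H K →L[ℂ] HT H K) (k l : K) : H →L[ℂ] H :=
  (adjoint (tpL H l)).comp (Y.comp (tpL H k))

theorem inner_coefOp (Y : HT H K →L[ℂ] HT H K) (k l : K) (α β : H) :
    ⟪β, coefOp Y k l α⟫_ℂ = ⟪tp β l, Y (tp α k)⟫_ℂ := by
  simp [coefOp, ContinuousLinearMap.adjoint_inner_right]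

theorem norm_coefOp_le {Y : HT H K →L[ℂ] HT H K} (hY : ‖Y‖ ≤ 1) (k l : K) :
    ‖coefOp Y k l‖ ≤ ‖k‖ * ‖l‖ := by
  apply ContinuousLinearMap.opNorm_le_bound _ (by positivity)
  intro α
  have h1 : ‖coefOp Y k l α‖ ^ 2 ≤ (‖k‖ * ‖l‖ * ‖α‖) * ‖coefOp Y k l α‖ := by
    have h2 : ‖⟪coefOp Y k l α, coefOp Y k l α⟫_ℂ‖ ≤
        ‖tp (coefOp Y k l α) l‖ * ‖Y (tp α k)‖ := by
      rw [inner_coefOp]; exact norm_inner_le_norm _ _
    have h3 : ‖Y (tp α k)‖ ≤ ‖α‖ * ‖k‖ := by
      refine (Y.le_opNorm _).trans ?_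
      rw [norm_tp]
      exact mul_le_of_le_one_left (by positivity) hY
    have h4 : ‖⟪coefOp Y k l α, coefOp Y k l α⟫_ℂ‖ = ‖coefOp Y k l α‖ ^ 2 := by
      rw [inner_self_eq_norm_sq_to_K]; simp
    rw [h4, norm_tp] at h2
    nlinarith [norm_nonneg (coefOp Y k l α), norm_nonneg l, norm_nonneg α, norm_nonneg k,
      mul_nonneg (norm_nonneg (coefOp Y k l α)) (norm_nonneg l)]
  by_cases h0 : ‖coefOp Y k l α‖ = 0
  · rw [h0]; positivity
  · have : 0 < ‖coefOp Y k l α‖ := lt_of_le_of_ne (norm_nonneg _) (Ne.symm h0)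
    nlinarith

theorem norm_unitary_le {E : Type} [NormedAddCommGroup E] [InnerProductSpace ℂ E]
    [CompleteSpace E] {Y : E →L[ℂ] E} (hY : Y ∈ unitary (E →L[ℂ] E)) : ‖Y‖ ≤ 1 := by
  apply ContinuousLinearMap.opNorm_le_bound _ zero_le_one
  intro z
  have h1 : ⟪Y z, Y z⟫_ℂ = ⟪z, z⟫_ℂ := by
    rw [← ContinuousLinearMap.adjoint_inner_right, ← ContinuousLinearMap.star_eq_adjoint,
      ← mul_apply_eq_comp (star Y) Y z, (Unitary.mem_iff.1 hY).1]; rfl
  have h2 : ‖Y z‖ = ‖z‖ := by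
    rw [@norm_eq_sqrt_re_inner ℂ, @norm_eq_sqrt_re_inner ℂ _ _ _ _ z, h1]
  rw [h2, one_mul]

theorem inner_unitary {E : Type} [NormedAddCommGroup E] [InnerProductSpace ℂ E]
    [CompleteSpace E] {Y : E →L[ℂ] E} (hY : Y ∈ unitary (E →L[ℂ] E)) (z w : E) :
    ⟪Y z, Y w⟫_ℂ = ⟪z, w⟫_ℂ := by
  rw [← ContinuousLinearMap.adjoint_inner_right, ← ContinuousLinearMap.star_eq_adjoint,
    ← mul_apply_eq_comp (star Y) Y w, (Unitary.mem_iff.1 hY).1]; rfl

theorem norm_unitary_apply {E : Type} [NormedAddCommGroup E] [InnerProductSpace ℂ E]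
    [CompleteSpace E] {Y : E →L[ℂ] E} (hY : Y ∈ unitary (E →L[ℂ] E)) (z : E) :
    ‖Y z‖ = ‖z‖ := by
  rw [@norm_eq_sqrt_re_inner ℂ, @norm_eq_sqrt_re_inner ℂ _ _ _ _ z, inner_unitary hY]

/-- `‖U (α ⊗ k) - α ⊗ k‖²` in terms of the coefficient. -/
theorem norm_sub_sq_unitary {E : Type} [NormedAddCommGroup E] [InnerProductSpace ℂ E]
    [CompleteSpace E] {Y : E →L[ℂ] E} (hY : Y ∈ unitary (E →L[ℂ] E)) (z : E) :
    ‖Y z - z‖ ^ 2 = 2 * (‖z‖ ^ 2 - (⟪z, Y z⟫_ℂ).re) := by
  have h := @norm_sub_sq ℂ _ _ _ _ (Y z) z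
  rw [norm_unitary_apply hY] at h
  rw [h, inner_re_symm (𝕜 := ℂ) (Y z) z]
  simp only [RCLike.re_to_complex]
  ring

end coefficients

section reps

variable {A : Type} [NonUnitalCStarAlgebra A]
variable {K : Type} [NormedAddCommGroup K] [InnerProductSpace ℂ K] [CompleteSpace K]

/-- The functional `a ↦ ⟪l, π a k⟫`. -/
def vecF (π : A →⋆ₙₐ[ℂ] (K →L[ℂ] K)) (k l : K) : A →L[ℂ] ℂ :=
  LinearMap.mkContinuous
    { toFun := fun a => ⟪l, π a k⟫_ℂ
      map_add' := fun a b => by simp [map_add, inner_add_right]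
      map_smul' := fun c a => by simp [map_smul, inner_smul_right] } (‖k‖ * ‖l‖) (by
      intro a
      simp only [LinearMap.coe_mk, AddHom.coe_mk]
      calc ‖⟪l, π a k⟫_ℂ‖ ≤ ‖l‖ * ‖π a k‖ := norm_inner_le_norm _ _
        _ ≤ ‖l‖ * (‖a‖ * ‖k‖) := by
          gcongr
          exact ((π a).le_opNorm k).trans
            (mul_le_mul_of_nonneg_right (NonUnitalStarAlgHom.norm_apply_le π a) (norm_nonneg _))
        _ = ‖k‖ * ‖l‖ * ‖a‖ := by ring)

@[simp] theorem vecF_apply (π : A →⋆ₙₐ[ℂ] (K →L[ℂ] K)) (k l : K) (a : A) :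
    vecF π k l a = ⟪l, π a k⟫_ℂ := rfl

theorem norm_vecF_le (π : A →⋆ₙₐ[ℂ] (K →L[ℂ] K)) (k l : K) : ‖vecF π k l‖ ≤ ‖k‖ * ‖l‖ :=
  LinearMap.mkContinuous_norm_le _ (by positivity) _

/-- A nondegenerate representation on some Hilbert space (bundled). -/
structure HRep (A : Type) [NonUnitalCStarAlgebra A] where
  /-- the space -/
  K : Type
  [nacg : NormedAddCommGroup K]
  [ips : InnerProductSpace ℂ K]
  [cs : CompleteSpace K]
  /-- the representation -/
  π : A →⋆ₙₐ[ℂ] (K →L[ℂ] K)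
  nd : Nondeg π

attribute [instance] HRep.nacg HRep.ips HRep.cs

end reps

section universal

variable {H : Type} [NormedAddCommGroup H] [InnerProductSpace ℂ H] [CompleteSpace H]
  {W : MultUnitary H} {A : Type} [NonUnitalCStarAlgebra A]
  {K : Type} [NormedAddCommGroup K] [InnerProductSpace ℂ K] [CompleteSpace K]

/-- The regular representation. -/
def regRep (W : MultUnitary H) : URep W H where
  U := W.V
  unitary := W.unitary
  rep := by
    have h := W.pentagon
    have hu := (Unitary.mem_iff.1 (unitary_leg12 (L := H) W.V W.unitary)).1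
    rw [mul_assoc, ← h, ← mul_assoc, ← mul_assoc, hu, one_mul]

/-- The trivial representation on `K`. -/
def trivRep (W : MultUnitary H) (K : Type) [NormedAddCommGroup K] [InnerProductSpace ℂ K]
    [CompleteSpace K] : URep W K where
  U := 1
  unitary := one_mem _
  rep := by
    rw [leg23_one, leg13_one, mul_one, mul_one]
    exact (Unitary.mem_iff.1 (unitary_leg12 (L := K) W.V W.unitary)).1

/-- Functionals on `A` are determined by their values on the slices. -/
theorem clm_ext_x (C : UniversalAlgebra W A) {E : Type} [NormedAddCommGroup E]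
    [NormedSpace ℂ E] {f g : A →L[ℂ] E} (h : ∀ α β, f (C.x α β) = g (C.x α β)) : f = g := by
  apply ContinuousLinearMap.ext_on C.dense
  rintro _ ⟨p, rfl⟩
  exact h _ _

theorem exists_coef (C : UniversalAlgebra W A) (f : A →L[ℂ] ℂ) :
    ∃ b : H →L[ℂ] H, IsCoef C f b := by
  have hb : ∀ α β, ‖f (C.x α β)‖ ≤ ‖f‖ * ‖α‖ * ‖β‖ := by
    intro α β
    refine (f.le_opNorm _).trans ?_
    rw [mul_assoc]
    exact mul_le_mul_of_nonneg_left (C.norm_x_le α β) (norm_nonneg _)
  let B : H →L⋆[ℂ] H →L[ℂ] ℂ := LinearMap.mkContinuous₂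
    (LinearMap.mk₂'ₛₗ (starRingEnd ℂ) (RingHom.id ℂ)
      (fun α β => (starRingEnd ℂ) (f (C.x α β)))
      (fun a b c => by simp [map_add])
      (fun c a b => by simp [map_smul])
      (fun a b c => by simp [map_add])
      (fun c a b => by simp [map_smulₛₗ])) ‖f‖ (by
      intro α β
      simpa using hb α β)
  refine ⟨InnerProductSpace.continuousLinearMapOfBilin B, ?_⟩
  intro α β
  have h1 : ⟪InnerProductSpace.continuousLinearMapOfBilin B α, β⟫_ℂ = B α β :=
    InnerProductSpace.continuousLinearMapOfBilin_apply B α β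
  have h2 : B α β = (starRingEnd ℂ) (f (C.x α β)) := rfl
  rw [← inner_conj_symm, h1, h2, Complex.conj_conj]

theorem IsCoef.unique {C : UniversalAlgebra W A} {f : A →L[ℂ] ℂ} {b c : H →L[ℂ] H}
    (hb : IsCoef C f b) (hc : IsCoef C f c) : b = c := by
  ext α
  apply ext_inner_left ℂ
  intro β
  rw [← hb, ← hc]

theorem IsCoef.inj {C : UniversalAlgebra W A} {f g : A →L[ℂ] ℂ} {b : H →L[ℂ] H}
    (hf : IsCoef C f b) (hg : IsCoef C g b) : f = g :=
  clm_ext_x C fun α β => by rw [hf, hg]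

/-- The coefficient operator of a functional. -/
def coef (C : UniversalAlgebra W A) (f : A →L[ℂ] ℂ) : H →L[ℂ] H := (exists_coef C f).choose

theorem isCoef_coef (C : UniversalAlgebra W A) (f : A →L[ℂ] ℂ) : IsCoef C f (coef C f) :=
  (exists_coef C f).choose_spec

theorem isCoef_vecF {C : UniversalAlgebra W A} {U : URep W K} {π : A →⋆ₙₐ[ℂ] (K →L[ℂ] K)}
    (h : ∀ α β, π (C.x α β) = slice U.U α β) (k l : K) :
    IsCoef C (vecF π k l) (coefOp U.U k l) := by
  intro α β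
  rw [vecF_apply, h, inner_slice, inner_coefOp]

/-- The reducing morphism. -/
def reduce (C : UniversalAlgebra W A) : A →⋆ₙₐ[ℂ] (H →L[ℂ] H) :=
  (C.toRep H (regRep W)).choose

theorem nondeg_reduce (C : UniversalAlgebra W A) : Nondeg (reduce C) :=
  (C.toRep H (regRep W)).choose_spec.1

theorem reduce_x (C : UniversalAlgebra W A) (α β : H) :
    reduce C (C.x α β) = slice W.V α β :=
  (C.toRep H (regRep W)).choose_spec.2 α β

theorem L1_eq (C : UniversalAlgebra W A) : L1 C = (Submodule.span ℂ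
    (Set.range fun p : H × H => vecF (reduce C) p.1 p.2)).topologicalClosure := by
  unfold L1
  congr 2
  ext f
  constructor
  · rintro ⟨ξ, η, h⟩
    refine ⟨(ξ, η), ?_⟩
    apply clm_ext_x C
    intro α β
    rw [h, vecF_apply, reduce_x]
  · rintro ⟨p, rfl⟩
    refine ⟨p.1, p.2, ?_⟩
    intro α β
    rw [vecF_apply, reduce_x]

end universal

end QG753
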