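import Pool.Agent.Lib.QG753.StateNorm
import Pool.Agent.Lib.QG753.RepBasic

/-!
# MP_753acd_an: GNS representations

PROOFS. `exists_approx`: take `l = CStarAlgebra.approximateUnit A` (with the spectral order,
`CStarAlgebra.spectralOrder`); for a nondegenerate `π` and `k = π a v`, `π e (π a v) = π (e a) v → π a v`;
extend to all `k` by linearity, density and `‖π e‖ ≤ 1`.

`isState_vecF`: positivity is clear, `‖f‖ ≤ ‖k‖^2 = 1`, and `f e → ‖k‖^2 = 1` along `l`.

`exists_gns`: Mathlib has `PositiveLinearMap.gnsNonUnitalStarAlgHom` on `f.GNS`. Cyclic vector: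
`|f a|^2 ≤ f (star a * a)` (from Cauchy-Schwarz `|f (e a)|^2 ≤ f (e e*) f (a* a)` along the
approximate unit), so `[a] ↦ f a` is a bounded functional on `f.GNS`, represented by `k`:
`⟪k, [a]⟫ = f a`. Then `π a k = [a]`: `⟪[b], π a k⟫ = ⟪[a* b], k⟫ = conj (f (a* b)) = f (b* a)`.
Hence `⟪k, π a k⟫ = f a`, the representation is nondegenerate, `‖k‖ ≤ 1`, and
`1 = ‖f‖ ≤ ‖k‖^2`.

`exists_rep_norm`: GNS of the state of `exists_state_norm`: `‖π a k‖^2 = f (a* a) = ‖a‖^2`.

`convex_state`: `f e → 1` for every state `f` along `l` (by `exists_gns`), so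
`‖s f + t g‖ ≥ s + t = 1`.
-/

open scoped ComplexOrder InnerProductSpace
open Filter Topology

noncomputable section

namespace QG753

/-- Strong convergence of bounded families on a total set. -/
theorem tendsto_of_total {K : Type} [NormedAddCommGroup K] [NormedSpace ℂ K]
    {ι : Type} {l : Filter ι} {T : ι → K →L[ℂ] K} (hb : ∀ᶠ i in l, ‖T i‖ ≤ 1) {s : Set K}
    (hs : Dense (Submodule.span ℂ s : Set K))
    (h : ∀ k ∈ s, Tendsto (fun i => T i k) l (𝓝 k)) (k : K) :
    Tendsto (fun i => T i k) l (𝓝 k) := by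
  have h1 : ∀ k ∈ Submodule.span ℂ s, Tendsto (fun i => T i k) l (𝓝 k) := by
    intro k hk
    induction hk using Submodule.span_induction with
    | mem x hx => exact h x hx
    | zero => simpa using tendsto_const_nhds
    | add x y _ _ hx hy => simpa [map_add] using hx.add hy
    | smul c x _ hx => simpa [map_smul] using hx.const_smul c
  rw [Metric.tendsto_nhds]
  intro ε hε
  obtain ⟨k', hk', hd⟩ := Metric.mem_closure_iff.1 (hs k) (ε / 3) (by positivity)
  filter_upwards [hb, Metric.tendsto_nhds.1 (h1 k' hk') (ε / 3) (by positivity)] with i hi1 hi2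
  rw [dist_eq_norm] at hi2 hd ⊢
  have h3 : T i k - k = T i (k - k') + (T i k' - k') - (k - k') := by
    rw [map_sub]; abel
  have h4 : ‖T i (k - k')‖ ≤ ‖k - k'‖ :=
    ((T i).le_opNorm _).trans (mul_le_of_le_one_left (norm_nonneg _) hi1)
  rw [h3]
  calc ‖T i (k - k') + (T i k' - k') - (k - k')‖
      ≤ ‖T i (k - k') + (T i k' - k')‖ + ‖k - k'‖ := norm_sub_le _ _
    _ ≤ ‖T i (k - k')‖ + ‖T i k' - k'‖ + ‖k - k'‖ := by
        have := norm_add_le (T i (k - k')) (T i k' - k')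
        linarith
    _ < ε := by linarith

theorem exists_approx (A : Type) [NonUnitalCStarAlgebra A] : ∃ l : Filter A, l.NeBot ∧
    (∀ᶠ e in l, ‖e‖ ≤ 1) ∧ (∀ a : A, Tendsto (fun e => e * a) l (𝓝 a)) ∧
    ∀ (K : Type) [NormedAddCommGroup K] [InnerProductSpace ℂ K] [CompleteSpace K]
      (π : A →⋆ₙₐ[ℂ] (K →L[ℂ] K)), Nondeg π → ∀ k : K, Tendsto (fun e => π e k) l (𝓝 k) := by
  let _ := CStarAlgebra.spectralOrder A
  have _ := CStarAlgebra.spectralOrderedRing A
  have hl := CStarAlgebra.increasingApproximateUnit A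
  refine ⟨CStarAlgebra.approximateUnit A, hl.neBot, hl.eventually_norm,
    fun a => hl.tendsto_mul_right a, ?_⟩
  intro K _ _ _ π hπ k
  refine tendsto_of_total (T := fun e => π e) ?_ hπ ?_ k
  · filter_upwards [hl.eventually_norm] with e he
    exact (NonUnitalStarAlgHom.norm_apply_le π e).trans he
  · rintro _ ⟨p, rfl⟩
    have h1 : Continuous fun a : A => π a p.2 := by
      have h2 : Continuous fun a : A => π a :=
        AddMonoidHomClass.continuous_of_bound π 1 (fun x => by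
          rw [one_mul]; exact NonUnitalStarAlgHom.norm_apply_le π x)
      exact h2.clm_apply continuous_const
    have h2 := (h1.tendsto p.1).comp (hl.tendsto_mul_right p.1)
    refine h2.congr ?_
    intro e
    simp [map_mul]

variable {A : Type} [NonUnitalCStarAlgebra A]

theorem vecF_star_mul {K : Type} [NormedAddCommGroup K] [InnerProductSpace ℂ K] [CompleteSpace K]
    (π : A →⋆ₙₐ[ℂ] (K →L[ℂ] K)) (k : K) (a : A) :
    vecF π k k (star a * a) = ((‖π a k‖ ^ 2 : ℝ) : ℂ) := by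
  rw [vecF_apply, map_mul, map_star, mul_apply_eq_comp, ContinuousLinearMap.star_eq_adjoint,
    ContinuousLinearMap.adjoint_inner_right, inner_self_eq_norm_sq_to_K]
  simp

theorem vecF_nonneg {K : Type} [NormedAddCommGroup K] [InnerProductSpace ℂ K] [CompleteSpace K]
    (π : A →⋆ₙₐ[ℂ] (K →L[ℂ] K)) (k : K) (a : A) : 0 ≤ vecF π k k (star a * a) := by
  rw [vecF_star_mul]
  exact_mod_cast sq_nonneg ‖π a k‖

theorem isState_vecF {K : Type} [NormedAddCommGroup K] [InnerProductSpace ℂ K] [CompleteSpace K]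
    {π : A →⋆ₙₐ[ℂ] (K →L[ℂ] K)} (hπ : Nondeg π) {k : K} (hk : ‖k‖ = 1) :
    IsState (vecF π k k) := by
  refine ⟨vecF_nonneg π k, le_antisymm ?_ ?_⟩
  · have := norm_vecF_le π k k
    rwa [hk, one_mul] at this
  · obtain ⟨l, hl, h1, h2, h3⟩ := exists_approx A
    have h4 : Tendsto (fun e => ‖vecF π k k e‖) l (𝓝 1) := by
      have h5 : Tendsto (fun e => vecF π k k e) l (𝓝 ⟪k, k⟫_ℂ) := by
        simp only [vecF_apply]
        exact tendsto_const_nhds.inner (h3 K π hπ k)
      have h6 := h5.norm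
      rw [inner_self_eq_norm_sq_to_K, hk] at h6
      simpa using h6
    refine le_of_tendsto h4 ?_
    filter_upwards [h1] with e he
    refine ((vecF π k k).le_opNorm e).trans ?_
    exact mul_le_of_le_one_right (norm_nonneg _) he

theorem exists_gns {f : A →L[ℂ] ℂ} (hf : IsState f) :
    ∃ (R : HRep A) (k : R.K), ‖k‖ = 1 ∧ f = vecF R.π k k := by
  let _ := CStarAlgebra.spectralOrder A
  have _ := CStarAlgebra.spectralOrderedRing A
  have hpos : ∀ x : A, 0 ≤ x → 0 ≤ (f : A →ₗ[ℂ] ℂ) x := by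
    intro x hx
    obtain ⟨b, rfl⟩ := CStarAlgebra.nonneg_iff_eq_star_mul_self.1 hx
    exact hf.1 b
  set F : A →ₚ[ℂ] ℂ := PositiveLinearMap.mk₀ (f : A →ₗ[ℂ] ℂ) hpos with hF
  have hFf : ∀ a, F a = f a := fun a => rfl
  have hl := CStarAlgebra.increasingApproximateUnit A
  have _ := hl.neBot
  have hbound : ∀ a : A, ‖f a‖ ≤ ‖F.toPreGNS a‖ := by
    intro a
    have h1 : ∀ᶠ e in CStarAlgebra.approximateUnit A, ‖f (e * a)‖ ≤ ‖F.toPreGNS a‖ := by
      filter_upwards [hl.eventually_norm] with e he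
      have h2 : f (e * a) = ⟪F.toPreGNS (star e), F.toPreGNS a⟫_ℂ := by
        rw [PositiveLinearMap.preGNS_inner_def]
        simp [hFf]
      have h3 : ‖F.toPreGNS (star e)‖ ≤ 1 := by
        have h4 := F.preGNS_norm_sq (F.toPreGNS (star e))
        have h5 : ‖F (star (F.ofPreGNS (F.toPreGNS (star e))) *
            F.ofPreGNS (F.toPreGNS (star e)))‖ ≤ 1 := by
          rw [hFf]
          refine (f.le_opNorm _).trans ?_
          rw [hf.2, one_mul]
          refine (norm_mul_le _ _).trans ?_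
          simp only [PositiveLinearMap.ofPreGNS_toPreGNS, star_star, norm_star]
          nlinarith [norm_nonneg e]
        rw [← h4] at h5
        have h6 : ‖F.toPreGNS (star e)‖ ^ 2 ≤ 1 := by
          simpa using h5
        nlinarith [norm_nonneg (F.toPreGNS (star e))]
      rw [h2]
      exact (norm_inner_le_norm _ _).trans (mul_le_of_le_one_left (norm_nonneg _) h3)
    have h2 : Tendsto (fun e => ‖f (e * a)‖) (CStarAlgebra.approximateUnit A) (𝓝 ‖f a‖) :=
      ((f.continuous.tendsto a).comp (hl.tendsto_mul_right a)).norm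
    exact le_of_tendsto h2 h1
  -- the functional on the GNS space
  set φ₀ : F.PreGNS →ₗ[ℂ] ℂ := (f : A →ₗ[ℂ] ℂ) ∘ₗ F.ofPreGNS.toLinearMap with hφ₀
  set em : F.PreGNS →ₗ[ℂ] F.GNS :=
    ((UniformSpace.Completion.toComplL (𝕜 := ℂ) (E := F.PreGNS)) : F.PreGNS →ₗ[ℂ] F.GNS) with hem
  have hdense : DenseRange em := UniformSpace.Completion.denseRange_coe
  have hnorm : ∀ x : F.PreGNS, ‖φ₀ x‖ ≤ 1 * ‖em x‖ := by
    intro x
    rw [one_mul]
    have h1 : ‖em x‖ = ‖x‖ := UniformSpace.Completion.norm_coe x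
    rw [h1]
    exact hbound (F.ofPreGNS x)
  set φ : F.GNS →L[ℂ] ℂ := φ₀.extendOfNorm em with hφ
  have hφ_eq : ∀ a : A, φ ((F.toPreGNS a : F.PreGNS) : F.GNS) = f a := fun a =>
    LinearMap.extendOfNorm_eq hdense ⟨1, hnorm⟩ (F.toPreGNS a)
  set k : F.GNS := (InnerProductSpace.toDual ℂ F.GNS).symm φ with hk
  have hk_inner : ∀ v, ⟪k, v⟫_ℂ = φ v := fun v => InnerProductSpace.toDual_symm_apply
  have hstar : ∀ a : A, f (star a) = (starRingEnd ℂ) (f a) := fun a => map_star F a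
  have hπk : ∀ a : A, F.gnsNonUnitalStarAlgHom a k = ((F.toPreGNS a : F.PreGNS) : F.GNS) := by
    intro a
    have h1 : ∀ v : F.GNS, ⟪v, F.gnsNonUnitalStarAlgHom a k⟫_ℂ =
        ⟪v, ((F.toPreGNS a : F.PreGNS) : F.GNS)⟫_ℂ := by
      intro v
      induction v using UniformSpace.Completion.induction_on with
      | hp => exact isClosed_eq (by fun_prop) (by fun_prop)
      | ih b =>
        have h2 : ⟪((b : F.PreGNS) : F.GNS), F.gnsNonUnitalStarAlgHom a k⟫_ℂ =
            ⟪F.gnsNonUnitalStarAlgHom (star a) ((b : F.PreGNS) : F.GNS), k⟫_ℂ := by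
          rw [map_star, ContinuousLinearMap.star_eq_adjoint,
            ContinuousLinearMap.adjoint_inner_left]
        rw [h2, PositiveLinearMap.gnsNonUnitalStarAlgHom_apply_coe, ← inner_conj_symm, hk_inner]
        have h3 : F.leftMulMapPreGNS (star a) b = F.toPreGNS (star a * F.ofPreGNS b) := rfl
        rw [h3, hφ_eq, ← hstar, UniformSpace.Completion.inner_coe,
          PositiveLinearMap.preGNS_inner_def]
        simp [hFf]
    exact ext_inner_left ℂ h1
  have hnd : Nondeg F.gnsNonUnitalStarAlgHom := by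
    refine hdense.mono ?_
    rintro _ ⟨x, rfl⟩
    have h1 : em x = F.gnsNonUnitalStarAlgHom (F.ofPreGNS x) k := (hπk (F.ofPreGNS x)).symm
    rw [h1]
    exact Submodule.subset_span ⟨(F.ofPreGNS x, k), rfl⟩
  have hvec : f = vecF F.gnsNonUnitalStarAlgHom k k := by
    ext a
    rw [vecF_apply, hπk, hk_inner, hφ_eq]
  have hk1 : ‖k‖ ≤ 1 := by
    have h1 : ‖φ‖ ≤ 1 := LinearMap.opNorm_extendOfNorm_le hdense zero_le_one hnorm
    rwa [hk, LinearIsometryEquiv.norm_map]
  have hk2 : 1 ≤ ‖k‖ * ‖k‖ := by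
    have h1 := norm_vecF_le F.gnsNonUnitalStarAlgHom k k
    rwa [← hvec, hf.2] at h1
  refine ⟨{ K := F.GNS, π := F.gnsNonUnitalStarAlgHom, nd := hnd }, k, ?_, hvec⟩
  nlinarith [norm_nonneg k]

theorem exists_rep_norm (a : A) (ha : a ≠ 0) :
    ∃ (R : HRep A) (k : R.K), ‖k‖ = 1 ∧ ‖R.π a k‖ = ‖a‖ := by
  obtain ⟨f, hf, h1⟩ := exists_state_norm a ha
  obtain ⟨R, k, hk, h2⟩ := exists_gns hf
  refine ⟨R, k, hk, ?_⟩
  rw [h2, vecF_star_mul] at h1
  have h3 : ‖R.π a k‖ ^ 2 = ‖a‖ ^ 2 := by exact_mod_cast h1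
  exact (pow_left_inj₀ (norm_nonneg _) (norm_nonneg _) two_ne_zero).1 h3

theorem state_separates {a : A} (h : ∀ f : A →L[ℂ] ℂ, IsState f → f (star a * a) = 0) :
    a = 0 := by
  by_contra ha
  obtain ⟨f, hf, h1⟩ := exists_state_norm a ha
  rw [h f hf] at h1
  have h2 : (‖a‖ ^ 2 : ℝ) = 0 := by exact_mod_cast h1.symm
  exact ha (norm_eq_zero.1 (pow_eq_zero_iff (two_ne_zero)|>.1 h2))

theorem state_tendsto {f : A →L[ℂ] ℂ} (hf : IsState f) {l : Filter A}
    (hl : ∀ (K : Type) [NormedAddCommGroup K] [InnerProductSpace ℂ K] [CompleteSpace K]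
      (π : A →⋆ₙₐ[ℂ] (K →L[ℂ] K)), Nondeg π → ∀ k : K, Tendsto (fun e => π e k) l (𝓝 k)) :
    Tendsto (fun e => f e) l (𝓝 1) := by
  obtain ⟨R, k, hk, rfl⟩ := exists_gns hf
  have h5 : Tendsto (fun e => vecF R.π k k e) l (𝓝 ⟪k, k⟫_ℂ) := by
    simp only [vecF_apply]
    exact tendsto_const_nhds.inner (hl R.K R.π R.nd k)
  rw [inner_self_eq_norm_sq_to_K, hk] at h5
  simpa using h5

theorem convex_state {f g : A →L[ℂ] ℂ} (hf : IsState f) (hg : IsState g) {s t : ℝ} (hs : 0 ≤ s)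
    (ht : 0 ≤ t) (hst : s + t = 1) : IsState (s • f + t • g) := by
  refine ⟨fun a => ?_, le_antisymm ?_ ?_⟩
  · have h1 : (s • f + t • g) (star a * a) =
        (s : ℂ) * f (star a * a) + (t : ℂ) * g (star a * a) := by
      simp
    rw [h1]
    have hs' : (0 : ℂ) ≤ (s : ℂ) := by exact_mod_cast hs
    have ht' : (0 : ℂ) ≤ (t : ℂ) := by exact_mod_cast ht
    exact add_nonneg (mul_nonneg hs' (hf.1 a)) (mul_nonneg ht' (hg.1 a))
  · refine (norm_add_le _ _).trans ?_
    rw [norm_smul, norm_smul, hf.2, hg.2, Real.norm_of_nonneg hs, Real.norm_of_nonneg ht]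
    linarith
  · obtain ⟨l, hl, h1, h2, h3⟩ := exists_approx A
    have h4 : Tendsto (fun e => ‖(s • f + t • g) e‖) l (𝓝 1) := by
      have h5 := ((state_tendsto hf h3).const_smul s).add ((state_tendsto hg h3).const_smul t)
      have h6 : s • (1 : ℂ) + t • (1 : ℂ) = 1 := by
        rw [← add_smul, hst, one_smul]
      rw [h6] at h5
      have h7 := h5.norm
      rw [norm_one] at h7
      exact h7
    refine le_of_tendsto h4 ?_
    filter_upwards [h1] with e he
    refine ((s • f + t • g).le_opNorm e).trans ?_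
    exact mul_le_of_le_one_right (norm_nonneg _) he

theorem isState_of_tendsto {u : ℕ → (A →L[ℂ] ℂ)} {f : A →L[ℂ] ℂ} (hu : ∀ n, IsState (u n))
    (h : ∀ a, Tendsto (fun n => u n a) atTop (𝓝 (f a))) (hf : ‖f‖ = 1) : IsState f := by
  refine ⟨fun a => ?_, hf⟩
  exact ge_of_tendsto' (h _) (fun n => (hu n).1 a)

end QG753
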