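import Pool.Agent.Lib.QG753.Defs

/-!
# MP_753acd_an: basic facts on the Hilbert space tensor product
-/

open scoped TensorProduct ComplexOrder InnerProductSpace
open ContinuousLinearMap

noncomputable section

namespace QG753

variable {H K L M H' K' E : Type}
  [NormedAddCommGroup H] [InnerProductSpace ℂ H]
  [NormedAddCommGroup K] [InnerProductSpace ℂ K]
  [NormedAddCommGroup L] [InnerProductSpace ℂ L]
  [NormedAddCommGroup M] [InnerProductSpace ℂ M]
  [NormedAddCommGroup H'] [InnerProductSpace ℂ H']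
  [NormedAddCommGroup K'] [InnerProductSpace ℂ K']
  [NormedAddCommGroup E] [NormedSpace ℂ E]

theorem inner_tp (a b : H) (k l : K) : ⟪tp a k, tp b l⟫_ℂ = ⟪a, b⟫_ℂ * ⟪k, l⟫_ℂ := by
  simp [tp, UniformSpace.Completion.inner_coe]

theorem norm_tp (a : H) (k : K) : ‖tp a k‖ = ‖a‖ * ‖k‖ := by
  simp [tp, UniformSpace.Completion.norm_coe]

theorem tp_add_left (a b : H) (k : K) : tp (a + b) k = tp a k + tp b k := by
  simp [tp, TensorProduct.add_tmul, UniformSpace.Completion.coe_add]

theorem tp_add_right (a : H) (k l : K) : tp a (k + l) = tp a k + tp a l := by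
  simp [tp, TensorProduct.tmul_add, UniformSpace.Completion.coe_add]

theorem tp_smul_left (c : ℂ) (a : H) (k : K) : tp (c • a) k = c • tp a k := by
  simp only [tp, ← TensorProduct.smul_tmul', UniformSpace.Completion.coe_smul]

theorem tp_smul_right (c : ℂ) (a : H) (k : K) : tp a (c • k) = c • tp a k := by
  simp only [tp, TensorProduct.tmul_smul, UniformSpace.Completion.coe_smul]

theorem tp_sub_left (a b : H) (k : K) : tp (a - b) k = tp a k - tp b k := by
  simp [tp, TensorProduct.sub_tmul, UniformSpace.Completion.coe_sub]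

theorem tp_sub_right (a : H) (k l : K) : tp a (k - l) = tp a k - tp a l := by
  simp [tp, TensorProduct.tmul_sub, UniformSpace.Completion.coe_sub]

@[simp] theorem tpR_apply (a : H) (k : K) : tpR K a k = tp a k := rfl

/-- The operator `α ↦ α ⊗ k`. -/
def tpL (H : Type) [NormedAddCommGroup H] [InnerProductSpace ℂ H] (k : K) : H →L[ℂ] HT H K :=
  UniformSpace.Completion.toComplL.comp ((TensorProduct.mkL ℂ H K).flip k)

@[simp] theorem tpL_apply (a : H) (k : K) : tpL H k a = tp a k := rfl

theorem continuous_tp : Continuous fun p : H × K => tp p.1 p.2 := by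
  unfold tp
  exact (UniformSpace.Completion.continuous_coe _).comp TensorProduct.continuous_tmul

theorem span_tp_dense : Dense (Submodule.span ℂ (Set.range fun p : H × K => tp p.1 p.2) :
    Set (HT H K)) := by
  have h1 : (Submodule.span ℂ (Set.range fun p : H × K => tp p.1 p.2)) =
      (LinearMap.range ((UniformSpace.Completion.toComplL (𝕜 := ℂ) (E := H ⊗[ℂ] K)) :
        (H ⊗[ℂ] K) →ₗ[ℂ] HT H K)) := by
    rw [LinearMap.range_eq_map, ← TensorProduct.span_tmul_eq_top, Submodule.map_span]
    congr 1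
    ext z
    constructor
    · rintro ⟨p, rfl⟩
      exact ⟨p.1 ⊗ₜ p.2, ⟨p.1, p.2, rfl⟩, rfl⟩
    · rintro ⟨y, ⟨a, b, rfl⟩, rfl⟩
      exact ⟨(a, b), rfl⟩
  rw [h1]
  exact UniformSpace.Completion.denseRange_coe

/-- Two bounded operators on `H ⊗ K` agree if they agree on elementary tensors. -/
theorem clm_ext {f g : HT H K →L[ℂ] E} (h : ∀ a k, f (tp a k) = g (tp a k)) : f = g := by
  apply ContinuousLinearMap.ext_on span_tp_dense
  rintro _ ⟨p, rfl⟩
  exact h p.1 p.2

theorem vec_ext {x y : HT H K} (h : ∀ a k, ⟪tp a k, x⟫_ℂ = ⟪tp a k, y⟫_ℂ) : x = y := by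
  have h2 : (innerSL ℂ x : HT H K →L[ℂ] ℂ) = innerSL ℂ y := by
    apply clm_ext
    intro a k
    simp only [innerSL_apply_apply]
    rw [← inner_conj_symm, h, inner_conj_symm]
  exact (innerSL_inj (𝕜 := ℂ)).1 h2

@[simp] theorem opT_tp (S : H →L[ℂ] L) (T : K →L[ℂ] M) (a : H) (k : K) :
    opT S T (tp a k) = tp (S a) (T k) := by
  simp [opT, tp, ContinuousLinearMap.completion_apply_coe]

theorem opT_comp (S : L →L[ℂ] H') (T : M →L[ℂ] K') (S' : H →L[ℂ] L) (T' : K →L[ℂ] M) :
    (opT S T).comp (opT S' T') = opT (S.comp S') (T.comp T') := by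
  apply clm_ext; intro a k; simp

theorem opT_mul (S S' : H →L[ℂ] H) (T T' : K →L[ℂ] K) :
    opT S T * opT S' T' = opT (S * S') (T * T') := opT_comp _ _ _ _

@[simp] theorem opT_one : opT (1 : H →L[ℂ] H) (1 : K →L[ℂ] K) = 1 := by
  apply clm_ext; intro a k; simp

theorem opT_add_left (S S' : H →L[ℂ] L) (T : K →L[ℂ] M) :
    opT (S + S') T = opT S T + opT S' T := by
  apply clm_ext; intro a k; simp [tp_add_left]

theorem opT_add_right (S : H →L[ℂ] L) (T T' : K →L[ℂ] M) :
    opT S (T + T') = opT S T + opT S T' := by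
  apply clm_ext; intro a k; simp [tp_add_right]

theorem opT_smul_left (c : ℂ) (S : H →L[ℂ] L) (T : K →L[ℂ] M) :
    opT (c • S) T = c • opT S T := by
  apply clm_ext; intro a k; simp [tp_smul_left]

theorem opT_smul_right (c : ℂ) (S : H →L[ℂ] L) (T : K →L[ℂ] M) :
    opT S (c • T) = c • opT S T := by
  apply clm_ext; intro a k; simp [tp_smul_right]

theorem norm_opT_le (S : H →L[ℂ] L) (T : K →L[ℂ] M) : ‖opT S T‖ ≤ ‖S‖ * ‖T‖ := by
  apply ContinuousLinearMap.opNorm_le_bound _ (by positivity)
  intro z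
  induction z using UniformSpace.Completion.induction_on with
  | hp => exact isClosed_le (by fun_prop) (by fun_prop)
  | ih z =>
    simp only [opT, ContinuousLinearMap.completion_apply_coe, UniformSpace.Completion.norm_coe]
    exact ((TensorProduct.mapL S T).le_opNorm z).trans
      (mul_le_mul_of_nonneg_right (TensorProduct.norm_mapL_le S T) (norm_nonneg _))

theorem adjoint_opT [CompleteSpace H] [CompleteSpace K] [CompleteSpace L] [CompleteSpace M]
    (S : H →L[ℂ] L) (T : K →L[ℂ] M) :
    adjoint (opT S T) = opT (adjoint S) (adjoint T) := by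
  apply clm_ext
  intro a k
  apply vec_ext
  intro b l
  rw [ContinuousLinearMap.adjoint_inner_right, opT_tp, opT_tp, inner_tp, inner_tp,
    ContinuousLinearMap.adjoint_inner_right, ContinuousLinearMap.adjoint_inner_right]

theorem star_opT [CompleteSpace H] [CompleteSpace K] (S : H →L[ℂ] H) (T : K →L[ℂ] K) :
    star (opT S T) = opT (star S) (star T) := adjoint_opT S T

@[simp] theorem flipT_tp (a : H) (k : K) : flipT H K (tp a k) = tp k a := by
  simp [flipT, tp, ContinuousLinearMap.completion_apply_coe]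

theorem flipT_comp_flipT : (flipT K H).comp (flipT H K) = ContinuousLinearMap.id ℂ _ := by
  apply clm_ext; intro a k; simp

@[simp] theorem flipT_flipT (z : HT H K) : flipT K H (flipT H K z) = z := by
  rw [← ContinuousLinearMap.comp_apply, flipT_comp_flipT]; rfl

theorem adjoint_flipT : adjoint (flipT H K) = flipT K H := by
  apply clm_ext
  intro a k
  apply vec_ext
  intro b l
  rw [ContinuousLinearMap.adjoint_inner_right, flipT_tp, flipT_tp, inner_tp, inner_tp, mul_comm]

theorem flipT_opT (S : H →L[ℂ] L) (T : K →L[ℂ] M) :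
    (flipT L M).comp (opT S T) = (opT T S).comp (flipT H K) := by
  apply clm_ext; intro a k; simp

end QG753
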