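import Pool.Agent.Lib.QG753.Limit

/-!
# MP_753acd_an: asymptotic invariance

PROOFS. `invar_alpha`: for `k ≤ i`, `j ≤ i`, `i ≤ N`, `0 ≤ s ≤ tau k`:
`‖(g j - e) ∘ (ev k N s * T (α i))‖ ≤ 2 (1/2)^i`. Induction on `N ≥ i`, more precisely
`≤ (1/2)^i + Σ_{i ≤ n < N} 2 s eta n`: start with `condA` at stage `i`, and `step_k` with `σ = g j`
and `σ = e` for `N → N + 1` (`s ≤ tau k ≤ tau n`); `2 s eta n ≤ (1/2)^n / 2`.

`invar_stage`: let `c = Σ_{k ≤ i < N} (1/2)^(i+1) = (1/2)^k - (1/2)^N`,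
`D = Σ_{k ≤ i < N} (1/2)^(i+1) • T (α i)`, `G = gen k N - c • 1`, so `G + D = gen N N`,
`exp (s G) = e^{-cs} ev k N s`. Apply `first_entry` with `φ X = (g j - e) ∘ X`, `δ = 2 (1/2)^k`,
`t = k 2^(k+1)` (`≤ tau k`): `‖φ (exp (s G) D exp ((t-s)(G+D)))‖ ≤ e^{-cs} c δ` by `invar_alpha`
(`ev N N` is a contraction), `‖φ (exp (t G))‖ ≤ 2 e^{-ct}` and `c t ≥ k` since
`c ≥ (1/2)^(k+1)` for `N ≥ k + 1`.

`invar`: pass to the limit `N → ∞` pointwise in `invar_stage`, and use that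
`‖(g j - e) ∘ Tt t‖` is nonincreasing in `t ≥ 0` (`lim_add`, `lim_norm`).
-/

open Filter Topology

noncomputable section

namespace QG753

namespace ConvSys

set_option linter.unusedSectionVars false

variable {A : Type} [NormedAddCommGroup A] [NormedSpace ℂ A] [CompleteSpace A] (Q : ConvSys A)
  {g : ℕ → (A →L[ℂ] ℂ)} {a : ℕ → A} {nu : ℕ → (A →L[ℂ] ℂ)}
  {p : ℕ → (A →L[ℂ] ℂ) × A × (A →L[ℂ] ℂ)} {Tt : ℝ → (A →L[ℂ] A)}

theorem invar_tau_mono {k n : ℕ} (h : k ≤ n) : tau k ≤ tau n := by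
  unfold tau
  have h1 : (k : ℝ) ≤ n := by exact_mod_cast h
  have h2 : (2 : ℝ) ^ (k + 2) ≤ 2 ^ (n + 2) := pow_le_pow_right₀ (by norm_num) (by omega)
  have h3 : (0 : ℝ) ≤ k := Nat.cast_nonneg k
  have h4 : (0 : ℝ) ≤ (2 : ℝ) ^ (k + 2) := by positivity
  nlinarith

theorem invar_eta_le {n : ℕ} {s : ℝ} (hs : s ≤ tau n) : 2 * (s * eta n) ≤ (1 / 2) ^ (n + 1) := by
  have h0 := tau_nonneg n
  have h1 : 2 * (s * eta n) ≤ 2 * ((tau n + 1) * eta n) := by
    have := eta_pos n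
    nlinarith
  refine h1.trans (le_of_eq ?_)
  unfold eta
  have h2 : tau n + 1 ≠ 0 := by positivity
  field_simp
  ring

theorem invar_alpha (I : Q.Inputs g a nu) (hp : ∀ n, Q.Cond g a nu p n) {k i j N : ℕ}
    (hk : k ≤ i) (hj : j ≤ i) (hN : i ≤ N) :
    ∀ s ∈ Set.Icc (0 : ℝ) (tau k), ‖(g j - Q.e).comp
      (Q.ev (fun i => (p i).1) (fun i => (p i).2.2) k N s * Q.T (p i).1)‖ ≤
      2 * (1 / 2) ^ i := by
  intro s hs
  have key : ∀ N, i ≤ N → ‖(g j - Q.e).comp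
      (Q.ev (fun i => (p i).1) (fun i => (p i).2.2) k N s * Q.T (p i).1)‖ ≤
      2 * (1 / 2) ^ i - (1 / 2) ^ N := by
    intro N hN
    induction N, hN using Nat.le_induction with
    | base =>
      have h1 := (hp i).condA k hk j hj s ⟨hs.1, hs.2.trans (invar_tau_mono hk)⟩
      linarith
    | succ N hN ih =>
      have hsN : s ∈ Set.Icc (0 : ℝ) (tau N) := ⟨hs.1, hs.2.trans (invar_tau_mono (hk.trans hN))⟩
      have h1 := Q.step_k I hp (k := k) (n := N) (i := i) (hk.trans hN) hN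
        (Q.L_sub (I.g_mem j)) s hsN
      have h2 := Q.step_k I hp (k := k) (n := N) (i := i) (hk.trans hN) hN Q.e_mem s hsN
      set X := Q.ev (fun i => (p i).1) (fun i => (p i).2.2) k N s with hX
      set Y := Q.ev (fun i => (p i).1) (fun i => (p i).2.2) k (N + 1) s with hY
      have h3 : (g j - Q.e).comp (Y * Q.T (p i).1) = (g j - Q.e).comp (X * Q.T (p i).1) +
          ((g j).comp ((Y - X) * Q.T (p i).1) - Q.e.comp ((Y - X) * Q.T (p i).1)) := by
        ext x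
        simp
        ring
      rw [h3]
      have h4 := invar_eta_le hsN.2
      have h5 : ((1 : ℝ) / 2) ^ (N + 1) = (1 / 2) ^ N / 2 := by ring
      calc _ ≤ ‖(g j - Q.e).comp (X * Q.T (p i).1)‖ +
            (‖(g j).comp ((Y - X) * Q.T (p i).1)‖ + ‖Q.e.comp ((Y - X) * Q.T (p i).1)‖) := by
            refine (norm_add_le _ _).trans ?_
            gcongr
            exact norm_sub_le _ _
        _ ≤ (2 * (1 / 2) ^ i - (1 / 2) ^ N) + (s * eta N + s * eta N) := by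
            gcongr
        _ ≤ _ := by linarith
  have h1 := key N hN
  have h2 : (0 : ℝ) ≤ (1 / 2) ^ N := by positivity
  linarith

theorem invar_p_mem (hp : ∀ n, Q.Cond g a nu p n) (i : ℕ) : (p i).1 ∈ Q.St := Q.L_sub (hp i).α_mem

theorem invar_p_mem' (I : Q.Inputs g a nu) (hp : ∀ n, Q.Cond g a nu p n) (i : ℕ) :
    (p i).2.2 ∈ Q.St := by
  obtain ⟨r, hr⟩ := (hp i).ν_mem
  rw [hr]; exact I.nu_mem r

theorem invar_norm_ev_le (I : Q.Inputs g a nu) (hp : ∀ n, Q.Cond g a nu p n) (k n : ℕ) {t : ℝ}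
    (ht : 0 ≤ t) : ‖Q.ev (fun i => (p i).1) (fun i => (p i).2.2) k n t‖ ≤ 1 :=
  (Q.ev_mem_Adm (fun i _ => Q.invar_p_mem hp i) (fun m _ => Q.invar_p_mem' I hp m) ht).1

theorem invar_norm_sub_e_le (I : Q.Inputs g a nu) (j : ℕ) : ‖g j - Q.e‖ ≤ 2 := by
  have h1 := Q.norm_eq _ (Q.L_sub (I.g_mem j))
  have h2 := Q.norm_eq _ Q.e_mem
  calc ‖g j - Q.e‖ ≤ ‖g j‖ + ‖Q.e‖ := norm_sub_le _ _
    _ = 2 := by rw [h1, h2]; norm_num

/-- composition with a functional, as a real linear map -/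
def invarCmp (f : A →L[ℂ] ℂ) : (A →L[ℂ] A) →L[ℝ] (A →L[ℂ] ℂ) :=
  (ContinuousLinearMap.compL ℂ A A ℂ f).restrictScalars ℝ

theorem invarCmp_apply (f : A →L[ℂ] ℂ) (X : A →L[ℂ] A) : invarCmp f X = f.comp X := rfl

theorem invar_stage (I : Q.Inputs g a nu) (hp : ∀ n, Q.Cond g a nu p n) {k j N : ℕ}
    (hj : j ≤ k) (hN : k + 1 ≤ N) :
    ‖(g j - Q.e).comp (Q.ev (fun i => (p i).1) (fun i => (p i).2.2) N N
      ((k : ℝ) * 2 ^ (k + 1)))‖ ≤ 2 * Real.exp (-k) + 2 * (1 / 2) ^ k := by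
  set α : ℕ → (A →L[ℂ] ℂ) := fun i => (p i).1 with hα
  set ν : ℕ → (A →L[ℂ] ℂ) := fun i => (p i).2.2 with hν
  set t : ℝ := (k : ℝ) * 2 ^ (k + 1) with ht
  set c : ℝ := ∑ i ∈ Finset.Ico k N, (1 / 2 : ℝ) ^ (i + 1) with hc
  set D : A →L[ℂ] A := ∑ i ∈ Finset.Ico k N, ((1 / 2 : ℝ) ^ (i + 1)) • Q.T (α i) with hD
  set G : A →L[ℂ] A := Q.gen α ν k N - c • (1 : A →L[ℂ] A) with hG
  have ht0 : 0 ≤ t := by positivity
  have htau : t ≤ tau k := by
    rw [ht]; unfold tau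
    have h1 : (2 : ℝ) ^ (k + 2) = 2 * 2 ^ (k + 1) := by ring
    rw [h1]
    have h2 : (0 : ℝ) ≤ 2 ^ (k + 1) := by positivity
    have h3 : (0 : ℝ) ≤ k := Nat.cast_nonneg k
    nlinarith
  have hGD : G + D = Q.gen α ν N N := by
    rw [hG, hD, hc, ConvSys.gen, ConvSys.gen, Finset.sum_smul]
    have h1 : ∑ i ∈ Finset.range N, ((1 / 2 : ℝ) ^ (i + 1)) • (Q.T (α i) - 1) =
        ∑ i ∈ Finset.range k, ((1 / 2 : ℝ) ^ (i + 1)) • (Q.T (α i) - 1) +
        ∑ i ∈ Finset.Ico k N, ((1 / 2 : ℝ) ^ (i + 1)) • (Q.T (α i) - 1) :=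
      (Finset.sum_range_add_sum_Ico _ (by omega)).symm
    rw [h1]
    simp only [smul_sub, Finset.sum_sub_distrib]
    abel
  have hexp : ∀ s : ℝ, NormedSpace.exp (s • G) = Real.exp (-(c * s)) • Q.ev α ν k N s := by
    intro s
    have h1 : s • G = s • Q.gen α ν k N + (-(c * s)) • (1 : A →L[ℂ] A) := by
      rw [hG, smul_sub, smul_smul, neg_smul, mul_comm s c]; abel
    have h2 : Commute (s • Q.gen α ν k N) ((-(c * s)) • (1 : A →L[ℂ] A)) :=
      (Commute.one_right _).smul_right _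
    let _ : NormedAlgebra ℚ (A →L[ℂ] A) := NormedAlgebra.restrictScalars ℚ ℝ _
    rw [h1, NormedSpace.exp_add_of_commute h2]
    have h3 : NormedSpace.exp ((-(c * s)) • (1 : A →L[ℂ] A)) =
        Real.exp (-(c * s)) • (1 : A →L[ℂ] A) := by
      have := NormedSpace.algebraMap_exp_comm (𝕂 := ℝ) (𝔸 := A →L[ℂ] A) (-(c * s))
      rw [Algebra.algebraMap_eq_smul_one, Algebra.algebraMap_eq_smul_one] at this
      rw [← this, Real.exp_eq_exp_ℝ]
    rw [h3, mul_smul_comm, mul_one]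
    rfl
  have hcp : ∀ i ∈ Finset.Ico k N, (0 : ℝ) ≤ (1 / 2 : ℝ) ^ (i + 1) := fun i _ => by positivity
  have hc0 : 0 ≤ c := Finset.sum_nonneg hcp
  have hck : (1 / 2 : ℝ) ^ (k + 1) ≤ c := by
    rw [hc]
    exact Finset.single_le_sum (f := fun i => (1 / 2 : ℝ) ^ (i + 1)) hcp
      (Finset.mem_Ico.2 ⟨le_refl k, by omega⟩)
  have hct : (k : ℝ) ≤ c * t := by
    have h1 : (1 / 2 : ℝ) ^ (k + 1) * t ≤ c * t := mul_le_mul_of_nonneg_right hck ht0
    have h2 : (1 / 2 : ℝ) ^ (k + 1) * t = k := by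
      rw [ht, one_div, inv_pow]
      field_simp
    linarith
  have hmain := first_entry (invarCmp (g j - Q.e)) G D (t := t) (c := c) (δ := 2 * (1 / 2) ^ k) ht0
    (by positivity) (by
      intro s hs
      rw [hexp, hGD, invarCmp_apply]
      have hst : 0 ≤ t - s := by linarith [hs.2]
      have h1 : (g j - Q.e).comp (Real.exp (-(c * s)) • Q.ev α ν k N s * D *
          NormedSpace.exp ((t - s) • Q.gen α ν N N)) =
          Real.exp (-(c * s)) • ∑ i ∈ Finset.Ico k N, ((1 / 2 : ℝ) ^ (i + 1)) •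
            ((g j - Q.e).comp (Q.ev α ν k N s * Q.T (α i))).comp (Q.ev α ν N N (t - s)) := by
        rw [hD]
        ext x
        simp [ConvSys.ev, Finset.mul_sum]
        rw [← Finset.sum_sub_distrib]
        refine Finset.sum_congr rfl fun i _ => ?_
        ring
      rw [h1, norm_smul, Real.norm_eq_abs, abs_of_pos (Real.exp_pos _), mul_comm]
      refine mul_le_mul_of_nonneg_right ?_ (Real.exp_pos _).le
      refine (norm_sum_le _ _).trans ?_
      rw [hc, Finset.sum_mul]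
      refine Finset.sum_le_sum ?_
      intro i hi
      rw [norm_smul, Real.norm_eq_abs, abs_of_nonneg (hcp i hi)]
      refine mul_le_mul_of_nonneg_left ?_ (hcp i hi)
      obtain ⟨hi1, hi2⟩ := Finset.mem_Ico.1 hi
      have h2 := Q.invar_alpha I hp (k := k) (i := i) (j := j) (N := N) hi1 (hj.trans hi1)
        hi2.le s ⟨hs.1, hs.2.trans htau⟩
      have h3 := Q.invar_norm_ev_le I hp N N hst
      refine (ContinuousLinearMap.opNorm_comp_le _ _).trans ?_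
      calc _ ≤ (2 * (1 / 2) ^ i) * 1 := mul_le_mul h2 h3 (norm_nonneg _) (by positivity)
        _ ≤ 2 * (1 / 2) ^ k := by
          rw [mul_one]
          have : (1 / 2 : ℝ) ^ i ≤ (1 / 2) ^ k :=
            pow_le_pow_of_le_one (by norm_num) (by norm_num) hi1
          linarith)
  rw [hGD, invarCmp_apply, invarCmp_apply, hexp] at hmain
  refine hmain.trans ?_
  have h5 : ‖(g j - Q.e).comp (Real.exp (-(c * t)) • Q.ev α ν k N t)‖ ≤ 2 * Real.exp (-k) := by
    have h6 : (g j - Q.e).comp (Real.exp (-(c * t)) • Q.ev α ν k N t) =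
        Real.exp (-(c * t)) • (g j - Q.e).comp (Q.ev α ν k N t) := by
      ext x
      simp
    rw [h6, norm_smul, Real.norm_eq_abs, abs_of_pos (Real.exp_pos _), mul_comm]
    have h7 : ‖(g j - Q.e).comp (Q.ev α ν k N t)‖ ≤ 2 := by
      refine (ContinuousLinearMap.opNorm_comp_le _ _).trans ?_
      calc _ ≤ (2 : ℝ) * 1 := mul_le_mul (Q.invar_norm_sub_e_le I j) (Q.invar_norm_ev_le I hp k N ht0)
            (norm_nonneg _) (by norm_num)
        _ = 2 := by norm_num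
    refine mul_le_mul h7 ?_ (Real.exp_pos _).le (by norm_num)
    exact Real.exp_le_exp.2 (by linarith)
  linarith

theorem invar (I : Q.Inputs g a nu) (hp : ∀ n, Q.Cond g a nu p n) (hl : Q.IsLim p Tt) (j : ℕ) :
    Tendsto (fun t : ℝ => ‖(g j - Q.e).comp (Tt t)‖) atTop (𝓝 0) := by
  have hk : ∀ k, j ≤ k → ∀ t : ℝ, (k : ℝ) * 2 ^ (k + 1) ≤ t →
      ‖(g j - Q.e).comp (Tt t)‖ ≤ 2 * Real.exp (-k) + 2 * (1 / 2) ^ k := by
    intro k hjk t ht
    set t0 : ℝ := (k : ℝ) * 2 ^ (k + 1) with ht0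
    have h0 : 0 ≤ t0 := by positivity
    have h1 : ‖(g j - Q.e).comp (Tt t0)‖ ≤ 2 * Real.exp (-k) + 2 * (1 / 2) ^ k := by
      refine ContinuousLinearMap.opNorm_le_bound _ (by positivity) ?_
      intro x
      have h2 : Tendsto (fun n => Q.ev (fun i => (p i).1) (fun i => (p i).2.2) n n t0 x) atTop
          (𝓝 (Tt t0 x)) :=
        (hl x t0).tendsto_at (Set.right_mem_Icc.2 h0)
      have h3 : Tendsto (fun n => ‖(g j - Q.e) (Q.ev (fun i => (p i).1) (fun i => (p i).2.2)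
          n n t0 x)‖) atTop (𝓝 ‖(g j - Q.e) (Tt t0 x)‖) :=
        (((g j - Q.e).continuous.tendsto _).comp h2).norm
      refine le_of_tendsto h3 ?_
      filter_upwards [eventually_ge_atTop (k + 1)] with N hN
      have h4 := Q.invar_stage I hp hjk hN
      have h5 := ((g j - Q.e).comp (Q.ev (fun i => (p i).1) (fun i => (p i).2.2) N N t0)).le_opNorm x
      refine h5.trans ?_
      exact mul_le_mul_of_nonneg_right h4 (norm_nonneg _)
    have h6 : Tt t = Tt t0 * Tt (t - t0) := by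
      rw [← Q.lim_add I hp hl h0 (by linarith)]
      congr 1
      ring
    have h7 : (g j - Q.e).comp (Tt t) = ((g j - Q.e).comp (Tt t0)).comp (Tt (t - t0)) := by
      rw [h6]; rfl
    rw [h7]
    refine (ContinuousLinearMap.opNorm_comp_le _ _).trans ?_
    have h8 := Q.lim_norm I hp hl (t := t - t0) (by linarith)
    calc _ ≤ (2 * Real.exp (-k) + 2 * (1 / 2) ^ k) * 1 :=
          mul_le_mul h1 h8 (norm_nonneg _) (by positivity)
      _ = _ := mul_one _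
  have hlim : Tendsto (fun k : ℕ => 2 * Real.exp (-(k : ℝ)) + 2 * (1 / 2 : ℝ) ^ k) atTop (𝓝 0) := by
    have h1 : Tendsto (fun k : ℕ => Real.exp (-(k : ℝ))) atTop (𝓝 0) :=
      Real.tendsto_exp_neg_atTop_nhds_zero.comp tendsto_natCast_atTop_atTop
    have h2 : Tendsto (fun k : ℕ => (1 / 2 : ℝ) ^ k) atTop (𝓝 0) :=
      tendsto_pow_atTop_nhds_zero_of_lt_one (by norm_num) (by norm_num)
    have h3 := (h1.const_mul 2).add (h2.const_mul 2)
    simpa using h3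
  rw [Metric.tendsto_nhds]
  intro ε hε
  have h1 := (hlim.eventually (gt_mem_nhds hε)).and (eventually_ge_atTop j)
  obtain ⟨k, hk1, hk2⟩ := h1.exists
  filter_upwards [eventually_ge_atTop ((k : ℝ) * 2 ^ (k + 1))] with t ht
  rw [Real.dist_eq, sub_zero, abs_of_nonneg (norm_nonneg _)]
  exact (hk k hk2 t ht).trans_lt hk1

end ConvSys

end QG753
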