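import Pool.Agent.Lib.QG753.Legs

/-!
# MP_753acd_an: joining two vectors

PROOF. `K'' = WithLp 2 (K × K')`, `i`, `i'` the inclusions (isometries), `j`, `j'` the projections
(contractions); `P = opT 1 j`, `P' = opT 1 j'`, `Z = opT 1 i z + opT 1 i' z'`.
-/

open scoped TensorProduct ComplexOrder InnerProductSpace
open ContinuousLinearMap Filter Topology

noncomputable section

namespace QG753

variable {H : Type} [NormedAddCommGroup H] [InnerProductSpace ℂ H] [CompleteSpace H]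
  {K : Type} [NormedAddCommGroup K] [InnerProductSpace ℂ K] [CompleteSpace K]
  {K' : Type} [NormedAddCommGroup K'] [InnerProductSpace ℂ K'] [CompleteSpace K']

omit [CompleteSpace H] in
private theorem norm_opT_one_le {M L : Type} [NormedAddCommGroup M] [InnerProductSpace ℂ M]
    [NormedAddCommGroup L] [InnerProductSpace ℂ L]
    (j : M →L[ℂ] L) (hj : ‖j‖ ≤ 1) : ‖opT (1 : H →L[ℂ] H) j‖ ≤ 1 := by
  refine (norm_opT_le _ _).trans ?_
  have h1 : ‖(1 : H →L[ℂ] H)‖ ≤ 1 := ContinuousLinearMap.norm_id_le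
  exact mul_le_one₀ h1 (norm_nonneg _) hj

theorem exists_join (z : HT H K) (z' : HT H K') : ∃ (K'' : Type) (_ : NormedAddCommGroup K'')
    (_ : InnerProductSpace ℂ K'') (_ : CompleteSpace K'') (Z : HT H K'')
    (P : HT H K'' →L[ℂ] HT H K) (P' : HT H K'' →L[ℂ] HT H K'),
    ‖P‖ ≤ 1 ∧ ‖P'‖ ≤ 1 ∧ P Z = z ∧ P' Z = z' ∧
    (∀ T : H →L[ℂ] H, P.comp (opT T 1) = (opT T 1).comp P) ∧
    ∀ T : H →L[ℂ] H, P'.comp (opT T 1) = (opT T 1).comp P' := by
  let i : K →L[ℂ] WithLp 2 (K × K') :=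
    ((WithLp.prodContinuousLinearEquiv 2 ℂ K K').symm : (K × K') →L[ℂ] WithLp 2 (K × K')).comp
      (ContinuousLinearMap.inl ℂ K K')
  let i' : K' →L[ℂ] WithLp 2 (K × K') :=
    ((WithLp.prodContinuousLinearEquiv 2 ℂ K K').symm : (K × K') →L[ℂ] WithLp 2 (K × K')).comp
      (ContinuousLinearMap.inr ℂ K K')
  let j : WithLp 2 (K × K') →L[ℂ] K := WithLp.fstL 2 ℂ K K'
  let j' : WithLp 2 (K × K') →L[ℂ] K' := WithLp.sndL 2 ℂ K K'
  have hji : j.comp i = 1 := rfl
  have hji' : j.comp i' = 0 := rfl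
  have hj'i : j'.comp i = 0 := rfl
  have hj'i' : j'.comp i' = 1 := rfl
  have hj : ‖j‖ ≤ 1 := by
    refine ContinuousLinearMap.opNorm_le_bound _ zero_le_one fun x => ?_
    rw [one_mul]
    exact WithLp.norm_fst_le _ x
  have hj' : ‖j'‖ ≤ 1 := by
    refine ContinuousLinearMap.opNorm_le_bound _ zero_le_one fun x => ?_
    rw [one_mul]
    exact WithLp.norm_snd_le _ x
  have h0 : ∀ x : HT H K', opT (1 : H →L[ℂ] H) (0 : K' →L[ℂ] K) x = 0 := by
    intro x
    have : opT (1 : H →L[ℂ] H) (0 : K' →L[ℂ] K) = 0 := by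
      apply clm_ext; intro a k; rw [opT_tp]; simp [tp]
    rw [this]; rfl
  have h0' : ∀ x : HT H K, opT (1 : H →L[ℂ] H) (0 : K →L[ℂ] K') x = 0 := by
    intro x
    have : opT (1 : H →L[ℂ] H) (0 : K →L[ℂ] K') = 0 := by
      apply clm_ext; intro a k; rw [opT_tp]; simp [tp]
    rw [this]; rfl
  refine ⟨WithLp 2 (K × K'), inferInstance, inferInstance, inferInstance,
    opT (1 : H →L[ℂ] H) i z + opT (1 : H →L[ℂ] H) i' z', opT (1 : H →L[ℂ] H) j,
    opT (1 : H →L[ℂ] H) j', norm_opT_one_le j hj, norm_opT_one_le j' hj', ?_, ?_, ?_, ?_⟩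
  · rw [map_add, ← ContinuousLinearMap.comp_apply, ← ContinuousLinearMap.comp_apply, opT_comp,
      opT_comp, hji, hji']
    show opT (1 * 1 : H →L[ℂ] H) (1 : K →L[ℂ] K) z + opT (1 * 1 : H →L[ℂ] H) (0 : K' →L[ℂ] K) z' = z
    rw [mul_one, h0, opT_one, add_zero]; rfl
  · rw [map_add, ← ContinuousLinearMap.comp_apply, ← ContinuousLinearMap.comp_apply, opT_comp,
      opT_comp, hj'i, hj'i']
    show opT (1 * 1 : H →L[ℂ] H) (0 : K →L[ℂ] K') z + opT (1 * 1 : H →L[ℂ] H) (1 : K' →L[ℂ] K') z' = z'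
    rw [mul_one, h0', opT_one, zero_add]; rfl
  · intro T
    apply clm_ext; intro a k; simp
  · intro T
    apply clm_ext; intro a k; simp

end QG753
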