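import Pool.Agent.Lib.QG753.Limit

/-!
# MP_753acd_an: the limit semigroup is not norm continuous

PROOFS. `noncont_stage`: let `m ≥ 1`, `P = Σ_{i<m} T (ν i) + Σ_{i<m} (1/2)^(i+1) T (α i)`,
`C = 1 - (1/2)^m` and `x = 1 + C / m ≤ 2`; then `ev m m (1/m) = e^{-x} exp (P/m)` and
`e (exp (P/m) w) = Σ_k e ((P/m)^k w) / k!` for `w = w m = (p m).2.1`. The term `k = 0` is `1`
(`w_e`), the term `k = 1` has real part `≤ (1/m) (m / 10 + C) = 1/10 + C/m` (`w_ν`, `w_St`), and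
the terms `k ≥ 2` have real part `≤ x^k / k!` (products of admissible operators, `w_St`). The sum
is `≤ e^x - 9/10`, so the real part of `e (ev m m (1/m) w)` is `≤ 1 - (9/10) e^{-2} ≤ 9/10`.

`noncont`: for `n ≥ m ≥ 1`, `condD` and `step_le` (with `t = 1/m ≤ tau n`) give
`‖ev (n+1) (n+1) (1/m) w - ev n n (1/m) w‖ ≤ eta n + 2 (1/2)^(n+1)`, so in the limit
`Re e (Tt (1/m) w) ≤ 9/10 + 2 (1/2)^(m-1) ≤ 19/20` for large `m`, while `e w = 1`, `‖w‖ ≤ 1`.
-/

open Filter Topology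

noncomputable section

namespace QG753

namespace ConvSys

variable {A : Type} [NormedAddCommGroup A] [NormedSpace ℂ A] [CompleteSpace A] (Q : ConvSys A)
  {g : ℕ → (A →L[ℂ] ℂ)} {a : ℕ → A} {nu : ℕ → (A →L[ℂ] ℂ)}
  {p : ℕ → (A →L[ℂ] ℂ) × A × (A →L[ℂ] ℂ)} {Tt : ℝ → (A →L[ℂ] A)}

private theorem al_StN (hp : ∀ n, Q.Cond g a nu p n) (i : ℕ) : (p i).1 ∈ Q.St :=
  Q.L_sub (hp i).α_mem

private theorem nu_StN (I : Q.Inputs g a nu) (hp : ∀ n, Q.Cond g a nu p n) (i : ℕ) :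
    (p i).2.2 ∈ Q.St := by
  obtain ⟨j, hj⟩ := (hp i).ν_mem
  rw [hj]
  exact I.nu_mem j

/-- nonnegative multiples of admissible operators -/
private def Cq (q : ℝ) (X : A →L[ℂ] A) : Prop := ∃ P ∈ Q.Adm, X = q • P

private theorem Cq_add {q r : ℝ} {X Y : A →L[ℂ] A} (hq : 0 ≤ q) (hr : 0 ≤ r)
    (hX : Q.Cq q X) (hY : Q.Cq r Y) : Q.Cq (q + r) (X + Y) := by
  obtain ⟨P, hP, rfl⟩ := hX
  obtain ⟨R, hR, rfl⟩ := hY
  rcases eq_or_lt_of_le (add_nonneg hq hr) with h | h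
  · have h1 : q = 0 := by linarith
    have h2 : r = 0 := by linarith
    refine ⟨P, hP, ?_⟩
    rw [h1, h2]
    simp
  · refine ⟨(q / (q + r)) • P + (r / (q + r)) • R, ?_, ?_⟩
    · refine Q.convex_Adm hP hR (by positivity) (by positivity) ?_
      field_simp
    · rw [smul_add, smul_smul, smul_smul, mul_div_cancel₀ _ h.ne', mul_div_cancel₀ _ h.ne']

private theorem Cq_sum {ι : Type} (F : Finset ι) {q : ι → ℝ} {X : ι → (A →L[ℂ] A)}
    (hq : ∀ i ∈ F, 0 ≤ q i) (hX : ∀ i ∈ F, Q.Cq (q i) (X i)) :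
    Q.Cq (∑ i ∈ F, q i) (∑ i ∈ F, X i) := by
  classical
  induction F using Finset.induction_on with
  | empty =>
    refine ⟨1, Q.one_mem_Adm, ?_⟩
    simp
  | insert i F hi ih =>
    rw [Finset.sum_insert hi, Finset.sum_insert hi]
    refine Q.Cq_add (hq i (Finset.mem_insert_self i F)) ?_ (hX i (Finset.mem_insert_self i F)) ?_
    · exact Finset.sum_nonneg fun j hj => hq j (Finset.mem_insert_of_mem hj)
    · exact ih (fun j hj => hq j (Finset.mem_insert_of_mem hj))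
        (fun j hj => hX j (Finset.mem_insert_of_mem hj))

omit [CompleteSpace A] in
private theorem pow_Adm {P : A →L[ℂ] A} (hP : P ∈ Q.Adm) (k : ℕ) : P ^ k ∈ Q.Adm := by
  induction k with
  | zero => rw [pow_zero]; exact Q.one_mem_Adm
  | succ k ih => rw [pow_succ]; exact Q.mul_mem_Adm ih hP

/-- the functional `X ↦ Re e (X w)` -/
private def rf (w : A) : (A →L[ℂ] A) →L[ℝ] ℝ :=
  Complex.reCLM.comp ((Q.e.comp (ContinuousLinearMap.apply ℂ A w)).restrictScalars ℝ)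

omit [CompleteSpace A] in
private theorem rf_apply (w : A) (X : A →L[ℂ] A) : Q.rf w X = (Q.e (X w)).re := rfl

private theorem exp_shift (Y : A →L[ℂ] A) (x : ℝ) :
    NormedSpace.exp (Y - x • (1 : A →L[ℂ] A)) = Real.exp (-x) • NormedSpace.exp Y := by
  have h1 : Y - x • (1 : A →L[ℂ] A) = Y + algebraMap ℝ (A →L[ℂ] A) (-x) := by
    rw [Algebra.algebraMap_eq_smul_one, neg_smul, sub_eq_add_neg]
  letI : NormedAlgebra ℚ (A →L[ℂ] A) := NormedAlgebra.restrictScalars ℚ ℝ _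
  rw [h1, NormedSpace.exp_add_of_commute (Algebra.commutes _ _).symm,
    ← NormedSpace.algebraMap_exp_comm, Real.exp_eq_exp_ℝ, Algebra.algebraMap_eq_smul_one,
    mul_smul_comm, mul_one]

theorem noncont_stage (I : Q.Inputs g a nu) (hp : ∀ n, Q.Cond g a nu p n) {m : ℕ}
    (hm : 1 ≤ m) : (Q.e (Q.ev (fun i => (p i).1) (fun i => (p i).2.2) m m (1 / (m : ℝ))
      (p m).2.1)).re ≤ 9 / 10 := by
  have hm0 : (0 : ℝ) < m := by exact_mod_cast hm
  have hm1 : (1 : ℝ) ≤ m := by exact_mod_cast hm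
  obtain ⟨w, hw⟩ : ∃ w, w = (p m).2.1 := ⟨_, rfl⟩
  obtain ⟨C, hC⟩ : ∃ C : ℝ, C = ∑ i ∈ Finset.range m, (1 / 2 : ℝ) ^ (i + 1) := ⟨_, rfl⟩
  have hC0 : 0 ≤ C := by
    rw [hC]
    positivity
  have hC1 : C ≤ 1 := by
    have h1 : ∀ k : ℕ, ∑ i ∈ Finset.range k, (1 / 2 : ℝ) ^ (i + 1) = 1 - (1 / 2) ^ k := by
      intro k
      induction k with
      | zero => simp
      | succ k ih =>
        rw [Finset.sum_range_succ, ih, pow_succ]
        ring
    rw [hC, h1]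
    have : (0 : ℝ) < (1 / 2) ^ m := by positivity
    linarith
  obtain ⟨P, hP⟩ : ∃ P : A →L[ℂ] A, P = ∑ i ∈ Finset.range m, Q.T (p i).2.2 +
    ∑ i ∈ Finset.range m, ((1 / 2 : ℝ) ^ (i + 1)) • Q.T (p i).1 := ⟨_, rfl⟩
  obtain ⟨x, hx⟩ : ∃ x : ℝ, x = 1 + C / m := ⟨_, rfl⟩
  have hx0 : 0 ≤ x := by
    rw [hx]
    positivity
  have hx2 : x ≤ 2 := by
    have : C / m ≤ 1 := by
      rw [div_le_one hm0]
      linarith
    linarith
  have hgen : Q.gen (fun i => (p i).1) (fun i => (p i).2.2) m m =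
      P - ((m : ℝ) + C) • (1 : A →L[ℂ] A) := by
    unfold gen
    rw [hP, hC]
    simp only [smul_sub, Finset.sum_sub_distrib, Finset.sum_const, Finset.card_range,
      add_smul, Finset.sum_smul, Nat.cast_smul_eq_nsmul]
    abel
  have hPC : Q.Cq ((m : ℝ) + C) P := by
    have h1 : Q.Cq (m : ℝ) (∑ i ∈ Finset.range m, Q.T (p i).2.2) := by
      have h2 := Q.Cq_sum (Finset.range m) (q := fun _ => (1 : ℝ))
        (X := fun i => Q.T (p i).2.2) (fun _ _ => zero_le_one)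
        (fun i _ => ⟨_, Q.T_mem_Adm (Q.nu_StN I hp i), (one_smul ℝ _).symm⟩)
      simpa using h2
    have h2 : Q.Cq C (∑ i ∈ Finset.range m, ((1 / 2 : ℝ) ^ (i + 1)) • Q.T (p i).1) := by
      rw [hC]
      exact Q.Cq_sum (Finset.range m) (fun i _ => by positivity)
        (fun i _ => ⟨_, Q.T_mem_Adm (Q.al_StN hp i), rfl⟩)
    rw [hP]
    exact Q.Cq_add hm0.le hC0 h1 h2
  obtain ⟨R, hR, hPR⟩ := hPC
  obtain ⟨Y, hY⟩ : ∃ Y : A →L[ℂ] A, Y = (1 / (m : ℝ)) • P := ⟨_, rfl⟩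
  have hYR : Y = x • R := by
    rw [hY, hPR, smul_smul, hx]
    congr 1
    field_simp
  have hev : Q.ev (fun i => (p i).1) (fun i => (p i).2.2) m m (1 / (m : ℝ)) =
      Real.exp (-x) • NormedSpace.exp Y := by
    rw [← exp_shift]
    unfold ev
    rw [hgen, smul_sub, smul_smul, ← hY]
    congr 3
    rw [hx]
    field_simp
  -- the series
  have h1 : HasSum (fun k : ℕ => ((k.factorial : ℝ)⁻¹ : ℝ) * (Q.e ((Y ^ k) w)).re)
      (Q.e ((NormedSpace.exp Y) w)).re := by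
    have h2 := NormedSpace.exp_series_hasSum_exp' (𝕂 := ℝ) Y
    have h3 := h2.mapL (Q.rf w)
    rw [rf_apply] at h3
    refine h3.congr_fun ?_
    intro k
    rw [map_smul, rf_apply, smul_eq_mul]
  have h2 : HasSum (fun k : ℕ => ((k.factorial : ℝ)⁻¹ : ℝ) * x ^ k) (Real.exp x) := by
    have h3 := NormedSpace.exp_series_hasSum_exp' (𝕂 := ℝ) x
    rw [← Real.exp_eq_exp_ℝ] at h3
    exact h3
  have h3 := h2.sub h1
  have h4 : ∀ k : ℕ, (Q.e ((Y ^ k) w)).re ≤ x ^ k := by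
    intro k
    have h5 := ((hp m).w_St _ ((Q.pow_Adm hR k).2.2 _ Q.e_mem)).2
    rw [← hw] at h5
    rw [hYR, smul_pow]
    have h6 : (Q.e (((x ^ k) • R ^ k) w)).re = x ^ k * (Q.e ((R ^ k) w)).re := by
      rw [← rf_apply, map_smul, rf_apply, smul_eq_mul]
    rw [h6]
    have h7 : (Q.e ((R ^ k) w)).re ≤ 1 := h5
    exact mul_le_of_le_one_right (pow_nonneg hx0 k) h7
  have h5 : (Q.e (Y w)).re ≤ 1 / 10 + C / m := by
    have h6 : (Q.e (Y w)).re = 1 / (m : ℝ) * (∑ i ∈ Finset.range m, ((p i).2.2 w).re +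
        ∑ i ∈ Finset.range m, (1 / 2 : ℝ) ^ (i + 1) * ((p i).1 w).re) := by
      rw [← rf_apply, hY, map_smul, hP, map_add, map_sum, map_sum, smul_eq_mul]
      congr 2
      · refine Finset.sum_congr rfl fun i _ => ?_
        rw [rf_apply]
        have := congrArg (fun f => (f w).re) (Q.e_T _ (Q.nu_StN I hp i))
        exact this
      · refine Finset.sum_congr rfl fun i _ => ?_
        rw [map_smul, rf_apply, smul_eq_mul]
        have := congrArg (fun f => (f w).re) (Q.e_T _ (Q.al_StN hp i))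
        congr 1
    have h7 : ∑ i ∈ Finset.range m, ((p i).2.2 w).re ≤ m * (1 / 10) := by
      calc ∑ i ∈ Finset.range m, ((p i).2.2 w).re ≤ ∑ _i ∈ Finset.range m, (1 / 10 : ℝ) := by
            refine Finset.sum_le_sum fun i hi => ?_
            rw [hw]
            exact (hp m).w_ν i (Finset.mem_range.1 hi)
        _ = _ := by simp
    have h8 : ∑ i ∈ Finset.range m, (1 / 2 : ℝ) ^ (i + 1) * ((p i).1 w).re ≤ C := by
      rw [hC]
      refine Finset.sum_le_sum fun i _ => ?_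
      have h9 := ((hp m).w_St _ (Q.al_StN hp i)).2
      rw [← hw] at h9
      exact mul_le_of_le_one_right (by positivity) h9
    rw [h6]
    calc 1 / (m : ℝ) * (∑ i ∈ Finset.range m, ((p i).2.2 w).re +
        ∑ i ∈ Finset.range m, (1 / 2 : ℝ) ^ (i + 1) * ((p i).1 w).re)
        ≤ 1 / (m : ℝ) * (m * (1 / 10) + C) :=
          mul_le_mul_of_nonneg_left (add_le_add h7 h8) (by positivity)
      _ = _ := by
          field_simp
  have h6 : 9 / 10 ≤ Real.exp x - (Q.e ((NormedSpace.exp Y) w)).re := by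
    have h7 := le_hasSum h3 1 (fun k _ => by
      rw [← mul_sub]
      exact mul_nonneg (by positivity) (sub_nonneg.mpr (h4 k)))
    refine le_trans ?_ h7
    simp only [Nat.factorial_one, Nat.cast_one, inv_one, one_mul, pow_one]
    rw [hx]
    linarith
  have h7 : (Q.e (Q.ev (fun i => (p i).1) (fun i => (p i).2.2) m m (1 / (m : ℝ))
      (p m).2.1)).re = Real.exp (-x) * (Q.e ((NormedSpace.exp Y) w)).re := by
    rw [hev, ← hw, ← rf_apply, map_smul, rf_apply, smul_eq_mul]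
  rw [h7]
  have h8 : Real.exp (-x) * Real.exp x = 1 := by
    rw [← Real.exp_add, neg_add_cancel, Real.exp_zero]
  have h9 : 1 / 9 ≤ Real.exp (-x) := by
    have h10 : Real.exp x ≤ 9 := by
      calc Real.exp x ≤ Real.exp 2 := Real.exp_le_exp.mpr hx2
        _ = Real.exp 1 ^ 2 := by
            rw [← Real.exp_nat_mul]
            norm_num
        _ ≤ 3 ^ 2 := by
            have := Real.exp_one_lt_d9
            have h0 := Real.exp_pos 1
            gcongr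
            linarith
        _ = 9 := by norm_num
    rw [Real.exp_neg]
    rw [one_div]
    exact inv_anti₀ (Real.exp_pos x) h10
  have h10 := Real.exp_pos (-x)
  nlinarith

private theorem tau_ge (n : ℕ) : 1 ≤ tau n := by
  unfold tau
  have h1 : (1 : ℝ) ≤ 2 ^ (n + 2) := one_le_pow₀ (by norm_num)
  have h2 : (0 : ℝ) ≤ n := Nat.cast_nonneg n
  nlinarith

private theorem eta_le (n : ℕ) : eta n ≤ (1 / 2) ^ n / 4 := by
  unfold eta
  have h1 := tau_ge n
  have h2 : (0 : ℝ) < (1 / 2) ^ n := by positivity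
  apply div_le_div_of_nonneg_left h2.le (by norm_num)
  linarith

theorem noncont (I : Q.Inputs g a nu) (hp : ∀ n, Q.Cond g a nu p n) (hl : Q.IsLim p Tt) :
    ∀ᶠ m : ℕ in atTop, 1 / 20 ≤ ‖(Q.e).comp (Tt (1 / (m : ℝ))) - Q.e‖ := by
  filter_upwards [eventually_ge_atTop 7] with m hm
  have hm0 : (0 : ℝ) < m := by exact_mod_cast (by omega : 0 < m)
  have hm1 : (1 : ℝ) ≤ m := by exact_mod_cast (by omega : 1 ≤ m)
  have ht0 : 0 ≤ 1 / (m : ℝ) := by positivity
  have ht1 : 1 / (m : ℝ) ≤ 1 := by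
    rw [div_le_one hm0]
    exact hm1
  obtain ⟨w, hw⟩ : ∃ w, w = (p m).2.1 := ⟨_, rfl⟩
  have hwn : ‖w‖ ≤ 1 := by
    rw [hw]
    exact (hp m).w_norm
  obtain ⟨E, hE⟩ : ∃ E : ℕ → A, E = fun n => Q.ev (fun i => (p i).1) (fun i => (p i).2.2) n n
    (1 / (m : ℝ)) w := ⟨_, rfl⟩
  have h1 : ∀ n, m ≤ n → ‖E (n + 1) - E n‖ ≤ 5 / 4 * (1 / 2) ^ n := by
    intro n hn
    have h2 := Q.step_le I hp n (x := w) (c := eta n) (fun s hs => by
      rw [hw]
      exact (hp n).condD m hn s hs) (1 / (m : ℝ)) ⟨ht0, ht1.trans (tau_ge n)⟩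
    have h3 := eta_le n
    have h4 : (0 : ℝ) < (1 / 2) ^ n := by positivity
    have h5 : (0 : ℝ) ≤ eta n := (eta_pos n).le
    rw [hE]
    refine h2.trans ?_
    have h6 : eta n + 2 * (1 / 2) ^ (n + 1) * ‖w‖ ≤ 5 / 4 * (1 / 2) ^ n := by
      have h7 : 2 * (1 / 2 : ℝ) ^ (n + 1) * ‖w‖ ≤ (1 / 2) ^ n := by
        rw [pow_succ]
        nlinarith [norm_nonneg w]
      linarith
    have h8 : (0 : ℝ) ≤ eta n + 2 * (1 / 2) ^ (n + 1) * ‖w‖ := by positivity
    nlinarith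
  have h2 : ∀ n, m ≤ n → ‖E n - E m‖ ≤ 5 / 2 * ((1 / 2) ^ m - (1 / 2) ^ n) := by
    intro n hn
    induction n, hn using Nat.le_induction with
    | base => simp
    | succ n hn ih =>
      have h3 : E (n + 1) - E m = (E (n + 1) - E n) + (E n - E m) := by abel
      rw [h3]
      refine (norm_add_le _ _).trans ((add_le_add (h1 n hn) ih).trans (le_of_eq ?_))
      rw [pow_succ]
      ring
  have h3 : Tendsto E atTop (𝓝 (Tt (1 / (m : ℝ)) w)) := by
    rw [hE]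
    exact (hl w 1).tendsto_at ⟨ht0, ht1⟩
  have h4 : ‖Tt (1 / (m : ℝ)) w - E m‖ ≤ 5 / 2 * (1 / 2) ^ m := by
    have h5 : Tendsto (fun n => ‖E n - E m‖) atTop (𝓝 ‖Tt (1 / (m : ℝ)) w - E m‖) :=
      (h3.sub_const (E m)).norm
    refine le_of_tendsto h5 ?_
    filter_upwards [eventually_ge_atTop m] with n hn
    have h6 := h2 n hn
    have h7 : (0 : ℝ) < (1 / 2) ^ n := by positivity
    linarith
  have h5 := Q.noncont_stage I hp (m := m) (by omega)
  rw [← hw] at h5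
  have h6 : (1 / 2 : ℝ) ^ m ≤ 1 / 128 := by
    calc (1 / 2 : ℝ) ^ m ≤ (1 / 2) ^ 7 :=
          pow_le_pow_of_le_one (by norm_num) (by norm_num) hm
      _ = 1 / 128 := by norm_num
  have h7 : (Q.e (Tt (1 / (m : ℝ)) w)).re ≤ 19 / 20 := by
    have h8 : (Q.e (Tt (1 / (m : ℝ)) w)).re = (Q.e (E m)).re +
        (Q.e (Tt (1 / (m : ℝ)) w - E m)).re := by
      rw [map_sub, Complex.sub_re]
      ring
    have h9 : (Q.e (Tt (1 / (m : ℝ)) w - E m)).re ≤ 5 / 2 * (1 / 2) ^ m := by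
      refine (Complex.re_le_norm _).trans (((Q.e).le_opNorm _).trans ?_)
      rw [Q.norm_eq _ Q.e_mem, one_mul]
      exact h4
    have h10 : (Q.e (E m)).re ≤ 9 / 10 := by
      rw [hE]
      exact h5
    rw [h8]
    linarith
  have h8 : Q.e w = 1 := by
    rw [hw]
    exact (hp m).w_e
  have h9 : ‖((Q.e).comp (Tt (1 / (m : ℝ))) - Q.e) w‖ ≤
      ‖(Q.e).comp (Tt (1 / (m : ℝ))) - Q.e‖ := by
    refine (ContinuousLinearMap.le_opNorm _ _).trans ?_
    exact mul_le_of_le_one_right (norm_nonneg _) hwn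
  refine le_trans ?_ h9
  have h10 : (((Q.e).comp (Tt (1 / (m : ℝ))) - Q.e) w) = Q.e (Tt (1 / (m : ℝ)) w) - 1 := by
    rw [← h8]
    rfl
  rw [h10]
  have h11 := Complex.abs_re_le_norm (Q.e (Tt (1 / (m : ℝ)) w) - 1)
  rw [Complex.sub_re, Complex.one_re] at h11
  refine le_trans ?_ h11
  rw [abs_of_neg (by linarith)]
  linarith

end ConvSys

end QG753
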