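import Pool.Agent.Lib.QG753.Choose
import Pool.Agent.Lib.QG753.Invar
import Pool.Agent.Lib.QG753.NonCont

/-!
# MP_753acd_an: the semigroup construction
-/

open Filter Topology

noncomputable section

namespace QG753

namespace ConvSys

variable {A : Type} [NormedAddCommGroup A] [NormedSpace ℂ A] [CompleteSpace A] (Q : ConvSys A)
  {g : ℕ → (A →L[ℂ] ℂ)} {a : ℕ → A} {nu : ℕ → (A →L[ℂ] ℂ)}

theorem kv (I : Q.Inputs g a nu) : ∃ T' : NNReal → (A →L[ℂ] A),
    T' 0 = 1 ∧ (∀ s t, T' (s + t) = T' s * T' t) ∧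
    (∀ t, ∀ f ∈ Q.St, (T' t).comp (Q.S f) = (Q.S f).comp (T' t)) ∧
    (∀ t, (Q.e).comp (T' t) ∈ Q.St) ∧ (∀ x, Continuous fun t => T' t x) ∧
    ¬ Continuous (fun t => (Q.e).comp (T' t)) ∧
    ∀ f ∈ Q.L, Tendsto (fun t => ‖f.comp (T' t) - (Q.e).comp (T' t)‖) atTop (𝓝 0) := by
  obtain ⟨p, hp⟩ := Q.exists_choices I
  obtain ⟨Tt, hl⟩ := Q.exists_lim I hp
  refine ⟨fun t => Tt (t : ℝ), ?_, ?_, ?_, ?_, ?_, ?_, ?_⟩
  · simpa using Q.lim_zero hl
  · intro s t
    have h := Q.lim_add I hp hl (NNReal.coe_nonneg s) (NNReal.coe_nonneg t)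
    simpa only [NNReal.coe_add] using h
  · intro t f hf
    exact Q.lim_comm I hp hl t.2 hf
  · intro t
    exact Q.lim_state I hp hl t.2
  · intro x
    exact (Q.lim_cont hl x).comp_continuous NNReal.continuous_coe (fun t => t.2)
  · intro hc
    have h1 : Tendsto (fun m : ℕ => ((Real.toNNReal (1 / (m : ℝ))) : NNReal)) atTop (𝓝 0) := by
      have h2 : Tendsto (fun m : ℕ => 1 / (m : ℝ)) atTop (𝓝 0) := tendsto_one_div_atTop_nhds_zero_nat
      have h3 := (continuous_real_toNNReal.tendsto 0).comp h2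
      rw [Real.toNNReal_zero] at h3
      exact h3
    have h4 := (hc.tendsto 0).comp h1
    have h5 : (Q.e).comp (Tt ((0 : NNReal) : ℝ)) = Q.e := by
      rw [NNReal.coe_zero, Q.lim_zero hl]; rfl
    rw [h5] at h4
    have h6 : Tendsto (fun m : ℕ => ‖(Q.e).comp (Tt (1 / (m : ℝ))) - Q.e‖) atTop (𝓝 0) := by
      rw [tendsto_iff_norm_sub_tendsto_zero] at h4
      refine h4.congr ?_
      intro m
      have : ((Real.toNNReal (1 / (m : ℝ)) : NNReal) : ℝ) = 1 / (m : ℝ) :=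
        Real.coe_toNNReal _ (by positivity)
      simp only [Function.comp, this]
    have h7 := (h6.eventually (gt_mem_nhds (show (0 : ℝ) < 1 / 20 by norm_num)))
    obtain ⟨m, h8, h9⟩ := (h7.and (Q.noncont I hp hl)).exists
    linarith
  · intro f hf
    have hd := I.g_dense hf
    rw [Metric.tendsto_nhds]
    intro ε hε
    obtain ⟨_, ⟨j, rfl⟩, hj⟩ := Metric.mem_closure_iff.1 hd (ε / 2) (half_pos hε)
    have h1 := (Q.invar I hp hl j)
    have h2 : Tendsto (fun t : NNReal => ‖(g j - Q.e).comp (Tt (t : ℝ))‖) atTop (𝓝 0) :=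
      h1.comp (NNReal.tendsto_coe_atTop.2 tendsto_id)
    filter_upwards [(Metric.tendsto_nhds.1 h2) (ε / 2) (half_pos hε)] with t ht
    rw [dist_zero_right, norm_norm] at ht ⊢
    have h3 : f.comp (Tt (t : ℝ)) - (Q.e).comp (Tt (t : ℝ)) =
        (f - g j).comp (Tt (t : ℝ)) + (g j - Q.e).comp (Tt (t : ℝ)) := by
      ext x; simp
    rw [h3]
    refine (norm_add_le _ _).trans_lt ?_
    have h4 : ‖(f - g j).comp (Tt (t : ℝ))‖ ≤ dist f (g j) := by
      rw [dist_eq_norm]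
      refine (ContinuousLinearMap.opNorm_comp_le _ _).trans ?_
      exact mul_le_of_le_one_right (norm_nonneg _) (Q.lim_norm I hp hl t.2)
    linarith

end ConvSys

end QG753
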