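import Pool.Agent.Lib.QG753.HTBasic

/-!
# MP_753acd_an: associativity and leg numbering
-/

open scoped TensorProduct ComplexOrder InnerProductSpace
open ContinuousLinearMap

noncomputable section

namespace QG753

variable {H K L M E : Type}
  [NormedAddCommGroup H] [InnerProductSpace ℂ H]
  [NormedAddCommGroup K] [InnerProductSpace ℂ K]
  [NormedAddCommGroup L] [InnerProductSpace ℂ L]
  [NormedAddCommGroup M] [InnerProductSpace ℂ M]
  [NormedAddCommGroup E] [NormedSpace ℂ E]

private theorem embL_tmul (a : H) (k : K) (l : L) :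
    embL H K L ((a ⊗ₜ[ℂ] k) ⊗ₜ[ℂ] l) = tp (tp a k) l := by
  simp [embL, tp]

private theorem embR_tmul (a : H) (k : K) (l : L) :
    embR H K L (a ⊗ₜ[ℂ] (k ⊗ₜ[ℂ] l)) = tp a (tp k l) := by
  simp [embR, tp]

private theorem norm_embL (z : (H ⊗[ℂ] K) ⊗[ℂ] L) : ‖embL H K L z‖ = ‖z‖ := by
  have h1 : embL H K L z = (((TensorProduct.mapIsometry
      (UniformSpace.Completion.toComplₗᵢ (𝕜 := ℂ) (E := H ⊗[ℂ] K))
      (LinearIsometry.id (R := ℂ) (E := L)) z : (HT H K) ⊗[ℂ] L)) :
      UniformSpace.Completion ((HT H K) ⊗[ℂ] L)) := by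
    induction z using TensorProduct.induction_on with
    | zero => rw [map_zero, map_zero]; exact UniformSpace.Completion.coe_zero.symm
    | tmul x y => simp [embL]
    | add x y hx hy => rw [map_add, map_add, UniformSpace.Completion.coe_add, hx, hy]
  rw [h1, UniformSpace.Completion.norm_coe, LinearIsometry.norm_map]

private theorem norm_embR (z : H ⊗[ℂ] (K ⊗[ℂ] L)) : ‖embR H K L z‖ = ‖z‖ := by
  have h1 : embR H K L z = (((TensorProduct.mapIsometry
      (LinearIsometry.id (R := ℂ) (E := H))
      (UniformSpace.Completion.toComplₗᵢ (𝕜 := ℂ) (E := K ⊗[ℂ] L)) z : H ⊗[ℂ] (HT K L))) :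
      UniformSpace.Completion (H ⊗[ℂ] (HT K L))) := by
    induction z using TensorProduct.induction_on with
    | zero => rw [map_zero, map_zero]; exact UniformSpace.Completion.coe_zero.symm
    | tmul x y => simp [embR]
    | add x y hx hy => rw [map_add, map_add, UniformSpace.Completion.coe_add, hx, hy]
  rw [h1, UniformSpace.Completion.norm_coe, LinearIsometry.norm_map]

/-- Elementary tensors `(a ⊗ k) ⊗ l` span a dense subspace. -/
theorem span_tp3_dense : Dense (Submodule.span ℂ (Set.range fun p : H × K × L =>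
    tp (tp p.1 p.2.1) p.2.2) : Set (HT (HT H K) L)) := by
  set P := (Submodule.span ℂ (Set.range fun p : H × K × L => tp (tp p.1 p.2.1) p.2.2)) with hP
  have h1 : ∀ (z : HT H K) (l : L), tp z l ∈ P.topologicalClosure := by
    intro z l
    have hc : Continuous fun z : HT H K => tp z l := (tpL (HT H K) l).continuous
    have hcl : IsClosed {z : HT H K | tp z l ∈ P.topologicalClosure} :=
      (P.isClosed_topologicalClosure).preimage hc
    have hs : (Submodule.span ℂ (Set.range fun p : H × K => tp p.1 p.2) : Set (HT H K)) ⊆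
        {z : HT H K | tp z l ∈ P.topologicalClosure} := by
      intro z hz
      induction hz using Submodule.span_induction with
      | mem x hx =>
        obtain ⟨p, rfl⟩ := hx
        exact P.le_topologicalClosure (Submodule.subset_span ⟨(p.1, p.2, l), rfl⟩)
      | zero =>
        have : tp (0 : HT H K) l = 0 := by
          have := tp_smul_left (0 : ℂ) (0 : HT H K) l
          simpa using this
        simp only [Set.mem_ofPred_eq, this]
        exact Submodule.zero_mem _
      | add x y _ _ hx hy =>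
        simp only [Set.mem_ofPred_eq, tp_add_left] at *
        exact Submodule.add_mem _ hx hy
      | smul c x _ hx =>
        simp only [Set.mem_ofPred_eq, tp_smul_left] at *
        exact Submodule.smul_mem _ c hx
    have := (span_tp_dense (H := H) (K := K)).closure_eq
    have h2 : z ∈ closure (Submodule.span ℂ (Set.range fun p : H × K => tp p.1 p.2) :
        Set (HT H K)) := by rw [this]; trivial
    exact closure_minimal hs hcl h2
  have h2 : (Submodule.span ℂ (Set.range fun p : HT H K × L => tp p.1 p.2)) ≤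
      P.topologicalClosure := by
    rw [Submodule.span_le]
    rintro _ ⟨p, rfl⟩
    exact h1 p.1 p.2
  have h3 := (span_tp_dense (H := HT H K) (K := L))
  have h4 : (Submodule.span ℂ (Set.range fun p : HT H K × L => tp p.1 p.2)).topologicalClosure ≤
      P.topologicalClosure :=
    Submodule.topologicalClosure_minimal _ h2 P.isClosed_topologicalClosure
  rw [Submodule.dense_iff_topologicalClosure_eq_top] at h3 ⊢
  rw [h3] at h4
  exact top_le_iff.1 h4

/-- Two bounded operators on `(H ⊗ K) ⊗ L` agree if they agree on elementary tensors. -/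
theorem clm_ext3 {f g : HT (HT H K) L →L[ℂ] E}
    (h : ∀ a k l, f (tp (tp a k) l) = g (tp (tp a k) l)) : f = g := by
  apply ContinuousLinearMap.ext_on span_tp3_dense
  rintro _ ⟨p, rfl⟩
  exact h _ _ _

/-- Two bounded operators on `H ⊗ (K ⊗ L)` agree if they agree on elementary tensors. -/
theorem clm_ext3' {f g : HT H (HT K L) →L[ℂ] E}
    (h : ∀ a k l, f (tp a (tp k l)) = g (tp a (tp k l))) : f = g := by
  have h1 : f.comp (flipT (HT K L) H) = g.comp (flipT (HT K L) H) := by
    apply clm_ext3
    intro a k l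
    simp [h]
  have h2 := congrArg (fun u => u.comp (flipT H (HT K L))) h1
  simpa only [ContinuousLinearMap.comp_assoc, flipT_comp_flipT, ContinuousLinearMap.comp_id]
    using h2

private theorem denseRange_embL : DenseRange (embL H K L) := by
  have h : (Submodule.span ℂ (Set.range fun p : H × K × L => tp (tp p.1 p.2.1) p.2.2) :
      Set (HT (HT H K) L)) ⊆ Set.range (embL H K L) := by
    have : (Submodule.span ℂ (Set.range fun p : H × K × L => tp (tp p.1 p.2.1) p.2.2)) ≤
        LinearMap.range ((embL H K L) : (H ⊗[ℂ] K) ⊗[ℂ] L →ₗ[ℂ] HT (HT H K) L) := by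
      rw [Submodule.span_le]
      rintro _ ⟨p, rfl⟩
      exact ⟨(p.1 ⊗ₜ[ℂ] p.2.1) ⊗ₜ[ℂ] p.2.2, embL_tmul _ _ _⟩
    exact this
  exact span_tp3_dense.mono h

private theorem span_tp3'_dense : Dense (Submodule.span ℂ (Set.range fun p : H × K × L =>
    tp p.1 (tp p.2.1 p.2.2)) : Set (HT H (HT K L))) := by
  have h0 := (span_tp3_dense (H := K) (K := L) (L := H))
  have hs : Function.Surjective (flipT (HT K L) H) := fun z =>
    ⟨flipT H (HT K L) z, flipT_flipT z⟩
  have h1 := DenseRange.dense_image hs.denseRange (flipT (HT K L) H).continuous h0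
  apply h1.mono
  rintro _ ⟨z, hz, rfl⟩
  have : z ∈ (Submodule.span ℂ (Set.range fun p : H × K × L =>
      tp p.1 (tp p.2.1 p.2.2))).comap
      ((flipT (HT K L) H) : HT (HT K L) H →ₗ[ℂ] HT H (HT K L)) := by
    revert hz
    apply Submodule.span_le.2
    rintro _ ⟨p, rfl⟩
    simp only [Submodule.comap_coe, ContinuousLinearMap.coe_coe, Set.mem_preimage, flipT_tp]
    exact Submodule.subset_span ⟨(p.2.2, p.1, p.2.1), rfl⟩
  exact this

private theorem denseRange_embR : DenseRange (embR H K L) := by
  have h : (Submodule.span ℂ (Set.range fun p : H × K × L => tp p.1 (tp p.2.1 p.2.2)) :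
      Set (HT H (HT K L))) ⊆ Set.range (embR H K L) := by
    have : (Submodule.span ℂ (Set.range fun p : H × K × L => tp p.1 (tp p.2.1 p.2.2))) ≤
        LinearMap.range ((embR H K L) : H ⊗[ℂ] (K ⊗[ℂ] L) →ₗ[ℂ] HT H (HT K L)) := by
      rw [Submodule.span_le]
      rintro _ ⟨p, rfl⟩
      exact ⟨p.1 ⊗ₜ[ℂ] (p.2.1 ⊗ₜ[ℂ] p.2.2), embR_tmul _ _ _⟩
    exact this
  exact span_tp3'_dense.mono h

private theorem ui_embL : IsUniformInducing (embL H K L) :=
  (AddMonoidHomClass.isometry_of_norm (embL H K L) norm_embL).isUniformInducing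

private theorem ui_embR : IsUniformInducing (embR H K L) :=
  (AddMonoidHomClass.isometry_of_norm (embR H K L) norm_embR).isUniformInducing

@[simp] theorem assocT_tp (a : H) (k : K) (l : L) :
    assocT H K L (tp (tp a k) l) = tp a (tp k l) := by
  rw [← embL_tmul, assocT, ContinuousLinearMap.extend_eq (e := embL H K L) _
    denseRange_embL ui_embL]
  exact embR_tmul a k l

@[simp] theorem assocTs_tp (a : H) (k : K) (l : L) :
    assocTs H K L (tp a (tp k l)) = tp (tp a k) l := by
  rw [← embR_tmul, assocTs, ContinuousLinearMap.extend_eq (e := embR H K L) _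
    denseRange_embR ui_embR]
  exact embL_tmul a k l

theorem assocT_comp_assocTs : (assocT H K L).comp (assocTs H K L) =
    ContinuousLinearMap.id ℂ _ := by
  apply clm_ext3'; intro a k l; simp

theorem assocTs_comp_assocT : (assocTs H K L).comp (assocT H K L) =
    ContinuousLinearMap.id ℂ _ := by
  apply clm_ext3; intro a k l; simp

@[simp] theorem assocT_assocTs (z : HT H (HT K L)) : assocT H K L (assocTs H K L z) = z := by
  rw [← ContinuousLinearMap.comp_apply, assocT_comp_assocTs]; rfl

@[simp] theorem assocTs_assocT (z : HT (HT H K) L) : assocTs H K L (assocT H K L z) = z := by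
  rw [← ContinuousLinearMap.comp_apply, assocTs_comp_assocT]; rfl

theorem adjoint_assocT : adjoint (assocT H K L) = assocTs H K L := by
  apply clm_ext3'
  intro a k l
  have h : (innerSL ℂ ((adjoint (assocT H K L)) (tp a (tp k l))) : HT (HT H K) L →L[ℂ] ℂ) =
      innerSL ℂ (assocTs H K L (tp a (tp k l))) := by
    apply clm_ext3
    intro a' k' l'
    simp only [innerSL_apply_apply, ContinuousLinearMap.adjoint_inner_left, assocT_tp, assocTs_tp,
      inner_tp]
    ring
  exact (innerSL_inj (𝕜 := ℂ)).1 h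

theorem adjoint_assocTs : adjoint (assocTs H K L) = assocT H K L := by
  rw [← adjoint_assocT, ContinuousLinearMap.adjoint_adjoint]

section legs

variable (U U' : HT H K →L[ℂ] HT H K)

theorem leg12_assocT (z : HT H K) (l : L) :
    leg12 L U (assocT H K L (tp z l)) = assocT H K L (tp (U z) l) := by
  simp [leg12]

theorem leg12_tp (a : H) (k : K) (l : L) :
    leg12 L U (tp a (tp k l)) = assocT H K L (tp (U (tp a k)) l) := by
  simp [leg12]

@[simp] theorem leg23_tp (V : HT K L →L[ℂ] HT K L) (a : H) (z : HT K L) :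
    leg23 H V (tp a z) = tp a (V z) := by
  simp [leg23]

theorem leg12_mul : leg12 L (U * U') = leg12 L U * leg12 L U' := by
  ext z
  simp only [leg12, ContinuousLinearMap.comp_apply, mul_apply_eq_comp, assocTs_assocT]
  rw [← ContinuousLinearMap.comp_apply (opT U _), opT_comp, ContinuousLinearMap.comp_id]
  rfl

theorem leg12_one : leg12 L (1 : HT H K →L[ℂ] HT H K) = 1 := by
  apply clm_ext3'; intro a k l; simp [leg12_tp]

theorem leg12_opT (S : H →L[ℂ] H) (T : K →L[ℂ] K) :
    leg12 L (opT S T) = opT S (opT T 1) := by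
  apply clm_ext3'; intro a k l; simp [leg12_tp]

theorem star_leg12 [CompleteSpace H] [CompleteSpace K] [CompleteSpace L] :
    star (leg12 L U) = leg12 L (star U) := by
  rw [ContinuousLinearMap.star_eq_adjoint, leg12, ContinuousLinearMap.adjoint_comp,
    ContinuousLinearMap.adjoint_comp, adjoint_assocTs, adjoint_assocT, adjoint_opT, leg12]
  rw [ContinuousLinearMap.comp_assoc]
  congr 3
  exact ContinuousLinearMap.adjoint_id

theorem leg23_mul (V V' : HT K L →L[ℂ] HT K L) : leg23 H (V * V') = leg23 H V * leg23 H V' := by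
  apply clm_ext; intro a z; simp

theorem leg23_one : leg23 H (1 : HT K L →L[ℂ] HT K L) = 1 := by
  apply clm_ext; intro a z; simp

theorem star_leg23 [CompleteSpace H] (V : HT K L →L[ℂ] HT K L) :
    star (leg23 H V) = leg23 H (star V) := by
  rw [leg23, ContinuousLinearMap.star_eq_adjoint, adjoint_opT]
  congr 1
  exact ContinuousLinearMap.adjoint_id

theorem leg13_tp (V : HT H L →L[ℂ] HT H L) (a : H) (k : K) (l : L) :
    leg13 K V (tp a (tp k l)) =
      opT (ContinuousLinearMap.id ℂ H) (flipT L K) (assocT H L K (tp (V (tp a l)) k)) := by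
  simp [leg13, leg12_tp]

theorem leg13_mul (V V' : HT H L →L[ℂ] HT H L) :
    leg13 K (V * V') = leg13 K V * leg13 K V' := by
  ext z
  simp only [leg13, ContinuousLinearMap.comp_apply, mul_apply_eq_comp, leg12_mul]
  congr 2
  rw [← ContinuousLinearMap.comp_apply (opT _ (flipT K L)), opT_comp, flipT_comp_flipT]
  simp only [ContinuousLinearMap.comp_id]
  have : opT (ContinuousLinearMap.id ℂ H) (ContinuousLinearMap.id ℂ (HT L K)) = 1 := opT_one
  rw [this]; rfl

theorem leg13_one : leg13 K (1 : HT H L →L[ℂ] HT H L) = 1 := by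
  apply clm_ext3'; intro a k l; simp [leg13_tp]

theorem leg13_opT (S : H →L[ℂ] H) (T : L →L[ℂ] L) :
    leg13 K (opT S T) = opT S (opT 1 T) := by
  apply clm_ext3'; intro a k l; simp [leg13_tp]

theorem star_leg13 [CompleteSpace H] [CompleteSpace K] [CompleteSpace L]
    (V : HT H L →L[ℂ] HT H L) : star (leg13 K V) = leg13 K (star V) := by
  rw [ContinuousLinearMap.star_eq_adjoint, leg13, ContinuousLinearMap.adjoint_comp,
    ContinuousLinearMap.adjoint_comp, adjoint_opT, adjoint_opT, adjoint_flipT, adjoint_flipT,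
    leg13, ← star_leg12, ContinuousLinearMap.star_eq_adjoint, ContinuousLinearMap.comp_assoc,
    ContinuousLinearMap.adjoint_id]

theorem unitary_leg12 [CompleteSpace H] [CompleteSpace K] [CompleteSpace L]
    (hU : U ∈ unitary (HT H K →L[ℂ] HT H K)) :
    leg12 L U ∈ unitary (HT H (HT K L) →L[ℂ] HT H (HT K L)) := by
  rw [Unitary.mem_iff, star_leg12, ← leg12_mul, ← leg12_mul, (Unitary.mem_iff.1 hU).1,
    (Unitary.mem_iff.1 hU).2, leg12_one]
  exact ⟨rfl, rfl⟩

theorem unitary_leg13 [CompleteSpace H] [CompleteSpace K] [CompleteSpace L]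
    {V : HT H L →L[ℂ] HT H L} (hV : V ∈ unitary (HT H L →L[ℂ] HT H L)) :
    leg13 K V ∈ unitary (HT H (HT K L) →L[ℂ] HT H (HT K L)) := by
  rw [Unitary.mem_iff, star_leg13, ← leg13_mul, ← leg13_mul, (Unitary.mem_iff.1 hV).1,
    (Unitary.mem_iff.1 hV).2, leg13_one]
  exact ⟨rfl, rfl⟩

theorem unitary_leg23 [CompleteSpace H] {V : HT K L →L[ℂ] HT K L}
    (hV : V ∈ unitary (HT K L →L[ℂ] HT K L)) :
    leg23 H V ∈ unitary (HT H (HT K L) →L[ℂ] HT H (HT K L)) := by
  rw [Unitary.mem_iff, star_leg23, ← leg23_mul, ← leg23_mul, (Unitary.mem_iff.1 hV).1,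
    (Unitary.mem_iff.1 hV).2, leg23_one]
  exact ⟨rfl, rfl⟩

end legs

end QG753
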