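import Pool.Agent.Lib.QG753.Step

/-!
# MP_753acd_an: the limit semigroup

PROOFS. Write `E n t = ev α ν n n t`, a contraction for `t ≥ 0`. For `x = a j` and `n ≥ j`,
`condC` and `step_le` give `‖E (n+1) t x - E n t x‖ ≤ R (eta n + 2 (1/2)^(n+1) ‖x‖)` for
`t ∈ [0, R]`, `R ≤ tau n`, summable in `n`; since the `a j` are dense and the `E n t` are
contractions, `E n t x` is uniformly Cauchy on `[0, R]` for every `x`. `Tt t` is the limit (put
`Tt t = 0` for `t < 0`). The limit inherits: contraction, `Tt 0 = 1`, semigroup law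
(`ev` is a one parameter group: `exp_add_of_commute`), commutation with `S f`, continuity in `t`.
`state_lim`: `e ∘ E n t` are states converging pointwise to `e ∘ Tt t`, so only
`‖e ∘ Tt t‖ = 1` is needed: by `step_L` the functionals `e ∘ (E n t * T (α 0))` are norm Cauchy,
they are states, their limit is `e ∘ Tt t ∘ T (α 0)`, of norm `1`, and `‖T (α 0)‖ ≤ 1`.
-/

open Filter Topology

noncomputable section

namespace QG753

namespace ConvSys

variable {A : Type} [NormedAddCommGroup A] [NormedSpace ℂ A] [CompleteSpace A] (Q : ConvSys A)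
  {g : ℕ → (A →L[ℂ] ℂ)} {a : ℕ → A} {nu : ℕ → (A →L[ℂ] ℂ)}
  {p : ℕ → (A →L[ℂ] ℂ) × A × (A →L[ℂ] ℂ)}

/-- `Tt` is the strong limit of the diagonal semigroups. -/
def IsLim (p : ℕ → (A →L[ℂ] ℂ) × A × (A →L[ℂ] ℂ)) (Tt : ℝ → (A →L[ℂ] A)) : Prop :=
  ∀ x, ∀ R : ℝ, TendstoUniformlyOn
    (fun n t => Q.ev (fun i => (p i).1) (fun i => (p i).2.2) n n t x) (fun t => Tt t x) atTop
    (Set.Icc 0 R)

private theorem lm_adm (I : Q.Inputs g a nu) (hp : ∀ n, Q.Cond g a nu p n) (n : ℕ) {t : ℝ}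
    (ht : 0 ≤ t) : Q.ev (fun i => (p i).1) (fun i => (p i).2.2) n n t ∈ Q.Adm := by
  refine Q.ev_mem_Adm (fun i _ => Q.L_sub (hp i).α_mem) (fun i _ => ?_) ht
  obtain ⟨j, hj⟩ := (hp i).ν_mem
  show (p i).2.2 ∈ Q.St
  rw [hj]
  exact I.nu_mem j

private theorem lm_norm (I : Q.Inputs g a nu) (hp : ∀ n, Q.Cond g a nu p n) (n : ℕ) {t : ℝ}
    (ht : 0 ≤ t) (x : A) :
    ‖Q.ev (fun i => (p i).1) (fun i => (p i).2.2) n n t x‖ ≤ ‖x‖ := by
  have h1 := (Q.lm_adm I hp n ht).1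
  calc _ ≤ ‖Q.ev (fun i => (p i).1) (fun i => (p i).2.2) n n t‖ * ‖x‖ :=
        ContinuousLinearMap.le_opNorm _ _
    _ ≤ 1 * ‖x‖ := mul_le_mul_of_nonneg_right h1 (norm_nonneg _)
    _ = ‖x‖ := one_mul _

private theorem lm_tau (n : ℕ) : (n : ℝ) + 1 ≤ tau n := by
  unfold tau
  have h1 : (1 : ℝ) ≤ 2 ^ (n + 2) := one_le_pow₀ (by norm_num)
  nlinarith [Nat.cast_nonneg (α := ℝ) n]

private theorem lm_eta (n : ℕ) : eta n ≤ (1 / 2) ^ n := by
  unfold eta
  have h1 : 0 < (1 / 2 : ℝ) ^ n := by positivity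
  have h2 := lm_tau n
  have h3 : (0 : ℝ) ≤ n := Nat.cast_nonneg n
  exact div_le_self h1.le (by linarith)

private theorem lm_step (I : Q.Inputs g a nu) (hp : ∀ n, Q.Cond g a nu p n) {j n : ℕ} (hj : j ≤ n)
    {R : ℝ} (hR : R ≤ tau n) {t : ℝ} (ht : t ∈ Set.Icc 0 R) :
    ‖Q.ev (fun i => (p i).1) (fun i => (p i).2.2) (n + 1) (n + 1) t (a j) -
      Q.ev (fun i => (p i).1) (fun i => (p i).2.2) n n t (a j)‖ ≤
      R * (1 + ‖a j‖) * (1 / 2) ^ n := by
  have h1 := Q.step_le I hp n (x := a j) (c := eta n) (fun s hs => (hp n).condC j hj s hs) t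
    ⟨ht.1, ht.2.trans hR⟩
  refine h1.trans ?_
  have hR0 : 0 ≤ R := ht.1.trans ht.2
  have h2 : eta n + 2 * (1 / 2) ^ (n + 1) * ‖a j‖ ≤ (1 + ‖a j‖) * (1 / 2) ^ n := by
    have h3 := lm_eta n
    have h4 : (2 : ℝ) * (1 / 2) ^ (n + 1) = (1 / 2) ^ n := by
      rw [pow_succ]
      ring
    rw [h4]
    linarith
  have h5 : 0 ≤ (1 + ‖a j‖) * (1 / 2 : ℝ) ^ n := by positivity
  calc t * (eta n + 2 * (1 / 2) ^ (n + 1) * ‖a j‖)
      ≤ t * ((1 + ‖a j‖) * (1 / 2) ^ n) := mul_le_mul_of_nonneg_left h2 ht.1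
    _ ≤ R * ((1 + ‖a j‖) * (1 / 2) ^ n) := mul_le_mul_of_nonneg_right ht.2 h5
    _ = R * (1 + ‖a j‖) * (1 / 2) ^ n := by ring

/-- A sequence with geometric increments. -/
private theorem lm_geom {F : Type*} [SeminormedAddCommGroup F] (u : ℕ → F) {N : ℕ} {c : ℝ}
    (hc : 0 ≤ c) (h : ∀ n, N ≤ n → ‖u (n + 1) - u n‖ ≤ c * (1 / 2) ^ n) {n : ℕ} (hn : N ≤ n)
    (k : ℕ) : ‖u (n + k) - u n‖ ≤ 2 * c * (1 / 2) ^ n := by
  have h1 : ‖u (n + k) - u n‖ ≤ 2 * c * ((1 / 2) ^ n - (1 / 2) ^ (n + k)) := by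
    induction k with
    | zero => simp
    | succ k ih =>
      have h2 := h (n + k) (by omega)
      have h3 : u (n + (k + 1)) - u n = (u (n + k + 1) - u (n + k)) + (u (n + k) - u n) := by
        rw [← add_assoc]
        abel
      rw [h3]
      refine (norm_add_le _ _).trans ?_
      have h4 : (1 / 2 : ℝ) ^ (n + (k + 1)) = (1 / 2) ^ (n + k) / 2 := by
        rw [← add_assoc, pow_succ]
        ring
      rw [h4]
      nlinarith
  refine h1.trans ?_
  have h2 : (0 : ℝ) ≤ (1 / 2) ^ (n + k) := by positivity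
  nlinarith

private theorem lm_cauchy (I : Q.Inputs g a nu) (hp : ∀ n, Q.Cond g a nu p n) (x : A) (R : ℝ) :
    UniformCauchySeqOn (fun n t => Q.ev (fun i => (p i).1) (fun i => (p i).2.2) n n t x) atTop
      (Set.Icc 0 R) := by
  rw [Metric.uniformCauchySeqOn_iff]
  intro ε hε
  by_cases hR0 : R < 0
  · refine ⟨0, fun m _ n _ t ht => ?_⟩
    exact absurd (ht.1.trans ht.2) (not_le.2 hR0)
  rw [not_lt] at hR0
  obtain ⟨j, hj⟩ := I.a_dense.exists_dist_lt x (show 0 < ε / 5 by positivity)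
  rw [dist_eq_norm] at hj
  set c : ℝ := R * (1 + ‖a j‖) with hc
  have hc0 : 0 ≤ c := by positivity
  have hlim : Tendsto (fun n : ℕ => 2 * c * (1 / 2 : ℝ) ^ n) atTop (𝓝 (2 * c * 0)) :=
    (tendsto_pow_atTop_nhds_zero_of_lt_one (by norm_num) (by norm_num)).const_mul _
  rw [mul_zero] at hlim
  obtain ⟨N1, hN1⟩ := (hlim.eventually_lt_const (show 0 < ε / 5 by positivity)).exists_forall_of_atTop
  obtain ⟨N2, hN2⟩ := exists_nat_ge R
  set N := max (max j N2) N1 with hN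
  have hjN : j ≤ N := (le_max_left _ _).trans (le_max_left _ _)
  have hN2N : N2 ≤ N := (le_max_right _ _).trans (le_max_left _ _)
  have hN1N : N1 ≤ N := le_max_right _ _
  have key : ∀ t ∈ Set.Icc 0 R, ∀ m, N ≤ m →
      ‖Q.ev (fun i => (p i).1) (fun i => (p i).2.2) m m t (a j) -
        Q.ev (fun i => (p i).1) (fun i => (p i).2.2) N N t (a j)‖ < ε / 5 := by
    intro t ht m hm
    obtain ⟨k, rfl⟩ := Nat.exists_eq_add_of_le hm
    refine (lm_geom (fun n => Q.ev (fun i => (p i).1) (fun i => (p i).2.2) n n t (a j))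
      (N := N) hc0 ?_ le_rfl k).trans_lt (hN1 N hN1N)
    intro n hn
    refine Q.lm_step I hp (hjN.trans hn) ?_ ht
    have h1 := lm_tau n
    have h2 : (N2 : ℝ) ≤ n := by exact_mod_cast hN2N.trans hn
    linarith
  refine ⟨N, fun m hm n hn t ht => ?_⟩
  rw [dist_eq_norm]
  have h1 := key t ht m hm
  have h2 := key t ht n hn
  have h3 := Q.lm_norm I hp m ht.1 (x - a j)
  have h4 := Q.lm_norm I hp n ht.1 (x - a j)
  rw [map_sub] at h3 h4
  set Em := Q.ev (fun i => (p i).1) (fun i => (p i).2.2) m m t with hEm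
  set En := Q.ev (fun i => (p i).1) (fun i => (p i).2.2) n n t with hEn
  set EN := Q.ev (fun i => (p i).1) (fun i => (p i).2.2) N N t with hEN
  have h5 : Em x - En x = (Em x - Em (a j)) - (En x - En (a j)) + (Em (a j) - EN (a j)) -
      (En (a j) - EN (a j)) := by abel
  rw [h5]
  calc ‖(Em x - Em (a j)) - (En x - En (a j)) + (Em (a j) - EN (a j)) - (En (a j) - EN (a j))‖
      ≤ ‖(Em x - Em (a j)) - (En x - En (a j)) + (Em (a j) - EN (a j))‖ +
        ‖En (a j) - EN (a j)‖ := norm_sub_le _ _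
    _ ≤ (‖(Em x - Em (a j)) - (En x - En (a j))‖ + ‖Em (a j) - EN (a j)‖) +
        ‖En (a j) - EN (a j)‖ := by gcongr; exact norm_add_le _ _
    _ ≤ ((‖Em x - Em (a j)‖ + ‖En x - En (a j)‖) + ‖Em (a j) - EN (a j)‖) +
        ‖En (a j) - EN (a j)‖ := by gcongr; exact norm_sub_le _ _
    _ < ε := by linarith

theorem exists_lim (I : Q.Inputs g a nu) (hp : ∀ n, Q.Cond g a nu p n) :
    ∃ Tt : ℝ → (A →L[ℂ] A), Q.IsLim p Tt := by
  classical
  have hpt : ∀ t : ℝ, 0 ≤ t → ∀ x, ∃ y, Tendsto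
      (fun n => Q.ev (fun i => (p i).1) (fun i => (p i).2.2) n n t x) atTop (𝓝 y) := by
    intro t ht x
    have h1 := Q.lm_cauchy I hp x t
    have h2 : CauchySeq fun n => Q.ev (fun i => (p i).1) (fun i => (p i).2.2) n n t x :=
      h1.cauchySeq (x := t) ⟨ht, le_rfl⟩
    exact cauchySeq_tendsto_of_complete h2
  choose! f hf using hpt
  have hlin : ∀ t : ℝ, 0 ≤ t → ∃ X : A →L[ℂ] A, ∀ x, X x = f t x := by
    intro t ht
    have h1 : Tendsto (fun n x => Q.ev (fun i => (p i).1) (fun i => (p i).2.2) n n t x) atTop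
        (𝓝 (f t)) := by
      rw [tendsto_pi_nhds]
      intro x
      exact hf t ht x
    exact ⟨continuousLinearMapOfTendsto _ h1, fun x => rfl⟩
  choose! X hX using hlin
  refine ⟨X, ?_⟩
  intro x R
  refine (Q.lm_cauchy I hp x R).tendstoUniformlyOn_of_tendsto ?_
  intro t ht
  rw [hX t ht.1]
  exact hf t ht.1 x

variable {Tt : ℝ → (A →L[ℂ] A)}

private theorem lm_at (hl : Q.IsLim p Tt) {t : ℝ} (ht : 0 ≤ t) (x : A) :
    Tendsto (fun n => Q.ev (fun i => (p i).1) (fun i => (p i).2.2) n n t x) atTop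
      (𝓝 (Tt t x)) :=
  (hl x t).tendsto_at ⟨ht, le_rfl⟩

theorem lim_zero (hl : Q.IsLim p Tt) : Tt 0 = 1 := by
  ext x
  have h1 := Q.lm_at hl le_rfl x
  have h2 : (fun n => Q.ev (fun i => (p i).1) (fun i => (p i).2.2) n n 0 x) = fun _ => x := by
    funext n
    unfold ev
    rw [zero_smul, NormedSpace.exp_zero]
    rfl
  rw [h2] at h1
  exact tendsto_nhds_unique h1 tendsto_const_nhds

theorem lim_add (I : Q.Inputs g a nu) (hp : ∀ n, Q.Cond g a nu p n) (hl : Q.IsLim p Tt)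
    {s t : ℝ} (hs : 0 ≤ s) (ht : 0 ≤ t) : Tt (s + t) = Tt s * Tt t := by
  ext x
  have h1 := Q.lm_at hl (add_nonneg hs ht) x
  have h2 : ∀ n, Q.ev (fun i => (p i).1) (fun i => (p i).2.2) n n (s + t) x =
      Q.ev (fun i => (p i).1) (fun i => (p i).2.2) n n s
        (Q.ev (fun i => (p i).1) (fun i => (p i).2.2) n n t x) := by
    intro n
    unfold ev
    let _ : NormedAlgebra ℚ (A →L[ℂ] A) := NormedAlgebra.restrictScalars ℚ ℂ _
    rw [add_smul, NormedSpace.exp_add_of_commute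
      (((Commute.refl _).smul_left s).smul_right t)]
    rfl
  have h3 : Tendsto (fun n => Q.ev (fun i => (p i).1) (fun i => (p i).2.2) n n (s + t) x) atTop
      (𝓝 ((Tt s * Tt t) x)) := by
    have h4 : (Tt s * Tt t) x = Tt s (Tt t x) := rfl
    rw [h4]
    have h5 := Q.lm_at hl hs (Tt t x)
    have h6 := Q.lm_at hl ht x
    have h7 : Tendsto (fun n => Q.ev (fun i => (p i).1) (fun i => (p i).2.2) n n s
        (Q.ev (fun i => (p i).1) (fun i => (p i).2.2) n n t x) -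
        Q.ev (fun i => (p i).1) (fun i => (p i).2.2) n n s (Tt t x)) atTop (𝓝 0) := by
      rw [tendsto_zero_iff_norm_tendsto_zero]
      have h8 : Tendsto (fun n => ‖Q.ev (fun i => (p i).1) (fun i => (p i).2.2) n n t x -
          Tt t x‖) atTop (𝓝 0) := by
        rw [← tendsto_zero_iff_norm_tendsto_zero]
        have h9 := h6.sub_const (Tt t x)
        rwa [sub_self] at h9
      refine squeeze_zero (fun n => norm_nonneg _) (fun n => ?_) h8
      rw [← map_sub]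
      exact Q.lm_norm I hp n hs _
    have h8 := h7.add h5
    rw [zero_add] at h8
    refine h8.congr fun n => ?_
    rw [h2]
    abel
  exact tendsto_nhds_unique h1 h3

theorem lim_norm (I : Q.Inputs g a nu) (hp : ∀ n, Q.Cond g a nu p n) (hl : Q.IsLim p Tt)
    {t : ℝ} (ht : 0 ≤ t) : ‖Tt t‖ ≤ 1 := by
  refine ContinuousLinearMap.opNorm_le_bound _ zero_le_one fun x => ?_
  rw [one_mul]
  exact le_of_tendsto (Q.lm_at hl ht x).norm (Eventually.of_forall fun n => Q.lm_norm I hp n ht x)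

theorem lim_comm (I : Q.Inputs g a nu) (hp : ∀ n, Q.Cond g a nu p n) (hl : Q.IsLim p Tt)
    {t : ℝ} (ht : 0 ≤ t) {f : A →L[ℂ] ℂ} (hf : f ∈ Q.St) :
    (Tt t).comp (Q.S f) = (Q.S f).comp (Tt t) := by
  ext x
  have h1 := Q.lm_at hl ht (Q.S f x)
  have h2 : Tendsto (fun n => Q.S f (Q.ev (fun i => (p i).1) (fun i => (p i).2.2) n n t x))
      atTop (𝓝 (Q.S f (Tt t x))) := ((Q.S f).continuous.tendsto _).comp (Q.lm_at hl ht x)
  have h3 : (fun n => Q.ev (fun i => (p i).1) (fun i => (p i).2.2) n n t (Q.S f x)) =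
      fun n => Q.S f (Q.ev (fun i => (p i).1) (fun i => (p i).2.2) n n t x) := by
    funext n
    have h4 := (Q.lm_adm I hp n ht).2.1 f hf
    exact DFunLike.congr_fun h4 x
  rw [h3] at h1
  exact tendsto_nhds_unique h1 h2

theorem lim_cont (hl : Q.IsLim p Tt) (x : A) :
    ContinuousOn (fun t => Tt t x) (Set.Ici 0) := by
  have hcont : ∀ n, Continuous fun t =>
      Q.ev (fun i => (p i).1) (fun i => (p i).2.2) n n t x := by
    intro n
    unfold ev
    let _ : NormedAlgebra ℚ (A →L[ℂ] A) := NormedAlgebra.restrictScalars ℚ ℂ _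
    have h1 : Continuous fun t : ℝ => NormedSpace.exp
        (t • Q.gen (fun i => (p i).1) (fun i => (p i).2.2) n n) :=
      NormedSpace.exp_continuous.comp (continuous_id.smul continuous_const)
    exact h1.clm_apply continuous_const
  intro t ht
  have h1 : ContinuousOn (fun t => Tt t x) (Set.Icc 0 (t + 1)) :=
    (hl x (t + 1)).continuousOn (Frequently.of_forall fun n => (hcont n).continuousOn)
  have h2 : ContinuousWithinAt (fun t => Tt t x) (Set.Icc 0 (t + 1)) t :=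
    h1 t ⟨ht, by linarith⟩
  refine h2.mono_of_mem_nhdsWithin ?_
  rw [mem_nhdsWithin]
  refine ⟨Set.Iio (t + 1), isOpen_Iio, by simp, ?_⟩
  rintro s ⟨hs1, hs2⟩
  exact ⟨hs2, le_of_lt hs1⟩

theorem lim_state (I : Q.Inputs g a nu) (hp : ∀ n, Q.Cond g a nu p n) (hl : Q.IsLim p Tt)
    {t : ℝ} (ht : 0 ≤ t) : (Q.e).comp (Tt t) ∈ Q.St := by
  set E : ℕ → (A →L[ℂ] A) := fun n => Q.ev (fun i => (p i).1) (fun i => (p i).2.2) n n t with hE
  have hEat : ∀ x, Tendsto (fun n => E n x) atTop (𝓝 (Tt t x)) := fun x => Q.lm_at hl ht x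
  have hEadm : ∀ n, E n ∈ Q.Adm := fun n => Q.lm_adm I hp n ht
  refine Q.limit_St (fun n => Q.e.comp (E n)) _ (fun n => (hEadm n).2.2 _ Q.e_mem) ?_ ?_
  · intro x
    exact (Q.e.continuous.tendsto _).comp (hEat x)
  · have he1 : ‖Q.e‖ = 1 := Q.norm_eq _ Q.e_mem
    have hα : (p 0).1 ∈ Q.St := Q.L_sub (hp 0).α_mem
    have hup : ‖Q.e.comp (Tt t)‖ ≤ 1 := by
      refine (ContinuousLinearMap.opNorm_comp_le _ _).trans ?_
      rw [he1, one_mul]
      exact Q.lim_norm I hp hl ht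
    refine le_antisymm hup ?_
    set f : ℕ → (A →L[ℂ] ℂ) := fun n => Q.e.comp (E n * Q.T (p 0).1) with hf
    have hf1 : ∀ n, ‖f n‖ = 1 := fun n =>
      Q.norm_eq _ ((Q.mul_mem_Adm (hEadm n) (Q.T_mem_Adm hα)).2.2 _ Q.e_mem)
    obtain ⟨N, hN⟩ := exists_nat_ge t
    have hstep : ∀ n, N ≤ n → ‖f (n + 1) - f n‖ ≤ (2 * t) * (1 / 2) ^ n := by
      intro n hn
      have h1 : f (n + 1) - f n = Q.e.comp ((E (n + 1) - E n) * Q.T (p 0).1) := by
        ext x
        simp [hf]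
      rw [h1]
      have h2 : t ≤ tau n := by
        have h3 := lm_tau n
        have h4 : (N : ℝ) ≤ n := by exact_mod_cast hn
        linarith
      have h3 := Q.step_L I hp n t ⟨ht, h2⟩
      refine h3.trans ?_
      have h4 := lm_eta n
      have h5 : (2 : ℝ) * (1 / 2) ^ (n + 1) = (1 / 2) ^ n := by
        rw [pow_succ]
        ring
      rw [h5]
      nlinarith
    have hc : 0 ≤ 2 * t := by linarith
    have hcauchy : CauchySeq f := by
      rw [Metric.cauchySeq_iff']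
      intro ε hε
      have hlim : Tendsto (fun n : ℕ => 2 * (2 * t) * (1 / 2 : ℝ) ^ n) atTop
          (𝓝 (2 * (2 * t) * 0)) :=
        (tendsto_pow_atTop_nhds_zero_of_lt_one (by norm_num) (by norm_num)).const_mul _
      rw [mul_zero] at hlim
      obtain ⟨N1, hN1⟩ := (hlim.eventually_lt_const hε).exists_forall_of_atTop
      refine ⟨max N N1, fun n hn => ?_⟩
      obtain ⟨k, rfl⟩ := Nat.exists_eq_add_of_le hn
      rw [dist_eq_norm]
      exact (lm_geom f hc hstep (le_max_left N N1) k).trans_lt (hN1 _ (le_max_right N N1))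
    obtain ⟨f', hf'⟩ := cauchySeq_tendsto_of_complete hcauchy
    have hf'1 : ‖f'‖ = 1 := by
      have h1 := hf'.norm
      simp only [hf1] at h1
      exact tendsto_nhds_unique h1 tendsto_const_nhds
    have hf'e : f' = (Q.e.comp (Tt t)).comp (Q.T (p 0).1) := by
      ext x
      have h1 : Tendsto (fun n => f n x) atTop (𝓝 (f' x)) :=
        ((ContinuousLinearMap.apply ℂ ℂ x).continuous.tendsto f').comp hf'
      have h2 : Tendsto (fun n => f n x) atTop (𝓝 (Q.e (Tt t (Q.T (p 0).1 x)))) :=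
        (Q.e.continuous.tendsto _).comp (hEat (Q.T (p 0).1 x))
      exact tendsto_nhds_unique h1 h2
    have h3 : (1 : ℝ) ≤ ‖Q.e.comp (Tt t)‖ * ‖Q.T (p 0).1‖ := by
      rw [← hf'1, hf'e]
      exact ContinuousLinearMap.opNorm_comp_le _ _
    exact h3.trans (mul_le_of_le_one_right (norm_nonneg _) (Q.norm_T _ hα))

end ConvSys

end QG753
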