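import Pool.Agent.Lib.QG753.RepBasic

/-!
# MP_753acd_an: the von Neumann algebra `L^∞(G)`

PROOFS. `mem_Linf_iff` (`StarSubalgebra.mem_centralizer_iff` twice): if `z` commutes with all
`reduce C a` it commutes with the slices of `V` and their adjoints (`reduce_x`, `map_star`), so it
lies in the first centralizer; conversely an element of the first centralizer commutes with all
`reduce C a` (density of the span of the `x α β`), and so does its adjoint.

`cfc_mem_Linf`: an operator commuting with the self-adjoint `y` commutes with `cfc f y`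
(`IsSelfAdjoint.commute_cfc`).

`amp_comm`: for `k l : K`, `coefOp P k l` commutes with all `reduce C a`
(`⟪β ⊗ l, P (Λ(a) α ⊗ k)⟫ = ⟪Λ(a)* β ⊗ l, P (α ⊗ k)⟫`), so it commutes with `y`, and the same
computation backwards (`clm_ext`, `vec_ext`) gives the claim.
-/

open scoped TensorProduct ComplexOrder InnerProductSpace
open ContinuousLinearMap Filter Topology

noncomputable section

namespace QG753

variable {H : Type} [NormedAddCommGroup H] [InnerProductSpace ℂ H] [CompleteSpace H]
  {W : MultUnitary H} {A : Type} [NonUnitalCStarAlgebra A]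
  {K : Type} [NormedAddCommGroup K] [InnerProductSpace ℂ K] [CompleteSpace K]

/-- The coefficients commute with the operators acting on the first leg. -/
private theorem coefOp_mul_opT (P : HT H K →L[ℂ] HT H K) (S : H →L[ℂ] H) (k l : K) :
    coefOp (P * opT S 1) k l = coefOp P k l * S := by
  ext α
  apply ext_inner_left ℂ
  intro β
  rw [inner_coefOp, mul_apply_eq_comp, mul_apply_eq_comp, opT_tp, inner_coefOp]
  rfl

private theorem coefOp_opT_mul (P : HT H K →L[ℂ] HT H K) (S : H →L[ℂ] H) (k l : K) :
    coefOp (opT S 1 * P) k l = S * coefOp P k l := by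
  ext α
  apply ext_inner_left ℂ
  intro β
  have h1 : adjoint (1 : K →L[ℂ] K) = 1 := ContinuousLinearMap.adjoint_id
  rw [inner_coefOp, mul_apply_eq_comp, mul_apply_eq_comp,
    ← ContinuousLinearMap.adjoint_inner_left (opT S 1), adjoint_opT, opT_tp, h1,
    ← ContinuousLinearMap.adjoint_inner_left S, inner_coefOp]
  rfl

private theorem coefOp_inj {P Q : HT H K →L[ℂ] HT H K}
    (h : ∀ k l, coefOp P k l = coefOp Q k l) : P = Q := by
  apply clm_ext
  intro a k
  apply vec_ext
  intro b l
  rw [← inner_coefOp, ← inner_coefOp, h]

theorem mem_Linf_iff (C : UniversalAlgebra W A) {y : H →L[ℂ] H} :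
    y ∈ Linf W ↔ ∀ z : H →L[ℂ] H, (∀ a : A, z * reduce C a = reduce C a * z) →
      z * y = y * z := by
  unfold Linf
  rw [StarSubalgebra.mem_centralizer_iff]
  constructor
  · intro h z hz
    refine (h z ?_).1
    show z ∈ StarSubalgebra.centralizer ℂ _
    rw [StarSubalgebra.mem_centralizer_iff]
    rintro _ ⟨p, rfl⟩
    simp only
    rw [← reduce_x C, ← map_star]
    exact ⟨(hz _).symm, (hz _).symm⟩
  · intro h g hg
    have key : ∀ g ∈ StarSubalgebra.centralizer ℂ
        (Set.range fun p : H × H => slice W.V p.1 p.2), g * y = y * g := by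
      intro g hg
      rw [StarSubalgebra.mem_centralizer_iff] at hg
      apply h
      intro a
      have hc : IsClosed {a : A | g * reduce C a = reduce C a * g} := by
        have h1 : Continuous fun a : A => reduce C a :=
          (NonUnitalStarAlgHom.norm_apply_le (reduce C) |> fun hb =>
            AddMonoidHomClass.continuous_of_bound (reduce C) 1 (fun x => by simpa using hb x))
        exact isClosed_eq (continuous_const.mul h1) (h1.mul continuous_const)
      have hs : (Submodule.span ℂ (Set.range fun p : H × H => C.x p.1 p.2) : Set A) ⊆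
          {a : A | g * reduce C a = reduce C a * g} := by
        intro a ha
        induction ha using Submodule.span_induction with
        | mem x hx =>
          obtain ⟨p, rfl⟩ := hx
          simp only [Set.mem_ofPred_eq]
          rw [reduce_x]
          exact ((hg _ ⟨p, rfl⟩).1).symm
        | zero => simp
        | add x y _ _ hx hy =>
          simp only [Set.mem_ofPred_eq, map_add, mul_add, add_mul] at *
          rw [hx, hy]
        | smul c x _ hx =>
          simp only [Set.mem_ofPred_eq, map_smul, mul_smul_comm, smul_mul_assoc] at *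
          rw [hx]
      have h2 : a ∈ closure (Submodule.span ℂ (Set.range fun p : H × H => C.x p.1 p.2) :
          Set A) := C.dense a
      exact closure_minimal hs hc h2
    exact ⟨key g hg, key (star g) (star_mem hg)⟩

theorem cfc_mem_Linf {y : H →L[ℂ] H} (hy : y ∈ Linf W) (hs : IsSelfAdjoint y) (f : ℝ → ℝ) :
    cfc f y ∈ Linf W := by
  unfold Linf at hy ⊢
  rw [StarSubalgebra.mem_centralizer_iff] at hy ⊢
  intro g hg
  obtain ⟨h1, h2⟩ := hy g hg
  have c1 : Commute y g := h1.symm
  have c2 : Commute y (star g) := h2.symm
  exact ⟨(hs.commute_cfc c1 f).symm, (hs.commute_cfc c2 f).symm⟩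

theorem amp_comm (C : UniversalAlgebra W A) {y : H →L[ℂ] H} (hy : y ∈ Linf W)
    (P : HT H K →L[ℂ] HT H K)
    (hP : ∀ a, P * opT (reduce C a) 1 = opT (reduce C a) 1 * P) :
    P * opT y 1 = opT y 1 * P := by
  apply coefOp_inj
  intro k l
  rw [coefOp_mul_opT, coefOp_opT_mul]
  refine (mem_Linf_iff C).1 hy _ fun a => ?_
  rw [← coefOp_mul_opT, ← coefOp_opT_mul, hP]

end QG753
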