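import Pool.Agent.Lib.QG753.Fell

/-!
# MP_753acd_an: the comultiplication on `L^∞(G)`

PROOFS. `slice_comul`: `⟪l, slice (Σ Y Σ) ξ η k⟫ = ⟪η ⊗ l, Σ Y Σ (ξ ⊗ k)⟫ = ⟪l ⊗ η, Y (k ⊗ ξ)⟫`.

`slice_comul_slice`: `fell` for `regRep W` with `ζ, ζ'; ξ, ξ'`:
`⟪β, coefOp V ζ ζ' (coefOp V ξ ξ' α)⟫ = ⟪ζ' ⊗ ξ', V (slice V α β ⊗ 1) V* (ζ ⊗ ξ)⟫`, and the left
side is `⟪ζ', slice V (coefOp V ξ ξ' α) β ζ⟫`.

`slice_comul_mem`: by `StarSubalgebra.mem_centralizer_iff` it is enough that for every `z` in the
first centralizer (`z` and `z*` commute with the slices `s` of `V` and their adjoints) `z` commutes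
with `coefOp (V (y ⊗ 1) V*) ξ η`, which follows if `z ⊗ 1` commutes with `V (y ⊗ 1) V*`, that is if
`X = V* (z ⊗ 1) V` commutes with `y ⊗ 1`; for this it is enough (`y` is in the second centralizer)
that the operators `coefOp X k l` lie in the first centralizer, that is that `X` commutes with
`s ⊗ 1` and `s* ⊗ 1` for all slices `s`. Since `X* = V* (z* ⊗ 1) V`, only `s ⊗ 1` is needed. Now
`1 ⊗ z` commutes with `V`, so `opT 1 (opT z 1)` commutes with `leg12 H V` (`leg12_mul`,
`leg12_opT`), and it commutes with `leg13 H V` (disjoint legs; check on elementary tensors with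
`leg13_tp`, or conjugate with the flip of the last two legs), so with
`leg12 V * leg13 V = leg23 V * leg12 V * star (leg23 V)` (`W.pentagon`). Hence `leg12 H V` commutes
with `star (leg23 V) * opT 1 (opT z 1) * leg23 V = opT 1 X`, and `inner_leg12_tp` gives that
`s ⊗ 1` commutes with `X`.
-/

open scoped TensorProduct ComplexOrder InnerProductSpace
open ContinuousLinearMap Filter Topology

noncomputable section

namespace QG753

variable {H : Type} [NormedAddCommGroup H] [InnerProductSpace ℂ H] [CompleteSpace H]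

private theorem lc_adjoint_one {E : Type} [NormedAddCommGroup E] [InnerProductSpace ℂ E]
    [CompleteSpace E] : adjoint (1 : E →L[ℂ] E) = 1 := ContinuousLinearMap.adjoint_id

private theorem lc_star_mul (P Q : HT H H →L[ℂ] HT H H) : star (P * Q) = star Q * star P :=
  ContinuousLinearMap.adjoint_comp P Q

private theorem lc_star_star (P : HT H H →L[ℂ] HT H H) : star (star P) = P :=
  ContinuousLinearMap.adjoint_adjoint P

private theorem lc_star_one : star (1 : H →L[ℂ] H) = 1 := ContinuousLinearMap.adjoint_id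

private theorem lc_mul_opT (P : HT H H →L[ℂ] HT H H) (S : H →L[ℂ] H) (k l : H) :
    coefOp (P * opT S 1) k l = coefOp P k l * S := by
  ext α
  apply ext_inner_left ℂ
  intro β
  rw [inner_coefOp, mul_apply_eq_comp, mul_apply_eq_comp, opT_tp, inner_coefOp]
  rfl

private theorem lc_opT_mul (P : HT H H →L[ℂ] HT H H) (S : H →L[ℂ] H) (k l : H) :
    coefOp (opT S 1 * P) k l = S * coefOp P k l := by
  ext α
  apply ext_inner_left ℂ
  intro β
  have h1 : adjoint (1 : H →L[ℂ] H) = 1 := ContinuousLinearMap.adjoint_id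
  rw [inner_coefOp, mul_apply_eq_comp, mul_apply_eq_comp,
    ← ContinuousLinearMap.adjoint_inner_left (opT S 1), adjoint_opT, opT_tp, h1,
    ← ContinuousLinearMap.adjoint_inner_left S, inner_coefOp]
  rfl

private theorem lc_inj {P Q : HT H H →L[ℂ] HT H H}
    (h : ∀ k l, coefOp P k l = coefOp Q k l) : P = Q := by
  apply clm_ext
  intro a k
  apply vec_ext
  intro b l
  rw [← inner_coefOp, ← inner_coefOp, h]

theorem slice_comul (W : MultUnitary H) (y : H →L[ℂ] H) (ξ η : H) :
    slice (comul W y) ξ η = coefOp (W.V * opT y 1 * star W.V) ξ η := by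
  ext k
  apply ext_inner_left ℂ
  intro l
  rw [inner_slice, inner_coefOp, comul, mul_apply_eq_comp, mul_apply_eq_comp, flipT_tp,
    ← ContinuousLinearMap.adjoint_inner_left (flipT H H), adjoint_flipT, flipT_tp]

theorem slice_comul_slice (W : MultUnitary H) (α β ξ η : H) :
    slice (comul W (slice W.V α β)) ξ η = slice W.V (coefOp W.V ξ η α) β := by
  rw [slice_comul]
  ext ζ
  apply ext_inner_left ℂ
  intro ζ'
  have h := fell (regRep W) ζ ζ' ξ η α β
  have h1 : (regRep W).U = W.V := rfl
  rw [h1, mul_apply_eq_comp, inner_coefOp] at h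
  rw [inner_slice, h, inner_coefOp, mul_apply_eq_comp, mul_apply_eq_comp]
  rw [ContinuousLinearMap.star_eq_adjoint, ContinuousLinearMap.adjoint_inner_left]

/-- An operator with all slices commuting with `g` commutes with `1 ⊗ g`. -/
private theorem lc_comm {Y : HT H H →L[ℂ] HT H H} {g : H →L[ℂ] H}
    (h : ∀ α β, slice Y α β * g = g * slice Y α β) : Y * opT 1 g = opT 1 g * Y := by
  apply clm_ext
  intro α k
  apply vec_ext
  intro β l
  rw [mul_apply_eq_comp, mul_apply_eq_comp, opT_tp,
    ← ContinuousLinearMap.adjoint_inner_left (opT 1 g), adjoint_opT, opT_tp, lc_adjoint_one]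
  simp only [one_apply_eq_self]
  rw [← inner_slice, ← inner_slice, ContinuousLinearMap.adjoint_inner_left,
    ← mul_apply_eq_comp, ← mul_apply_eq_comp, h]

private theorem lc_leg12 (V : HT H H →L[ℂ] HT H H) (g : H →L[ℂ] H) (z : HT H (HT H H)) :
    leg12 H V (opT 1 (opT 1 g) z) = opT 1 (opT (1 : H →L[ℂ] H) g) (leg12 H V z) := by
  have h1 : (assocTs H H H).comp (opT 1 (opT 1 g)) = (opT 1 g).comp (assocTs H H H) := by
    apply clm_ext3'
    intro a k l
    simp
  have h2 : (assocT H H H).comp (opT 1 g) =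
      (opT (1 : H →L[ℂ] H) (opT (1 : H →L[ℂ] H) g)).comp (assocT H H H) := by
    apply clm_ext3
    intro a k l
    simp
  have h3 : (opT V (ContinuousLinearMap.id ℂ H)).comp (opT 1 g) =
      (opT 1 g).comp (opT V (ContinuousLinearMap.id ℂ H)) := by
    rw [opT_comp, opT_comp]
    rfl
  have e1 := congrArg (fun u => u z) h1
  have e2 := congrArg (fun u => u (opT V (ContinuousLinearMap.id ℂ H) (assocTs H H H z))) h2
  have e3 := congrArg (fun u => u (assocTs H H H z)) h3
  simp only [ContinuousLinearMap.comp_apply] at e1 e2 e3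
  simp only [leg12, ContinuousLinearMap.comp_apply]
  rw [e1, e3, e2]

private theorem lc_leg13 (V : HT H H →L[ℂ] HT H H) (g : H →L[ℂ] H) :
    leg13 H V * opT 1 (opT g 1) = opT 1 (opT g (1 : H →L[ℂ] H)) * leg13 H V := by
  have h1 : (opT (ContinuousLinearMap.id ℂ H) (flipT H H)).comp (opT 1 (opT g 1)) =
      (opT (1 : H →L[ℂ] H) (opT (1 : H →L[ℂ] H) g)).comp
        (opT (ContinuousLinearMap.id ℂ H) (flipT H H)) := by
    rw [opT_comp, opT_comp, flipT_opT]
    rfl
  have h2 : (opT (ContinuousLinearMap.id ℂ H) (flipT H H)).comp (opT 1 (opT 1 g)) =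
      (opT (1 : H →L[ℂ] H) (opT g (1 : H →L[ℂ] H))).comp
        (opT (ContinuousLinearMap.id ℂ H) (flipT H H)) := by
    rw [opT_comp, opT_comp, flipT_opT]
    rfl
  ext z
  have e1 := congrArg (fun u => u z) h1
  have e2 := congrArg (fun u => u (leg12 H V (opT (ContinuousLinearMap.id ℂ H) (flipT H H) z))) h2
  simp only [ContinuousLinearMap.comp_apply] at e1 e2
  simp only [leg13, mul_apply_eq_comp, ContinuousLinearMap.comp_apply]
  rw [e1, lc_leg12, e2]

private theorem lc_final {V X : HT H H →L[ℂ] HT H H}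
    (c2 : leg12 H V * leg23 H X = leg23 H X * leg12 H V) (α β : H) :
    X * opT (slice V α β) 1 = opT (slice V α β) 1 * X := by
  ext z
  apply ext_inner_left ℂ
  intro w
  rw [mul_apply_eq_comp, mul_apply_eq_comp, ← ContinuousLinearMap.adjoint_inner_left X,
    ← inner_leg12_tp, ← inner_leg12_tp]
  have e1 : tp β ((adjoint X) w) = adjoint (leg23 H X) (tp β w) := by
    rw [← ContinuousLinearMap.star_eq_adjoint (leg23 H X), star_leg23, leg23_tp,
      ContinuousLinearMap.star_eq_adjoint]
  have e2 : tp α (X z) = leg23 H X (tp α z) := (leg23_tp X α z).symm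
  rw [e1, e2, ContinuousLinearMap.adjoint_inner_left, ← mul_apply_eq_comp, ← mul_apply_eq_comp,
    c2]

/-- `V* (g ⊗ 1) V` commutes with `s ⊗ 1` for all slices `s`. -/
private theorem lc_key (W : MultUnitary H) {g : H →L[ℂ] H}
    (hg : ∀ α β, slice W.V α β * g = g * slice W.V α β) (α β : H) :
    (star W.V * opT g 1 * W.V) * opT (slice W.V α β) 1 =
      opT (slice W.V α β) 1 * (star W.V * opT g 1 * W.V) := by
  set X := star W.V * opT g 1 * W.V with hX
  have hV := Unitary.mem_iff.1 W.unitary
  -- `G` is `g` on the middle leg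
  set G : HT H (HT H H) →L[ℂ] HT H (HT H H) := opT 1 (opT g 1) with hG
  have c12 : leg12 H W.V * G = G * leg12 H W.V := by
    have e : G = leg12 H (opT 1 g) := (leg12_opT (1 : H →L[ℂ] H) g).symm
    rw [e, ← leg12_mul, ← leg12_mul, lc_comm hg]
  have c13 : leg13 H W.V * G = G * leg13 H W.V := lc_leg13 W.V g
  have u23 : leg23 H W.V * star (leg23 H W.V) = 1 := by
    rw [star_leg23, ← leg23_mul, hV.2, leg23_one]
  have u23' : star (leg23 H W.V) * leg23 H W.V = 1 := by
    rw [star_leg23, ← leg23_mul, hV.1, leg23_one]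
  have p1 : leg12 H W.V * leg13 H W.V = leg23 H W.V * leg12 H W.V * star (leg23 H W.V) := by
    rw [← W.pentagon, mul_assoc, u23, mul_one]
  have c1 : (leg23 H W.V * leg12 H W.V * star (leg23 H W.V)) * G =
      G * (leg23 H W.V * leg12 H W.V * star (leg23 H W.V)) := by
    rw [← p1, mul_assoc, c13, ← mul_assoc, c12, mul_assoc]
  have hX' : leg23 H X = star (leg23 H W.V) * G * leg23 H W.V := by
    have e : G = leg23 H (opT g 1) := rfl
    rw [hX, leg23_mul, leg23_mul, star_leg23, e]
  have c2 : leg12 H W.V * leg23 H X = leg23 H X * leg12 H W.V := by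
    rw [hX']
    calc leg12 H W.V * (star (leg23 H W.V) * G * leg23 H W.V)
        = star (leg23 H W.V) * ((leg23 H W.V * leg12 H W.V * star (leg23 H W.V)) * G) *
            leg23 H W.V := by
          rw [← mul_assoc (star (leg23 H W.V)), ← mul_assoc (star (leg23 H W.V)),
            ← mul_assoc (star (leg23 H W.V)), u23', one_mul]
          simp only [mul_assoc]
      _ = star (leg23 H W.V) * (G * (leg23 H W.V * leg12 H W.V * star (leg23 H W.V))) *
            leg23 H W.V := by rw [c1]
      _ = star (leg23 H W.V) * G * leg23 H W.V * leg12 H W.V := by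
          simp only [mul_assoc]
          rw [u23', mul_one]
  exact lc_final c2 α β

theorem slice_comul_mem (W : MultUnitary H) {y : H →L[ℂ] H} (hy : y ∈ Linf W) (ξ η : H) :
    slice (comul W y) ξ η ∈ Linf W := by
  unfold Linf at hy ⊢
  rw [StarSubalgebra.mem_centralizer_iff] at hy ⊢
  -- `g ⊗ 1` commutes with `V (y ⊗ 1) V*`
  have key : ∀ g ∈ (StarSubalgebra.centralizer ℂ
      (Set.range fun p : H × H => slice W.V p.1 p.2) : Set (H →L[ℂ] H)),
      g * slice (comul W y) ξ η = slice (comul W y) ξ η * g := by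
    intro g hg
    have hg' := (StarSubalgebra.mem_centralizer_iff ℂ).1 hg
    have h1 : ∀ α β, slice W.V α β * g = g * slice W.V α β := fun α β =>
      (hg' _ ⟨(α, β), rfl⟩).1
    have h2 : ∀ α β, slice W.V α β * star g = star g * slice W.V α β := fun α β => by
      have := congrArg star (hg' _ ⟨(α, β), rfl⟩).2
      simp only [StarMul.star_mul, star_star] at this
      exact this.symm
    have k1 := lc_key W h1
    have k2 := lc_key W h2
    set X := star W.V * opT g 1 * W.V with hX
    have hXs : star W.V * opT (star g) 1 * W.V = star X := by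
      rw [hX, lc_star_mul, lc_star_mul, lc_star_star, star_opT, lc_star_one, mul_assoc]
    have k3 : ∀ α β, X * opT (star (slice W.V α β)) 1 = opT (star (slice W.V α β)) 1 * X := by
      intro α β
      have := congrArg star (k2 α β)
      rw [hXs, lc_star_mul (star X) (opT (slice W.V α β) 1),
        lc_star_mul (opT (slice W.V α β) 1) (star X), lc_star_star X, star_opT,
        lc_star_one] at this
      exact this.symm
    -- the coefficients of `X` are in the first centralizer
    have hc : ∀ k l : H, coefOp X k l ∈ (StarSubalgebra.centralizer ℂ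
        (Set.range fun p : H × H => slice W.V p.1 p.2) : Set (H →L[ℂ] H)) := by
      intro k l
      refine (StarSubalgebra.mem_centralizer_iff ℂ).2 ?_
      rintro _ ⟨p, rfl⟩
      simp only
      rw [← lc_opT_mul, ← lc_opT_mul, ← lc_mul_opT, ← lc_mul_opT, k1, k3]
      exact ⟨rfl, rfl⟩
    have hXy : X * opT y 1 = opT y 1 * X := by
      apply lc_inj
      intro k l
      rw [lc_mul_opT, lc_opT_mul]
      exact (hy _ (hc k l)).1
    have hV := Unitary.mem_iff.1 W.unitary
    have e1 : opT g 1 * (W.V * opT y 1 * star W.V) = W.V * opT y 1 * star W.V * opT g 1 := by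
      have a1 : opT g 1 * W.V = W.V * X := by
        rw [hX, ← mul_assoc, ← mul_assoc, hV.2, one_mul]
      have a2 : star W.V * opT g 1 = X * star W.V := by
        rw [hX, mul_assoc, mul_assoc, hV.2, mul_one]
      rw [mul_assoc (W.V * opT y 1), a2, ← mul_assoc, ← mul_assoc, a1, mul_assoc W.V X, hXy]
      simp only [mul_assoc]
    rw [slice_comul, ← lc_opT_mul, e1, lc_mul_opT]
  intro g hg
  exact ⟨key g hg, key (star g) (star_mem (S := StarSubalgebra ℂ (H →L[ℂ] H)) hg)⟩

theorem slice_comul_add (W : MultUnitary H) (y y' : H →L[ℂ] H) (ξ η : H) :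
    slice (comul W (y + y')) ξ η = slice (comul W y) ξ η + slice (comul W y') ξ η := by
  rw [slice_comul, slice_comul, slice_comul, opT_add_left, mul_add, add_mul]
  ext α
  apply ext_inner_left ℂ
  intro β
  rw [inner_coefOp, add_apply, add_apply, inner_add_right, inner_add_right, inner_coefOp,
    inner_coefOp]

theorem slice_comul_smul (W : MultUnitary H) (c : ℂ) (y : H →L[ℂ] H) (ξ η : H) :
    slice (comul W (c • y)) ξ η = c • slice (comul W y) ξ η := by
  rw [slice_comul, slice_comul, opT_smul_left, mul_smul_comm, smul_mul_assoc]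
  ext α
  apply ext_inner_left ℂ
  intro β
  rw [inner_coefOp, smul_apply, smul_apply, inner_smul_right, inner_smul_right, inner_coefOp]

end QG753
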