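import Pool.Agent.Lib.QG753.RepBasic

/-!
# MP_753acd_an: almost invariant vectors

PROOF of `exists_almInv`. Negate `DualPropertyT`: `K`, `U` with unit vectors that are almost
invariant for all `(F, δ)`, and every fixed vector is `0`. Let `d` be a dense sequence in `H` and
`η n` the unit vector for `F = {d 0, .., d n}`, `δ = 1/(n+1)`. For `α` and `ε > 0` choose `m` with
`‖α - d m‖ < ε/4`; for `n ≥ m`,
`‖U (α ⊗ η n) - α ⊗ η n‖ ≤ 2 ‖α - d m‖ + 1/(n+1)`.
-/

open scoped TensorProduct ComplexOrder InnerProductSpace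
open ContinuousLinearMap Filter Topology

noncomputable section

namespace QG753

variable {H : Type} [NormedAddCommGroup H] [InnerProductSpace ℂ H] [CompleteSpace H]

/-- A representation without invariant vectors, with a sequence of almost invariant vectors. -/
structure AlmInv (W : MultUnitary H) where
  /-- the space -/
  K : Type
  [nacg : NormedAddCommGroup K]
  [ips : InnerProductSpace ℂ K]
  [cs : CompleteSpace K]
  /-- the representation -/
  U : URep W K
  /-- the vectors -/
  η : ℕ → K
  norm_eq : ∀ n, ‖η n‖ = 1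
  no_inv : ∀ k : K, (∀ α : H, U.U (tp α k) = tp α k) → k = 0
  tends : ∀ α : H, Tendsto (fun n => ‖U.U (tp α (η n)) - tp α (η n)‖) atTop (𝓝 0)

attribute [instance] AlmInv.nacg AlmInv.ips AlmInv.cs

theorem exists_almInv [TopologicalSpace.SeparableSpace H] {W : MultUnitary H}
    (h : ¬ DualPropertyT W) : Nonempty (AlmInv W) := by
  classical
  unfold DualPropertyT at h
  push Not at h
  obtain ⟨K, i1, i2, i3, U, hU, hfix⟩ := h
  have hex : ∀ n : ℕ, ∃ k : K, ‖k‖ = 1 ∧ ∀ i ≤ n,
      ‖U.U (tp (TopologicalSpace.denseSeq H i) k) - tp (TopologicalSpace.denseSeq H i) k‖ <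
        1 / ((n : ℝ) + 1) := by
    intro n
    obtain ⟨k, hk, hk2⟩ := hU ((Finset.range (n + 1)).image (TopologicalSpace.denseSeq H))
      (1 / ((n : ℝ) + 1)) (by positivity)
    exact ⟨k, hk, fun i hi => hk2 _ (Finset.mem_image_of_mem _
      (Finset.mem_range.2 (by omega)))⟩
  choose η hη hη2 using hex
  refine ⟨⟨K, U, η, hη, ?_, ?_⟩⟩
  · intro k hk
    by_contra hne
    obtain ⟨α, hα⟩ := hfix k hne
    exact hα (hk α)
  · intro α
    have hdec : ∀ (β : H) (n : ℕ), ‖U.U (tp α (η n)) - tp α (η n)‖ ≤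
        2 * ‖α - β‖ + ‖U.U (tp β (η n)) - tp β (η n)‖ := by
      intro β n
      have h1 : tp α (η n) = tp (α - β) (η n) + tp β (η n) := by
        rw [← tp_add_left, sub_add_cancel]
      have h2 : U.U (tp α (η n)) - tp α (η n) =
          (U.U (tp (α - β) (η n)) - tp (α - β) (η n)) + (U.U (tp β (η n)) - tp β (η n)) := by
        rw [h1, map_add]
        abel
      have h3 : ‖U.U (tp (α - β) (η n)) - tp (α - β) (η n)‖ ≤ 2 * ‖α - β‖ := by
        refine (norm_sub_le _ _).trans ?_
        rw [norm_unitary_apply U.unitary, norm_tp, hη n]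
        linarith
      rw [h2]
      exact (norm_add_le _ _).trans (by linarith)
    rw [Metric.tendsto_atTop]
    intro ε hε
    obtain ⟨m, hm⟩ := (TopologicalSpace.denseRange_denseSeq H).exists_dist_lt α
      (show 0 < ε / 4 by linarith)
    rw [dist_eq_norm] at hm
    obtain ⟨N, hN⟩ := exists_nat_gt (2 / ε)
    refine ⟨max m N, fun n hn => ?_⟩
    rw [Real.dist_eq, sub_zero, abs_of_nonneg (norm_nonneg _)]
    have h4 := hdec (TopologicalSpace.denseSeq H m) n
    have h5 := hη2 n m ((le_max_left _ _).trans hn)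
    have h6 : 1 / ((n : ℝ) + 1) < ε / 2 := by
      have h7 : (N : ℝ) ≤ n := by exact_mod_cast (le_max_right _ _).trans hn
      rw [div_lt_div_iff₀ (by positivity) (by norm_num)]
      rw [div_lt_iff₀ hε] at hN
      nlinarith
    linarith

end QG753
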