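import Pool.Agent.Lib.QG753.Inst
import Pool.Agent.Lib.QG753.NuSeq

/-!
# MP_753acd_an: the states of almost invariant vectors

PROOFS. `norm_coef_le`: `|⟪β, b α⟫| = |f (x α β)| ≤ ‖f‖ ‖α‖ ‖β‖`.

`tendsto_rOp_of`: with `b n = coef C (u n)`, `‖b n‖ ≤ 1`, `rOp C (u n) (x α β) = x α (b n* β)` and
`‖b n* β - β‖² ≤ 2 ‖β‖² - 2 Re ⟪β, b n β⟫ → 0`; so convergence holds on the span of the `x α β`,
which is dense, and `‖rOp C (u n)‖ ≤ 1`.

`vecF_x_tendsto`: `vecF π η η (x α α) = ⟪α ⊗ η, U (α ⊗ η)⟫` and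
`|⟪z, U z⟫ - ⟪z, z⟫| ≤ ‖z‖ ‖U z - z‖`.

`nu_L`: `ν ∘ rOp C f = f ∘ lOp C ν` (same coefficients: `conv_coef`, `conv_coef'`), and
`tendsto_L1_comp` with `S n = lOp C (ν n)`, `coef C (ν n) = coefOp U (η n) (η n)`
(`isCoef_vecF`, `IsCoef.unique`).
-/

open scoped TensorProduct ComplexOrder InnerProductSpace
open ContinuousLinearMap Filter Topology

noncomputable section

namespace QG753

variable {H : Type} [NormedAddCommGroup H] [InnerProductSpace ℂ H] [CompleteSpace H]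
  {W : MultUnitary H} {A : Type} [NonUnitalCStarAlgebra A]

theorem norm_coef_le (C : UniversalAlgebra W A) (f : A →L[ℂ] ℂ) : ‖coef C f‖ ≤ ‖f‖ := by
  apply ContinuousLinearMap.opNorm_le_bound _ (norm_nonneg _)
  intro α
  have h1 : ‖f (C.x α (coef C f α))‖ ≤ ‖f‖ * (‖α‖ * ‖coef C f α‖) :=
    (f.le_opNorm _).trans (mul_le_mul_of_nonneg_left (C.norm_x_le _ _) (norm_nonneg _))
  rw [isCoef_coef C f, inner_self_eq_norm_sq_to_K] at h1
  have h2 : ‖((‖coef C f α‖ : ℂ)) ^ 2‖ = ‖coef C f α‖ ^ 2 := by simp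
  have h3 : ‖coef C f α‖ ^ 2 ≤ ‖f‖ * (‖α‖ * ‖coef C f α‖) := by
    rw [← h2]; exact h1
  by_cases h0 : ‖coef C f α‖ = 0
  · rw [h0]; positivity
  · have : 0 < ‖coef C f α‖ := lt_of_le_of_ne (norm_nonneg _) (Ne.symm h0)
    nlinarith

private theorem nua_dense (C : UniversalAlgebra W A) {T : ℕ → (A →L[ℂ] A)}
    (hT : ∀ n, ‖T n‖ ≤ 1)
    (h : ∀ α β : H, Tendsto (fun n => T n (C.x α β)) atTop (𝓝 (C.x α β))) (a : A) :
    Tendsto (fun n => T n a) atTop (𝓝 a) := by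
  have hspan : ∀ g ∈ Submodule.span ℂ (Set.range fun p : H × H => C.x p.1 p.2),
      Tendsto (fun n => T n g) atTop (𝓝 g) := by
    intro g hg
    induction hg using Submodule.span_induction with
    | mem x hx =>
      obtain ⟨p, rfl⟩ := hx
      exact h _ _
    | zero => simp
    | add x y _ _ hx hy =>
      simp only [map_add]
      exact hx.add hy
    | smul c x _ hx =>
      simp only [map_smul]
      exact hx.const_smul c
  rw [Metric.tendsto_atTop]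
  intro ε hε
  obtain ⟨g, hg, hfg⟩ := Metric.mem_closure_iff.1 (C.dense a) (ε / 3) (by positivity)
  obtain ⟨N, hN⟩ := Metric.tendsto_atTop.1 (hspan g hg) (ε / 3) (by positivity)
  refine ⟨N, fun n hn => ?_⟩
  have h1 := hN n hn
  rw [dist_eq_norm] at hfg h1 ⊢
  have h2 : T n a - a = T n (a - g) + (T n g - g) - (a - g) := by
    rw [map_sub]; abel
  have h3 : ‖T n (a - g)‖ ≤ ‖a - g‖ := by
    refine ((T n).le_opNorm _).trans ?_
    exact mul_le_of_le_one_left (norm_nonneg _) (hT n)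
  calc ‖T n a - a‖ ≤ ‖T n (a - g) + (T n g - g)‖ + ‖a - g‖ := by
        rw [h2]; exact norm_sub_le _ _
    _ ≤ ‖T n (a - g)‖ + ‖T n g - g‖ + ‖a - g‖ := by
        gcongr; exact norm_add_le _ _
    _ < ε := by linarith

theorem tendsto_rOp_of (C : UniversalAlgebra W A) {u : ℕ → (A →L[ℂ] ℂ)}
    (hu : ∀ n, IsState (u n))
    (h : ∀ α : H, Tendsto (fun n => u n (C.x α α)) atTop (𝓝 ⟪α, α⟫_ℂ)) (a : A) :
    Tendsto (fun n => rOp C (u n) a) atTop (𝓝 a) := by
  refine nua_dense C (fun n => norm_rOp C (hu n)) ?_ a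
  intro α β
  have hb : ∀ n, ‖adjoint (coef C (u n)) β‖ ≤ ‖β‖ := by
    intro n
    refine ((adjoint (coef C (u n))).le_opNorm β).trans ?_
    rw [LinearIsometryEquiv.norm_map]
    exact mul_le_of_le_one_left (norm_nonneg _) ((norm_coef_le C _).trans (hu n).2.le)
  have hsq : ∀ n, ‖adjoint (coef C (u n)) β - β‖ ^ 2 ≤
      2 * (‖β‖ ^ 2 - (u n (C.x β β)).re) := by
    intro n
    have h1 := @norm_sub_sq ℂ _ _ _ _ (adjoint (coef C (u n)) β) β
    rw [ContinuousLinearMap.adjoint_inner_left, ← isCoef_coef C (u n)] at h1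
    have h2 : ‖adjoint (coef C (u n)) β‖ ^ 2 ≤ ‖β‖ ^ 2 :=
      pow_le_pow_left₀ (norm_nonneg _) (hb n) 2
    rw [h1]
    simp only [RCLike.re_to_complex]
    linarith
  have hlim : Tendsto (fun n => 2 * (‖β‖ ^ 2 - (u n (C.x β β)).re)) atTop (𝓝 0) := by
    have h1 := (Complex.continuous_re.tendsto _).comp (h β)
    have h2 : (⟪β, β⟫_ℂ).re = ‖β‖ ^ 2 := by
      rw [inner_self_eq_norm_sq_to_K]
      norm_cast
    rw [h2] at h1
    have h3 := (h1.const_sub (‖β‖ ^ 2)).const_mul 2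
    rw [sub_self, mul_zero] at h3
    exact h3
  have hlim2 : Tendsto (fun n => ‖adjoint (coef C (u n)) β - β‖ ^ 2) atTop (𝓝 0) :=
    squeeze_zero (fun n => by positivity) hsq hlim
  have hlim3 : Tendsto (fun n => ‖adjoint (coef C (u n)) β - β‖) atTop (𝓝 0) := by
    have h1 := hlim2.sqrt
    rw [Real.sqrt_zero] at h1
    exact h1.congr (fun n => Real.sqrt_sq (norm_nonneg _))
  rw [tendsto_iff_norm_sub_tendsto_zero]
  refine squeeze_zero (fun n => norm_nonneg _) (fun n => ?_)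
    (by simpa using hlim3.const_mul ‖α‖)
  rw [rOp_x C (hu n), ← map_sub]
  exact C.norm_x_le _ _

theorem vecF_x_tendsto (C : UniversalAlgebra W A) (R : AlmInv W)
    {π : A →⋆ₙₐ[ℂ] (R.K →L[ℂ] R.K)} (hx : ∀ α β, π (C.x α β) = slice R.U.U α β) (α : H) :
    Tendsto (fun n => vecF π (R.η n) (R.η n) (C.x α α)) atTop (𝓝 ⟪α, α⟫_ℂ) := by
  rw [tendsto_iff_norm_sub_tendsto_zero]
  refine squeeze_zero (fun n => norm_nonneg _) (fun n => ?_)
    (by simpa using (R.tends α).const_mul ‖α‖)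
  have h1 : ⟪α, α⟫_ℂ = ⟪tp α (R.η n), tp α (R.η n)⟫_ℂ := by
    rw [inner_tp, inner_self_eq_norm_sq_to_K (R.η n), R.norm_eq n]
    simp
  rw [vecF_apply, hx, inner_slice, h1, ← inner_sub_right]
  refine (norm_inner_le_norm _ _).trans ?_
  rw [norm_tp, R.norm_eq n, mul_one]

theorem nu_L (C : UniversalAlgebra W A) (R : AlmInv W)
    {π : A →⋆ₙₐ[ℂ] (R.K →L[ℂ] R.K)} (hπ : Nondeg π)
    (hx : ∀ α β, π (C.x α β) = slice R.U.U α β) {f : A →L[ℂ] ℂ} (hf : f ∈ L1 C)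
    (hs : IsState f) :
    Tendsto (fun n => ‖(vecF π (R.η n) (R.η n)).comp (rOp C f) - f‖) atTop (𝓝 0) := by
  have hst : ∀ n, IsState (vecF π (R.η n) (R.η n)) := fun n => isState_vecF hπ (R.norm_eq n)
  have h1 := tendsto_L1_comp C R.U (k := R.η) R.norm_eq R.tends
    (S := fun n => lOp C (vecF π (R.η n) (R.η n))) (fun n => norm_lOp C (hst n)) (by
      intro n α β
      rw [lOp_x C (hst n), (isCoef_coef C _).unique (isCoef_vecF hx (R.η n) (R.η n))]) hf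
  refine h1.congr (fun n => ?_)
  rw [(conv_coef' C (g := f) (hst n)).inj
    (conv_coef C (f := vecF π (R.η n) (R.η n)) hs)]

end QG753
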