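import Pool.Agent.Lib.QG753.LinfBasic

/-!
# MP_753acd_an: positivity of means

PROOF of `mean_re_ge`. Polarization: `m (star (1 + y) (1 + y))` and `m (star (1 + i y) (1 + i y))`
are real, so `m (star y) = conj (m y)`. Let `T = (y + y*)/2 - c`; `0 ≤ ⟪ζ, T ζ⟫` for all `ζ`, so
`T ≥ 0` and `T = r * r` with `r = cfc Real.sqrt T` self-adjoint, in `Linf W` by `cfc_mem_Linf`.
So `0 ≤ m T = Re (m y) - c`.
-/

open scoped TensorProduct ComplexOrder InnerProductSpace
open ContinuousLinearMap Filter Topology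

noncomputable section

namespace QG753

variable {H : Type} [NormedAddCommGroup H] [InnerProductSpace ℂ H] [CompleteSpace H]
  {W : MultUnitary H}

theorem mean_re_ge {m : Linf W →ₗ[ℂ] ℂ} (hpos : ∀ y, 0 ≤ m (star y * y)) (h1 : m 1 = 1)
    (y : Linf W) (c : ℝ)
    (h : ∀ ζ : H, ‖ζ‖ = 1 → c ≤ (⟪ζ, (y : H →L[ℂ] H) ζ⟫_ℂ).re) : c ≤ (m y).re := by
  have him : ∀ x, (m (star x * x)).im = 0 := fun x => (Complex.le_def.1 (hpos x)).2.symm
  have hstar : (m (star y)).re = (m y).re := by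
    have h2 := him (1 + Complex.I • y)
    have h3 : star (1 + Complex.I • y) * (1 + Complex.I • y) =
        1 + Complex.I • y - Complex.I • star y + star y * y := by
      rw [star_add, star_one, star_smul, add_mul, one_mul, mul_add, mul_one, smul_mul_smul_comm]
      simp only [RCLike.star_def, Complex.conj_I, neg_mul, Complex.I_mul_I, neg_neg, one_smul,
        neg_smul]
      abel
    rw [h3, map_add, map_sub, map_add, map_smul, map_smul, h1] at h2
    simp only [Complex.add_im, Complex.sub_im, Complex.one_im, smul_eq_mul, Complex.I_mul_im,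
      him y] at h2
    linarith
  set T : Linf W := y + star y - (2 * c : ℂ) • 1 with hT
  have hTs : IsSelfAdjoint (T : H →L[ℂ] H) := by
    have h2 : star T = T := by
      rw [hT, star_sub, star_add, star_star, star_smul, star_one]
      congr 1
      · abel
      · congr 1
        simp
    exact congrArg Subtype.val h2
  have hT0 : (0 : H →L[ℂ] H) ≤ (T : H →L[ℂ] H) := by
    rw [ContinuousLinearMap.nonneg_iff_isPositive,
      ContinuousLinearMap.isPositive_iff_complex]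
    intro ζ
    have hval : (T : H →L[ℂ] H) = (y : H →L[ℂ] H) + adjoint (y : H →L[ℂ] H) -
        (2 * c : ℂ) • 1 := rfl
    have hsym : ((⟪(T : H →L[ℂ] H) ζ, ζ⟫_ℂ).re : ℂ) = ⟪(T : H →L[ℂ] H) ζ, ζ⟫_ℂ := by
      have h4 : (starRingEnd ℂ) ⟪(T : H →L[ℂ] H) ζ, ζ⟫_ℂ = ⟪(T : H →L[ℂ] H) ζ, ζ⟫_ℂ := by
        rw [inner_conj_symm]
        conv_rhs => rw [← hTs.star_eq, ContinuousLinearMap.star_eq_adjoint,
          ContinuousLinearMap.adjoint_inner_left]
      exact (Complex.conj_eq_iff_re.1 h4)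
    refine ⟨hsym, ?_⟩
    have hre : (⟪(T : H →L[ℂ] H) ζ, ζ⟫_ℂ).re =
        2 * (⟪ζ, (y : H →L[ℂ] H) ζ⟫_ℂ).re - 2 * c * ‖ζ‖ ^ 2 := by
      rw [hval]
      simp only [ContinuousLinearMap.sub_apply, ContinuousLinearMap.add_apply,
        ContinuousLinearMap.smul_apply, ContinuousLinearMap.one_apply, inner_sub_left,
        inner_add_left, ContinuousLinearMap.adjoint_inner_left, inner_smul_left]
      have h5 : (⟪(y : H →L[ℂ] H) ζ, ζ⟫_ℂ).re = (⟪ζ, (y : H →L[ℂ] H) ζ⟫_ℂ).re := by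
        rw [← inner_conj_symm, Complex.conj_re]
      have h6 : ⟪ζ, ζ⟫_ℂ = ((‖ζ‖ ^ 2 : ℝ) : ℂ) := by
        rw [inner_self_eq_norm_sq_to_K]; simp
      rw [h6]
      simp only [Complex.sub_re, Complex.add_re, h5, map_mul, Complex.conj_ofReal,
        map_ofNat]
      rw [← Complex.ofReal_ofNat, ← Complex.ofReal_mul, ← Complex.ofReal_mul, Complex.ofReal_re]
      ring
    change 0 ≤ (⟪(T : H →L[ℂ] H) ζ, ζ⟫_ℂ).re
    rw [hre]
    by_cases hζ : ζ = 0
    · subst hζ; simp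
    have hn : 0 < ‖ζ‖ := norm_pos_iff.2 hζ
    have h7 := h ((‖ζ‖⁻¹ : ℂ) • ζ) (by
      rw [norm_smul]
      simp only [norm_inv, Complex.norm_real, norm_norm]
      exact inv_mul_cancel₀ hn.ne')
    have h8 : (⟪(‖ζ‖⁻¹ : ℂ) • ζ, (y : H →L[ℂ] H) ((‖ζ‖⁻¹ : ℂ) • ζ)⟫_ℂ).re =
        ‖ζ‖⁻¹ ^ 2 * (⟪ζ, (y : H →L[ℂ] H) ζ⟫_ℂ).re := by
      rw [map_smul, inner_smul_left, inner_smul_right]
      rw [map_inv₀, Complex.conj_ofReal, ← Complex.ofReal_inv, ← mul_assoc,
        ← Complex.ofReal_mul, Complex.re_ofReal_mul]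
      ring
    rw [h8] at h7
    have h9 : c * ‖ζ‖ ^ 2 ≤ (⟪ζ, (y : H →L[ℂ] H) ζ⟫_ℂ).re := by
      have h10 := mul_le_mul_of_nonneg_left h7 (sq_nonneg ‖ζ‖)
      have h11 : ‖ζ‖ ^ 2 * (‖ζ‖⁻¹ ^ 2 * (⟪ζ, (y : H →L[ℂ] H) ζ⟫_ℂ).re) =
          (⟪ζ, (y : H →L[ℂ] H) ζ⟫_ℂ).re := by
        field_simp
      rw [h11] at h10
      linarith
    linarith
  have hspec : ∀ x ∈ spectrum ℝ (T : H →L[ℂ] H), 0 ≤ x := fun x hx =>
    spectrum_nonneg_of_nonneg hT0 hx
  set r : H →L[ℂ] H := cfc Real.sqrt (T : H →L[ℂ] H) with hr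
  have hrr : r * r = (T : H →L[ℂ] H) := by
    rw [hr, ← cfc_mul Real.sqrt Real.sqrt (T : H →L[ℂ] H)]
    conv_rhs => rw [← cfc_id' ℝ (T : H →L[ℂ] H) hTs]
    refine cfc_congr fun x hx => ?_
    exact Real.mul_self_sqrt (hspec x hx)
  have hrs : star r = r := (cfc_predicate (R := ℝ) Real.sqrt (T : H →L[ℂ] H) :
    IsSelfAdjoint _).star_eq
  have hmem : r ∈ Linf W := cfc_mem_Linf T.2 hTs Real.sqrt
  have h12 := hpos ⟨r, hmem⟩
  have h13 : star (⟨r, hmem⟩ : Linf W) * ⟨r, hmem⟩ = T := by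
    apply Subtype.ext
    change star r * r = _
    rw [hrs, hrr]
  rw [h13, hT, map_sub, map_add, map_smul, h1] at h12
  have h14 := (Complex.le_def.1 h12).1
  simp only [Complex.zero_re, Complex.sub_re, Complex.add_re, hstar, smul_eq_mul, mul_one,
    Complex.mul_re, Complex.re_ofNat, Complex.ofReal_re, Complex.im_ofNat, Complex.ofReal_im,
    mul_zero, sub_zero] at h14
  linarith

end QG753
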