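import Pool.Agent.Lib.QG753.ReiterA
import Pool.Agent.Lib.QG753.MeanPos

/-!
# MP_753acd_an: Reiter's condition

PROOF of `reiter`. In the real Banach space `E = F → (A →L[ℂ] ℂ)` (sup norm, `F` as a finite type)
the set `D` of the families `(f ∘ rOp g - g)_f = (g ∘ lOp f - g)_f` (`conv_coef`, `conv_coef'`),
`g` an `L¹`-state, is convex. If no such family has norm `≤ δ`, then `D` is disjoint from the
open ball of radius `δ`, and `RCLike.geometric_hahn_banach_open` (or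
`geometric_hahn_banach_open` for real functionals, and complexification) gives a continuous
`ℂ`-linear `Ψ` on `E` and `u > 0` with `Re Ψ ≥ u` on `D`. Put `Φ f φ = Ψ (Pi.single f φ)`, so
`Ψ = Σ_f Φ f ∘ proj f`, and let `y f ∈ L^∞` represent `Φ f` (`exists_opOf`). Take `ε > 0` with
`ε Σ ‖Φ f‖ ≤ u/3`, `ε Σ ‖m (y f)‖ ≤ u/3`, and `Y f` from `exists_Y`, and `X = Σ_f (Y f - y f)`. For
unit vectors `ζ`, with `g = vecF Λ ζ ζ`:
`Re ⟪ζ, X ζ⟫ ≥ Re Ψ ((f ∘ rOp g - g)_f) - u/3 ≥ u/2`, so `Re (m X) ≥ u/2` by `mean_re_ge`; but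
`‖m X‖ ≤ u/3`.
-/

open scoped TensorProduct ComplexOrder InnerProductSpace
open ContinuousLinearMap Filter Topology

noncomputable section

namespace QG753

variable {H : Type} [NormedAddCommGroup H] [InnerProductSpace ℂ H] [CompleteSpace H]
  {W : MultUnitary H} {A : Type} [NonUnitalCStarAlgebra A]

private theorem conv_eq (C : UniversalAlgebra W A) {f g : A →L[ℂ] ℂ} (hf : IsState f)
    (hg : IsState g) : f.comp (rOp C g) = g.comp (lOp C f) :=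
  (conv_coef C (f := f) hg).inj (conv_coef' C (g := g) hf)

theorem reiter (C : UniversalAlgebra W A) (hA : Amenable W) (F : Finset (A →L[ℂ] ℂ))
    (hF : ∀ f ∈ F, f ∈ L1 C ∧ IsState f) {δ : ℝ} (hδ : 0 < δ) :
    ∃ g : A →L[ℂ] ℂ, (g ∈ L1 C ∧ IsState g) ∧ ∀ f ∈ F, ‖f.comp (rOp C g) - g‖ ≤ δ := by
  classical
  by_contra hcon
  push Not at hcon
  obtain ⟨m, hpos, hm1, hinv⟩ := hA
  let L : Set (A →L[ℂ] ℂ) := {g | g ∈ L1 C ∧ IsState g}
  let dd : (A →L[ℂ] ℂ) → (F → (A →L[ℂ] ℂ)) := fun g f => f.1.comp (rOp C g) - g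
  let D : Set (F → (A →L[ℂ] ℂ)) := dd '' L
  have hL : ∀ g ∈ L, ∀ g' ∈ L, ∀ s t : ℝ, 0 ≤ s → 0 ≤ t → s + t = 1 → s • g + t • g' ∈ L := by
    intro g hg g' hg' s t hs ht hst
    refine ⟨?_, convex_state hg.2 hg'.2 hs ht hst⟩
    have key : ∀ (r : ℝ) (h : A →L[ℂ] ℂ), h ∈ L1 C → r • h ∈ L1 C := by
      intro r h hh
      have h1 : r • h = (r : ℂ) • h := by
        ext a; simp
      rw [h1]; exact Submodule.smul_mem _ _ hh
    exact Submodule.add_mem _ (key s g hg.1) (key t g' hg'.1)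
  have hdd : ∀ g ∈ L, ∀ f : F, dd g f = g.comp (lOp C f.1) - g := by
    intro g hg f
    show f.1.comp (rOp C g) - g = g.comp (lOp C f.1) - g
    rw [conv_eq C (hF f.1 f.2).2 hg.2]
  have hDconv : Convex ℝ D := by
    rintro _ ⟨g, hg, rfl⟩ _ ⟨g', hg', rfl⟩ s t hs ht hst
    refine ⟨s • g + t • g', hL g hg g' hg' s t hs ht hst, ?_⟩
    funext f
    rw [hdd _ (hL g hg g' hg' s t hs ht hst)]
    show (s • g + t • g').comp (lOp C f.1) - (s • g + t • g') = s • dd g f + t • dd g' f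
    rw [hdd g hg, hdd g' hg']
    ext a
    simp
    ring
  have hdisj : Disjoint (Metric.ball (0 : F → (A →L[ℂ] ℂ)) δ) D := by
    rw [Set.disjoint_left]
    rintro _ hx ⟨g, hg, rfl⟩
    rw [mem_ball_zero_iff, pi_norm_lt_iff hδ] at hx
    obtain ⟨f, hf, h1⟩ := hcon g hg
    exact absurd (hx ⟨f, hf⟩) (not_lt.2 h1.le)
  obtain ⟨Ψ, u, hΨ1, hΨ2⟩ := RCLike.geometric_hahn_banach_open (𝕜 := ℂ)
    (convex_ball (0 : F → (A →L[ℂ] ℂ)) δ) Metric.isOpen_ball hDconv hdisj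
  have hu : 0 < u := by
    have h1 := hΨ1 0 (Metric.mem_ball_self hδ)
    simpa using h1
  let Φ : F → ((A →L[ℂ] ℂ) →L[ℂ] ℂ) := fun f =>
    Ψ.comp (ContinuousLinearMap.single ℂ (fun _ : F => (A →L[ℂ] ℂ)) f)
  have hΨsum : ∀ x : F → (A →L[ℂ] ℂ), Ψ x = ∑ f, Φ f (x f) := by
    intro x
    have h1 : x = ∑ f, Pi.single f (x f) := (Finset.univ_sum_single x).symm
    conv_lhs => rw [h1]
    rw [map_sum]
    rfl
  choose y hyL hyR using fun f : F => exists_opOf C (Φ f)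
  let yy : F → Linf W := fun f => ⟨y f, hyL f⟩
  set S1 : ℝ := ∑ f, ‖Φ f‖ with hS1
  set S2 : ℝ := ∑ f, ‖m (yy f)‖ with hS2
  have hS10 : 0 ≤ S1 := Finset.sum_nonneg fun f _ => ContinuousLinearMap.opNorm_nonneg (Φ f)
  have hS20 : 0 ≤ S2 := Finset.sum_nonneg fun _ _ => norm_nonneg _
  set ε : ℝ := u / (3 * (S1 + S2 + 1)) with hε
  have hεpos : 0 < ε := by positivity
  have hε1 : ε * S1 ≤ u / 3 := by
    rw [hε, div_mul_eq_mul_div, div_le_div_iff₀ (by positivity) (by norm_num)]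
    nlinarith [mul_nonneg hu.le hS20, mul_nonneg hu.le hS10]
  have hε2 : ε * S2 ≤ u / 3 := by
    rw [hε, div_mul_eq_mul_div, div_le_div_iff₀ (by positivity) (by norm_num)]
    nlinarith [mul_nonneg hu.le hS20, mul_nonneg hu.le hS10]
  choose Y hY1 hY2 using fun f : F =>
    exists_Y C (m := m) hinv (yy f) (hyR f) (hF f.1 f.2).1 (hF f.1 f.2).2 hεpos
  set X : Linf W := ∑ f, (Y f - yy f) with hX
  have hXre : ∀ ζ : H, ‖ζ‖ = 1 → 2 * u / 3 ≤ (⟪ζ, (X : H →L[ℂ] H) ζ⟫_ℂ).re := by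
    intro ζ hζ
    set g : A →L[ℂ] ℂ := vecF (reduce C) ζ ζ with hg
    have hgL : g ∈ L := ⟨vecF_mem_L1 C ζ ζ, isState_vecF (nondeg_reduce C) hζ⟩
    have h1 : (⟪ζ, (X : H →L[ℂ] H) ζ⟫_ℂ) =
        ∑ f, (⟪ζ, (Y f : H →L[ℂ] H) ζ⟫_ℂ - ⟪ζ, y f ζ⟫_ℂ) := by
      rw [hX]
      have h2 : ((∑ f, (Y f - yy f) : Linf W) : H →L[ℂ] H) =
          ∑ f, ((Y f : H →L[ℂ] H) - y f) := by
        rw [AddSubmonoidClass.coe_finset_sum]
        rfl
      rw [h2, ContinuousLinearMap.sum_apply, inner_sum]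
      refine Finset.sum_congr rfl fun f _ => ?_
      rw [ContinuousLinearMap.sub_apply, inner_sub_right]
    have h2 := hΨ2 (dd g) ⟨g, hgL, rfl⟩
    rw [hΨsum] at h2
    have h3 : ∀ f : F, Φ f (dd g f) = Φ f (f.1.comp (rOp C g)) - ⟪ζ, y f ζ⟫_ℂ := by
      intro f
      show Φ f (f.1.comp (rOp C g) - g) = _
      rw [map_sub, (hyR f).1 ζ ζ]
    have h4 : ∀ f : F, (Φ f (dd g f)).re - ε * ‖Φ f‖ ≤
        (⟪ζ, (Y f : H →L[ℂ] H) ζ⟫_ℂ - ⟪ζ, y f ζ⟫_ℂ).re := by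
      intro f
      rw [h3, Complex.sub_re, Complex.sub_re]
      have h5 := hY2 f ζ hζ
      have h6 := Complex.re_le_norm (Φ f (f.1.comp (rOp C g)) - ⟪ζ, (Y f : H →L[ℂ] H) ζ⟫_ℂ)
      rw [Complex.sub_re] at h6
      linarith
    rw [h1, Complex.re_sum]
    have h5 : ∑ f : F, ((Φ f (dd g f)).re - ε * ‖Φ f‖) ≤
        ∑ f : F, (⟪ζ, (Y f : H →L[ℂ] H) ζ⟫_ℂ - ⟪ζ, y f ζ⟫_ℂ).re :=
      Finset.sum_le_sum fun f _ => h4 f
    rw [Finset.sum_sub_distrib, ← Finset.mul_sum] at h5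
    have h6 : u ≤ ∑ f : F, (Φ f (dd g f)).re := by
      rw [← Complex.re_sum]
      exact h2
    linarith
  have h1 := mean_re_ge hpos hm1 X (2 * u / 3) hXre
  have h2 : ‖m X‖ ≤ u / 3 := by
    rw [hX, map_sum]
    refine (norm_sum_le _ _).trans ?_
    have h3 : ∑ f : F, ‖m (Y f - yy f)‖ ≤ ∑ f : F, ε * ‖m (yy f)‖ := by
      refine Finset.sum_le_sum fun f _ => ?_
      rw [map_sub]
      exact hY1 f
    rw [← Finset.mul_sum] at h3
    linarith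
  have h3 := Complex.re_le_norm (m X)
  linarith

end QG753
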