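import Pool.Agent.Lib.QG753.Inst

/-!
# MP_753acd_an: separability

PROOFS. `(ξ, η) ↦ vecF Λ ξ η` is continuous on `H × H`, so its range is separable
(`TopologicalSpace.isSeparable_range`), hence so is the closed span `L1 C` (`L1_eq`,
`TopologicalSpace.IsSeparable.span`, `.closure`), and the subset of the states in it:
`IsSeparable.exists_countable_dense_subset`; it is not empty (`exists_L`). In the same way
`(α, β) ↦ x α β` is continuous (`norm_x_le`), its span is dense in `A`.
-/

open scoped TensorProduct ComplexOrder InnerProductSpace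
open ContinuousLinearMap Filter Topology

noncomputable section

namespace QG753

variable {H : Type} [NormedAddCommGroup H] [InnerProductSpace ℂ H] [CompleteSpace H]
  [TopologicalSpace.SeparableSpace H]
  {W : MultUnitary H} {A : Type} [NonUnitalCStarAlgebra A]

omit [TopologicalSpace.SeparableSpace H] in
private theorem sep_vecF_sub (C : UniversalAlgebra W A) (p q : H × H) :
    vecF (reduce C) p.1 p.2 - vecF (reduce C) q.1 q.2 =
      vecF (reduce C) (p.1 - q.1) p.2 + vecF (reduce C) q.1 (p.2 - q.2) := by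
  ext a
  change ⟪p.2, reduce C a p.1⟫_ℂ - ⟪q.2, reduce C a q.1⟫_ℂ =
    ⟪p.2, reduce C a (p.1 - q.1)⟫_ℂ + ⟪p.2 - q.2, reduce C a q.1⟫_ℂ
  rw [map_sub, inner_sub_right, inner_sub_left]
  ring

omit [TopologicalSpace.SeparableSpace H] in
private theorem sep_cont (C : UniversalAlgebra W A) :
    Continuous fun p : H × H => vecF (reduce C) p.1 p.2 := by
  rw [continuous_iff_continuousAt]
  intro q
  unfold ContinuousAt
  rw [tendsto_iff_norm_sub_tendsto_zero]
  have h1 : Tendsto (fun p : H × H => ‖p.1 - q.1‖ * ‖p.2‖ + ‖q.1‖ * ‖p.2 - q.2‖) (𝓝 q)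
      (𝓝 0) := by
    have h2 : Continuous fun p : H × H => ‖p.1 - q.1‖ * ‖p.2‖ + ‖q.1‖ * ‖p.2 - q.2‖ := by
      fun_prop
    have h3 := h2.tendsto q
    simpa using h3
  refine squeeze_zero (fun _ => norm_nonneg _) (fun p => ?_) h1
  rw [sep_vecF_sub]
  exact (norm_add_le _ _).trans (add_le_add (norm_vecF_le _ _ _) (norm_vecF_le _ _ _))

theorem exists_dense_L (C : UniversalAlgebra W A) : ∃ g : ℕ → (A →L[ℂ] ℂ),
    (∀ j, g j ∈ L1 C ∧ IsState (g j)) ∧
      {f | f ∈ L1 C ∧ IsState f} ⊆ closure (Set.range g) := by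
  have h1 : TopologicalSpace.IsSeparable (L1 C : Set (A →L[ℂ] ℂ)) := by
    rw [L1_eq]
    exact ((TopologicalSpace.isSeparable_range (sep_cont C)).span (R := ℂ)).closure
  have h2 : TopologicalSpace.IsSeparable {f | f ∈ L1 C ∧ IsState f} :=
    h1.mono fun f hf => hf.1
  obtain ⟨t, hts, htc, hst⟩ := h2.exists_countable_dense_subset
  obtain ⟨f0, hf0, hf1⟩ := exists_L C
  have hne : t.Nonempty := by
    by_contra hcon
    rw [Set.not_nonempty_iff_eq_empty] at hcon
    have h3 := hst (show f0 ∈ {f | f ∈ L1 C ∧ IsState f} from ⟨hf0, hf1⟩)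
    rw [hcon, closure_empty] at h3
    exact h3
  obtain ⟨g, hg⟩ := htc.exists_eq_range hne
  refine ⟨g, fun j => hts (hg ▸ Set.mem_range_self j), ?_⟩
  rw [← hg]
  exact hst

omit [TopologicalSpace.SeparableSpace H] in
private theorem sep_contx (C : UniversalAlgebra W A) :
    Continuous fun p : H × H => C.x p.1 p.2 := by
  rw [continuous_iff_continuousAt]
  intro q
  unfold ContinuousAt
  rw [tendsto_iff_norm_sub_tendsto_zero]
  have h1 : Tendsto (fun p : H × H => ‖p.1 - q.1‖ * ‖p.2‖ + ‖q.1‖ * ‖p.2 - q.2‖) (𝓝 q)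
      (𝓝 0) := by
    have h2 : Continuous fun p : H × H => ‖p.1 - q.1‖ * ‖p.2‖ + ‖q.1‖ * ‖p.2 - q.2‖ := by
      fun_prop
    have h3 := h2.tendsto q
    simpa using h3
  refine squeeze_zero (fun _ => norm_nonneg _) (fun p => ?_) h1
  have e : C.x p.1 p.2 - C.x q.1 q.2 = C.x (p.1 - q.1) p.2 + C.x q.1 (p.2 - q.2) := by
    rw [map_sub, map_sub, LinearMap.sub_apply]
    abel
  rw [e]
  exact (norm_add_le _ _).trans (add_le_add (C.norm_x_le _ _) (C.norm_x_le _ _))

theorem exists_dense_A (C : UniversalAlgebra W A) : ∃ a : ℕ → A, DenseRange a := by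
  have h1 : TopologicalSpace.IsSeparable (Set.univ : Set A) := by
    have h2 := ((TopologicalSpace.isSeparable_range (sep_contx C)).span (R := ℂ)).closure
    rwa [C.dense.closure_eq] at h2
  have h3 : TopologicalSpace.SeparableSpace A := TopologicalSpace.isSeparable_univ_iff.1 h1
  exact TopologicalSpace.exists_dense_seq A

end QG753
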