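import Pool.Agent.Lib.QG753.GNS

/-!
# MP_753acd_an: splitting off the invariant vectors

PROOFS. `exists_restrict`: `ρ a = ι* (π a) ι`, `ι` the inclusion of `N` (`N.subtypeL`; or
`LinearMap.restrict` with the bound); multiplicative and `*`-preserving because `N` is invariant
under `π a` and `π (star a)`; nondegenerate by `exists_approx`: `π e k → k` for `k ∈ N`.

`exists_part`: let `(R₀, k)` be the GNS representation of `f`, `I` the closed subspace of the `v`
with `π a v = e a • v` for all `a`. `N = Iᗮ` is invariant (for `v ∈ N`, `i ∈ I`: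
`⟪i, π a v⟫ = ⟪π (star a) i, v⟫ = 0`), let `R` be the restriction to `N`, and `q` the orthogonal
projection of `k` on `N`, `k = p + q`, `p ∈ I`. An invariant vector of `R` lies in `I ∩ Iᗮ = 0`, and
`f a = ⟪p + q, e a p + π a q⟫ = ‖p‖² e a + ⟪q, π a q⟫`, `‖p‖² = 1 - ‖q‖²`.
-/

open scoped TensorProduct ComplexOrder InnerProductSpace
open ContinuousLinearMap Filter Topology

noncomputable section

namespace QG753

variable {A : Type} [NonUnitalCStarAlgebra A]
  {K : Type} [NormedAddCommGroup K] [InnerProductSpace ℂ K] [CompleteSpace K]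

theorem exists_restrict (π : A →⋆ₙₐ[ℂ] (K →L[ℂ] K)) (hπ : Nondeg π) (N : Submodule ℂ K)
    [CompleteSpace N] (hN : ∀ a, ∀ k ∈ N, π a k ∈ N) :
    ∃ ρ : A →⋆ₙₐ[ℂ] (N →L[ℂ] N), Nondeg ρ ∧ ∀ a (k : N), ((ρ a k : N) : K) = π a (k : K) := by
  set r : A → (N →L[ℂ] N) := fun a =>
    ((π a).comp N.subtypeL).codRestrict N (fun k => hN a k k.2) with hr
  have hr_apply : ∀ a (k : N), ((r a k : N) : K) = π a (k : K) := fun a k => rfl
  have hr_smul : ∀ (c : ℂ) a, r (c • a) = c • r a := by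
    intro c a; ext k
    rw [hr_apply, map_smul]; rfl
  have hr_zero : r 0 = 0 := by
    ext k; rw [hr_apply, map_zero]; rfl
  have hr_add : ∀ a b, r (a + b) = r a + r b := by
    intro a b; ext k
    rw [hr_apply, map_add]; rfl
  have hr_mul : ∀ a b, r (a * b) = r a * r b := by
    intro a b; ext k
    rw [hr_apply, map_mul]; rfl
  have hr_star : ∀ a, r (star a) = star (r a) := by
    intro a
    rw [ContinuousLinearMap.star_eq_adjoint, ContinuousLinearMap.eq_adjoint_iff]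
    intro x y
    rw [Submodule.coe_inner, Submodule.coe_inner, hr_apply, hr_apply, map_star,
      ContinuousLinearMap.star_eq_adjoint, ContinuousLinearMap.adjoint_inner_left]
  set ρ : A →⋆ₙₐ[ℂ] (N →L[ℂ] N) :=
    { toFun := r
      map_smul' := hr_smul
      map_zero' := hr_zero
      map_add' := hr_add
      map_mul' := hr_mul
      map_star' := hr_star } with hρ
  refine ⟨ρ, ?_, hr_apply⟩
  obtain ⟨l, hl, h1, h2, h3⟩ := exists_approx A
  intro k
  have h4 : Tendsto (fun e => ρ e k) l (𝓝 k) := by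
    rw [tendsto_subtype_rng]
    exact h3 K π hπ (k : K)
  refine mem_closure_of_tendsto h4 (Eventually.of_forall fun e => ?_)
  exact Submodule.subset_span ⟨(e, k), rfl⟩

theorem exists_part {e : A →L[ℂ] ℂ} (hm : ∀ a b, e (a * b) = e a * e b)
    (hs : ∀ a, e (star a) = star (e a)) {f : A →L[ℂ] ℂ} (hf : IsState f) :
    ∃ (R : HRep A) (q : R.K), ‖q‖ ≤ 1 ∧ (∀ k : R.K, (∀ a, R.π a k = e a • k) → k = 0) ∧
      ∀ a, f a = ((1 - ‖q‖ ^ 2 : ℝ) : ℂ) * e a + ⟪q, R.π a q⟫_ℂ := by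
  obtain ⟨R₀, k, hk, rfl⟩ := exists_gns hf
  set I : Submodule ℂ R₀.K :=
    { carrier := {v | ∀ a, R₀.π a v = e a • v}
      add_mem' := fun {u v} hu hv a => by rw [map_add, hu a, hv a, smul_add]
      zero_mem' := fun a => by rw [map_zero, smul_zero]
      smul_mem' := fun c v hv a => by rw [map_smul, hv a, smul_comm] } with hI
  have hIc : IsClosed (I : Set R₀.K) := by
    have h1 : (I : Set R₀.K) = ⋂ a : A, {v | R₀.π a v = e a • v} := by
      ext v; simp [hI]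
    rw [h1]
    refine isClosed_iInter fun a => isClosed_eq (R₀.π a).continuous ?_
    exact continuous_const_smul _
  have _ : CompleteSpace I := hIc.completeSpace_coe
  have hIinv : ∀ a, ∀ v ∈ Iᗮ, R₀.π a v ∈ Iᗮ := by
    intro a v hv
    rw [Submodule.mem_orthogonal] at hv ⊢
    intro u hu
    have h1 : ⟪u, R₀.π a v⟫_ℂ = ⟪R₀.π (star a) u, v⟫_ℂ := by
      rw [map_star, ContinuousLinearMap.star_eq_adjoint, ContinuousLinearMap.adjoint_inner_left]
    rw [h1, hu (star a), inner_smul_left, hv u hu, mul_zero]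
  obtain ⟨ρ, hρ, hρa⟩ := exists_restrict R₀.π R₀.nd Iᗮ hIinv
  obtain ⟨p, hp, q, hq, hpq⟩ := I.exists_add_mem_mem_orthogonal k
  have hnorm : ‖k‖ ^ 2 = ‖p‖ ^ 2 + ‖q‖ ^ 2 := by
    have h1 := norm_add_sq_eq_norm_sq_add_norm_sq_of_inner_eq_zero p q
      ((Submodule.mem_orthogonal I q).1 hq p hp)
    rw [hpq]
    nlinarith [h1]
  rw [hk] at hnorm
  refine ⟨{ K := Iᗮ, π := ρ, nd := hρ }, ⟨q, hq⟩, ?_, ?_, ?_⟩
  · change ‖q‖ ≤ 1
    nlinarith [norm_nonneg q, sq_nonneg ‖p‖]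
  · intro v hv
    have h1 : (v : R₀.K) ∈ I := by
      intro a
      rw [← hρa a v, hv a]; rfl
    have h2 : (v : R₀.K) ∈ Iᗮ := v.2
    have h3 : ⟪(v : R₀.K), (v : R₀.K)⟫_ℂ = 0 := (Submodule.mem_orthogonal I _).1 h2 _ h1
    exact Subtype.ext (inner_self_eq_zero.1 h3)
  · intro a
    have h1 : ⟪(⟨q, hq⟩ : Iᗮ), ρ a ⟨q, hq⟩⟫_ℂ = ⟪q, R₀.π a q⟫_ℂ := by
      rw [Submodule.coe_inner, hρa]
    change vecF R₀.π k k a = ((1 - ‖q‖ ^ 2 : ℝ) : ℂ) * e a + ⟪(⟨q, hq⟩ : Iᗮ), ρ a ⟨q, hq⟩⟫_ℂ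
    rw [h1, vecF_apply, hpq, map_add, hp a, inner_add_left, inner_add_right, inner_add_right]
    have h2 : ⟪p, R₀.π a q⟫_ℂ = 0 :=
      (Submodule.mem_orthogonal I _).1 (hIinv a q hq) p hp
    have h3 : ⟪q, e a • p⟫_ℂ = 0 := by
      rw [inner_smul_right, ← inner_conj_symm, (Submodule.mem_orthogonal I q).1 hq p hp]
      simp
    have h4 : ⟪p, e a • p⟫_ℂ = e a * ((‖p‖ ^ 2 : ℝ) : ℂ) := by
      rw [inner_smul_right, inner_self_eq_norm_sq_to_K]; simp
    rw [h2, h3, h4]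
    have h5 : ‖p‖ ^ 2 = 1 - ‖q‖ ^ 2 := by nlinarith
    rw [h5]
    ring

end QG753
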