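import Pool.Agent.Lib.QG753.Inst
import Pool.Agent.Lib.QG753.PartRep
import Pool.Agent.Lib.QG753.DirectSum

/-!
# MP_753acd_an: property (T) and norm continuity

PROOFS. `norm_tendsto_of_T`: otherwise there are `c > 0` and infinitely many `n` (a subsequence)
with `‖u n - e‖ ≥ c`, `e = counit C`. Let `R n`, `q n` be as in `exists_part` for `u n`. Then
`u n - e = ⟪q, π . q⟫ - ‖q‖² e`, so `c ≤ 2 ‖q n‖²`, and for the unit vector `k n = q n / ‖q n‖`
`⟪k n, π a (k n)⟫ = (u n a - e a)/‖q n‖² + e a → e a`. Let `S` be the direct sum of the `R n`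
(`exists_directSum`), `U` the unitary representation with `S.π (x α β) = slice U α β`
(`C.ofRep`), `κ n = ι n (k n)`. Then `⟪α ⊗ κ n, U (α ⊗ κ n)⟫ = ⟪k n, π_n (x α α) (k n)⟫ → ‖α‖²`, so
`‖U (α ⊗ κ n) - α ⊗ κ n‖ → 0` (`norm_sub_sq_unitary`), and (T) gives `s ≠ 0` in `S.K` with
`U (α ⊗ s) = α ⊗ s` for all `α`, that is `S.π (x α β) s = ⟪β, α⟫ s`, so `S.π a s = e a • s` for all
`a` (density), so each `p n s` is invariant for `R n`, hence `0`, so `s = 0`.

`continuous_of_T`: `μ 0 = e` (`IsCoef.inj`). `μ (s + t) = μ t ∘ lOp (μ s)` by `conv_coef'`, so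
`‖μ (s + t) - μ s‖ = ‖(μ t - e) ∘ lOp (μ s)‖ ≤ ‖μ t - e‖`. By `norm_tendsto_of_T` (sequences:
`tendsto_of_seq_tendsto` for the countably generated filter `𝓝 0`) `‖μ t - e‖ → 0` as `t → 0`.
-/

open scoped TensorProduct ComplexOrder InnerProductSpace
open ContinuousLinearMap Filter Topology

noncomputable section

namespace QG753

variable {H : Type} [NormedAddCommGroup H] [InnerProductSpace ℂ H] [CompleteSpace H]
  {W : MultUnitary H} {A : Type} [NonUnitalCStarAlgebra A]

theorem tnorm_invariant (C : UniversalAlgebra W A) {K : Type} [NormedAddCommGroup K]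
    [InnerProductSpace ℂ K] [CompleteSpace K] {π : A →⋆ₙₐ[ℂ] (K →L[ℂ] K)} {U : URep W K}
    (hU : ∀ α β, π (C.x α β) = slice U.U α β) {s : K} (hs : ∀ α : H, U.U (tp α s) = tp α s)
    (a : A) : π a s = counit C a • s := by
  apply ext_inner_left ℂ
  intro l
  have h1 : vecF π s l = (⟪l, s⟫_ℂ) • counit C := by
    apply clm_ext_x C
    intro α β
    rw [vecF_apply, hU, inner_slice, hs, inner_tp, _root_.smul_apply, counit_x,
      smul_eq_mul, mul_comm]
  have h2 := congrArg (fun f : A →L[ℂ] ℂ => f a) h1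
  simp only [vecF_apply, _root_.smul_apply, smul_eq_mul] at h2
  rw [h2, inner_smul_right, mul_comm]

theorem norm_tendsto_of_T (C : UniversalAlgebra W A) (hT : DualPropertyT W)
    {u : ℕ → (A →L[ℂ] ℂ)} (hu : ∀ n, IsState (u n))
    (h : ∀ a, Tendsto (fun n => u n a) atTop (𝓝 (counit C a))) :
    Tendsto (fun n => ‖u n - counit C‖) atTop (𝓝 0) := by
  by_contra hcon
  rw [Metric.tendsto_atTop] at hcon
  push Not at hcon
  obtain ⟨ε, hε, hcon⟩ := hcon
  have hfr : ∃ᶠ n in atTop, ε ≤ ‖u n - counit C‖ := by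
    rw [Filter.frequently_atTop]
    intro N
    obtain ⟨n, hn1, hn2⟩ := hcon N
    refine ⟨n, hn1, ?_⟩
    rwa [Real.dist_eq, sub_zero, abs_of_nonneg (norm_nonneg _)] at hn2
  obtain ⟨φ, hφ, hφε⟩ := Filter.extraction_of_frequently_atTop hfr
  set e := counit C with he
  have hen : ‖e‖ = 1 := (isState_counit C).2
  choose R q hq1 hq2 hq3 using fun n => exists_part (e := e) (counit_mul C)
    (fun a => counit_star C a) (hu (φ n))
  have hqpos : ∀ n, ε ≤ 2 * ‖q n‖ ^ 2 := by
    intro n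
    refine (hφε n).trans ?_
    refine ContinuousLinearMap.opNorm_le_bound _ (by positivity) ?_
    intro a
    rw [_root_.sub_apply, hq3 n a]
    have h1 : (((1 - ‖q n‖ ^ 2 : ℝ) : ℂ) * e a + ⟪q n, (R n).π a (q n)⟫_ℂ) - e a =
        ⟪q n, (R n).π a (q n)⟫_ℂ - ((‖q n‖ ^ 2 : ℝ) : ℂ) * e a := by
      push_cast; ring
    rw [h1]
    have h2 : ‖⟪q n, (R n).π a (q n)⟫_ℂ‖ ≤ ‖q n‖ ^ 2 * ‖a‖ := by
      have h3 := (vecF (R n).π (q n) (q n)).le_opNorm a
      have h4 := norm_vecF_le (R n).π (q n) (q n)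
      rw [vecF_apply] at h3
      refine h3.trans ?_
      rw [sq]
      exact mul_le_mul_of_nonneg_right h4 (norm_nonneg _)
    have h5 : ‖((‖q n‖ ^ 2 : ℝ) : ℂ) * e a‖ ≤ ‖q n‖ ^ 2 * ‖a‖ := by
      rw [norm_mul, Complex.norm_real, Real.norm_eq_abs, abs_of_nonneg (by positivity)]
      refine mul_le_mul_of_nonneg_left ?_ (by positivity)
      have := e.le_opNorm a
      rwa [hen, one_mul] at this
    refine (norm_sub_le _ _).trans ?_
    linarith
  have hq0 : ∀ n, ‖q n‖ ^ 2 ≠ 0 := by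
    intro n h0
    have := hqpos n
    rw [h0] at this
    linarith
  have hq0' : ∀ n, ‖q n‖ ≠ 0 := by
    intro n h0
    apply hq0 n
    rw [h0]; norm_num
  set k : ∀ n, (R n).K := fun n => ((‖q n‖⁻¹ : ℝ) : ℂ) • q n with hk
  have hk1 : ∀ n, ‖k n‖ = 1 := by
    intro n
    rw [hk]
    simp only
    rw [norm_smul, Complex.norm_real, Real.norm_eq_abs, abs_of_nonneg (by positivity)]
    exact inv_mul_cancel₀ (hq0' n)
  have hk2 : ∀ n a, ⟪k n, (R n).π a (k n)⟫_ℂ =
      (u (φ n) a - e a) / ((‖q n‖ ^ 2 : ℝ) : ℂ) + e a := by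
    intro n a
    have h1 : ((‖q n‖ : ℝ) : ℂ) ≠ 0 := by exact_mod_cast hq0' n
    rw [hq3 n a, hk]
    simp only [map_smul, inner_smul_left, inner_smul_right, Complex.conj_ofReal]
    push_cast
    field_simp
    ring
  have hk3 : ∀ a, Tendsto (fun n => ⟪k n, (R n).π a (k n)⟫_ℂ) atTop (𝓝 (e a)) := by
    intro a
    have h1 : Tendsto (fun n => (u (φ n) a - e a) / ((‖q n‖ ^ 2 : ℝ) : ℂ)) atTop (𝓝 0) := by
      have h2 : Tendsto (fun n => (2 / ε) * ‖u (φ n) a - e a‖) atTop (𝓝 0) := by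
        have h3 : Tendsto (fun n => u (φ n) a - e a) atTop (𝓝 (e a - e a)) :=
          ((h a).comp hφ.tendsto_atTop).sub_const _
        rw [sub_self] at h3
        have h4 := h3.norm.const_mul (2 / ε)
        simpa using h4
      refine squeeze_zero_norm ?_ h2
      intro n
      rw [norm_div, Complex.norm_real, Real.norm_eq_abs, abs_of_nonneg (by positivity), div_eq_inv_mul]
      refine mul_le_mul_of_nonneg_right ?_ (norm_nonneg _)
      have h5 := hqpos n
      have h6 : 0 < ‖q n‖ ^ 2 := by linarith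
      rw [inv_le_comm₀ h6 (by positivity), inv_div]
      linarith
    have h2 := h1.add_const (e a)
    rw [zero_add] at h2
    refine h2.congr fun n => ?_
    rw [hk2]
  obtain ⟨S, ι, p, hS1, hS2, hS3⟩ := exists_directSum R
  obtain ⟨U, hU⟩ := C.ofRep S.K S.π S.nd
  have hlim : ∀ α : H, Tendsto (fun n => ‖U.U (tp α (ι n (k n))) - tp α (ι n (k n))‖)
      atTop (𝓝 0) := by
    intro α
    have h1 : ∀ n, ‖U.U (tp α (ι n (k n))) - tp α (ι n (k n))‖ ^ 2 =
        2 * (‖α‖ ^ 2 - (⟪k n, (R n).π (C.x α α) (k n)⟫_ℂ).re) := by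
      intro n
      rw [norm_sub_sq_unitary U.unitary, norm_tp, LinearIsometry.norm_map, hk1, mul_one,
        ← inner_slice, ← hU, hS1, LinearIsometry.inner_map_map]
    have h2 : Tendsto (fun n => ‖U.U (tp α (ι n (k n))) - tp α (ι n (k n))‖ ^ 2) atTop (𝓝 0) := by
      simp only [h1]
      have h3 := (Complex.continuous_re.tendsto _).comp (hk3 (C.x α α))
      have h4 := (h3.const_sub (‖α‖ ^ 2)).const_mul 2
      have h5 : 2 * (‖α‖ ^ 2 - (e (C.x α α)).re) = 0 := by
        rw [he, counit_x, inner_self_eq_norm_sq_to_K]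
        simp [← Complex.ofReal_pow]
      rw [h5] at h4
      exact h4
    have h3 := h2.sqrt
    simp only [Real.sqrt_zero] at h3
    refine h3.congr fun n => ?_
    exact Real.sqrt_sq (norm_nonneg _)
  obtain ⟨s, hs0, hs⟩ := hT S.K U (by
    intro F δ hδ
    have h1 : ∀ᶠ n in atTop, ∀ α ∈ F,
        ‖U.U (tp α (ι n (k n))) - tp α (ι n (k n))‖ < δ := by
      rw [Filter.eventually_all_finset]
      intro α _
      exact (hlim α).eventually (gt_mem_nhds hδ)
    obtain ⟨n, hn⟩ := h1.exists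
    exact ⟨ι n (k n), by rw [LinearIsometry.norm_map, hk1], hn⟩)
  apply hs0
  apply hS3
  intro n
  apply hq2 n
  intro a
  rw [← hS2, tnorm_invariant C hU hs a, map_smul]

theorem continuous_of_T (C : UniversalAlgebra W A) (hT : DualPropertyT W)
    {μ : NNReal → (A →L[ℂ] ℂ)} (h1 : ∀ t, IsState (μ t))
    (h0 : ∀ α β, μ 0 (C.x α β) = ⟪β, α⟫_ℂ) (hc : ∀ s t, IsConv C (μ s) (μ t) (μ (s + t)))
    (hw : ∀ a, Continuous fun t => μ t a) : Continuous μ := by
  have h0e : μ 0 = counit C := by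
    apply clm_ext_x C
    intro α β
    rw [h0, counit_x]
  have hadd : ∀ s t, μ (s + t) = (μ t).comp (lOp C (μ s)) := by
    intro s t
    obtain ⟨b, c, hb, hcc, hbc⟩ := hc s t
    have h2 := conv_coef' C (f := μ s) (g := μ t) (h1 s)
    rw [(isCoef_coef C (μ t)).unique hcc, (isCoef_coef C (μ s)).unique hb] at h2
    exact hbc.inj h2
  have hle : ∀ s t, ‖μ (s + t) - μ s‖ ≤ ‖μ t - counit C‖ := by
    intro s t
    have h2 : μ (s + t) - μ s = (μ t - counit C).comp (lOp C (μ s)) := by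
      rw [hadd s t, ContinuousLinearMap.sub_comp]
      congr 1
      exact ((convSys C).e_S (μ s) (h1 s)).symm
    rw [h2]
    refine (ContinuousLinearMap.opNorm_comp_le _ _).trans ?_
    exact mul_le_of_le_one_right (norm_nonneg _) (norm_lOp C (h1 s))
  have hlim : Tendsto (fun t : NNReal => ‖μ t - counit C‖) (𝓝 0) (𝓝 0) := by
    apply tendsto_of_seq_tendsto
    intro r hr
    refine norm_tendsto_of_T C hT (fun n => h1 (r n)) ?_
    intro a
    have h2 := ((hw a).tendsto 0).comp hr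
    rw [h0e] at h2
    exact h2
  rw [continuous_iff_continuousAt]
  intro s
  rw [ContinuousAt, tendsto_iff_norm_sub_tendsto_zero]
  have hb : ∀ t, ‖μ t - μ s‖ ≤ ‖μ (t - s) - counit C‖ + ‖μ (s - t) - counit C‖ := by
    intro t
    rcases le_total s t with hst | hst
    · have h2 := hle s (t - s)
      rw [add_tsub_cancel_of_le hst] at h2
      linarith [norm_nonneg (μ (s - t) - counit C)]
    · have h2 := hle t (s - t)
      rw [add_tsub_cancel_of_le hst, norm_sub_rev] at h2
      linarith [norm_nonneg (μ (t - s) - counit C)]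
  have ha : Tendsto (fun t : NNReal => t - s) (𝓝 s) (𝓝 0) := by
    have : Continuous fun t : NNReal => t - s := by fun_prop
    have h2 := this.tendsto s
    rwa [tsub_self] at h2
  have hd : Tendsto (fun t : NNReal => s - t) (𝓝 s) (𝓝 0) := by
    have : Continuous fun t : NNReal => s - t := by fun_prop
    have h2 := this.tendsto s
    rwa [tsub_self] at h2
  have h3 := (hlim.comp ha).add (hlim.comp hd)
  rw [add_zero] at h3
  exact squeeze_zero (fun t => norm_nonneg _) hb h3

end QG753
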