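import Pool.Agent.Lib.QG753.GNS

/-!
# MP_753acd_an: witnesses

PROOFS. `exists_unit_char`: choose `b` with `e b ≠ 0` and a real multiple `h` of `star b * b` with
`e h = 1`; `c = cfcₙ (fun t : ℝ => 2 t / (1 + t²)) h` has `‖c‖ ≤ 1` and `e c = 1` (apply the
`*`-homomorphism `e : A → ℂ`, `map_cfcₙ`).

`exists_witness`: let `S = {c : ‖c‖ ≤ 1, e c = 1}`, a nonempty convex multiplicative `*`-semigroup.
In the Hilbert space `K^F` (`PiLp 2`, or any other finite direct sum) let `v = (η i)_i` and `D` the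
closure of `{π(c) v : c ∈ S}`, a closed convex set; let `v₀ ∈ D` have minimal norm. Each `π c`,
`c ∈ S`, maps `D` to itself and is a contraction, so `π c v₀ = v₀` by uniqueness of the minimal
vector. Let `x ∈ A`, `e x = 0`, `‖x‖ ≤ 1`, `y = star x * x`, `c ∈ S` self-adjoint (e.g. `star c * c`).
Then `c (1 - y) c = c c - c y c ∈ S` (`‖1 - y‖ ≤ 1` in the unitization), so
`π c π y v₀ = 0` and `‖π x v₀‖² = ⟪v₀, π y v₀⟫ = ⟪π c v₀, π y v₀⟫ = 0`. So `π x v₀ = 0` for all
`x ∈ ker e`, hence `π a v₀ = e a • v₀` for all `a` (`a - e a • c ∈ ker e`), so `v₀ = 0` by `hno`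
(componentwise). Hence some `c ∈ S` has `‖π c (η i)‖² ≤ 1/10` for all `i ∈ F`, and `w = star c * c`
works (`f w` is real, `0 ≤ f w ≤ ‖w‖ ≤ 1`).
-/

open scoped TensorProduct ComplexOrder InnerProductSpace
open ContinuousLinearMap Filter Topology

noncomputable section

namespace QG753

variable {A : Type} [NonUnitalCStarAlgebra A]
  {K : Type} [NormedAddCommGroup K] [InnerProductSpace ℂ K] [CompleteSpace K]

private theorem norm_one_sub_le {B : Type*} [CStarAlgebra B] (x : B) (hx : ‖x‖ ≤ 1) :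
    ‖1 - star x * x‖ ≤ 1 := by
  let _ := CStarAlgebra.spectralOrder B
  have _ := CStarAlgebra.spectralOrderedRing B
  have h1 : 0 ≤ star x * x := star_mul_self_nonneg x
  have h2 : ‖star x * x‖ ≤ 1 := by
    rw [CStarRing.norm_star_mul_self]
    nlinarith [norm_nonneg x]
  have h3 : star x * x ≤ 1 := (CStarAlgebra.norm_le_one_iff_of_nonneg _ h1).1 h2
  have h4 : 0 ≤ 1 - star x * x := sub_nonneg.2 h3
  exact (CStarAlgebra.norm_le_one_iff_of_nonneg _ h4).2 (sub_le_self _ h1)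

private theorem norm_sandwich_le (c c' x : A) (hc : ‖c‖ ≤ 1) (hc' : ‖c'‖ ≤ 1) (hx : ‖x‖ ≤ 1) :
    ‖c * c' - c * (star x * x) * c'‖ ≤ 1 := by
  rw [← Unitization.norm_inr (𝕜 := ℂ)]
  have h1 : ((c * c' - c * (star x * x) * c' : A) : Unitization ℂ A) =
      (c : Unitization ℂ A) * (1 - star (x : Unitization ℂ A) * (x : Unitization ℂ A)) *
        (c' : Unitization ℂ A) := by
    rw [Unitization.inr_sub, Unitization.inr_mul, Unitization.inr_mul, Unitization.inr_mul,
      Unitization.inr_mul, Unitization.inr_star]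
    noncomm_ring
  rw [h1]
  have h2 : ‖1 - star (x : Unitization ℂ A) * (x : Unitization ℂ A)‖ ≤ 1 :=
    norm_one_sub_le _ (by rw [Unitization.norm_inr]; exact hx)
  have h3 : ‖(c : Unitization ℂ A)‖ ≤ 1 := by rw [Unitization.norm_inr]; exact hc
  have h4 : ‖(c' : Unitization ℂ A)‖ ≤ 1 := by rw [Unitization.norm_inr]; exact hc'
  calc ‖(c : Unitization ℂ A) * (1 - star (x : Unitization ℂ A) * (x : Unitization ℂ A)) *
        (c' : Unitization ℂ A)‖
      ≤ ‖(c : Unitization ℂ A)‖ * ‖1 - star (x : Unitization ℂ A) * (x : Unitization ℂ A)‖ *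
        ‖(c' : Unitization ℂ A)‖ := (norm_mul_le _ _).trans
          (mul_le_mul_of_nonneg_right (norm_mul_le _ _) (norm_nonneg _))
    _ ≤ 1 * 1 * 1 := by
        refine mul_le_mul (mul_le_mul h3 h2 (norm_nonneg _) zero_le_one) h4 (norm_nonneg _) ?_
        norm_num
    _ = 1 := by norm_num

theorem exists_unit_char {e : A →L[ℂ] ℂ} (he : IsState e)
    (hm : ∀ a b, e (a * b) = e a * e b) (hs : ∀ a, e (star a) = star (e a)) :
    ∃ c : A, ‖c‖ ≤ 1 ∧ e c = 1 := by
  have hne : ∃ b, e b ≠ 0 := by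
    by_contra hcon
    push Not at hcon
    have h0 : e = 0 := by
      ext b
      exact hcon b
    have h1 := he.2
    rw [h0, norm_zero] at h1
    exact zero_ne_one h1
  obtain ⟨b, hb⟩ := hne
  have hpos : 0 < ‖e b‖ ^ 2 := by positivity
  set h : A := (((‖e b‖ ^ 2)⁻¹ : ℝ) : ℂ) • (star b * b) with hh
  have heh : e h = 1 := by
    rw [hh, map_smul, hm, hs, smul_eq_mul]
    have h1 : star (e b) * e b = ((‖e b‖ ^ 2 : ℝ) : ℂ) := by
      have h2 := Complex.conj_mul' (e b)
      rw [← starRingEnd_apply]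
      rw [h2]
      push_cast
      rfl
    rw [h1, ← Complex.ofReal_mul, inv_mul_cancel₀ hpos.ne', Complex.ofReal_one]
  have hsa : IsSelfAdjoint h := by
    rw [hh]
    refine IsSelfAdjoint.smul ?_ (IsSelfAdjoint.star_mul_self b)
    exact Complex.conj_ofReal _
  let φ : A →⋆ₙₐ[ℂ] ℂ :=
    { toFun := e
      map_smul' := fun c a => by simp
      map_zero' := map_zero e
      map_add' := map_add e
      map_mul' := hm
      map_star' := hs }
  have hφ : ∀ a, φ a = e a := fun a => rfl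
  set f : ℝ → ℝ := fun t => 2 * t / (1 + t ^ 2) with hf
  have hfc : Continuous f := by
    rw [hf]
    refine Continuous.div (by fun_prop) (by fun_prop) ?_
    intro t
    positivity
  have hf0 : f 0 = 0 := by simp [hf]
  refine ⟨cfcₙ f h, ?_, ?_⟩
  · refine norm_cfcₙ_le (𝕜 := ℝ) ?_
    intro t _
    rw [hf, Real.norm_eq_abs, abs_le]
    have h1 : 0 < 1 + t ^ 2 := by positivity
    constructor
    · rw [le_div_iff₀ h1]
      nlinarith [sq_nonneg (t + 1)]
    · rw [div_le_iff₀ h1]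
      nlinarith [sq_nonneg (t - 1)]
  · rw [← hφ, NonUnitalStarAlgHomClass.map_cfcₙ φ f h hfc.continuousOn hf0
      (show Continuous e from e.continuous) hsa (by
        rw [hφ, heh]
        exact IsSelfAdjoint.one ℂ), hφ, heh, cfcₙ_eq_cfc hfc.continuousOn hf0]
    have h1 : (1 : ℂ) = algebraMap ℝ ℂ 1 := by simp
    rw [h1, cfc_algebraMap]
    simp [hf]
    norm_num

theorem exists_witness {e : A →L[ℂ] ℂ} (he : IsState e)
    (hm : ∀ a b, e (a * b) = e a * e b) (hs : ∀ a, e (star a) = star (e a))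
    (π : A →⋆ₙₐ[ℂ] (K →L[ℂ] K)) (hno : ∀ k : K, (∀ a, π a k = e a • k) → k = 0)
    (η : ℕ → K) (F : Finset ℕ) :
    ∃ w : A, ‖w‖ ≤ 1 ∧ e w = 1 ∧
      (∀ f : A →L[ℂ] ℂ, IsState f → 0 ≤ (f w).re ∧ (f w).re ≤ 1) ∧
      ∀ i ∈ F, (⟪η i, π w (η i)⟫_ℂ).re ≤ 1 / 10 := by
  classical
  obtain ⟨c₀, hc₀, hec₀⟩ := exists_unit_char he hm hs
  set S : Set A := {c | ‖c‖ ≤ 1 ∧ e c = 1} with hS
  have hc₀S : c₀ ∈ S := ⟨hc₀, hec₀⟩
  have hπn : ∀ c ∈ S, ∀ k : K, ‖π c k‖ ≤ ‖k‖ := by
    intro c hc k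
    have h1 : ‖π c‖ ≤ 1 := (NonUnitalStarAlgHom.norm_apply_le π c).trans hc.1
    calc ‖π c k‖ ≤ ‖π c‖ * ‖k‖ := (π c).le_opNorm k
      _ ≤ 1 * ‖k‖ := mul_le_mul_of_nonneg_right h1 (norm_nonneg _)
      _ = ‖k‖ := one_mul _
  have hmulS : ∀ c ∈ S, ∀ c' ∈ S, c * c' ∈ S := by
    intro c hc c' hc'
    refine ⟨?_, by rw [hm, hc.2, hc'.2, one_mul]⟩
    calc ‖c * c'‖ ≤ ‖c‖ * ‖c'‖ := norm_mul_le _ _
      _ ≤ 1 * 1 := mul_le_mul hc.1 hc'.1 (norm_nonneg _) zero_le_one
      _ = 1 := one_mul _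
  have hstarS : ∀ c ∈ S, star c ∈ S := by
    intro c hc
    exact ⟨by rw [norm_star]; exact hc.1, by rw [hs, hc.2, star_one]⟩
  have hmidS : ∀ c ∈ S, ∀ c' ∈ S, (1 / 2 : ℂ) • (c + c') ∈ S := by
    intro c hc c' hc'
    refine ⟨?_, ?_⟩
    · rw [norm_smul]
      have h1 : ‖(1 / 2 : ℂ)‖ = 1 / 2 := by norm_num
      rw [h1]
      have h2 := norm_add_le c c'
      have h3 := hc.1
      have h4 := hc'.1
      linarith
    · rw [map_smul, map_add, hc.2, hc'.2]
      norm_num
  set q : A → ℝ := fun c => ∑ i ∈ F, ‖π c (η i)‖ ^ 2 with hq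
  have hq0 : ∀ c, 0 ≤ q c := fun c => Finset.sum_nonneg fun i _ => by positivity
  set m : ℝ := sInf (q '' S) with hmdef
  have hbdd : BddBelow (q '' S) := ⟨0, by rintro _ ⟨c, _, rfl⟩; exact hq0 c⟩
  have hmle : ∀ c ∈ S, m ≤ q c := fun c hc => csInf_le hbdd ⟨c, hc, rfl⟩
  have hpar : ∀ c ∈ S, ∀ c' ∈ S, ∑ i ∈ F, ‖π c (η i) - π c' (η i)‖ ^ 2 ≤
      2 * (q c - m) + 2 * (q c' - m) := by
    intro c hc c' hc'
    have h1 := hmle _ (hmidS c hc c' hc')
    have h2 : q ((1 / 2 : ℂ) • (c + c')) =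
        (1 / 4) * ∑ i ∈ F, ‖π c (η i) + π c' (η i)‖ ^ 2 := by
      rw [hq, Finset.mul_sum]
      refine Finset.sum_congr rfl fun i _ => ?_
      rw [map_smul, map_add, ContinuousLinearMap.smul_apply, ContinuousLinearMap.add_apply,
        norm_smul]
      have h3 : ‖(1 / 2 : ℂ)‖ = 1 / 2 := by norm_num
      rw [h3]
      ring
    have h4 : ∑ i ∈ F, ‖π c (η i) + π c' (η i)‖ ^ 2 +
        ∑ i ∈ F, ‖π c (η i) - π c' (η i)‖ ^ 2 = 2 * (q c + q c') := by
      rw [hq]
      simp only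
      rw [← Finset.sum_add_distrib, ← Finset.sum_add_distrib, Finset.mul_sum]
      refine Finset.sum_congr rfl fun i _ => ?_
      exact parallelogram_law_with_norm ℂ _ _
    rw [h2] at h1
    linarith
  have hex : ∀ n : ℕ, ∃ c ∈ S, q c < m + 1 / ((n : ℝ) + 1) := by
    intro n
    have hpos : 0 < 1 / ((n : ℝ) + 1) := by positivity
    obtain ⟨_, ⟨c, hc, rfl⟩, h1⟩ := exists_lt_of_csInf_lt (s := q '' S) ⟨_, c₀, hc₀S, rfl⟩
      (show sInf (q '' S) < m + 1 / ((n : ℝ) + 1) by linarith)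
    exact ⟨c, hc, h1⟩
  choose c hcS hcq using hex
  have hε : Tendsto (fun n : ℕ => 1 / ((n : ℝ) + 1)) atTop (𝓝 0) :=
    tendsto_one_div_add_atTop_nhds_zero_nat
  have hcauchy : ∀ i ∈ F, CauchySeq fun n => π (c n) (η i) := by
    intro i hi
    refine cauchySeq_of_le_tendsto_0 (fun n => Real.sqrt (4 * (1 / ((n : ℝ) + 1)))) ?_ ?_
    · intro n k N hn hk
      rw [dist_eq_norm]
      apply Real.le_sqrt_of_sq_le
      have h1 := hpar (c n) (hcS n) (c k) (hcS k)
      have h2 : ‖π (c n) (η i) - π (c k) (η i)‖ ^ 2 ≤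
          ∑ i ∈ F, ‖π (c n) (η i) - π (c k) (η i)‖ ^ 2 :=
        Finset.single_le_sum (f := fun i => ‖π (c n) (η i) - π (c k) (η i)‖ ^ 2)
          (fun j _ => by positivity) hi
      have h3 := hcq n
      have h4 := hcq k
      have h5 : 1 / ((n : ℝ) + 1) ≤ 1 / ((N : ℝ) + 1) := by
        apply one_div_le_one_div_of_le (by positivity)
        have : (N : ℝ) ≤ n := by exact_mod_cast hn
        linarith
      have h6 : 1 / ((k : ℝ) + 1) ≤ 1 / ((N : ℝ) + 1) := by
        apply one_div_le_one_div_of_le (by positivity)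
        have : (N : ℝ) ≤ k := by exact_mod_cast hk
        linarith
      linarith
    · have h1 : Tendsto (fun n : ℕ => Real.sqrt (4 * (1 / ((n : ℝ) + 1)))) atTop
          (𝓝 (Real.sqrt (4 * 0))) :=
        (Real.continuous_sqrt.tendsto _).comp (hε.const_mul 4)
      simpa using h1
  -- the limits vanish
  have hlim : ∀ i ∈ F, Tendsto (fun n => π (c n) (η i)) atTop (𝓝 0) := by
    intro i hi
    obtain ⟨v, hv⟩ := cauchySeq_tendsto_of_complete (hcauchy i hi)
    have hfix : ∀ s ∈ S, π s v = v := by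
      intro s hs'
      have h1 : Tendsto (fun n => π s (π (c n) (η i))) atTop (𝓝 (π s v)) :=
        ((π s).continuous.tendsto v).comp hv
      have h2 : Tendsto (fun n => π s (π (c n) (η i)) - π (c n) (η i)) atTop (𝓝 0) := by
        rw [tendsto_zero_iff_norm_tendsto_zero]
        have h3 : Tendsto (fun n : ℕ => Real.sqrt (4 * (1 / ((n : ℝ) + 1)))) atTop (𝓝 0) := by
          have h1 : Tendsto (fun n : ℕ => Real.sqrt (4 * (1 / ((n : ℝ) + 1)))) atTop
              (𝓝 (Real.sqrt (4 * 0))) :=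
            (Real.continuous_sqrt.tendsto _).comp (hε.const_mul 4)
          simpa using h1
        refine squeeze_zero (fun n => norm_nonneg _) (fun n => ?_) h3
        apply Real.le_sqrt_of_sq_le
        have h4 := hpar (s * c n) (hmulS s hs' (c n) (hcS n)) (c n) (hcS n)
        have h5 : ∀ j, π (s * c n) (η j) = π s (π (c n) (η j)) := by
          intro j
          rw [map_mul]
          rfl
        have h6 : ‖π s (π (c n) (η i)) - π (c n) (η i)‖ ^ 2 ≤
            ∑ i ∈ F, ‖π (s * c n) (η i) - π (c n) (η i)‖ ^ 2 := by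
          rw [← h5]
          exact Finset.single_le_sum (f := fun i => ‖π (s * c n) (η i) - π (c n) (η i)‖ ^ 2)
            (fun j _ => by positivity) hi
        have h7 : q (s * c n) ≤ q (c n) := by
          rw [hq]
          refine Finset.sum_le_sum fun j _ => ?_
          rw [h5]
          exact pow_le_pow_left₀ (norm_nonneg _) (hπn s hs' _) 2
        have h8 := hcq n
        linarith
      have h3 : Tendsto (fun n => π s (π (c n) (η i)) - π (c n) (η i)) atTop (𝓝 (π s v - v)) :=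
        h1.sub hv
      exact sub_eq_zero.1 (tendsto_nhds_unique h3 h2)
    have hker1 : ∀ x : A, e x = 0 → ‖x‖ ≤ 1 → π x v = 0 := by
      intro x hx hx1
      have h1 : c₀ * c₀ - c₀ * (star x * x) * c₀ ∈ S := by
        refine ⟨norm_sandwich_le c₀ c₀ x hc₀ hc₀ hx1, ?_⟩
        rw [map_sub, hm, hm, hm, hm, hx, hec₀]
        simp
      have h2 := hfix _ h1
      have h3 : π (c₀ * c₀) v = v := hfix _ (hmulS _ hc₀S _ hc₀S)
      rw [map_sub, ContinuousLinearMap.sub_apply, h3] at h2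
      have h4 : π (c₀ * (star x * x) * c₀) v = 0 := by
        have h5 : v - π (c₀ * (star x * x) * c₀) v - v = 0 := by rw [h2, sub_self]
        have h6 : v - π (c₀ * (star x * x) * c₀) v - v = - π (c₀ * (star x * x) * c₀) v := by
          abel
        rw [h6] at h5
        exact neg_eq_zero.1 h5
      have h5 : π c₀ (π (star x * x) v) = 0 := by
        rw [map_mul, map_mul] at h4
        have h6 : (π c₀ * π (star x * x) * π c₀) v = π c₀ (π (star x * x) (π c₀ v)) := rfl
        rw [h6, hfix c₀ hc₀S] at h4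
        exact h4
      have h6 : ⟪v, π (star x * x) v⟫_ℂ = 0 := by
        have h7 : π (star c₀) v = v := hfix _ (hstarS c₀ hc₀S)
        have h8 : ⟪π (star c₀) v, π (star x * x) v⟫_ℂ = ⟪v, π c₀ (π (star x * x) v)⟫_ℂ := by
          rw [map_star, ContinuousLinearMap.star_eq_adjoint,
            ContinuousLinearMap.adjoint_inner_left]
        rw [h7, h5, inner_zero_right] at h8
        exact h8
      have h7 : ⟪π x v, π x v⟫_ℂ = 0 := by
        rw [← h6, map_mul, map_star, ContinuousLinearMap.star_eq_adjoint]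
        have h8 : ((adjoint (π x)) * π x) v = adjoint (π x) (π x v) := rfl
        rw [h8, ContinuousLinearMap.adjoint_inner_right]
      exact inner_self_eq_zero.1 h7
    have hker : ∀ x : A, e x = 0 → π x v = 0 := by
      intro x hx
      by_cases h0 : x = 0
      · rw [h0, map_zero, ContinuousLinearMap.zero_apply]
      · have hn : 0 < ‖x‖ := norm_pos_iff.2 h0
        have h1 := hker1 (((‖x‖⁻¹ : ℝ) : ℂ) • x) (by rw [map_smul, hx, smul_zero]) (by
          rw [norm_smul, Complex.norm_real, norm_inv, norm_norm, inv_mul_cancel₀ hn.ne'])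
        rw [map_smul, ContinuousLinearMap.smul_apply, smul_eq_zero] at h1
        rcases h1 with h1 | h1
        · exfalso
          rw [Complex.ofReal_eq_zero] at h1
          exact (inv_ne_zero hn.ne') h1
        · exact h1
    have hv0 : v = 0 := by
      apply hno
      intro a
      have h1 := hker (a - e a • c₀) (by rw [map_sub, map_smul, hec₀, smul_eq_mul, mul_one,
        sub_self])
      rw [map_sub, map_smul, ContinuousLinearMap.sub_apply, ContinuousLinearMap.smul_apply,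
        hfix c₀ hc₀S] at h1
      exact sub_eq_zero.1 h1
    rw [hv0] at hv
    exact hv
  have hev : ∀ᶠ n in atTop, ∀ i ∈ F, ‖π (c n) (η i)‖ ^ 2 ≤ 1 / 10 := by
    rw [eventually_all_finset]
    intro i hi
    have h1 : Tendsto (fun n => ‖π (c n) (η i)‖ ^ 2) atTop (𝓝 (‖(0 : K)‖ ^ 2)) :=
      (hlim i hi).norm.pow 2
    rw [norm_zero] at h1
    have h2 : ((0 : ℝ)) ^ 2 < 1 / 10 := by norm_num
    exact (h1.eventually_lt_const h2).mono fun n hn => hn.le
  obtain ⟨n, hn⟩ := hev.exists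
  refine ⟨star (c n) * c n, ?_, ?_, ?_, ?_⟩
  · exact (hmulS _ (hstarS _ (hcS n)) _ (hcS n)).1
  · exact (hmulS _ (hstarS _ (hcS n)) _ (hcS n)).2
  · intro f hf
    have h1 := hf.1 (c n)
    have h2 : ‖star (c n) * c n‖ ≤ 1 := (hmulS _ (hstarS _ (hcS n)) _ (hcS n)).1
    refine ⟨(Complex.le_def.1 h1).1, ?_⟩
    calc (f (star (c n) * c n)).re ≤ ‖f (star (c n) * c n)‖ := Complex.re_le_norm _
      _ ≤ ‖f‖ * ‖star (c n) * c n‖ := f.le_opNorm _
      _ ≤ 1 * 1 := by
          rw [hf.2]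
          exact mul_le_mul_of_nonneg_left h2 zero_le_one
      _ = 1 := one_mul _
  · intro i hi
    have h1 : ⟪η i, π (star (c n) * c n) (η i)⟫_ℂ = ((‖π (c n) (η i)‖ ^ 2 : ℝ) : ℂ) := by
      rw [map_mul, map_star, ContinuousLinearMap.star_eq_adjoint]
      have h8 : ((adjoint (π (c n))) * π (c n)) (η i) =
          adjoint (π (c n)) (π (c n) (η i)) := rfl
      rw [h8, ContinuousLinearMap.adjoint_inner_right, inner_self_eq_norm_sq_to_K]
      push_cast
      rfl
    rw [h1, Complex.ofReal_re]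
    exact hn i hi

end QG753
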