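import Pool.Agent.Lib.QG753.KV
import Pool.Agent.Lib.QG753.NuAct
import Pool.Agent.Lib.QG753.Witness
import Pool.Agent.Lib.QG753.Reiter
import Pool.Agent.Lib.QG753.Sep
import Pool.Agent.Lib.QG753.TNorm
import Pool.Agent.Lib.QG753.AmenOf

/-!
# MP_753acd_an: assembly
-/

open scoped TensorProduct ComplexOrder InnerProductSpace
open ContinuousLinearMap Filter Topology

noncomputable section

namespace QG753

variable {H : Type} [NormedAddCommGroup H] [InnerProductSpace ℂ H] [CompleteSpace H]
  {W : MultUnitary H} {A : Type} [NonUnitalCStarAlgebra A]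

theorem exists_inputs [TopologicalSpace.SeparableSpace H] (C : UniversalAlgebra W A)
    (hA : Amenable W) (hT : ¬ DualPropertyT W) :
    ∃ (g : ℕ → (A →L[ℂ] ℂ)) (a : ℕ → A) (nu : ℕ → (A →L[ℂ] ℂ)), (convSys C).Inputs g a nu := by
  obtain ⟨R⟩ := exists_almInv hT
  obtain ⟨π, hπ, hx⟩ := C.toRep R.K R.U
  obtain ⟨g, hg1, hg2⟩ := exists_dense_L C
  obtain ⟨a, ha⟩ := exists_dense_A C
  have hst : ∀ n, IsState (vecF π (R.η n) (R.η n)) := fun n => isState_vecF hπ (R.norm_eq n)
  have hno : ∀ k, (∀ a, π a k = counit C a • k) → k = 0 := by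
    intro k hk
    apply R.no_inv
    intro α
    apply vec_ext
    intro β l
    rw [← inner_slice, ← hx, hk, counit_x, inner_smul_right, inner_tp]
  refine ⟨g, a, fun n => vecF π (R.η n) (R.η n), ?_⟩
  exact {
    g_mem := hg1
    g_dense := hg2
    a_dense := ha
    nu_mem := hst
    nu_T := fun x => tendsto_rOp_of C hst (vecF_x_tendsto C R hx) x
    nu_L := fun f hf => nu_L C R hπ hx hf.1 hf.2
    wit := fun F => exists_witness (isState_counit C) (counit_mul C) (counit_star C) π hno R.η F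
    reiter := fun F hF δ hδ => reiter C hA F hF hδ }

theorem exists_good (C : UniversalAlgebra W A) {g : ℕ → (A →L[ℂ] ℂ)} {a : ℕ → A}
    {nu : ℕ → (A →L[ℂ] ℂ)} (I : (convSys C).Inputs g a nu) :
    ∃ μ : NNReal → (A →L[ℂ] ℂ), GoodSemigroup C μ := by
  obtain ⟨T', h0, hadd, hcomm, hst, hcont, hnc, hinv⟩ := (convSys C).kv I
  have key : ∀ f, IsState f → ∀ t, f.comp (T' t) = ((counit C).comp (T' t)).comp (lOp C f) := by
    intro f hf t
    have h1 : (T' t).comp (lOp C f) = (lOp C f).comp (T' t) := hcomm t f hf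
    have h2 : (counit C).comp (lOp C f) = f := (convSys C).e_S f hf
    rw [ContinuousLinearMap.comp_assoc, h1, ← ContinuousLinearMap.comp_assoc, h2]
  have conv : ∀ f, IsState f → ∀ t, IsConv C f ((counit C).comp (T' t)) (f.comp (T' t)) := by
    intro f hf t
    refine ⟨coef C f, coef C _, isCoef_coef C f, isCoef_coef C _, ?_⟩
    rw [key f hf t]
    exact conv_coef' C hf
  refine ⟨fun t => (counit C).comp (T' t), hst, ?_, ?_, ?_, hnc, ?_⟩
  · intro α β
    change counit C (T' 0 (C.x α β)) = _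
    rw [h0]
    exact counit_x C α β
  · intro s t
    have h1 := conv _ (hst s) t
    have h2 : (counit C).comp (T' (s + t)) = ((counit C).comp (T' s)).comp (T' t) := by
      rw [hadd]; rfl
    change IsConv C _ _ ((counit C).comp (T' (s + t)))
    rw [h2]
    exact h1
  · intro a
    exact (counit C).continuous.comp (hcont a)
  · intro ω hω hs
    exact ⟨fun t => ω.comp (T' t), conv ω hs, hinv ω ⟨hω, hs⟩⟩

/-- The equivalence asked for in MP_753acd_an. -/
theorem main [TopologicalSpace.SeparableSpace H] (C : UniversalAlgebra W A) :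
    (Amenable W ∧ ¬ DualPropertyT W) ↔ ∃ μ : NNReal → (A →L[ℂ] ℂ), GoodSemigroup C μ := by
  constructor
  · rintro ⟨hA, hT⟩
    obtain ⟨g, a, nu, I⟩ := exists_inputs C hA hT
    exact exists_good C I
  · rintro ⟨μ, hμ⟩
    refine ⟨amenable_of C hμ, fun hT => ?_⟩
    obtain ⟨h1, h0, hc, hw, hn, -⟩ := hμ
    exact hn (continuous_of_T C hT h1 h0 hc hw)

end QG753
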