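import Pool.Agent.Lib.QG753.LinfComul
import Pool.Agent.Lib.QG753.LinfBasic
import Pool.Agent.Lib.QG753.Inst

/-!
# MP_753acd_an: functionals on `L¹(G)` are elements of `L^∞(G)`

PROOFS. `exists_opOf`: `(ξ, η) ↦ Φ (vecF Λ ξ η)` is linear in `ξ`, conjugate linear in `η` and
bounded by `‖Φ‖ ‖ξ‖ ‖η‖`, so it is `⟪η, y ξ⟫` for a bounded `y` (same construction as in
`exists_coef`, `InnerProductSpace.continuousLinearMapOfBilin`). If `z` commutes with all
`reduce C a`, then `vecF Λ (z ξ) η = vecF Λ ξ (z* η)`, so `z` commutes with `y`: `mem_Linf_iff`.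
The second statement holds for elementary tensors (`amplF_tp`), and both sides are continuous and
sesquilinear in `z`, `w` (bounds: `norm_amplF_le`).

`conv_vecF`: both sides have the coefficient `coefOp V ζ ζ * coefOp V ξ ξ'`: `conv_coef`,
`isCoef_vecF`, and `fell` for `regRep W` (`U = V`).

`phi_conv`: `conv_vecF`, `exists_opOf` and `slice_comul`.
-/

open scoped TensorProduct ComplexOrder InnerProductSpace
open ContinuousLinearMap Filter Topology

noncomputable section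

namespace QG753

variable {H : Type} [NormedAddCommGroup H] [InnerProductSpace ℂ H] [CompleteSpace H]
  {W : MultUnitary H} {A : Type} [NonUnitalCStarAlgebra A]

/-- `y` represents the functional `Φ` on `L¹(G)`. -/
def Represents (C : UniversalAlgebra W A) (Φ : (A →L[ℂ] ℂ) →L[ℂ] ℂ) (y : H →L[ℂ] H) : Prop :=
  (∀ ξ η : H, Φ (vecF (reduce C) ξ η) = ⟪η, y ξ⟫_ℂ) ∧
  ∀ z w : HT H H, Φ (amplF C z w) = ⟪w, opT y 1 z⟫_ℂ

private theorem vecF_add_left (π : A →⋆ₙₐ[ℂ] (H →L[ℂ] H)) (k k' l : H) :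
    vecF π (k + k') l = vecF π k l + vecF π k' l := by
  ext a
  rw [ContinuousLinearMap.add_apply, vecF_apply, vecF_apply, vecF_apply, map_add,
    inner_add_right]

private theorem vecF_add_right (π : A →⋆ₙₐ[ℂ] (H →L[ℂ] H)) (k l l' : H) :
    vecF π k (l + l') = vecF π k l + vecF π k l' := by
  ext a
  rw [ContinuousLinearMap.add_apply, vecF_apply, vecF_apply, vecF_apply, inner_add_left]

private theorem vecF_smul_left (π : A →⋆ₙₐ[ℂ] (H →L[ℂ] H)) (c : ℂ) (k l : H) :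
    vecF π (c • k) l = c • vecF π k l := by
  ext a
  rw [ContinuousLinearMap.smul_apply, vecF_apply, vecF_apply, map_smul, inner_smul_right]
  rfl

private theorem vecF_smul_right (π : A →⋆ₙₐ[ℂ] (H →L[ℂ] H)) (c : ℂ) (k l : H) :
    vecF π k (c • l) = (starRingEnd ℂ) c • vecF π k l := by
  ext a
  rw [ContinuousLinearMap.smul_apply, vecF_apply, vecF_apply, inner_smul_left]
  rfl

private theorem amplF_add_left' (C : UniversalAlgebra W A) (z z' w : HT H H) :
    amplF C (z + z') w = amplF C z w + amplF C z' w := by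
  ext a
  rw [ContinuousLinearMap.add_apply, amplF_apply, amplF_apply, amplF_apply, map_add,
    inner_add_right]

private theorem amplF_add_right' (C : UniversalAlgebra W A) (z w w' : HT H H) :
    amplF C z (w + w') = amplF C z w + amplF C z w' := by
  ext a
  rw [ContinuousLinearMap.add_apply, amplF_apply, amplF_apply, amplF_apply, inner_add_left]

private theorem amplF_smul_left' (C : UniversalAlgebra W A) (c : ℂ) (z w : HT H H) :
    amplF C (c • z) w = c • amplF C z w := by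
  ext a
  rw [ContinuousLinearMap.smul_apply, amplF_apply, amplF_apply, map_smul, inner_smul_right]
  rfl

private theorem amplF_smul_right' (C : UniversalAlgebra W A) (c : ℂ) (z w : HT H H) :
    amplF C z (c • w) = (starRingEnd ℂ) c • amplF C z w := by
  ext a
  rw [ContinuousLinearMap.smul_apply, amplF_apply, amplF_apply, inner_smul_left]
  rfl

/-- `z ↦ Φ (amplF C z w)`. -/
private def phiL (C : UniversalAlgebra W A) (Φ : (A →L[ℂ] ℂ) →L[ℂ] ℂ) (w : HT H H) :
    HT H H →L[ℂ] ℂ :=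
  LinearMap.mkContinuous
    { toFun := fun z => Φ (amplF C z w)
      map_add' := fun z z' => by rw [amplF_add_left', map_add]
      map_smul' := fun c z => by rw [amplF_smul_left', map_smul]; rfl } (‖Φ‖ * ‖w‖) (by
      intro z
      simp only [LinearMap.coe_mk, AddHom.coe_mk]
      calc ‖Φ (amplF C z w)‖ ≤ ‖Φ‖ * ‖amplF C z w‖ := Φ.le_opNorm _
        _ ≤ ‖Φ‖ * (‖z‖ * ‖w‖) := by
          gcongr
          exact norm_amplF_le C z w
        _ = ‖Φ‖ * ‖w‖ * ‖z‖ := by ring)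

/-- `w ↦ conj (Φ (amplF C z w))`. -/
private def phiR (C : UniversalAlgebra W A) (Φ : (A →L[ℂ] ℂ) →L[ℂ] ℂ) (z : HT H H) :
    HT H H →L[ℂ] ℂ :=
  LinearMap.mkContinuous
    { toFun := fun w => (starRingEnd ℂ) (Φ (amplF C z w))
      map_add' := fun w w' => by rw [amplF_add_right', map_add, map_add]
      map_smul' := fun c w => by
        rw [amplF_smul_right', map_smul, smul_eq_mul, map_mul, Complex.conj_conj]; rfl }
      (‖Φ‖ * ‖z‖) (by
      intro w
      simp only [LinearMap.coe_mk, AddHom.coe_mk]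
      calc ‖(starRingEnd ℂ) (Φ (amplF C z w))‖ = ‖Φ (amplF C z w)‖ := Complex.norm_conj _
        _ ≤ ‖Φ‖ * ‖amplF C z w‖ := Φ.le_opNorm _
        _ ≤ ‖Φ‖ * (‖z‖ * ‖w‖) := by
          gcongr
          exact norm_amplF_le C z w
        _ = ‖Φ‖ * ‖z‖ * ‖w‖ := by ring)

private theorem phi_ampl (C : UniversalAlgebra W A) (Φ : (A →L[ℂ] ℂ) →L[ℂ] ℂ) {y : H →L[ℂ] H}
    (hy : ∀ ξ η : H, Φ (vecF (reduce C) ξ η) = ⟪η, y ξ⟫_ℂ) (z w : HT H H) :
    Φ (amplF C z w) = ⟪w, opT y 1 z⟫_ℂ := by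
  have h0 : ∀ (a k b l : H), Φ (amplF C (tp a k) (tp b l)) =
      ⟪tp b l, opT y 1 (tp a k)⟫_ℂ := by
    intro a k b l
    rw [amplF_tp, map_smul, hy, opT_tp, inner_tp, smul_eq_mul, mul_comm]
    rfl
  have h1 : ∀ (b l : H) (z : HT H H), Φ (amplF C z (tp b l)) = ⟪tp b l, opT y 1 z⟫_ℂ := by
    intro b l z
    have h2 : phiL C Φ (tp b l) = (innerSL ℂ (tp b l)).comp (opT y (1 : H →L[ℂ] H)) := by
      apply clm_ext
      intro a k
      exact h0 a k b l
    exact DFunLike.congr_fun h2 z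
  have h3 : phiR C Φ z = innerSL ℂ (opT y (1 : H →L[ℂ] H) z) := by
    apply clm_ext
    intro b l
    have h4 := h1 b l z
    change (starRingEnd ℂ) (Φ (amplF C z (tp b l))) = ⟪opT y (1 : H →L[ℂ] H) z, tp b l⟫_ℂ
    rw [h4, inner_conj_symm]
  have h5 : (starRingEnd ℂ) (Φ (amplF C z w)) = ⟪opT y (1 : H →L[ℂ] H) z, w⟫_ℂ :=
    DFunLike.congr_fun h3 w
  rw [← Complex.conj_conj (Φ (amplF C z w)), h5, inner_conj_symm]

theorem exists_opOf (C : UniversalAlgebra W A) (Φ : (A →L[ℂ] ℂ) →L[ℂ] ℂ) :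
    ∃ y ∈ Linf W, Represents C Φ y := by
  have hb : ∀ ξ η : H, ‖Φ (vecF (reduce C) ξ η)‖ ≤ ‖Φ‖ * ‖ξ‖ * ‖η‖ := by
    intro ξ η
    refine (Φ.le_opNorm _).trans ?_
    rw [mul_assoc]
    exact mul_le_mul_of_nonneg_left (norm_vecF_le _ _ _) (norm_nonneg _)
  let B : H →L⋆[ℂ] H →L[ℂ] ℂ := LinearMap.mkContinuous₂
    (LinearMap.mk₂'ₛₗ (starRingEnd ℂ) (RingHom.id ℂ)
      (fun ξ η => (starRingEnd ℂ) (Φ (vecF (reduce C) ξ η)))
      (fun a b c => by rw [vecF_add_left, map_add, map_add])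
      (fun c a b => by rw [vecF_smul_left, map_smul, smul_eq_mul, map_mul]; rfl)
      (fun a b c => by rw [vecF_add_right, map_add, map_add])
      (fun c a b => by
        rw [vecF_smul_right, map_smul, smul_eq_mul, map_mul, Complex.conj_conj]; rfl)) ‖Φ‖ (by
      intro ξ η
      have h := hb ξ η
      rw [← Complex.norm_conj] at h
      exact h)
  set y : H →L[ℂ] H := InnerProductSpace.continuousLinearMapOfBilin B with hy
  have hy1 : ∀ ξ η : H, Φ (vecF (reduce C) ξ η) = ⟪η, y ξ⟫_ℂ := by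
    intro ξ η
    have h1 : ⟪y ξ, η⟫_ℂ = B ξ η :=
      InnerProductSpace.continuousLinearMapOfBilin_apply B ξ η
    have h2 : B ξ η = (starRingEnd ℂ) (Φ (vecF (reduce C) ξ η)) := rfl
    rw [← inner_conj_symm, h1, h2, Complex.conj_conj]
  refine ⟨y, ?_, hy1, phi_ampl C Φ hy1⟩
  rw [mem_Linf_iff C]
  intro z hz
  ext ξ
  apply ext_inner_left ℂ
  intro η
  have e1 : ⟪η, (z * y) ξ⟫_ℂ = ⟪adjoint z η, y ξ⟫_ℂ := by
    rw [ContinuousLinearMap.adjoint_inner_left]; rfl
  have e2 : ⟪η, (y * z) ξ⟫_ℂ = ⟪η, y (z ξ)⟫_ℂ := rfl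
  rw [e1, e2, ← hy1, ← hy1]
  congr 1
  ext a
  rw [vecF_apply, vecF_apply, ContinuousLinearMap.adjoint_inner_left]
  have e3 : z (reduce C a ξ) = (z * reduce C a) ξ := rfl
  rw [e3, hz a]
  rfl

theorem conv_vecF (C : UniversalAlgebra W A) {ζ : H} (hζ : ‖ζ‖ = 1) (ξ ξ' : H) :
    (vecF (reduce C) ξ ξ').comp (rOp C (vecF (reduce C) ζ ζ)) =
      amplF C (star W.V (tp ζ ξ)) (star W.V (tp ζ ξ')) := by
  have hst : IsState (vecF (reduce C) ζ ζ) := isState_vecF (nondeg_reduce C) hζ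
  have hb : coef C (vecF (reduce C) ζ ζ) = coefOp W.V ζ ζ :=
    (isCoef_coef C _).unique (isCoef_vecF (U := regRep W) (reduce_x C) ζ ζ)
  have hc : coef C (vecF (reduce C) ξ ξ') = coefOp W.V ξ ξ' :=
    (isCoef_coef C _).unique (isCoef_vecF (U := regRep W) (reduce_x C) ξ ξ')
  refine (conv_coef C (f := vecF (reduce C) ξ ξ') hst).inj ?_
  intro α β
  rw [hb, hc, amplF_apply, reduce_x]
  exact (fell (regRep W) ζ ζ ξ ξ' α β).symm

theorem phi_conv (C : UniversalAlgebra W A) {Φ : (A →L[ℂ] ℂ) →L[ℂ] ℂ} {y : H →L[ℂ] H}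
    (hy : Represents C Φ y) {ζ : H} (hζ : ‖ζ‖ = 1) (ξ ξ' : H) :
    Φ ((vecF (reduce C) ξ ξ').comp (rOp C (vecF (reduce C) ζ ζ))) =
      ⟪ζ, slice (comul W y) ξ ξ' ζ⟫_ℂ := by
  rw [conv_vecF C hζ, hy.2, slice_comul, inner_coefOp, ContinuousLinearMap.star_eq_adjoint,
    ContinuousLinearMap.adjoint_inner_left]
  rfl

end QG753
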