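import Pool.Agent.Lib.QG753.PhiOp

/-!
# MP_753acd_an: convolution and invariant means

PROOF of `exists_Y`. Let `l` be the filter of `exists_approx A`. By induction on the span: for `f'`
in the span of the `vecF Λ ξ ξ'` there are `Y ∈ L^∞` and `c` with `f' e → c` along `l`,
`m Y = c * m y`, and `Φ (f' ∘ rOp (vecF ζ ζ)) = ⟪ζ, Y ζ⟫` for all unit vectors `ζ`. For
`f' = vecF Λ ξ ξ'` take `Y = slice (comul W y) ξ ξ'` (`slice_comul_mem`, `phi_conv`, `hinv`),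
`c = ⟪ξ', ξ⟫` (`nondeg_reduce`). Choose `f'` in the span with `‖f - f'‖ ≤ ε` (`L1_eq`). Since
`f e → 1` (`exists_gns`) and `‖e‖ ≤ 1`, `‖c - 1‖ ≤ ε`; and
`‖Φ ((f - f') ∘ rOp g)‖ ≤ ‖Φ‖ ε` for every state `g` (`isState_vecF`, `norm_rOp`).
-/

open scoped TensorProduct ComplexOrder InnerProductSpace
open ContinuousLinearMap Filter Topology

noncomputable section

namespace QG753

variable {H : Type} [NormedAddCommGroup H] [InnerProductSpace ℂ H] [CompleteSpace H]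
  {W : MultUnitary H} {A : Type} [NonUnitalCStarAlgebra A]

/-- Left invariance of a functional on `L^∞(G)`. -/
def LeftInv (m : Linf W →ₗ[ℂ] ℂ) : Prop :=
  ∀ (ξ η : H) (y z : Linf W), (z : H →L[ℂ] H) = slice (comul W (y : H →L[ℂ] H)) ξ η →
    m z = ⟪η, ξ⟫_ℂ * m y

private theorem reA_span (C : UniversalAlgebra W A) {m : Linf W →ₗ[ℂ] ℂ} (hinv : LeftInv m)
    {Φ : (A →L[ℂ] ℂ) →L[ℂ] ℂ} (y : Linf W) (hy : Represents C Φ (y : H →L[ℂ] H))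
    {l : Filter A}
    (hl : ∀ (K : Type) [NormedAddCommGroup K] [InnerProductSpace ℂ K] [CompleteSpace K]
      (π : A →⋆ₙₐ[ℂ] (K →L[ℂ] K)), Nondeg π → ∀ k : K, Tendsto (fun e => π e k) l (𝓝 k))
    {f : A →L[ℂ] ℂ}
    (hf : f ∈ Submodule.span ℂ (Set.range fun p : H × H => vecF (reduce C) p.1 p.2)) :
    ∃ (Y : Linf W) (c : ℂ), Tendsto (fun e => f e) l (𝓝 c) ∧ m Y = c * m y ∧
      ∀ ζ : H, ‖ζ‖ = 1 →
        Φ (f.comp (rOp C (vecF (reduce C) ζ ζ))) = ⟪ζ, (Y : H →L[ℂ] H) ζ⟫_ℂ := by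
  induction hf using Submodule.span_induction with
  | mem x hx =>
    obtain ⟨p, rfl⟩ := hx
    refine ⟨⟨slice (comul W (y : H →L[ℂ] H)) p.1 p.2, slice_comul_mem W y.2 p.1 p.2⟩,
      ⟪p.2, p.1⟫_ℂ, ?_, hinv p.1 p.2 y _ rfl, ?_⟩
    · have h1 := hl H (reduce C) (nondeg_reduce C) p.1
      exact ((continuous_const.inner continuous_id).tendsto p.1 |>.comp h1 :
        Tendsto ((fun v => ⟪p.2, v⟫_ℂ) ∘ fun e => reduce C e p.1) l (𝓝 ⟪p.2, p.1⟫_ℂ))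
    · intro ζ hζ
      exact phi_conv C hy hζ p.1 p.2
  | zero =>
    refine ⟨0, 0, ?_, ?_, ?_⟩
    · exact tendsto_const_nhds
    · simp
    · intro ζ hζ
      simp
  | add f g _ _ hf hg =>
    obtain ⟨Y, c, h1, h2, h3⟩ := hf
    obtain ⟨Y', c', h1', h2', h3'⟩ := hg
    refine ⟨Y + Y', c + c', ?_, ?_, ?_⟩
    · exact h1.add h1'
    · rw [map_add, h2, h2']; ring
    · intro ζ hζ
      rw [ContinuousLinearMap.add_comp, map_add, h3 ζ hζ, h3' ζ hζ, ← inner_add_right]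
      rfl
  | smul a f _ hf =>
    obtain ⟨Y, c, h1, h2, h3⟩ := hf
    refine ⟨a • Y, a * c, ?_, ?_, ?_⟩
    · exact h1.const_mul a
    · rw [map_smul, h2, smul_eq_mul]; ring
    · intro ζ hζ
      rw [ContinuousLinearMap.smul_comp, map_smul, h3 ζ hζ, smul_eq_mul, ← inner_smul_right]
      rfl

theorem exists_Y (C : UniversalAlgebra W A) {m : Linf W →ₗ[ℂ] ℂ} (hinv : LeftInv m)
    {Φ : (A →L[ℂ] ℂ) →L[ℂ] ℂ} (y : Linf W) (hy : Represents C Φ (y : H →L[ℂ] H))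
    {f : A →L[ℂ] ℂ} (hf : f ∈ L1 C) (hs : IsState f) {ε : ℝ} (hε : 0 < ε) :
    ∃ Y : Linf W, ‖m Y - m y‖ ≤ ε * ‖m y‖ ∧ ∀ ζ : H, ‖ζ‖ = 1 →
      ‖Φ (f.comp (rOp C (vecF (reduce C) ζ ζ))) - ⟪ζ, (Y : H →L[ℂ] H) ζ⟫_ℂ‖ ≤ ε * ‖Φ‖ := by
  obtain ⟨l, hlb, hle, -, hl⟩ := exists_approx A
  have hf' : f ∈ closure (Submodule.span ℂ
    (Set.range fun p : H × H => vecF (reduce C) p.1 p.2) : Set (A →L[ℂ] ℂ)) := by
    rw [L1_eq] at hf
    exact hf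
  obtain ⟨g, hg, hfg⟩ := Metric.mem_closure_iff.1 hf' ε hε
  rw [dist_eq_norm] at hfg
  obtain ⟨Y, c, h1, h2, h3⟩ := reA_span C hinv y hy hl hg
  have hf1 : Tendsto (fun e => f e) l (𝓝 1) := by
    obtain ⟨R, k, hk, hfk⟩ := exists_gns hs
    have h4 := hl R.K R.π R.nd k
    have h5 : Tendsto ((fun v => ⟪k, v⟫_ℂ) ∘ fun e => R.π e k) l (𝓝 ⟪k, k⟫_ℂ) :=
      (continuous_const.inner continuous_id).tendsto k |>.comp h4
    have h6 : ⟪k, k⟫_ℂ = 1 := by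
      rw [inner_self_eq_norm_sq_to_K, hk]; simp
    rw [h6] at h5
    refine h5.congr (fun e => ?_)
    rw [hfk]; rfl
  have hc : ‖c - 1‖ ≤ ε := by
    have h4 : Tendsto (fun e => ‖g e - f e‖) l (𝓝 ‖c - 1‖) := (h1.sub hf1).norm
    refine le_of_tendsto h4 ?_
    filter_upwards [hle] with e he
    have h5 : g e - f e = -((f - g) e) := by
      rw [ContinuousLinearMap.sub_apply]; ring
    rw [h5, norm_neg]
    calc ‖(f - g) e‖ ≤ ‖f - g‖ * ‖e‖ := (f - g).le_opNorm e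
      _ ≤ ‖f - g‖ * 1 := mul_le_mul_of_nonneg_left he (norm_nonneg _)
      _ ≤ ε := by rw [mul_one]; exact hfg.le
  refine ⟨Y, ?_, ?_⟩
  · have h4 : m Y - m y = (c - 1) * m y := by rw [h2]; ring
    rw [h4, norm_mul]
    exact mul_le_mul_of_nonneg_right hc (norm_nonneg _)
  · intro ζ hζ
    rw [← h3 ζ hζ, ← map_sub, ← ContinuousLinearMap.sub_comp]
    have hst : IsState (vecF (reduce C) ζ ζ) := isState_vecF (nondeg_reduce C) hζ
    have h5 : ‖(f - g).comp (rOp C (vecF (reduce C) ζ ζ))‖ ≤ ε := by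
      refine (ContinuousLinearMap.opNorm_comp_le _ _).trans ?_
      exact (mul_le_of_le_one_right (norm_nonneg _) (norm_rOp C hst)).trans hfg.le
    calc ‖Φ ((f - g).comp (rOp C (vecF (reduce C) ζ ζ)))‖
        ≤ ‖Φ‖ * ‖(f - g).comp (rOp C (vecF (reduce C) ζ ζ))‖ := Φ.le_opNorm _
      _ ≤ ‖Φ‖ * ε := mul_le_mul_of_nonneg_left h5 (norm_nonneg Φ)
      _ = ε * ‖Φ‖ := mul_comm _ _

end QG753
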