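import Pool.Agent.Lib.QG753.ConvSys

/-!
# MP_753acd_an: uniformity on compact sets

PROOFS. `unif_T`: the operators `T (nu i) - 1` have norm `≤ 2` and tend to `0` pointwise; cover the
compact set by finitely many small balls. `unif_L`: for `f, h ∈ L`,
`‖nu ∘ T f - f - (nu ∘ T h - h)‖ = ‖(f - h) ∘ S nu - (f - h)‖ ≤ 2 ‖f - h‖` (use `TS`), then the same
argument. `reiter_compact`: take a finite `δ/4`-net `F ⊆ K` of the compact set `K ⊆ L`, `α` from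
`I.reiter F (δ/2)`, and `‖f ∘ T α - h ∘ T α‖ ≤ ‖f - h‖`.
-/

open Filter Topology

noncomputable section

namespace QG753

namespace ConvSys

variable {A : Type} [NormedAddCommGroup A] [NormedSpace ℂ A] [CompleteSpace A] (Q : ConvSys A)
  {g : ℕ → (A →L[ℂ] ℂ)} {a : ℕ → A} {nu : ℕ → (A →L[ℂ] ℂ)}

/-- uniformity on compact sets for a sequence of functions which are Lipschitz with constant `2` -/
private theorem unif_aux {X : Type} [NormedAddCommGroup X] {K : Set X} (hK : IsCompact K)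
    (φ : ℕ → X → ℝ) (h1 : ∀ i, ∀ x ∈ K, ∀ y ∈ K, φ i x ≤ φ i y + 2 * ‖x - y‖)
    (h2 : ∀ x ∈ K, Tendsto (fun i => φ i x) atTop (𝓝 0)) {δ : ℝ} (hδ : 0 < δ) :
    ∀ᶠ i in atTop, ∀ x ∈ K, φ i x ≤ δ := by
  obtain ⟨t, htK, htf, hcov⟩ := hK.finite_cover_balls (show 0 < δ / 4 by linarith)
  have h3 : ∀ᶠ i in atTop, ∀ y ∈ t, φ i y < δ / 2 := by
    rw [htf.eventually_all]
    intro y hy
    exact (h2 y (htK hy)).eventually (gt_mem_nhds (by linarith))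
  filter_upwards [h3] with i hi x hx
  obtain ⟨y, hy, hxy⟩ := Set.mem_iUnion₂.1 (hcov hx)
  rw [Metric.mem_ball, dist_eq_norm] at hxy
  have h4 := h1 i x hx y (htK hy)
  have h5 := hi y hy
  linarith

theorem unif_T (I : Q.Inputs g a nu) {K : Set A} (hK : IsCompact K) {δ : ℝ} (hδ : 0 < δ) :
    ∀ᶠ i in atTop, ∀ x ∈ K, ‖(Q.T (nu i) - 1) x‖ ≤ δ := by
  refine unif_aux hK (fun i x => ‖(Q.T (nu i) - 1) x‖) ?_ ?_ hδ
  · intro i x _ y _
    have h1 : (Q.T (nu i) - 1) x = (Q.T (nu i) - 1) y + (Q.T (nu i) - 1) (x - y) := by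
      rw [map_sub]
      abel
    have h2 : ‖(Q.T (nu i) - 1) (x - y)‖ ≤ 2 * ‖x - y‖ := by
      have h3 : (Q.T (nu i) - 1) (x - y) = Q.T (nu i) (x - y) - (x - y) := rfl
      rw [h3]
      have h4 : ‖Q.T (nu i) (x - y)‖ ≤ 1 * ‖x - y‖ :=
        (Q.T (nu i)).le_of_opNorm_le (Q.norm_T _ (I.nu_mem i)) _
      calc ‖Q.T (nu i) (x - y) - (x - y)‖ ≤ ‖Q.T (nu i) (x - y)‖ + ‖x - y‖ := norm_sub_le _ _
        _ ≤ 2 * ‖x - y‖ := by linarith
    show ‖(Q.T (nu i) - 1) x‖ ≤ ‖(Q.T (nu i) - 1) y‖ + 2 * ‖x - y‖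
    rw [h1]
    exact (norm_add_le _ _).trans (by linarith)
  · intro x _
    have h1 := (I.nu_T x).sub_const x
    rw [sub_self] at h1
    have h2 := h1.norm
    rw [norm_zero] at h2
    exact h2

theorem unif_L (I : Q.Inputs g a nu) {K : Set (A →L[ℂ] ℂ)} (hK : IsCompact K) (hKL : K ⊆ Q.L)
    {δ : ℝ} (hδ : 0 < δ) :
    ∀ᶠ i in atTop, ∀ f ∈ K, ‖(nu i).comp (Q.T f) - f‖ ≤ δ := by
  refine unif_aux hK (fun i f => ‖(nu i).comp (Q.T f) - f‖) ?_ ?_ hδ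
  · intro i f hf h hh
    have hf' := Q.L_sub (hKL hf)
    have hh' := Q.L_sub (hKL hh)
    have h1 : (nu i).comp (Q.T f) - f =
        ((nu i).comp (Q.T h) - h) + ((f - h).comp (Q.S (nu i)) - (f - h)) := by
      rw [Q.TS (I.nu_mem i) hf', Q.TS (I.nu_mem i) hh']
      ext a
      simp only [add_apply, sub_apply,
        ContinuousLinearMap.comp_apply]
      ring
    have h2 : ‖(f - h).comp (Q.S (nu i)) - (f - h)‖ ≤ 2 * ‖f - h‖ := by
      have h3 : ‖(f - h).comp (Q.S (nu i))‖ ≤ ‖f - h‖ :=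
        (ContinuousLinearMap.opNorm_comp_le _ _).trans
          (mul_le_of_le_one_right (norm_nonneg _) (Q.norm_S _ (I.nu_mem i)))
      calc ‖(f - h).comp (Q.S (nu i)) - (f - h)‖
          ≤ ‖(f - h).comp (Q.S (nu i))‖ + ‖f - h‖ := norm_sub_le _ _
        _ ≤ 2 * ‖f - h‖ := by linarith
    show ‖(nu i).comp (Q.T f) - f‖ ≤ ‖(nu i).comp (Q.T h) - h‖ + 2 * ‖f - h‖
    rw [h1]
    exact (norm_add_le _ _).trans (by linarith)
  · intro f hf
    exact I.nu_L f (hKL hf)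

theorem reiter_compact (I : Q.Inputs g a nu) {K : Set (A →L[ℂ] ℂ)} (hK : IsCompact K)
    (hKL : K ⊆ Q.L) {δ : ℝ} (hδ : 0 < δ) : ∃ α ∈ Q.L, ∀ f ∈ K, ‖f.comp (Q.T α) - α‖ ≤ δ := by
  obtain ⟨t, htK, htf, hcov⟩ := hK.finite_cover_balls (show 0 < δ / 4 by linarith)
  obtain ⟨α, hα, h1⟩ := I.reiter htf.toFinset
    (fun f hf => hKL (htK (htf.mem_toFinset.1 hf))) (δ / 2) (by linarith)
  refine ⟨α, hα, fun f hf => ?_⟩
  obtain ⟨h, hh, hfh⟩ := Set.mem_iUnion₂.1 (hcov hf)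
  rw [Metric.mem_ball, dist_eq_norm] at hfh
  have h2 := h1 h (htf.mem_toFinset.2 hh)
  have h3 : f.comp (Q.T α) - α = (f - h).comp (Q.T α) + (h.comp (Q.T α) - α) := by
    ext a
    simp only [add_apply, sub_apply,
      ContinuousLinearMap.comp_apply]
    ring
  have h4 : ‖(f - h).comp (Q.T α)‖ ≤ ‖f - h‖ :=
    (ContinuousLinearMap.opNorm_comp_le _ _).trans
      (mul_le_of_le_one_right (norm_nonneg _) (Q.norm_T _ (Q.L_sub hα)))
  rw [h3]
  exact (norm_add_le _ _).trans (by linarith)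

end ConvSys

end QG753
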