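import Pool.Agent.Lib.QG753.AdmExp
import Pool.Agent.Lib.QG753.Unif

/-!
# MP_753acd_an: one stage of the construction

PROOFS. Write `E k s = ev α ν k n s` (only indices `< n` of `α`, `ν` matter when `k ≤ n`); it is
admissible for `s ≥ 0` and norm continuous in `s`.

`exists_alpha`: choose `ω ∈ L` (`nonempty_L`). The set
`K = {f ∘ E k s ∘ T ω : k ≤ n, s ∈ [0, tau n], f ∈ {g 0, .., g n, e}}` is compact, contained in `L`
(`f ∘ E k s ∈ St`, `conv_L`). Take `β` from `reiter_compact K (δ / 2)` and `α = ω ∘ T β` (in `L` by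
`conv_L`, `T α = T ω * T β` by `T_mul`); then
`(g j - e) ∘ (E k s * T α) = (g j ∘ E k s ∘ T ω ∘ T β - β) - (e ∘ E k s ∘ T ω ∘ T β - β)`.

`exists_nuI`: by `sub_comp_Adm` with `Y = E k s * T (α i)`, `y = e ∘ Y ∈ L`,
`(ν - e) ∘ Y = ν ∘ T y - y`; the set of all these `y` (`k, i ≤ n`, `s ∈ [0, tau n]`) is compact in
`L`: `unif_L`. The set of all `E n s (a j)`, `E n s (w j)` is compact in `A`: `unif_T`.
-/

open Filter Topology

noncomputable section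

namespace QG753

namespace ConvSys

variable {A : Type} [NormedAddCommGroup A] [NormedSpace ℂ A] [CompleteSpace A] (Q : ConvSys A)
  {g : ℕ → (A →L[ℂ] ℂ)} {a : ℕ → A} {nu : ℕ → (A →L[ℂ] ℂ)}

theorem tau_nonneg (n : ℕ) : 0 ≤ tau n := by
  unfold tau; positivity

theorem eta_pos (n : ℕ) : 0 < eta n := by
  have := tau_nonneg n
  unfold eta; positivity

theorem continuous_ev (α ν : ℕ → (A →L[ℂ] ℂ)) (k n : ℕ) : Continuous (Q.ev α ν k n) := by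
  rw [continuous_iff_continuousAt]
  intro t
  exact (hasDerivAt_exp_smul_const (𝕂 := ℝ) (Q.gen α ν k n) t).continuousAt

theorem gen_congr {α α' ν ν' : ℕ → (A →L[ℂ] ℂ)} {k n : ℕ} (hα : ∀ i < k, α i = α' i)
    (hν : ∀ m < n, ν m = ν' m) : Q.gen α ν k n = Q.gen α' ν' k n := by
  unfold gen
  congr 1
  · exact Finset.sum_congr rfl fun m hm => by rw [hν m (Finset.mem_range.1 hm)]
  · exact Finset.sum_congr rfl fun i hi => by rw [hα i (Finset.mem_range.1 hi)]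

theorem ev_congr {α α' ν ν' : ℕ → (A →L[ℂ] ℂ)} {k n : ℕ} (hα : ∀ i < k, α i = α' i)
    (hν : ∀ m < n, ν m = ν' m) (t : ℝ) : Q.ev α ν k n t = Q.ev α' ν' k n t := by
  unfold ev; rw [Q.gen_congr hα hν]

private theorem continuous_comp_ev (α ν : ℕ → (A →L[ℂ] ℂ)) (k n : ℕ) (f : A →L[ℂ] ℂ)
    (X : A →L[ℂ] A) : Continuous fun s => (f.comp (Q.ev α ν k n s)).comp X :=
  (continuous_const.clm_comp (Q.continuous_ev α ν k n)).clm_comp continuous_const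

theorem exists_alpha (I : Q.Inputs g a nu) (α ν : ℕ → (A →L[ℂ] ℂ)) (n : ℕ)
    (hα : ∀ i < n, α i ∈ Q.L) (hν : ∀ m < n, ν m ∈ Q.St) {δ : ℝ} (hδ : 0 < δ) :
    ∃ β ∈ Q.L, ∀ k ≤ n, ∀ j ≤ n, ∀ s ∈ Set.Icc (0 : ℝ) (tau n),
      ‖(g j - Q.e).comp (Q.ev α ν k n s * Q.T β)‖ ≤ δ := by
  obtain ⟨ω, hω⟩ := Q.nonempty_L
  have hadm : ∀ k ≤ n, ∀ s ∈ Set.Icc (0 : ℝ) (tau n), Q.ev α ν k n s ∈ Q.Adm := fun k hk s hs =>
    Q.ev_mem_Adm (fun i hi => Q.L_sub (hα i (hi.trans_le hk))) hν hs.1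
  set K : Set (A →L[ℂ] ℂ) := ⋃ k ∈ Finset.range (n + 1),
    ((⋃ j ∈ Finset.range (n + 1), (fun s => ((g j).comp (Q.ev α ν k n s)).comp (Q.T ω)) ''
      Set.Icc (0 : ℝ) (tau n)) ∪
      (fun s => (Q.e.comp (Q.ev α ν k n s)).comp (Q.T ω)) '' Set.Icc (0 : ℝ) (tau n)) with hKdef
  have hK : IsCompact K := by
    refine Finset.isCompact_biUnion _ fun k _ => IsCompact.union
      (Finset.isCompact_biUnion _ fun j _ => ?_) ?_
    · exact isCompact_Icc.image (Q.continuous_comp_ev α ν k n (g j) (Q.T ω))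
    · exact isCompact_Icc.image (Q.continuous_comp_ev α ν k n Q.e (Q.T ω))
  have hKL : K ⊆ Q.L := by
    intro f hf
    rw [hKdef, Set.mem_iUnion₂] at hf
    obtain ⟨k, hk, hf⟩ := hf
    have hk' : k ≤ n := Nat.lt_succ_iff.1 (Finset.mem_range.1 hk)
    rcases hf with hf | ⟨s, hs, rfl⟩
    · rw [Set.mem_iUnion₂] at hf
      obtain ⟨j, hj, s, hs, rfl⟩ := hf
      exact Q.conv_L _ ((hadm k hk' s hs).2.2 _ (Q.L_sub (I.g_mem j))) _ hω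
    · exact Q.conv_L _ ((hadm k hk' s hs).2.2 _ Q.e_mem) _ hω
  obtain ⟨β, hβ, hβK⟩ := Q.reiter_compact I hK hKL (half_pos hδ)
  refine ⟨ω.comp (Q.T β), Q.conv_L ω (Q.L_sub hω) β hβ, ?_⟩
  intro k hk j hj s hs
  have hkm : k ∈ Finset.range (n + 1) := Finset.mem_range.2 (Nat.lt_succ_iff.2 hk)
  have hjm : j ∈ Finset.range (n + 1) := Finset.mem_range.2 (Nat.lt_succ_iff.2 hj)
  have h1 := hβK (((g j).comp (Q.ev α ν k n s)).comp (Q.T ω)) (by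
    rw [hKdef, Set.mem_iUnion₂]
    exact ⟨k, hkm, Or.inl (Set.mem_iUnion₂.2 ⟨j, hjm, s, hs, rfl⟩)⟩)
  have h2 := hβK ((Q.e.comp (Q.ev α ν k n s)).comp (Q.T ω)) (by
    rw [hKdef, Set.mem_iUnion₂]
    exact ⟨k, hkm, Or.inr ⟨s, hs, rfl⟩⟩)
  have h3 : (g j - Q.e).comp (Q.ev α ν k n s * Q.T (ω.comp (Q.T β))) =
      ((((g j).comp (Q.ev α ν k n s)).comp (Q.T ω)).comp (Q.T β) - β) -
        (((Q.e.comp (Q.ev α ν k n s)).comp (Q.T ω)).comp (Q.T β) - β) := by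
    rw [Q.T_mul ω (Q.L_sub hω) β (Q.L_sub hβ)]
    ext x
    simp
  rw [h3]
  refine (norm_sub_le _ _).trans ?_
  linarith

theorem exists_nuI (I : Q.Inputs g a nu) (α ν : ℕ → (A →L[ℂ] ℂ)) (w : ℕ → A) (n : ℕ)
    (hα : ∀ i ≤ n, α i ∈ Q.L) (hν : ∀ m < n, ν m ∈ Q.St) {δ : ℝ} (hδ : 0 < δ) :
    ∃ r : ℕ, (∀ k ≤ n, ∀ i ≤ n, ∀ s ∈ Set.Icc (0 : ℝ) (tau n),
      ‖(nu r - Q.e).comp (Q.ev α ν k n s * Q.T (α i))‖ ≤ δ) ∧
      (∀ j ≤ n, ∀ s ∈ Set.Icc (0 : ℝ) (tau n),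
        ‖(Q.T (nu r) - 1) (Q.ev α ν n n s (a j))‖ ≤ δ) ∧
      ∀ j ≤ n, ∀ s ∈ Set.Icc (0 : ℝ) (tau n),
        ‖(Q.T (nu r) - 1) (Q.ev α ν n n s (w j))‖ ≤ δ := by
  have hadm : ∀ k ≤ n, ∀ s ∈ Set.Icc (0 : ℝ) (tau n), Q.ev α ν k n s ∈ Q.Adm := fun k hk s hs =>
    Q.ev_mem_Adm (fun i hi => Q.L_sub (hα i (hi.le.trans hk))) hν hs.1
  have h1 : ∀ᶠ r in atTop, ∀ k ∈ Finset.range (n + 1), ∀ i ∈ Finset.range (n + 1),
      ∀ s ∈ Set.Icc (0 : ℝ) (tau n),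
      ‖(nu r - Q.e).comp (Q.ev α ν k n s * Q.T (α i))‖ ≤ δ := by
    rw [Filter.eventually_all_finset]
    intro k hk
    rw [Filter.eventually_all_finset]
    intro i hi
    have hk' : k ≤ n := Nat.lt_succ_iff.1 (Finset.mem_range.1 hk)
    have hi' : i ≤ n := Nat.lt_succ_iff.1 (Finset.mem_range.1 hi)
    have hK : IsCompact ((fun s => (Q.e.comp (Q.ev α ν k n s)).comp (Q.T (α i))) ''
        Set.Icc (0 : ℝ) (tau n)) :=
      isCompact_Icc.image (Q.continuous_comp_ev α ν k n Q.e (Q.T (α i)))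
    have hKL : ((fun s => (Q.e.comp (Q.ev α ν k n s)).comp (Q.T (α i))) ''
        Set.Icc (0 : ℝ) (tau n)) ⊆ Q.L := by
      rintro f ⟨s, hs, rfl⟩
      exact Q.conv_L _ ((hadm k hk' s hs).2.2 _ Q.e_mem) _ (hα i hi')
    filter_upwards [Q.unif_L I hK hKL hδ] with r hr s hs
    have h2 := hr _ ⟨s, hs, rfl⟩
    have hY : Q.ev α ν k n s * Q.T (α i) ∈ Q.Adm :=
      Q.mul_mem_Adm (hadm k hk' s hs) (Q.T_mem_Adm (Q.L_sub (hα i hi')))
    rw [Q.sub_comp_Adm hY (I.nu_mem r)]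
    exact h2
  have h4 : ∀ b : ℕ → A, ∀ᶠ r in atTop, ∀ j ∈ Finset.range (n + 1),
      ∀ s ∈ Set.Icc (0 : ℝ) (tau n), ‖(Q.T (nu r) - 1) (Q.ev α ν n n s (b j))‖ ≤ δ := by
    intro b
    rw [Filter.eventually_all_finset]
    intro j _
    have hK : IsCompact ((fun s => Q.ev α ν n n s (b j)) '' Set.Icc (0 : ℝ) (tau n)) :=
      isCompact_Icc.image ((Q.continuous_ev α ν n n).clm_apply continuous_const)
    filter_upwards [Q.unif_T I hK hδ] with r hr s hs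
    exact hr _ ⟨s, hs, rfl⟩
  obtain ⟨r, h5, h6, h7⟩ := (h1.and ((h4 a).and (h4 w))).exists
  refine ⟨r, fun k hk i hi s hs => ?_, fun j hj s hs => ?_, fun j hj s hs => ?_⟩
  · exact h5 k (Finset.mem_range.2 (Nat.lt_succ_iff.2 hk)) i
      (Finset.mem_range.2 (Nat.lt_succ_iff.2 hi)) s hs
  · exact h6 j (Finset.mem_range.2 (Nat.lt_succ_iff.2 hj)) s hs
  · exact h7 j (Finset.mem_range.2 (Nat.lt_succ_iff.2 hj)) s hs

end ConvSys

end QG753
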