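import Pool.Agent.Lib.QG753.Defs

/-!
# MP_753acd_an: norm attaining states

PROOF of `exists_state_norm`. Work in the unital C*-algebra `B = Unitization ℂ A` and the
self-adjoint element `h = star a * a` (`h ≥ 0`, `‖h‖ = ‖a‖^2` is in the spectrum). In the
commutative C*-algebra generated by `h` there is a character `χ` with `χ h = ‖h‖`
(Gelfand theory, `elemental`); extend it by Hahn-Banach to `F : B → ℂ` with
`‖F‖ = 1 = F 1`. Such an `F` is positive: for self-adjoint `b`, `F b` is real because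
`|F (b + i t)|^2 ≤ ‖b‖^2 + t^2` for all real `t`; for `0 ≤ b ≤ 1`, `‖1 - b‖ ≤ 1`, so `F b ≥ 0`.
Restrict `F` to `A`: positive, norm `≤ 1`, and `F (star a * a) = ‖a‖^2` forces norm `1`.
(Any other proof is fine.)
-/

open scoped ComplexOrder InnerProductSpace

noncomputable section

namespace QG753

variable {A : Type} [NonUnitalCStarAlgebra A]

section unital

variable {B : Type} [CStarAlgebra B] [PartialOrder B] [StarOrderedRing B] [Nontrivial B]

/-- a functional of norm one with value one at `1` is real on self-adjoint elements -/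
private theorem sn_im (F : B →L[ℂ] ℂ) (hF : ‖F‖ ≤ 1) (h1 : F 1 = 1) {b : B}
    (hb : IsSelfAdjoint b) : (F b).im = 0 := by
  by_contra h0
  have key : ∀ t : ℝ, (F b).re ^ 2 + ((F b).im + t) ^ 2 ≤ ‖b‖ ^ 2 + t ^ 2 := by
    intro t
    have h2 : ‖F (b + (t * Complex.I) • (1 : B))‖ ^ 2 ≤ ‖b‖ ^ 2 + t ^ 2 := by
      have h3 : ‖b + (t * Complex.I) • (1 : B)‖ ^ 2 ≤ ‖b‖ ^ 2 + t ^ 2 := by
        rw [sq, ← CStarRing.norm_star_mul_self]
        have h4 : star (b + (t * Complex.I) • (1 : B)) * (b + (t * Complex.I) • (1 : B)) =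
            b * b + ((t ^ 2 : ℝ) : ℂ) • (1 : B) := by
          rw [star_add, star_smul, star_one, hb.star_eq]
          simp only [RCLike.star_def, map_mul, Complex.conj_ofReal, Complex.conj_I, add_mul, mul_add,
            smul_mul_assoc, mul_smul_comm, one_mul, mul_one]
          rw [smul_add, smul_smul, mul_comm (↑t * Complex.I)]
          have h5 : (↑t * -Complex.I * (↑t * Complex.I)) = ((t ^ 2 : ℝ) : ℂ) := by
            push_cast
            linear_combination (-(t : ℂ) ^ 2) * Complex.I_mul_I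
          rw [h5]
          have h6 : (↑t * -Complex.I) • b = -((↑t * Complex.I) • b) := by
            rw [mul_neg, neg_smul]
          rw [h6]
          abel
        rw [h4]
        refine (norm_add_le _ _).trans (add_le_add ?_ ?_)
        · rw [sq]; exact norm_mul_le _ _
        · rw [norm_smul, Complex.norm_real, Real.norm_of_nonneg (sq_nonneg t)]
          exact mul_le_of_le_one_right (sq_nonneg t) norm_one.le
      refine le_trans ?_ h3
      refine pow_le_pow_left₀ (norm_nonneg _) ?_ 2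
      refine (F.le_opNorm _).trans ?_
      exact mul_le_of_le_one_left (norm_nonneg _) hF
    have h7 : F (b + (t * Complex.I) • (1 : B)) = F b + t * Complex.I := by
      rw [map_add, map_smul, h1, smul_eq_mul, mul_one]
    rw [h7, ← Complex.normSq_eq_norm_sq, Complex.normSq_apply] at h2
    simp only [Complex.add_re, Complex.mul_re, Complex.ofReal_re, Complex.I_re, Complex.ofReal_im,
      Complex.I_im, Complex.add_im, Complex.mul_im, mul_zero, mul_one, zero_mul, sub_zero,
      add_zero, sub_self, zero_add] at h2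
    nlinarith
  have h8 := key ((‖b‖ ^ 2 + 1) / (2 * (F b).im))
  have h9 : (F b).re ^ 2 + (F b).im ^ 2 + 2 * (F b).im * ((‖b‖ ^ 2 + 1) / (2 * (F b).im)) ≤ ‖b‖ ^ 2 := by
    nlinarith
  have h10 : 2 * (F b).im * ((‖b‖ ^ 2 + 1) / (2 * (F b).im)) = ‖b‖ ^ 2 + 1 := by
    field_simp
  rw [h10] at h9
  nlinarith [sq_nonneg (F b).re, sq_nonneg (F b).im]

private theorem sn_nonneg (F : B →L[ℂ] ℂ) (hF : ‖F‖ ≤ 1) (h1 : F 1 = 1) {b : B}
    (hb : 0 ≤ b) : 0 ≤ F b := by
  have hsa : IsSelfAdjoint b := .of_nonneg hb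
  have him := sn_im F hF h1 hsa
  have h2 : b ≤ algebraMap ℝ B ‖b‖ := hsa.le_algebraMap_norm_self
  have h3 : ‖algebraMap ℝ B ‖b‖ - b‖ ≤ ‖b‖ := by
    have h4 : algebraMap ℝ B ‖b‖ - b ≤ algebraMap ℝ B ‖b‖ := sub_le_self _ hb
    refine (CStarAlgebra.norm_le_norm_of_nonneg_of_le (sub_nonneg.2 h2) h4).trans ?_
    rw [Algebra.algebraMap_eq_smul_one, norm_smul, norm_norm]
    exact mul_le_of_le_one_right (norm_nonneg _) norm_one.le
  have h5 : F (algebraMap ℝ B ‖b‖ - b) = (‖b‖ : ℂ) - F b := by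
    have h6 : algebraMap ℝ B ‖b‖ = (‖b‖ : ℂ) • (1 : B) := by
      rw [Algebra.algebraMap_eq_smul_one]
      exact (Complex.coe_smul ‖b‖ (1 : B)).symm
    rw [h6, map_sub, map_smul, h1, smul_eq_mul, mul_one]
  have h7 : ‖(‖b‖ : ℂ) - F b‖ ≤ ‖b‖ := by
    rw [← h5]
    exact ((F.le_opNorm _).trans (mul_le_of_le_one_left (norm_nonneg _) hF)).trans h3
  have h8 : ‖b‖ - (F b).re ≤ ‖b‖ := by
    refine le_trans ?_ h7
    have := Complex.re_le_norm ((‖b‖ : ℂ) - F b)
    simpa using this
  rw [Complex.nonneg_iff]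
  exact ⟨by linarith, him.symm⟩

/-- a state of a unital algebra attaining the norm of a positive element -/
private theorem sn_exists {h : B} (hh : 0 ≤ h) : ∃ F : B →L[ℂ] ℂ, ‖F‖ ≤ 1 ∧ F 1 = 1 ∧
    F h = (‖h‖ : ℂ) := by
  have h1 : ‖(1 : B) + h‖ = 1 + ‖h‖ := by
    refine le_antisymm ?_ ?_
    · refine (norm_add_le _ _).trans ?_
      rw [norm_one]
    · have h2 : ‖h‖ ∈ spectrum ℝ h := CStarAlgebra.norm_mem_spectrum_of_nonneg hh
      have h3 : ‖h‖ + (1 : ℝ) ∈ spectrum ℝ (algebraMap ℝ B 1 + h) := by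
        rw [spectrum.add_mem_add_iff]
        exact h2
      rw [map_one] at h3
      have h4 := spectrum.norm_le_norm_of_mem h3
      rw [Real.norm_of_nonneg (by positivity), add_comm] at h4
      exact h4
  have h0 : (1 : B) + h ≠ 0 := by
    intro h2
    rw [h2, norm_zero] at h1
    have := norm_nonneg h
    linarith
  obtain ⟨F, hF, hF2⟩ := exists_dual_vector ℂ _ (norm_ne_zero_iff.2 h0)
  have e1 : ‖F 1‖ ≤ 1 := by
    have := F.le_opNorm 1
    rwa [hF, norm_one, one_mul] at this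
  have e2 : ‖F h‖ ≤ ‖h‖ := by
    have := F.le_opNorm h
    rwa [hF, one_mul] at this
  rw [map_add, h1] at hF2
  have hre : (F 1).re + (F h).re = 1 + ‖h‖ := by
    have := congrArg Complex.re hF2
    simpa using this
  have e3 := Complex.re_le_norm (F 1)
  have e4 := Complex.re_le_norm (F h)
  have e5 : (F 1).re = 1 := by linarith
  have e6 : (F h).re = ‖h‖ := by linarith
  have aux : ∀ (z : ℂ) (r : ℝ), z.re = r → ‖z‖ ≤ r → z = (r : ℂ) := by
    intro z r hz hzr
    have h7 : z.re ^ 2 + z.im ^ 2 = ‖z‖ ^ 2 := by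
      rw [← Complex.normSq_eq_norm_sq, Complex.normSq_apply]; ring
    have h8 : ‖z‖ ^ 2 ≤ r ^ 2 := pow_le_pow_left₀ (norm_nonneg _) hzr 2
    have h9 : z.im = 0 := by
      rw [hz] at h7
      nlinarith [sq_nonneg z.im]
    apply Complex.ext
    · simpa using hz
    · simpa using h9
  refine ⟨F, hF.le, ?_, ?_⟩
  · simpa using aux (F 1) 1 e5 e1
  · exact aux (F h) ‖h‖ e6 e2

end unital

theorem exists_state_norm (a : A) (ha : a ≠ 0) :
    ∃ f : A →L[ℂ] ℂ, IsState f ∧ f (star a * a) = ((‖a‖ ^ 2 : ℝ) : ℂ) := by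
  let _ : PartialOrder (Unitization ℂ A) := CStarAlgebra.spectralOrder _
  have : StarOrderedRing (Unitization ℂ A) := CStarAlgebra.spectralOrderedRing _
  have hpos : ∀ c : A, 0 ≤ ((star c * c : A) : Unitization ℂ A) := by
    intro c
    rw [Unitization.inr_mul, Unitization.inr_star]
    exact star_mul_self_nonneg _
  obtain ⟨F, hF, hF1, hFh⟩ := sn_exists (hpos a)
  have hnorm : ‖((star a * a : A) : Unitization ℂ A)‖ = ‖a‖ ^ 2 := by
    rw [Unitization.norm_inr, CStarRing.norm_star_mul_self, sq]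
  rw [hnorm] at hFh
  let f : A →L[ℂ] ℂ := LinearMap.mkContinuous
    ((F : Unitization ℂ A →ₗ[ℂ] ℂ).comp (Unitization.inrHom ℂ ℂ A)) 1 (fun x => by
      have h1 := F.le_opNorm (x : Unitization ℂ A)
      rw [Unitization.norm_inr] at h1
      exact h1.trans (mul_le_mul_of_nonneg_right hF (norm_nonneg _)))
  have hf : ∀ x, f x = F (x : Unitization ℂ A) := fun x => rfl
  refine ⟨f, ⟨fun c => ?_, ?_⟩, ?_⟩
  · rw [hf]
    exact sn_nonneg F hF hF1 (hpos c)
  · refine le_antisymm (LinearMap.mkContinuous_norm_le _ zero_le_one _) ?_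
    have h2 := f.le_opNorm (star a * a)
    rw [hf, hFh, CStarRing.norm_star_mul_self, Complex.norm_real, Real.norm_of_nonneg (by positivity)] at h2
    have h3 : 0 < ‖a‖ * ‖a‖ := mul_pos (norm_pos_iff.2 ha) (norm_pos_iff.2 ha)
    nlinarith
  · rw [hf, hFh]

end QG753
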