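import Pool.Agent.Lib.QG753.Stage
import Pool.Agent.Lib.QG753.Duhamel

/-!
# MP_753acd_an: one step estimates

PROOFS. `Q.gen α ν (n+1) (n+1) = Q.gen α ν n n + D`, `D = (T (ν n) - 1) + (1/2)^(n+1) • (T (α n) - 1)`
and `Q.gen α ν k (n+1) = Q.gen α ν k n + (T (ν n) - 1)`. Apply `duhamel_le` with
`φ X = X x` (for `step_le`: `exp ((t-s)(G+D))` is a contraction by `ev_mem_Adm`, and
`‖D (ev n n s x)‖ ≤ c + 2 (1/2)^(n+1) ‖x‖`), and with `φ X = σ ∘ (X * T (α i))`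
(for `step_k`: `σ ∘ ev k (n+1) (t-s)` is a state, `Y = ev k n s * T (α i)` is admissible,
`norm_conv_sub_le` and `condB`); `step_L` is the combination of both (`σ = e`, `k = n`, `i = 0`).
-/

open Filter Topology

noncomputable section

namespace QG753

namespace ConvSys

variable {A : Type} [NormedAddCommGroup A] [NormedSpace ℂ A] [CompleteSpace A] (Q : ConvSys A)
  {g : ℕ → (A →L[ℂ] ℂ)} {a : ℕ → A} {nu : ℕ → (A →L[ℂ] ℂ)}
  {p : ℕ → (A →L[ℂ] ℂ) × A × (A →L[ℂ] ℂ)}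

private theorem al_St (hp : ∀ n, Q.Cond g a nu p n) (i : ℕ) : (p i).1 ∈ Q.St :=
  Q.L_sub (hp i).α_mem

private theorem nu_St (I : Q.Inputs g a nu) (hp : ∀ n, Q.Cond g a nu p n) (i : ℕ) :
    (p i).2.2 ∈ Q.St := by
  obtain ⟨j, hj⟩ := (hp i).ν_mem
  rw [hj]
  exact I.nu_mem j

private theorem ev_Adm (I : Q.Inputs g a nu) (hp : ∀ n, Q.Cond g a nu p n) (k n : ℕ) {t : ℝ}
    (ht : 0 ≤ t) : Q.ev (fun i => (p i).1) (fun i => (p i).2.2) k n t ∈ Q.Adm :=
  Q.ev_mem_Adm (fun i _ => Q.al_St hp i) (fun i _ => Q.nu_St I hp i) ht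

private theorem gen_succ (α ν : ℕ → (A →L[ℂ] ℂ)) (n : ℕ) :
    Q.gen α ν (n + 1) (n + 1) = Q.gen α ν n n +
      ((Q.T (ν n) - 1) + ((1 / 2 : ℝ) ^ (n + 1)) • (Q.T (α n) - 1)) := by
  unfold gen
  rw [Finset.sum_range_succ, Finset.sum_range_succ]
  abel

private theorem gen_succ' (α ν : ℕ → (A →L[ℂ] ℂ)) (k n : ℕ) :
    Q.gen α ν k (n + 1) = Q.gen α ν k n + (Q.T (ν n) - 1) := by
  unfold gen
  rw [Finset.sum_range_succ]
  abel

theorem step_le (I : Q.Inputs g a nu) (hp : ∀ n, Q.Cond g a nu p n) (n : ℕ) {x : A} {c : ℝ}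
    (hx : ∀ s ∈ Set.Icc (0 : ℝ) (tau n), ‖(Q.T (p n).2.2 - 1)
      (Q.ev (fun i => (p i).1) (fun i => (p i).2.2) n n s x)‖ ≤ c) :
    ∀ t ∈ Set.Icc (0 : ℝ) (tau n),
      ‖Q.ev (fun i => (p i).1) (fun i => (p i).2.2) (n + 1) (n + 1) t x -
        Q.ev (fun i => (p i).1) (fun i => (p i).2.2) n n t x‖ ≤
      t * (c + 2 * (1 / 2) ^ (n + 1) * ‖x‖) := by
  intro t ht
  have h1 := duhamel_le ((ContinuousLinearMap.apply ℂ A x).restrictScalars ℝ)
    (Q.gen (fun i => (p i).1) (fun i => (p i).2.2) n n)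
    ((Q.T (p n).2.2 - 1) + ((1 / 2 : ℝ) ^ (n + 1)) • (Q.T (p n).1 - 1))
    (t := t) (c := c + 2 * (1 / 2) ^ (n + 1) * ‖x‖) ht.1 ?_
  · have h2 : Q.ev (fun i => (p i).1) (fun i => (p i).2.2) (n + 1) (n + 1) t x -
        Q.ev (fun i => (p i).1) (fun i => (p i).2.2) n n t x =
        ((ContinuousLinearMap.apply ℂ A x).restrictScalars ℝ)
        (NormedSpace.exp (t • (Q.gen (fun i => (p i).1) (fun i => (p i).2.2) n n +
          ((Q.T (p n).2.2 - 1) + ((1 / 2 : ℝ) ^ (n + 1)) • (Q.T (p n).1 - 1)))) -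
          NormedSpace.exp (t • Q.gen (fun i => (p i).1) (fun i => (p i).2.2) n n)) := by
      unfold ev
      rw [gen_succ]
      rfl
    rw [h2]
    refine h1.trans (le_of_eq ?_)
    ring
  · intro s hs
    have h3 : NormedSpace.exp ((t - s) • (Q.gen (fun i => (p i).1) (fun i => (p i).2.2) n n +
          ((Q.T (p n).2.2 - 1) + ((1 / 2 : ℝ) ^ (n + 1)) • (Q.T (p n).1 - 1)))) ∈ Q.Adm := by
      have := Q.ev_Adm I hp (n + 1) (n + 1) (t := t - s) (by linarith [hs.2])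
      unfold ev at this
      rw [gen_succ] at this
      exact this
    have h4 := Q.ev_Adm I hp n n (t := s) hs.1
    have h5 := hx s ⟨hs.1, hs.2.trans ht.2⟩
    have h6 : ‖(((Q.T (p n).2.2 - 1) + ((1 / 2 : ℝ) ^ (n + 1)) • (Q.T (p n).1 - 1) : A →L[ℂ] A))
        (Q.ev (fun i => (p i).1) (fun i => (p i).2.2) n n s x)‖ ≤
        c + 2 * (1 / 2) ^ (n + 1) * ‖x‖ := by
      rw [ContinuousLinearMap.add_apply]
      refine (norm_add_le _ _).trans (add_le_add h5 ?_)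
      rw [ContinuousLinearMap.smul_apply, norm_smul, Real.norm_of_nonneg (by positivity)]
      have h7 : ‖(Q.T (p n).1 - 1) (Q.ev (fun i => (p i).1) (fun i => (p i).2.2) n n s x)‖ ≤
          2 * ‖x‖ := by
        refine (ContinuousLinearMap.le_opNorm _ _).trans ?_
        have h8 : ‖Q.T (p n).1 - 1‖ ≤ 2 := by
          refine (norm_sub_le _ _).trans ?_
          have h9 := Q.norm_T _ (Q.al_St hp n)
          have h10 := Q.one_mem_Adm.1
          linarith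
        have h11 : ‖Q.ev (fun i => (p i).1) (fun i => (p i).2.2) n n s x‖ ≤ ‖x‖ := by
          refine (ContinuousLinearMap.le_opNorm _ _).trans ?_
          exact mul_le_of_le_one_left (norm_nonneg _) h4.1
        exact mul_le_mul h8 h11 (norm_nonneg _) (by norm_num)
      calc (1 / 2 : ℝ) ^ (n + 1) * ‖(Q.T (p n).1 - 1)
            (Q.ev (fun i => (p i).1) (fun i => (p i).2.2) n n s x)‖
          ≤ (1 / 2 : ℝ) ^ (n + 1) * (2 * ‖x‖) :=
            mul_le_mul_of_nonneg_left h7 (by positivity)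
        _ = _ := by ring
    refine le_trans ?_ h6
    exact (ContinuousLinearMap.le_opNorm (NormedSpace.exp ((t - s) •
      (Q.gen (fun i => (p i).1) (fun i => (p i).2.2) n n +
          ((Q.T (p n).2.2 - 1) + ((1 / 2 : ℝ) ^ (n + 1)) • (Q.T (p n).1 - 1))))) _).trans
      (mul_le_of_le_one_left (norm_nonneg _) h3.1)

/-- `X ↦ σ ∘ (X * Y)` -/
private def lmap (σ : A →L[ℂ] ℂ) (Y : A →L[ℂ] A) : (A →L[ℂ] A) →L[ℝ] (A →L[ℂ] ℂ) :=
  ((ContinuousLinearMap.compL ℂ A A ℂ σ).comp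
    ((ContinuousLinearMap.compL ℂ A A A).flip Y)).restrictScalars ℝ

private theorem lmap_apply (σ : A →L[ℂ] ℂ) (Y X : A →L[ℂ] A) : lmap σ Y X = σ.comp (X * Y) :=
  rfl

theorem step_k (I : Q.Inputs g a nu) (hp : ∀ n, Q.Cond g a nu p n) {k n i : ℕ} (hk : k ≤ n)
    (hi : i ≤ n) {σ : A →L[ℂ] ℂ} (hσ : σ ∈ Q.St) :
    ∀ t ∈ Set.Icc (0 : ℝ) (tau n),
      ‖σ.comp ((Q.ev (fun i => (p i).1) (fun i => (p i).2.2) k (n + 1) t -
        Q.ev (fun i => (p i).1) (fun i => (p i).2.2) k n t) * Q.T (p i).1)‖ ≤ t * eta n := by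
  intro t ht
  have h1 := duhamel_le (lmap σ (Q.T (p i).1))
    (Q.gen (fun i => (p i).1) (fun i => (p i).2.2) k n)
    (Q.T (p n).2.2 - 1) (t := t) (c := eta n) ht.1 ?_
  · have h2 : σ.comp ((Q.ev (fun i => (p i).1) (fun i => (p i).2.2) k (n + 1) t -
        Q.ev (fun i => (p i).1) (fun i => (p i).2.2) k n t) * Q.T (p i).1) =
        lmap σ (Q.T (p i).1)
        (NormedSpace.exp (t • (Q.gen (fun i => (p i).1) (fun i => (p i).2.2) k n +
          (Q.T (p n).2.2 - 1))) -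
          NormedSpace.exp (t • Q.gen (fun i => (p i).1) (fun i => (p i).2.2) k n)) := by
      rw [lmap_apply]
      unfold ev
      rw [gen_succ']
    rw [h2]
    refine h1.trans (le_of_eq ?_)
    ring
  · intro s hs
    have h3 : NormedSpace.exp ((t - s) • (Q.gen (fun i => (p i).1) (fun i => (p i).2.2) k n +
          (Q.T (p n).2.2 - 1))) ∈ Q.Adm := by
      have := Q.ev_Adm I hp k (n + 1) (t := t - s) (by linarith [hs.2])
      unfold ev at this
      rw [gen_succ'] at this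
      exact this
    have h4 := Q.ev_Adm I hp k n (t := s) hs.1
    have h5 := h3.2.2 σ hσ
    have h6 := Q.mul_mem_Adm h4 (Q.T_mem_Adm (Q.al_St hp i))
    have h7 := Q.norm_conv_sub_le h6 h5 (Q.nu_St I hp n)
    have h8 := (hp n).condB k hk i hi s ⟨hs.1, hs.2.trans ht.2⟩
    refine le_trans (le_of_eq ?_) (h7.trans h8)
    rw [lmap_apply]
    rfl

theorem step_L (I : Q.Inputs g a nu) (hp : ∀ n, Q.Cond g a nu p n) (n : ℕ) :
    ∀ t ∈ Set.Icc (0 : ℝ) (tau n),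
      ‖(Q.e).comp ((Q.ev (fun i => (p i).1) (fun i => (p i).2.2) (n + 1) (n + 1) t -
        Q.ev (fun i => (p i).1) (fun i => (p i).2.2) n n t) * Q.T (p 0).1)‖ ≤
      t * (eta n + 2 * (1 / 2) ^ (n + 1)) := by
  intro t ht
  have h1 := duhamel_le (lmap Q.e (Q.T (p 0).1))
    (Q.gen (fun i => (p i).1) (fun i => (p i).2.2) n n)
    ((Q.T (p n).2.2 - 1) + ((1 / 2 : ℝ) ^ (n + 1)) • (Q.T (p n).1 - 1))
    (t := t) (c := eta n + 2 * (1 / 2) ^ (n + 1)) ht.1 ?_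
  · have h2 : Q.e.comp ((Q.ev (fun i => (p i).1) (fun i => (p i).2.2) (n + 1) (n + 1) t -
        Q.ev (fun i => (p i).1) (fun i => (p i).2.2) n n t) * Q.T (p 0).1) =
        lmap Q.e (Q.T (p 0).1)
        (NormedSpace.exp (t • (Q.gen (fun i => (p i).1) (fun i => (p i).2.2) n n +
          ((Q.T (p n).2.2 - 1) + ((1 / 2 : ℝ) ^ (n + 1)) • (Q.T (p n).1 - 1)))) -
          NormedSpace.exp (t • Q.gen (fun i => (p i).1) (fun i => (p i).2.2) n n)) := by
      rw [lmap_apply]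
      unfold ev
      rw [gen_succ]
    rw [h2]
    refine h1.trans (le_of_eq ?_)
    ring
  · intro s hs
    have h3 : NormedSpace.exp ((t - s) • (Q.gen (fun i => (p i).1) (fun i => (p i).2.2) n n +
          ((Q.T (p n).2.2 - 1) + ((1 / 2 : ℝ) ^ (n + 1)) • (Q.T (p n).1 - 1)))) ∈ Q.Adm := by
      have := Q.ev_Adm I hp (n + 1) (n + 1) (t := t - s) (by linarith [hs.2])
      unfold ev at this
      rw [gen_succ] at this
      exact this
    have h4 := Q.ev_Adm I hp n n (t := s) hs.1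
    obtain ⟨X, hX⟩ : ∃ X, X = NormedSpace.exp ((t - s) •
      (Q.gen (fun i => (p i).1) (fun i => (p i).2.2) n n +
          ((Q.T (p n).2.2 - 1) + ((1 / 2 : ℝ) ^ (n + 1)) • (Q.T (p n).1 - 1)))) := ⟨_, rfl⟩
    rw [← hX] at h3 ⊢
    have h5 := h3.2.2 Q.e Q.e_mem
    have h6 := Q.mul_mem_Adm h4 (Q.T_mem_Adm (Q.al_St hp 0))
    have h7 := Q.norm_conv_sub_le h6 h5 (Q.nu_St I hp n)
    have h8 := (hp n).condB n le_rfl 0 (Nat.zero_le n) s ⟨hs.1, hs.2.trans ht.2⟩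
    have h9 := Q.norm_conv_sub_le h6 h5 (Q.al_St hp n)
    have h10 : ‖((p n).1 - Q.e).comp
        (Q.ev (fun i => (p i).1) (fun i => (p i).2.2) n n s * Q.T (p 0).1)‖ ≤ 2 := by
      refine (ContinuousLinearMap.opNorm_comp_le _ _).trans ?_
      have h11 : ‖(p n).1 - Q.e‖ ≤ 2 := by
        refine (norm_sub_le _ _).trans ?_
        rw [Q.norm_eq _ (Q.al_St hp n), Q.norm_eq _ Q.e_mem]
        norm_num
      have h12 := h6.1
      nlinarith [norm_nonneg ((p n).1 - Q.e), norm_nonneg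
        (Q.ev (fun i => (p i).1) (fun i => (p i).2.2) n n s * Q.T (p 0).1)]
    have h13 : lmap Q.e (Q.T (p 0).1) (X * ((Q.T (p n).2.2 - 1) +
        ((1 / 2 : ℝ) ^ (n + 1)) • (Q.T (p n).1 - 1)) *
        NormedSpace.exp (s • Q.gen (fun i => (p i).1) (fun i => (p i).2.2) n n)) =
        (Q.e.comp X).comp ((Q.T (p n).2.2 - 1) *
          (Q.ev (fun i => (p i).1) (fun i => (p i).2.2) n n s * Q.T (p 0).1)) +
        ((1 / 2 : ℝ) ^ (n + 1)) • (Q.e.comp X).comp ((Q.T (p n).1 - 1) *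
          (Q.ev (fun i => (p i).1) (fun i => (p i).2.2) n n s * Q.T (p 0).1)) := by
      rw [lmap_apply]
      unfold ev
      ext y
      simp [ContinuousLinearMap.mul_def]
    rw [h13]
    refine (norm_add_le _ _).trans (add_le_add (h7.trans h8) ?_)
    rw [norm_smul, Real.norm_of_nonneg (by positivity)]
    calc (1 / 2 : ℝ) ^ (n + 1) * ‖(Q.e.comp X).comp ((Q.T (p n).1 - 1) *
          (Q.ev (fun i => (p i).1) (fun i => (p i).2.2) n n s * Q.T (p 0).1))‖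
        ≤ (1 / 2 : ℝ) ^ (n + 1) * 2 :=
          mul_le_mul_of_nonneg_left (h9.trans h10) (by positivity)
      _ = _ := by ring

end ConvSys

end QG753
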