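import Mathlib

/-!
# MP_753acd_an: the definitions used in the statement

The locally compact quantum group `G` enters through the multiplicative unitary `V` of its dual
(for `G` in the sense of Kustermans and Vaes, with `W ∈ L^∞(G) ⊗ L^∞(Ĝ)` on `H = L²(G)`:
`V = Ŵ = Σ W* Σ ∈ L^∞(Ĝ) ⊗ L^∞(G)`) and through the universal C*-algebra `A = C₀ᵘ(G)` with the
slices `x α β = (ω_{α,β} ⊗ id)(𝕍)` of the universal representation `𝕍 ∈ M(C₀(Ĝ) ⊗ C₀ᵘ(G))`.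
Hilbert space tensor products are completions of algebraic tensor products;
`ω_{α,β}(y) = ⟪β, y α⟫`.
-/

open scoped TensorProduct ComplexOrder InnerProductSpace
open UniformSpace

noncomputable section

namespace QG

section tensor

variable {H K L M : Type}
  [NormedAddCommGroup H] [InnerProductSpace ℂ H]
  [NormedAddCommGroup K] [InnerProductSpace ℂ K]
  [NormedAddCommGroup L] [InnerProductSpace ℂ L]
  [NormedAddCommGroup M] [InnerProductSpace ℂ M]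

/-- The elementary tensor `a ⊗ k` in the Hilbert space tensor product. -/
def tp (a : H) (k : K) : Completion (H ⊗[ℂ] K) :=
  ((a ⊗ₜ[ℂ] k : H ⊗[ℂ] K) : Completion (H ⊗[ℂ] K))

/-- The bounded operator `S ⊗ T`. -/
def opT (S : H →L[ℂ] H) (T : K →L[ℂ] K) : Completion (H ⊗[ℂ] K) →L[ℂ] Completion (H ⊗[ℂ] K) :=
  (TensorProduct.mapL S T).completion

/-- The matrix coefficient `(ω_{α,β} ⊗ ω_{k,l})(U) = ⟪β ⊗ l, U (α ⊗ k)⟫`. -/
def mc (U : Completion (H ⊗[ℂ] K) →L[ℂ] Completion (H ⊗[ℂ] K)) (α β : H) (k l : K) : ℂ :=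
  ⟪tp β l, U (tp α k)⟫_ℂ

/-- `s` is the slice `(ω_{α,β} ⊗ id)(U)`. -/
def IsSlice (U : Completion (H ⊗[ℂ] K) →L[ℂ] Completion (H ⊗[ℂ] K)) (α β : H)
    (s : K →L[ℂ] K) : Prop := ∀ k l, ⟪l, s k⟫_ℂ = mc U α β k l

/-- `c` is the slice `(id ⊗ ω_{k,l})(U)`. -/
def IsCo (U : Completion (H ⊗[ℂ] K) →L[ℂ] Completion (H ⊗[ℂ] K)) (k l : K)
    (c : H →L[ℂ] H) : Prop := ∀ α β, ⟪β, c α⟫_ℂ = mc U α β k l

/-- `‖U (α ⊗ k) - α ⊗ k‖`. -/
def defect (U : Completion (H ⊗[ℂ] K) →L[ℂ] Completion (H ⊗[ℂ] K)) (α : H) (k : K) : ℝ :=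
  ‖U (tp α k) - tp α k‖

end tensor

variable {H : Type} [NormedAddCommGroup H] [InnerProductSpace ℂ H] [CompleteSpace H]
  {K : Type} [NormedAddCommGroup K] [InnerProductSpace ℂ K] [CompleteSpace K]

/-- `⟪V (β ⊗ β'), (1 ⊗ c) V (α ⊗ α')⟫`, the coefficient of `V* (1 ⊗ c) V` at
`ω_{α,β} ⊗ ω_{α',β'}`. -/
def conjCoef (V : Completion (H ⊗[ℂ] H) →L[ℂ] Completion (H ⊗[ℂ] H)) (c : H →L[ℂ] H)
    (α β α' β' : H) : ℂ :=
  ⟪V (tp β β'), opT (ContinuousLinearMap.id ℂ H) c (V (tp α α'))⟫_ℂ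

/-- `V₁₂* U₂₃ V₁₂ = U₁₃ U₂₃` on `H ⊗ H ⊗ K`, evaluated at `ω_{α,β} ⊗ ω_{α',β'} ⊗ ω_{k,l}`:
with `c = (id ⊗ ω_{k,l})(U)`, `s = (ω_{α,β} ⊗ id)(U)`, `s' = (ω_{α',β'} ⊗ id)(U)` this reads
`⟪V (β ⊗ β'), (1 ⊗ c) V (α ⊗ α')⟫ = ⟪l, s s' k⟫`. -/
def RepEq (V : Completion (H ⊗[ℂ] H) →L[ℂ] Completion (H ⊗[ℂ] H))
    (U : Completion (H ⊗[ℂ] K) →L[ℂ] Completion (H ⊗[ℂ] K)) : Prop :=
  ∀ (α β α' β' : H) (k l : K) (s s' : K →L[ℂ] K) (c : H →L[ℂ] H),
    IsSlice U α β s → IsSlice U α' β' s' → IsCo U k l c →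
      conjCoef V c α β α' β' = ⟪l, s (s' k)⟫_ℂ

/-- A multiplicative unitary on `H ⊗ H`: `V₁₂* V₂₃ V₁₂ = V₁₃ V₂₃`. -/
structure MultUnitary (H : Type) [NormedAddCommGroup H] [InnerProductSpace ℂ H]
    [CompleteSpace H] where
  /-- the operator -/
  V : Completion (H ⊗[ℂ] H) →L[ℂ] Completion (H ⊗[ℂ] H)
  unitary : V ∈ unitary (Completion (H ⊗[ℂ] H) →L[ℂ] Completion (H ⊗[ℂ] H))
  pentagon : RepEq V V

/-- A unitary representation of the dual quantum group on `K`: a unitary `U` on `H ⊗ K` with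
`V₁₂* U₂₃ V₁₂ = U₁₃ U₂₃`. -/
structure URep (W : MultUnitary H) (K : Type) [NormedAddCommGroup K] [InnerProductSpace ℂ K]
    [CompleteSpace K] where
  /-- the operator -/
  U : Completion (H ⊗[ℂ] K) →L[ℂ] Completion (H ⊗[ℂ] K)
  unitary : U ∈ unitary (Completion (H ⊗[ℂ] K) →L[ℂ] Completion (H ⊗[ℂ] K))
  rep : RepEq W.V U

section reps

variable {A : Type} [NonUnitalCStarAlgebra A]

/-- Nondegenerate representations of a C*-algebra: the vectors `π(a) k` span a dense subspace. -/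
def Nondeg (π : A →⋆ₙₐ[ℂ] (K →L[ℂ] K)) : Prop :=
  Dense (Submodule.span ℂ (Set.range fun p : A × K => π p.1 p.2) : Set K)

/-- The representation `π` of the C*-algebra `A` corresponds to the unitary representation `U` of
the dual quantum group: `π (x α β) = (ω_{α,β} ⊗ id)(U)`. -/
def Corr {W : MultUnitary H} (x : H →ₗ[ℂ] H →ₗ⋆[ℂ] A) (U : URep W K)
    (π : A →⋆ₙₐ[ℂ] (K →L[ℂ] K)) : Prop :=
  ∀ α β, IsSlice U.U α β (π (x α β))

/-- Every unitary representation of the dual on `K` comes from a nondegenerate representation of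
`A`. -/
def ToRep (W : MultUnitary H) (x : H →ₗ[ℂ] H →ₗ⋆[ℂ] A) (K : Type) [NormedAddCommGroup K]
    [InnerProductSpace ℂ K] [CompleteSpace K] : Prop :=
  ∀ U : URep W K, ∃ π : A →⋆ₙₐ[ℂ] (K →L[ℂ] K), Nondeg π ∧ Corr x U π

/-- Every nondegenerate representation of `A` on `K` comes from a unitary representation of the
dual. -/
def OfRep (W : MultUnitary H) (x : H →ₗ[ℂ] H →ₗ⋆[ℂ] A) (K : Type) [NormedAddCommGroup K]
    [InnerProductSpace ℂ K] [CompleteSpace K] : Prop :=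
  ∀ π : A →⋆ₙₐ[ℂ] (K →L[ℂ] K), Nondeg π → ∃ U : URep W K, Corr x U π

end reps

/-- `A` is the universal C*-algebra `C₀ᵘ(G)`: it is densely spanned by elements
`x α β = (ω_{α,β} ⊗ id)(𝕍)`, and its nondegenerate representations `π` correspond to the unitary
representations `U` of the dual quantum group by `π (x α β) = (ω_{α,β} ⊗ id)(U)`. -/
structure UniversalAlgebra (W : MultUnitary H) (A : Type) [NonUnitalCStarAlgebra A] where
  /-- the slices of the universal representation -/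
  x : H →ₗ[ℂ] H →ₗ⋆[ℂ] A
  norm_x_le : ∀ α β, ‖x α β‖ ≤ ‖α‖ * ‖β‖
  dense : Dense (Submodule.span ℂ (Set.range fun p : H × H => x p.1 p.2) : Set A)
  toRep : ∀ (K : Type) [NormedAddCommGroup K] [InnerProductSpace ℂ K] [CompleteSpace K],
    ToRep W x K
  ofRep : ∀ (K : Type) [NormedAddCommGroup K] [InnerProductSpace ℂ K] [CompleteSpace K],
    OfRep W x K

/-- The slices `(ω_{α,β} ⊗ id)(V)` and their adjoints. -/
def Gen (W : MultUnitary H) : Set (H →L[ℂ] H) :=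
  {s | ∃ α β : H, IsSlice W.V α β s ∨ IsSlice W.V α β (star s)}

/-- `L^∞(G)`, the von Neumann algebra generated by the slices `(ω_{α,β} ⊗ id)(V)`: the bicommutant
of these slices and their adjoints. -/
def Linf (W : MultUnitary H) : Set (H →L[ℂ] H) := Set.centralizer (Set.centralizer (Gen W))

/-- The coefficient `(ω_{ξ,η} ⊗ ω_{k,l})(Δ(y)) = ⟪V* (l ⊗ η), (y ⊗ 1) V* (k ⊗ ξ)⟫` for the
comultiplication `Δ(y) = Σ V (y ⊗ 1) V* Σ` (that is `W*(1 ⊗ y)W` for `W = Σ V* Σ`). -/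
def comulCoef (W : MultUnitary H) (y : H →L[ℂ] H) (ξ η k l : H) : ℂ :=
  ⟪star W.V (tp l η), opT y (ContinuousLinearMap.id ℂ H) (star W.V (tp k ξ))⟫_ℂ

/-- `z = (ω_{ξ,η} ⊗ id)(Δ(y))`. -/
def IsSliceComul (W : MultUnitary H) (y : H →L[ℂ] H) (ξ η : H) (z : H →L[ℂ] H) : Prop :=
  ∀ k l : H, ⟪l, z k⟫_ℂ = comulCoef W y ξ η k l

/-- `m` is a state of `L^∞(G)`. -/
def IsStateOn (W : MultUnitary H) (m : (H →L[ℂ] H) →ₗ[ℂ] ℂ) : Prop :=
  m 1 = 1 ∧ ∀ y ∈ Linf W, 0 ≤ m (star y * y)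

/-- `m` (a linear functional on `B(H)`, which matters only on `L^∞(G)`) is a left invariant mean
on `L^∞(G)`. -/
def IsMean (W : MultUnitary H) (m : (H →L[ℂ] H) →ₗ[ℂ] ℂ) : Prop :=
  IsStateOn W m ∧ ∀ y z : H →L[ℂ] H, y ∈ Linf W → z ∈ Linf W → ∀ ξ η : H,
    IsSliceComul W y ξ η z → m z = ⟪η, ξ⟫_ℂ * m y

/-- Amenability of `G`: there is a left invariant mean on `L^∞(G)`. -/
def Amenable (W : MultUnitary H) : Prop := ∃ m : (H →L[ℂ] H) →ₗ[ℂ] ℂ, IsMean W m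

/-- The representation has almost invariant vectors. -/
def AlmostInv {W : MultUnitary H} (U : URep W K) : Prop :=
  ∀ (F : Finset H) (δ : ℝ), 0 < δ → ∃ k : K, ‖k‖ = 1 ∧ ∀ α ∈ F, defect U.U α k < δ

/-- The representation has a nonzero invariant vector. -/
def HasInv {W : MultUnitary H} (U : URep W K) : Prop :=
  ∃ k : K, k ≠ 0 ∧ ∀ α : H, defect U.U α k = 0

/-- Property (T) for the representations on `K`. -/
def TOn (W : MultUnitary H) (K : Type) [NormedAddCommGroup K]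
    [InnerProductSpace ℂ K] [CompleteSpace K] : Prop :=
  ∀ U : URep W K, AlmostInv U → HasInv U

/-- The dual quantum group has property (T). -/
def DualPropertyT (W : MultUnitary H) : Prop :=
  ∀ (K : Type) [NormedAddCommGroup K] [InnerProductSpace ℂ K] [CompleteSpace K], TOn W K

variable {W : MultUnitary H} {A : Type} [NonUnitalCStarAlgebra A]

/-- States of a C*-algebra. -/
def IsState (f : A →L[ℂ] ℂ) : Prop := (∀ a, 0 ≤ f (star a * a)) ∧ ‖f‖ = 1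

/-- `b` is the coefficient operator `(id ⊗ f)(𝕍)` of the functional `f`. -/
def IsCoef (C : UniversalAlgebra W A) (f : A →L[ℂ] ℂ) (b : H →L[ℂ] H) : Prop :=
  ∀ α β, f (C.x α β) = ⟪β, b α⟫_ℂ

/-- `κ` is the convolution `μ ⋆ ν = (μ ⊗ ν) ∘ Δᵤ`; here `(id ⊗ Δᵤ)(𝕍) = 𝕍₁₃ 𝕍₁₂`. -/
def IsConv (C : UniversalAlgebra W A) (μ ν κ : A →L[ℂ] ℂ) : Prop :=
  ∃ b c : H →L[ℂ] H, IsCoef C μ b ∧ IsCoef C ν c ∧ IsCoef C κ (c * b)

/-- `f = ω_{ξ,η} ∘ Λ` for some `ξ, η`, where `Λ` is the reducing morphism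
`Λ (x α β) = (ω_{α,β} ⊗ id)(V)`. -/
def IsVec (C : UniversalAlgebra W A) (f : A →L[ℂ] ℂ) : Prop :=
  ∃ ξ η : H, ∀ α β, f (C.x α β) = mc W.V α β ξ η

/-- `L¹(G)` as a subspace of `C₀ᵘ(G)*`: the closed span of the functionals `ω_{ξ,η} ∘ Λ`. -/
def L1 (C : UniversalAlgebra W A) : Submodule ℂ (A →L[ℂ] ℂ) :=
  (Submodule.span ℂ {f : A →L[ℂ] ℂ | IsVec C f}).topologicalClosure

/-- A `w*`-continuous convolution semigroup of states on `G` which is not norm continuous and is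
asymptotically left invariant. -/
def GoodSemigroup (C : UniversalAlgebra W A) (μ : NNReal → (A →L[ℂ] ℂ)) : Prop :=
  (∀ t, IsState (μ t)) ∧ (∀ α β, μ 0 (C.x α β) = ⟪β, α⟫_ℂ) ∧
  (∀ s t, IsConv C (μ s) (μ t) (μ (s + t))) ∧
  (∀ a, Continuous fun t => μ t a) ∧ ¬ Continuous μ ∧
  ∀ ω ∈ L1 C, IsState ω → ∃ κ : NNReal → (A →L[ℂ] ℂ), (∀ t, IsConv C ω (μ t) (κ t)) ∧
    Filter.Tendsto (fun t => ‖κ t - μ t‖) Filter.atTop (nhds 0)

end QG
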