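import Pool.Agent.Lib.QG753.Main
import Pool.Agent.Lib.QG753.Stmt

/-!
# MP_753acd_an: transfer

The definitions of `Stmt.lean` (used in the statement) are equivalent to those of `Defs.lean`
(used in the proof).
-/

open scoped TensorProduct ComplexOrder InnerProductSpace
open ContinuousLinearMap UniformSpace

noncomputable section

namespace QG753T

open QG753

section legs

variable {H : Type} [NormedAddCommGroup H] [InnerProductSpace ℂ H] [CompleteSpace H]
  {K : Type} [NormedAddCommGroup K] [InnerProductSpace ℂ K] [CompleteSpace K]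

theorem isSlice_iff {U : HT H K →L[ℂ] HT H K} {α β : H} {s : K →L[ℂ] K} :
    QG.IsSlice U α β s ↔ s = slice U α β := by
  constructor
  · intro h
    ext k
    refine ext_inner_left ℂ fun l => ?_
    rw [h k l, inner_slice]
    rfl
  · rintro rfl k l
    exact inner_slice U α β k l

theorem isCo_iff {U : HT H K →L[ℂ] HT H K} {k l : K} {c : H →L[ℂ] H} :
    QG.IsCo U k l c ↔ c = coefOp U k l := by
  constructor
  · intro h
    ext a
    refine ext_inner_left ℂ fun b => ?_
    rw [h a b, inner_coefOp]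
    rfl
  · rintro rfl a b
    exact inner_coefOp U k l a b

/-- `⟪assocT (w ⊗ l), U₂₃ (assocT (z ⊗ k))⟫ = ⟪w, (1 ⊗ c) z⟫`. -/
theorem inner_leg23 (U : HT H K →L[ℂ] HT H K) (k l : K) (z w : HT H H) :
    ⟪assocT H H K (tp w l), leg23 H U (assocT H H K (tp z k))⟫_ℂ =
      ⟪w, opT (ContinuousLinearMap.id ℂ H) (coefOp U k l) z⟫_ℂ := by
  have h : (adjoint ((assocT H H K).comp (tpL (HT H H) l))).comp
      ((leg23 H U).comp ((assocT H H K).comp (tpL (HT H H) k))) =
      opT (ContinuousLinearMap.id ℂ H) (coefOp U k l) := by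
    refine clm_ext fun a a' => vec_ext fun b b' => ?_
    rw [ContinuousLinearMap.comp_apply, adjoint_inner_right]
    simp only [ContinuousLinearMap.comp_apply, tpL_apply, assocT_tp, leg23_tp, inner_tp, opT_tp,
      inner_coefOp, ContinuousLinearMap.id_apply]
  rw [← h, ContinuousLinearMap.comp_apply, adjoint_inner_right]
  rfl

theorem inner_leg13 (U : HT H K →L[ℂ] HT H K) (α β β' : H) (l : K) (z : HT H K) :
    ⟪tp β (tp β' l), leg13 H U (tp α z)⟫_ℂ =
      ⟪tp β' l, opT (ContinuousLinearMap.id ℂ H) (slice U α β) z⟫_ℂ := by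
  have h0 : ∀ (a : H) (w : HT H K),
      ⟪tp β (tp β' l), opT (ContinuousLinearMap.id ℂ H) (flipT K H)
        (assocT H K H (tp w a))⟫_ℂ = ⟪β', a⟫_ℂ * ⟪tp β l, w⟫_ℂ := by
    intro a w
    have h : (innerSL ℂ (tp β (tp β' l))).comp
        ((opT (ContinuousLinearMap.id ℂ H) (flipT K H)).comp
          ((assocT H K H).comp (tpL (HT H K) a))) = ⟪β', a⟫_ℂ • innerSL ℂ (tp β l) := by
      refine clm_ext fun b m => ?_
      simp only [ContinuousLinearMap.comp_apply, tpL_apply, assocT_tp, opT_tp, flipT_tp,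
        ContinuousLinearMap.id_apply, innerSL_apply_apply, inner_tp,
        smul_apply, smul_eq_mul]
      ring
    have h1 := DFunLike.congr_fun h w
    simpa only [ContinuousLinearMap.comp_apply, tpL_apply, innerSL_apply_apply,
      smul_apply, smul_eq_mul] using h1
  have h : (innerSL ℂ (tp β (tp β' l))).comp ((leg13 H U).comp (tpR (HT H K) α)) =
      (innerSL ℂ (tp β' l)).comp (opT (ContinuousLinearMap.id ℂ H) (slice U α β)) := by
    refine clm_ext fun a k => ?_
    simp only [ContinuousLinearMap.comp_apply, tpR_apply, leg13_tp, innerSL_apply_apply, h0,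
      opT_tp, inner_tp, inner_slice, ContinuousLinearMap.id_apply]
  have h1 := DFunLike.congr_fun h z
  simpa only [ContinuousLinearMap.comp_apply, tpR_apply, innerSL_apply_apply] using h1

theorem inner_lhs (V : HT H H →L[ℂ] HT H H) (U : HT H K →L[ℂ] HT H K)
    (α β α' β' : H) (k l : K) :
    ⟪tp β (tp β' l), (star (leg12 K V) * leg23 H U * leg12 K V) (tp α (tp α' k))⟫_ℂ =
      QG.conjCoef V (coefOp U k l) α β α' β' := by
  have h : (star (leg12 K V) * leg23 H U * leg12 K V) (tp α (tp α' k)) =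
      adjoint (leg12 K V) (leg23 H U (leg12 K V (tp α (tp α' k)))) := rfl
  rw [h, adjoint_inner_right, leg12_tp, leg12_tp, inner_leg23]
  rfl

theorem inner_rhs (U : HT H K →L[ℂ] HT H K) (α β α' β' : H) (k l : K) :
    ⟪tp β (tp β' l), (leg13 H U * leg23 H U) (tp α (tp α' k))⟫_ℂ =
      ⟪l, slice U α β (slice U α' β' k)⟫_ℂ := by
  have h : (leg13 H U * leg23 H U) (tp α (tp α' k)) =
      leg13 H U (leg23 H U (tp α (tp α' k))) := rfl
  have h2 : adjoint (ContinuousLinearMap.id ℂ H) = ContinuousLinearMap.id ℂ H := by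
    ext a
    refine ext_inner_left ℂ fun b => ?_
    rw [adjoint_inner_right]
    rfl
  rw [h, leg23_tp, inner_leg13, ← adjoint_inner_left, adjoint_opT, opT_tp, h2,
    ContinuousLinearMap.id_apply, ← inner_slice, adjoint_inner_left]

theorem repEq_iff {V : HT H H →L[ℂ] HT H H} {U : HT H K →L[ℂ] HT H K} :
    QG.RepEq V U ↔
      star (leg12 K V) * leg23 H U * leg12 K V = leg13 H U * leg23 H U := by
  constructor
  · intro h
    refine clm_ext3' fun α α' k => ?_
    have h1 : ∀ (β β' : H) (l : K),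
        ⟪tp β (tp β' l), (star (leg12 K V) * leg23 H U * leg12 K V) (tp α (tp α' k))⟫_ℂ =
          ⟪tp β (tp β' l), (leg13 H U * leg23 H U) (tp α (tp α' k))⟫_ℂ := by
      intro β β' l
      rw [inner_lhs, inner_rhs]
      exact h α β α' β' k l _ _ _ (isSlice_iff.2 rfl) (isSlice_iff.2 rfl) (isCo_iff.2 rfl)
    have h2 : innerSL ℂ ((star (leg12 K V) * leg23 H U * leg12 K V) (tp α (tp α' k))) =
        innerSL ℂ ((leg13 H U * leg23 H U) (tp α (tp α' k))) := by
      refine clm_ext3' fun β β' l => ?_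
      rw [innerSL_apply_apply, innerSL_apply_apply, ← inner_conj_symm, h1, inner_conj_symm]
    refine ext_inner_right ℂ fun v => ?_
    exact DFunLike.congr_fun h2 v
  · intro h α β α' β' k l s s' c hs hs' hc
    rw [isSlice_iff] at hs hs'
    rw [isCo_iff] at hc
    subst hs hs' hc
    rw [← inner_lhs, h, inner_rhs]

theorem pentagon_iff {V : HT H H →L[ℂ] HT H H} (hV : V ∈ unitary (HT H H →L[ℂ] HT H H)) :
    QG.RepEq V V ↔ leg12 H V * leg13 H V * leg23 H V = leg23 H V * leg12 H V := by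
  have hL := Unitary.mem_iff.1 (unitary_leg12 (L := H) V hV)
  rw [repEq_iff]
  constructor
  · intro h
    rw [mul_assoc, ← h, ← mul_assoc, ← mul_assoc, hL.2, one_mul]
  · intro h
    rw [mul_assoc, ← h, mul_assoc, ← mul_assoc, hL.1, one_mul]

end legs

section structs

variable {H : Type} [NormedAddCommGroup H] [InnerProductSpace ℂ H] [CompleteSpace H]

/-- The multiplicative unitary in the sense of `Defs.lean`. -/
def toW (W : QG.MultUnitary H) : MultUnitary H where
  V := W.V
  unitary := W.unitary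
  pentagon := (pentagon_iff W.unitary).1 W.pentagon

variable {W : QG.MultUnitary H} {K : Type} [NormedAddCommGroup K] [InnerProductSpace ℂ K]
  [CompleteSpace K]

/-- The representation in the sense of `Defs.lean`. -/
def toU (U : QG.URep W K) : URep (toW W) K where
  U := U.U
  unitary := U.unitary
  rep := repEq_iff.1 U.rep

/-- The representation in the sense of `Stmt.lean`. -/
def ofU (U : URep (toW W) K) : QG.URep W K where
  U := U.U
  unitary := U.unitary
  rep := repEq_iff.2 U.rep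

variable {A : Type} [NonUnitalCStarAlgebra A]

/-- The universal algebra in the sense of `Defs.lean`. -/
def toC (C : QG.UniversalAlgebra W A) : UniversalAlgebra (toW W) A where
  x := C.x
  norm_x_le := C.norm_x_le
  dense := C.dense
  toRep := fun K _ _ _ U => by
    obtain ⟨π, h1, h2⟩ := C.toRep K (ofU U)
    exact ⟨π, h1, fun α β => isSlice_iff.1 (h2 α β)⟩
  ofRep := fun K _ _ _ π hπ => by
    obtain ⟨U, h⟩ := C.ofRep K π hπ
    exact ⟨toU U, fun α β => isSlice_iff.1 (h α β)⟩

theorem gen_eq (W : QG.MultUnitary H) :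
    QG.Gen W = (Set.range fun p : H × H => slice (toW W).V p.1 p.2) ∪
      star (Set.range fun p : H × H => slice (toW W).V p.1 p.2) := by
  ext s
  constructor
  · rintro ⟨α, β, h | h⟩
    · exact Or.inl ⟨(α, β), (isSlice_iff.1 h).symm⟩
    · exact Or.inr ⟨(α, β), (isSlice_iff.1 h).symm⟩
  · rintro (⟨p, hp⟩ | ⟨p, hp⟩)
    · exact ⟨p.1, p.2, Or.inl (isSlice_iff.2 hp.symm)⟩
    · exact ⟨p.1, p.2, Or.inr (isSlice_iff.2 hp.symm)⟩

theorem linf_eq (W : QG.MultUnitary H) :
    QG.Linf W = (Linf (toW W) : Set (H →L[ℂ] H)) := by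
  rw [QG.Linf, Linf, gen_eq, StarSubalgebra.coe_centralizer_centralizer]

theorem mem_linf {y : H →L[ℂ] H} : y ∈ QG.Linf W ↔ y ∈ Linf (toW W) := by
  rw [linf_eq]
  rfl

theorem isSliceComul_iff {y z : H →L[ℂ] H} {ξ η : H} :
    QG.IsSliceComul W y ξ η z ↔ z = slice (comul (toW W) y) ξ η := by
  have h : ∀ k l : H, ⟪l, slice (comul (toW W) y) ξ η k⟫_ℂ = QG.comulCoef W y ξ η k l := by
    intro k l
    rw [slice_comul, inner_coefOp]
    change ⟪tp l η, (toW W).V (opT y (1 : H →L[ℂ] H) (star (toW W).V (tp k ξ)))⟫_ℂ = _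
    rw [← adjoint_inner_left]
    rfl
  constructor
  · intro hz
    ext k
    refine ext_inner_left ℂ fun l => ?_
    rw [hz k l, h]
  · rintro rfl k l
    exact h k l

theorem amenable_iff (W : QG.MultUnitary H) : QG.Amenable W ↔ Amenable (toW W) := by
  constructor
  · rintro ⟨m, ⟨h1, h2⟩, h3⟩
    refine ⟨m.comp (Linf (toW W)).toSubalgebra.toSubmodule.subtype, fun y => ?_, h1,
      fun ξ η y z hz => ?_⟩
    · exact h2 _ (mem_linf.2 y.2)
    · exact h3 _ _ (mem_linf.2 y.2) (mem_linf.2 z.2) ξ η (isSliceComul_iff.2 hz)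
  · rintro ⟨m, h1, h2, h3⟩
    obtain ⟨g, hg⟩ := LinearMap.exists_extend (p := (Linf (toW W)).toSubalgebra.toSubmodule) m
    have hg' : ∀ y : Linf (toW W), g (y : H →L[ℂ] H) = m y := fun y => DFunLike.congr_fun hg y
    refine ⟨g, ⟨?_, fun y hy => ?_⟩, fun y z hy hz ξ η h => ?_⟩
    · rw [← h2, ← hg']
      rfl
    · have h4 := h1 ⟨y, mem_linf.1 hy⟩
      rw [← hg'] at h4
      exact h4
    · have h4 := h3 ξ η ⟨y, mem_linf.1 hy⟩ ⟨z, mem_linf.1 hz⟩ (isSliceComul_iff.1 h)
      rw [← hg', ← hg'] at h4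
      exact h4

theorem defect_zero_iff {U : HT H K →L[ℂ] HT H K} {α : H} {k : K} :
    QG.defect U α k = 0 ↔ U (tp α k) = tp α k := by
  change ‖U (tp α k) - tp α k‖ = 0 ↔ _
  rw [norm_eq_zero, sub_eq_zero]

theorem dualPropertyT_iff (W : QG.MultUnitary H) :
    QG.DualPropertyT W ↔ DualPropertyT (toW W) := by
  constructor
  · intro h K _ _ _ U hU
    obtain ⟨k, hk, hk'⟩ := h K (ofU U) hU
    exact ⟨k, hk, fun α => defect_zero_iff.1 (hk' α)⟩
  · intro h K _ _ _ U hU
    obtain ⟨k, hk, hk'⟩ := h K (toU U) hU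
    exact ⟨k, hk, fun α => defect_zero_iff.2 (hk' α)⟩

theorem isVec_iff (C : QG.UniversalAlgebra W A) (f : A →L[ℂ] ℂ) :
    QG.IsVec C f ↔ ∃ ξ η : H, ∀ α β,
      f ((toC C).x α β) = ⟪η, slice (toW W).V α β ξ⟫_ℂ := by
  constructor
  · rintro ⟨ξ, η, h⟩
    refine ⟨ξ, η, fun α β => ?_⟩
    rw [inner_slice]
    exact h α β
  · rintro ⟨ξ, η, h⟩
    refine ⟨ξ, η, fun α β => ?_⟩
    have h1 := h α β
    rw [inner_slice] at h1
    exact h1

theorem l1_eq (C : QG.UniversalAlgebra W A) : QG.L1 C = L1 (toC C) := by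
  have h : {f : A →L[ℂ] ℂ | QG.IsVec C f} = {f : A →L[ℂ] ℂ | ∃ ξ η : H,
      ∀ α β, f ((toC C).x α β) = ⟪η, slice (toW W).V α β ξ⟫_ℂ} := by
    ext f
    exact isVec_iff C f
  rw [QG.L1, L1, h]

theorem goodSemigroup_iff (C : QG.UniversalAlgebra W A) (μ : NNReal → (A →L[ℂ] ℂ)) :
    QG.GoodSemigroup C μ ↔ GoodSemigroup (toC C) μ := by
  unfold QG.GoodSemigroup
  rw [l1_eq]
  rfl

theorem main [TopologicalSpace.SeparableSpace H] (C : QG.UniversalAlgebra W A) :
    (QG.Amenable W ∧ ¬ QG.DualPropertyT W) ↔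
      ∃ μ : NNReal → (A →L[ℂ] ℂ), QG.GoodSemigroup C μ := by
  rw [amenable_iff, dualPropertyT_iff, QG753.main (toC C)]
  exact exists_congr fun μ => (goodSemigroup_iff C μ).symm

end structs

end QG753T
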