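import Pool.Agent.Lib.QG753.LinfBasic
import Pool.Agent.Lib.QG753.GNS
import Pool.Agent.Lib.QG753.Join

/-!
# MP_753acd_an: von Neumann's bicommutant theorem

PROOFS. `tendsto_amp`: `opT (reduce C e) 1 Z → Z` along the approximate unit: clear for elementary
tensors, then by density, `‖opT (reduce C e) 1‖ ≤ 1` eventually.

`vn_approx`: let `N` be the closure of the subspace `{opT (reduce C b) 1 Z : b ∈ A}` and `P` the
orthogonal projection on `N`. `N` is invariant under all `opT (reduce C c) 1`, also for `star c`, so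
`P` commutes with them, hence with `opT y 1` (`amp_comm`). `Z ∈ N` by `tendsto_amp`, so
`opT y 1 Z = P (opT y 1 Z) ∈ N`.

`vn_approx_sa`: let `N` be the closure of the real subspace `{opT (reduce C b) 1 Z : b* = b}`. If
`v = opT y 1 Z ∉ N`, there is a vector `w` (real Hahn-Banach, or the projection on the real
orthogonal complement) with `Re ⟪w, n⟫ = 0` for `n ∈ N` and `Re ⟪w, v⟫ ≠ 0`. By `exists_join` for
`Z`, `w` and `vn_approx` there are `b n ∈ A` with `opT (reduce C (b n)) 1 Z → opT y 1 Z` and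
`opT (reduce C (b n)) 1 w → opT y 1 w`. With `c n = (b n + star (b n))/2`,
`0 = Re ⟪w, opT (reduce C (c n)) 1 Z⟫ =
 (1/2) Re (⟪w, opT (reduce C (b n)) 1 Z⟫ + ⟪opT (reduce C (b n)) 1 w, Z⟫) →
 (1/2) Re (⟪w, opT y 1 Z⟫ + ⟪opT y 1 w, Z⟫) = Re ⟪w, v⟫`, a contradiction.
-/

open scoped TensorProduct ComplexOrder InnerProductSpace
open ContinuousLinearMap Filter Topology

noncomputable section

namespace QG753

variable {H : Type} [NormedAddCommGroup H] [InnerProductSpace ℂ H] [CompleteSpace H]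
  {W : MultUnitary H} {A : Type} [NonUnitalCStarAlgebra A]
  {K : Type} [NormedAddCommGroup K] [InnerProductSpace ℂ K] [CompleteSpace K]

omit [CompleteSpace K] in
private theorem norm_one_clm_le : ‖(1 : K →L[ℂ] K)‖ ≤ 1 := ContinuousLinearMap.norm_id_le

omit [CompleteSpace H] [CompleteSpace K] in
private theorem norm_amp_le (S : H →L[ℂ] H) : ‖opT S (1 : K →L[ℂ] K)‖ ≤ ‖S‖ :=
  (norm_opT_le _ _).trans (mul_le_of_le_one_right (norm_nonneg _) norm_one_clm_le)

private theorem norm_reduce_le (C : UniversalAlgebra W A) (a : A) : ‖reduce C a‖ ≤ ‖a‖ :=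
  NonUnitalStarAlgHom.norm_apply_le _ a

omit [CompleteSpace K] in
private theorem tendsto_amp (C : UniversalAlgebra W A) {l : Filter A}
    (h1 : ∀ᶠ e in l, ‖e‖ ≤ 1) (h2 : ∀ k : H, Tendsto (fun e => reduce C e k) l (𝓝 k))
    (Z : HT H K) : Tendsto (fun e => opT (reduce C e) (1 : K →L[ℂ] K) Z) l (𝓝 Z) := by
  -- the set of good vectors
  have hspan : ∀ z ∈ Submodule.span ℂ (Set.range fun p : H × K => tp p.1 p.2),
      Tendsto (fun e => opT (reduce C e) (1 : K →L[ℂ] K) z) l (𝓝 z) := by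
    intro z hz
    induction hz using Submodule.span_induction with
    | mem x hx =>
      obtain ⟨p, rfl⟩ := hx
      have h3 : Tendsto (fun e : A => tpL H p.2 (reduce C e p.1)) l (𝓝 (tpL H p.2 p.1)) :=
        ((tpL H p.2).continuous.tendsto p.1).comp (h2 p.1)
      have h4 : (fun e : A => opT (reduce C e) (1 : K →L[ℂ] K) (tp p.1 p.2)) =
          fun e : A => tpL H p.2 (reduce C e p.1) := by
        funext e
        rw [opT_tp]; rfl
      show Tendsto (fun e : A => opT (reduce C e) (1 : K →L[ℂ] K) (tp p.1 p.2)) l (𝓝 (tp p.1 p.2))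
      rw [h4]
      exact h3
    | zero =>
      have h0 : (fun e : A => opT (reduce C e) (1 : K →L[ℂ] K) (0 : HT H K)) = fun _ => 0 := by
        funext e; exact map_zero _
      rw [h0]; exact tendsto_const_nhds
    | add x y _ _ hx hy =>
      have h0 : (fun e : A => opT (reduce C e) (1 : K →L[ℂ] K) (x + y)) =
          fun e => opT (reduce C e) (1 : K →L[ℂ] K) x + opT (reduce C e) (1 : K →L[ℂ] K) y := by
        funext e; exact map_add _ _ _
      rw [h0]; exact hx.add hy
    | smul c x _ hx =>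
      have h0 : (fun e : A => opT (reduce C e) (1 : K →L[ℂ] K) (c • x)) =
          fun e => c • opT (reduce C e) (1 : K →L[ℂ] K) x := by
        funext e; exact map_smul _ _ _
      rw [h0]; exact hx.const_smul c
  rw [Metric.tendsto_nhds]
  intro ε hε
  obtain ⟨z, hz, hz1⟩ := Metric.mem_closure_iff.1 (span_tp_dense (H := H) (K := K) Z) (ε / 3)
    (by positivity)
  filter_upwards [h1, (Metric.tendsto_nhds.1 (hspan z hz)) (ε / 3) (by positivity)] with e he he2
  rw [dist_eq_norm] at hz1 he2 ⊢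
  have h4 : ‖opT (reduce C e) (1 : K →L[ℂ] K) (Z - z)‖ ≤ ‖Z - z‖ := by
    refine (ContinuousLinearMap.le_opNorm _ _).trans ?_
    exact mul_le_of_le_one_left (norm_nonneg _)
      ((norm_amp_le _).trans ((norm_reduce_le C e).trans he))
  calc ‖opT (reduce C e) (1 : K →L[ℂ] K) Z - Z‖
      = ‖opT (reduce C e) (1 : K →L[ℂ] K) (Z - z) + (opT (reduce C e) (1 : K →L[ℂ] K) z - z)
          - (Z - z)‖ := by rw [map_sub]; congr 1; abel
    _ ≤ ‖opT (reduce C e) (1 : K →L[ℂ] K) (Z - z)‖ + ‖opT (reduce C e) (1 : K →L[ℂ] K) z - z‖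
          + ‖Z - z‖ := by
        refine (norm_sub_le _ _).trans ?_
        gcongr
        exact norm_add_le _ _
    _ < ε := by linarith

theorem vn_approx (C : UniversalAlgebra W A) {y : H →L[ℂ] H} (hy : y ∈ Linf W) (Z : HT H K)
    {ε : ℝ} (hε : 0 < ε) : ∃ b : A,
      ‖opT (reduce C b) (1 : K →L[ℂ] K) Z - opT y (1 : K →L[ℂ] K) Z‖ < ε := by
  obtain ⟨l, hl, h1, -, h3⟩ := exists_approx A
  have hZ := tendsto_amp C h1 (h3 H (reduce C) (nondeg_reduce C)) Z
  let L : A →ₗ[ℂ] HT H K :=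
    { toFun := fun a => opT (reduce C a) (1 : K →L[ℂ] K) Z
      map_add' := fun a b => by rw [map_add, opT_add_left]; rfl
      map_smul' := fun c a => by rw [map_smul, opT_smul_left]; rfl }
  let N : Submodule ℂ (HT H K) := (LinearMap.range L).topologicalClosure
  have hNc : IsClosed (N : Set (HT H K)) := Submodule.isClosed_topologicalClosure _
  have : CompleteSpace N := hNc.completeSpace_coe
  have hL : ∀ a, L a ∈ N := fun a => Submodule.le_topologicalClosure _ ⟨a, rfl⟩
  have hinv : ∀ (c : A), ∀ z ∈ N, opT (reduce C c) (1 : K →L[ℂ] K) z ∈ N := by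
    intro c z hz
    have h5 : Set.MapsTo (opT (reduce C c) (1 : K →L[ℂ] K)) (LinearMap.range L : Set (HT H K))
        (LinearMap.range L : Set (HT H K)) := by
      rintro _ ⟨a, rfl⟩
      refine ⟨c * a, ?_⟩
      show opT (reduce C (c * a)) (1 : K →L[ℂ] K) Z =
        opT (reduce C c) (1 : K →L[ℂ] K) (opT (reduce C a) (1 : K →L[ℂ] K) Z)
      rw [map_mul, ← ContinuousLinearMap.comp_apply, opT_comp]; rfl
    exact h5.closure (opT (reduce C c) (1 : K →L[ℂ] K)).continuous hz
  have hZN : Z ∈ N := mem_closure_of_tendsto hZ (Filter.Eventually.of_forall fun a => ⟨a, rfl⟩)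
  have hP : ∀ a, N.starProjection * opT (reduce C a) 1 = opT (reduce C a) 1 * N.starProjection := by
    intro a
    apply ContinuousLinearMap.ext
    intro x
    show N.starProjection (opT (reduce C a) 1 x) = opT (reduce C a) 1 (N.starProjection x)
    refine Submodule.eq_starProjection_of_mem_of_inner_eq_zero
      (hinv a _ (Submodule.starProjection_apply_mem N x)) ?_
    intro w hw
    rw [← map_sub, ← ContinuousLinearMap.adjoint_inner_right, ← ContinuousLinearMap.star_eq_adjoint,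
      star_opT, star_one, ← map_star]
    exact Submodule.starProjection_inner_eq_zero _ _ (hinv _ _ hw)
  have h6 := amp_comm C hy N.starProjection hP
  have h7 : opT y (1 : K →L[ℂ] K) Z ∈ N := by
    have h8 : N.starProjection (opT y (1 : K →L[ℂ] K) Z) = opT y (1 : K →L[ℂ] K) Z := by
      have h9 := congrArg (fun T : HT H K →L[ℂ] HT H K => T Z) h6
      have h10 : N.starProjection Z = Z := Submodule.starProjection_eq_self_iff.2 hZN
      have h11 : N.starProjection (opT y (1 : K →L[ℂ] K) Z) =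
        opT y (1 : K →L[ℂ] K) (N.starProjection Z) := h9
      rw [h11, h10]
    exact Submodule.starProjection_eq_self_iff.1 h8
  obtain ⟨_, ⟨b, rfl⟩, hb⟩ := Metric.mem_closure_iff.1 h7 ε hε
  refine ⟨b, ?_⟩
  rw [dist_comm, dist_eq_norm] at hb
  exact hb

theorem vn_approx_sa (C : UniversalAlgebra W A) {y : H →L[ℂ] H} (hy : y ∈ Linf W)
    (hs : IsSelfAdjoint y) (Z : HT H K) {ε : ℝ} (hε : 0 < ε) :
    ∃ b : A, IsSelfAdjoint b ∧
      ‖opT (reduce C b) (1 : K →L[ℂ] K) Z - opT y (1 : K →L[ℂ] K) Z‖ < ε := by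
  -- the real subspace
  let R : Submodule ℝ (HT H K) :=
    { carrier := {z | ∃ b : A, IsSelfAdjoint b ∧ opT (reduce C b) (1 : K →L[ℂ] K) Z = z}
      zero_mem' := ⟨0, IsSelfAdjoint.zero A, by
        rw [map_zero]
        have : opT (0 : H →L[ℂ] H) (1 : K →L[ℂ] K) = 0 := by
          have := opT_smul_left (0 : ℂ) (0 : H →L[ℂ] H) (1 : K →L[ℂ] K)
          simpa using this
        rw [this]; rfl⟩
      add_mem' := by
        rintro _ _ ⟨a, ha, rfl⟩ ⟨b, hb, rfl⟩
        exact ⟨a + b, ha.add hb, by rw [map_add, opT_add_left]; rfl⟩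
      smul_mem' := by
        rintro c _ ⟨a, ha, rfl⟩
        refine ⟨(c : ℂ) • a, ?_, ?_⟩
        · rw [isSelfAdjoint_iff, star_smul, ha.star_eq]; simp
        · rw [map_smul, opT_smul_left]; rfl }
  by_cases hv : opT y (1 : K →L[ℂ] K) Z ∈ closure (R : Set (HT H K))
  · obtain ⟨_, ⟨b, hb, rfl⟩, hb2⟩ := Metric.mem_closure_iff.1 hv ε hε
    refine ⟨b, hb, ?_⟩
    rw [dist_comm, dist_eq_norm] at hb2
    exact hb2
  exfalso
  have hconv : Convex ℝ (closure (R : Set (HT H K))) := R.convex.closure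
  obtain ⟨f, u, hf1, hf2⟩ := RCLike.geometric_hahn_banach_closed_point (𝕜 := ℂ) hconv
    isClosed_closure hv
  have hu : 0 < u := by
    have := hf1 0 (subset_closure R.zero_mem)
    simpa using this
  have hf3 : ∀ r ∈ R, (f r).re = 0 := by
    intro r hr
    by_contra hne
    have h1 : (f ((((u + 1) / (f r).re : ℝ) : ℂ) • r)).re < u :=
      hf1 _ (subset_closure (R.smul_mem ((u + 1) / (f r).re) hr))
    rw [map_smul, smul_eq_mul, Complex.re_ofReal_mul] at h1
    rw [div_mul_cancel₀ _ hne] at h1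
    linarith
  let w : HT H K := (InnerProductSpace.toDual ℂ (HT H K)).symm f
  have hw : ∀ x, ⟪w, x⟫_ℂ = f x := fun x => InnerProductSpace.toDual_symm_apply
  set v := opT y (1 : K →L[ℂ] K) Z with hvdef
  have hv0 : 0 < (⟪w, v⟫_ℂ).re := by rw [hw]; exact hu.trans hf2
  obtain ⟨K'', i1, i2, i3, Z'', P, P', hP, hP', hPZ, hPw, hPc, hPc'⟩ := exists_join Z w
  have hkey : ∀ δ : ℝ, 0 < δ → (⟪w, v⟫_ℂ).re ≤ δ * (‖w‖ + ‖Z‖) := by
    intro δ hδ
    obtain ⟨b, hb⟩ := vn_approx (K := K'') C hy Z'' hδ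
    have hb1 : ‖opT (reduce C b) (1 : K →L[ℂ] K) Z - v‖ ≤ δ := by
      have e1 : opT (reduce C b) (1 : K →L[ℂ] K) Z - v =
          P (opT (reduce C b) (1 : K'' →L[ℂ] K'') Z'' - opT y (1 : K'' →L[ℂ] K'') Z'') := by
        rw [map_sub, ← ContinuousLinearMap.comp_apply, ← ContinuousLinearMap.comp_apply, hPc, hPc,
          ContinuousLinearMap.comp_apply, ContinuousLinearMap.comp_apply, hPZ]
      rw [e1]
      exact (P.le_opNorm _).trans ((mul_le_of_le_one_left (norm_nonneg _) hP).trans hb.le)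
    have hb2 : ‖opT (reduce C b) (1 : K →L[ℂ] K) w - opT y (1 : K →L[ℂ] K) w‖ ≤ δ := by
      have e1 : opT (reduce C b) (1 : K →L[ℂ] K) w - opT y (1 : K →L[ℂ] K) w =
          P' (opT (reduce C b) (1 : K'' →L[ℂ] K'') Z'' - opT y (1 : K'' →L[ℂ] K'') Z'') := by
        rw [map_sub, ← ContinuousLinearMap.comp_apply, ← ContinuousLinearMap.comp_apply, hPc', hPc',
          ContinuousLinearMap.comp_apply, ContinuousLinearMap.comp_apply, hPw]
      rw [e1]
      exact (P'.le_opNorm _).trans ((mul_le_of_le_one_left (norm_nonneg _) hP').trans hb.le)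
    -- `b + star b` is self-adjoint
    have hc : opT (reduce C (b + star b)) (1 : K →L[ℂ] K) Z ∈ R :=
      ⟨b + star b, IsSelfAdjoint.add_star_self b, rfl⟩
    have h0 := hf3 _ hc
    have e2 : opT (reduce C (b + star b)) (1 : K →L[ℂ] K) Z =
        opT (reduce C b) (1 : K →L[ℂ] K) Z + opT (reduce C (star b)) (1 : K →L[ℂ] K) Z := by
      rw [map_add, opT_add_left]; rfl
    rw [e2, ← hw, inner_add_right] at h0
    have e3 : ⟪w, opT (reduce C (star b)) (1 : K →L[ℂ] K) Z⟫_ℂ =
        ⟪opT (reduce C b) (1 : K →L[ℂ] K) w, Z⟫_ℂ := by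
      rw [map_star]
      have : opT (star (reduce C b)) (1 : K →L[ℂ] K) = adjoint (opT (reduce C b) (1 : K →L[ℂ] K)) := by
        rw [← ContinuousLinearMap.star_eq_adjoint, star_opT, star_one]
      rw [this, ContinuousLinearMap.adjoint_inner_right]
    have e4 : ⟪opT y (1 : K →L[ℂ] K) w, Z⟫_ℂ = ⟪w, v⟫_ℂ := by
      rw [← ContinuousLinearMap.adjoint_inner_right, ← ContinuousLinearMap.star_eq_adjoint,
        star_opT, star_one, hs.star_eq]
    rw [e3, Complex.add_re] at h0
    have h5 : |(⟪w, opT (reduce C b) (1 : K →L[ℂ] K) Z - v⟫_ℂ).re| ≤ ‖w‖ * δ :=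
      (Complex.abs_re_le_norm _).trans ((norm_inner_le_norm _ _).trans
        (mul_le_mul_of_nonneg_left hb1 (norm_nonneg _)))
    have h6 : |(⟪opT (reduce C b) (1 : K →L[ℂ] K) w - opT y (1 : K →L[ℂ] K) w, Z⟫_ℂ).re|
        ≤ δ * ‖Z‖ :=
      (Complex.abs_re_le_norm _).trans ((norm_inner_le_norm _ _).trans
        (mul_le_mul_of_nonneg_right hb2 (norm_nonneg _)))
    rw [inner_sub_right, Complex.sub_re] at h5
    rw [inner_sub_left, e4, Complex.sub_re] at h6
    have h7 := abs_le.1 h5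
    have h8 := abs_le.1 h6
    nlinarith [norm_nonneg w, norm_nonneg Z, hv0]
  have hpos : 0 < ‖w‖ + ‖Z‖ + 1 := by positivity
  have h9 := hkey ((⟪w, v⟫_ℂ).re / (2 * (‖w‖ + ‖Z‖ + 1))) (by positivity)
  have h10 : (⟪w, v⟫_ℂ).re / (2 * (‖w‖ + ‖Z‖ + 1)) * (‖w‖ + ‖Z‖) ≤ (⟪w, v⟫_ℂ).re / 2 := by
    rw [div_mul_eq_mul_div, div_le_div_iff₀ (by positivity) (by positivity)]
    nlinarith [norm_nonneg w, norm_nonneg Z, hv0]
  linarith

end QG753
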